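import Pool.Agent.Helper25.EV.FT.TreeB
import Pool.Agent.Helper25.EV.ProcLem
import Pool.Agent.Helper81.LL.Num
import Pool.Agent.Helper88.RT.A

/-!
# Conditions: definitions for the chapter FT
-/

set_option autoImplicit false

namespace Pool.Agent.Helper25.EV

open Ordinal

/-- conditions: (birth, index, string) -/
abbrev Cnd : Type 1 := Ordinal.{0} × ℕ × List Bool

/-- the whole history without input (all stages) -/
noncomputable def GG (P : LPr) : Hs Ordinal.{0} where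
  D := fun _ => True
  lt := fun γ δ => γ < δ
  lab := labD P
  num := numD P

/-- `c` is a condition -/
def cond (P : LPr) (c : Cnd) : Prop := ∃ τ, (GG P).phi c [] τ

/-- the embedding of a condition, as a function -/
noncomputable def fc (P : LPr) (c : Cnd) (σ : List Bool) : List Bool :=
  Classical.epsilon fun τ => (GG P).phi c σ τ

/-- the embedding of `c` is a normalised embedding -/
def Emb (P : LPr) (c : Cnd) : Prop := EmbF (fc P c) ∧ ∀ σ τ, (GG P).phi c σ τ ↔ τ = fc P c σ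

/-- the closed set of a condition -/
def Br (P : LPr) (c : Cnd) : Set Real2 := br (fc P c)

/-- restriction of a condition -/
def rs (c : Cnd) (σ : List Bool) : Cnd := (c.1, c.2.1, c.2.2 ++ σ)

/-- `η` is dead for `y` below `β` -/
def dY (P : LPr) (y : Real2) (η β : Ordinal.{0}) : Prop :=
  ∃ n ∈ Zc (FY P y) η, ∃ α, η ≤ α ∧ α < β ∧ n ∈ FY P y α

/-- `η` is killed exactly at `η` -/
def kY (P : LPr) (y : Real2) (η : Ordinal.{0}) : Prop := ∃ n ∈ Zc (FY P y) η, n ∈ FY P y η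

/-- the reading tables of `c` are correct -/
structure Rdg (P : LPr) (c : Cnd) : Prop where
  mon : ∀ t, t = 3 ∨ t = 4 → ∀ α n σ σ' i, (GG P).rd t c α n σ i → σ <+: σ' →
    (GG P).rd t c α n σ' i
  tot3 : ∀ α < c.1, ∀ n, ∀ y ∈ Br P c, ∃ σ i, y ∈ Br P (rs c σ) ∧ (GG P).rd 3 c α n σ i
  cor3 : ∀ α < c.1, ∀ n σ i, (GG P).rd 3 c α n σ i → ∀ y ∈ Br P (rs c σ),
    (n ∈ FY P y α ↔ i = true)
  tot4 : ∀ α < c.1, Order.IsSuccLimit α → ∀ n, ∀ y ∈ Br P c,
    ∃ σ i, y ∈ Br P (rs c σ) ∧ (GG P).rd 4 c α n σ i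
  cor4 : ∀ α < c.1, Order.IsSuccLimit α → ∀ n σ i, (GG P).rd 4 c α n σ i → ∀ y ∈ Br P (rs c σ),
    (n ∈ Zc (FY P y) α ↔ i = true)

/-- `c` is in order -/
def OKc (P : LPr) (c : Cnd) : Prop := Emb P c ∧ Rdg P c

/-- the stage `β` is in order -/
def Good (P : LPr) (β : Ordinal.{0}) : Prop :=
  (∀ c : Cnd, c.1 = β → cond P c → OKc P c) ∧
  (Order.IsSuccLimit β → ∀ σ, ∃ c, (HD P β).fus σ c)

/-- all stages below `β` are before the end of the first loop and in order -/
def GB (P : LPr) (β : Ordinal.{0}) : Prop := ∀ γ < β, Pre (FD P) γ ∧ Good P γ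

end Pool.Agent.Helper25.EV

/-!
# Bridges between the operators over `HD P β` and ordinals
-/

set_option autoImplicit false

namespace Pool.Agent.Helper25.EV

open Ordinal

section
variable (P : LPr)

theorem res_HD {a β : Ordinal.{0}} (h : a ≤ β) : (HD P β).res a = HD P a := by
  unfold Hs.res HD
  congr 1
  funext b
  exact propext ⟨fun h' => h'.2, fun h' => ⟨lt_of_lt_of_le h' h, h'⟩⟩

theorem le_HD (β a b : Ordinal.{0}) : (HD P β).le a b ↔ a ≤ b := by
  unfold Hs.le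
  exact le_iff_lt_or_eq.symm

theorem isMin_HD (β a : Ordinal.{0}) : (HD P β).isMin a ↔ a = 0 ∧ 0 < β := by
  constructor
  · rintro ⟨h1, h2⟩
    have h3 : a = 0 := by
      by_contra hne
      have h4 : (0 : Ordinal.{0}) < a := lt_of_le_of_ne (by simp) (Ne.symm hne)
      exact h2 0 (lt_trans h4 h1) h4
    subst h3
    exact ⟨rfl, h1⟩
  · rintro ⟨rfl, h⟩
    exact ⟨h, fun b _ hb => absurd hb (by simp [HD])⟩

theorem isMax_HD (β m : Ordinal.{0}) : (HD P β).isMax m ↔ β = m + 1 := by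
  constructor
  · rintro ⟨h1, h2⟩
    apply le_antisymm
    · by_contra h
      exact h2 (m + 1) (not_le.mp h) (Order.lt_add_one_iff.mpr le_rfl)
    · exact Order.add_one_le_of_lt h1
  · rintro rfl
    exact ⟨Order.lt_add_one_iff.mpr le_rfl, fun b hb hb' => absurd (Order.lt_add_one_iff.mp hb)
      (not_le.mpr hb')⟩

theorem isLim_HD (β : Ordinal.{0}) : (HD P β).isLim ↔ Order.IsSuccLimit β := by
  constructor
  · rintro ⟨⟨a, ha⟩, h⟩
    rw [Order.isSuccLimit_iff]
    constructor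
    · intro h0
      have := isMin_iff_eq_bot.mp h0
      subst this
      exact absurd ha (by simp [HD])
    · intro m hm
      apply h m
      rw [isMax_HD]
      have := hm.succ_eq
      rw [← this]
      rfl
  · intro h
    refine ⟨⟨0, h.bot_lt⟩, fun a ha => ?_⟩
    rw [isMax_HD] at ha
    have h1 := h.succ_lt (show a < β by rw [ha]; exact Order.lt_add_one_iff.mpr le_rfl)
    rw [ha] at h1
    exact absurd h1 (lt_irrefl _)

theorem limAt_HD (β a : Ordinal.{0}) : (HD P β).limAt a ↔ a < β ∧ Order.IsSuccLimit a := by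
  constructor
  · rintro ⟨h1, h2⟩
    rw [res_HD P (le_of_lt h1), isLim_HD] at h2
    exact ⟨h1, h2⟩
  · rintro ⟨h1, h2⟩
    refine ⟨h1, ?_⟩
    rw [res_HD P (le_of_lt h1), isLim_HD]
    exact h2

theorem sc_HD (β a b : Ordinal.{0}) : (HD P β).sc a b ↔ b = a + 1 ∧ b < β := by
  constructor
  · rintro ⟨h1, h2, h3, h4⟩
    refine ⟨le_antisymm ?_ (Order.add_one_le_of_lt h3), h2⟩
    by_contra h
    have h5 : a + 1 < b := not_le.mp h
    exact h4 (a + 1) (lt_trans h5 h2) (Order.lt_add_one_iff.mpr le_rfl) h5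
  · rintro ⟨rfl, h⟩
    refine ⟨lt_trans (Order.lt_add_one_iff.mpr le_rfl) h, h, Order.lt_add_one_iff.mpr le_rfl, ?_⟩
    intro c _ hc hc'
    exact absurd (Order.lt_add_one_iff.mp hc') (not_le.mpr hc)

theorem silF_HD (β γ a : Ordinal.{0}) (d : ℕ) :
    (HD P β).silF (HD P γ).frD d a ↔ Silent (FD P) d a β := by
  constructor
  · intro h α h1 h2 h3
    exact h α h2 ((le_HD P β a α).mpr h1) h3
  · intro h α h1 h2 h3
    exact h α ((le_HD P β a α).mp h2) h1 h3

theorem sil_HD (β γ : Ordinal.{0}) (d : ℕ) :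
    (HD P β).sil (HD P γ).frD d ↔ d ∈ Zc (FD P) β := by
  constructor
  · rintro ⟨a, h1, h2⟩
    exact ⟨a, h1, (silF_HD P β γ a d).mp h2⟩
  · rintro ⟨a, h1, h2⟩
    exact ⟨a, h1, (silF_HD P β γ a d).mpr h2⟩

theorem isC_HD (β : Ordinal.{0}) (c : Cnd) : (HD P β).isC c ↔ c.1 < β ∧ cond P c := Iff.rfl

theorem rd_HD {β : Ordinal.{0}} {c : Cnd} (h : c.1 ≤ β) (t : ℕ) (α : Ordinal.{0}) (n : ℕ)
    (σ : List Bool) (i : Bool) : (HD P β).rd t c α n σ i ↔ (GG P).rd t c α n σ i := by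
  constructor
  · rintro ⟨_, h2, h3⟩
    exact ⟨trivial, h2, h3⟩
  · rintro ⟨_, h2, h3⟩
    exact ⟨lt_of_lt_of_le h2 h, h2, h3⟩

theorem Frc_HD {β : Ordinal.{0}} {c : Cnd} (h : c.1 ≤ β) (t : ℕ) (α : Ordinal.{0}) (n : ℕ) :
    (HD P β).Frc t c α n ↔ (GG P).Frc t c α n := by
  constructor
  · rintro ⟨_, h2, h3⟩
    exact ⟨trivial, h2, fun σ hσ => h3 σ ((rd_HD P h _ _ _ _ _).mpr hσ)⟩
  · rintro ⟨_, h2, h3⟩
    exact ⟨lt_of_lt_of_le h2 h, h2, fun σ hσ => h3 σ ((rd_HD P h _ _ _ _ _).mp hσ)⟩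

theorem Hit_HD {β : Ordinal.{0}} {c : Cnd} (h : c.1 ≤ β) (b : Ordinal.{0}) (n : ℕ) :
    (HD P β).Hit b n c ↔ (GG P).Hit b n c := by
  constructor
  · rintro ⟨α, _, h2, h3, h4⟩
    exact ⟨α, trivial, h2, h3, (Frc_HD P h _ _ _).mp h4⟩
  · rintro ⟨α, _, h2, h3, h4⟩
    exact ⟨α, lt_of_lt_of_le h3 h, h2, h3, (Frc_HD P h _ _ _).mpr h4⟩

theorem Dead_HD {β : Ordinal.{0}} {c : Cnd} (h : c.1 ≤ β) (η : Ordinal.{0}) :
    (HD P β).Dead c η ↔ (GG P).Dead c η := by
  constructor
  · rintro ⟨k, hk⟩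
    refine ⟨k, fun σ hσ => ?_⟩
    obtain ⟨n, α, _, h2, h3, h4, h5⟩ := hk σ hσ
    exact ⟨n, α, trivial, h2, h3, (rd_HD P h _ _ _ _ _).mp h4, (rd_HD P h _ _ _ _ _).mp h5⟩
  · rintro ⟨k, hk⟩
    refine ⟨k, fun σ hσ => ?_⟩
    obtain ⟨n, α, _, h2, h3, h4, h5⟩ := hk σ hσ
    exact ⟨n, α, lt_of_lt_of_le h3 h, h2, h3, (rd_HD P h _ _ _ _ _).mpr h4,
      (rd_HD P h _ _ _ _ _).mpr h5⟩

theorem evt_HD (β η δ : Ordinal.{0}) (c : Cnd) :
    (HD P β).evt η δ c ↔ δ < β ∧ (GG P).evt η δ c := by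
  constructor
  · rintro ⟨h1, h2⟩
    exact ⟨h1, trivial, h2⟩
  · rintro ⟨h1, _, h2⟩
    exact ⟨h1, h2⟩

theorem Q_HD (β : Ordinal.{0}) (c : Cnd) : (HD P β).Q c ↔ (c.1 < β ∧ cond P c) ∧
    ∀ η δ c', δ < β → (GG P).evt η δ c' → η ≤ c.1 → c.1 ≤ δ →
      (GG P).Dead c η ∨ (GG P).Le c c' := by
  constructor
  · rintro ⟨h1, h2⟩
    refine ⟨h1, fun η δ c' h3 h4 h5 h6 => ?_⟩
    rcases h2 η δ c' ((evt_HD P β η δ c').mpr ⟨h3, h4⟩) ((le_HD P β _ _).mpr h5)
      ((le_HD P β _ _).mpr h6) with h | h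
    · exact Or.inl ((Dead_HD P (le_of_lt h1.1) η).mp h)
    · exact Or.inr h
  · rintro ⟨h1, h2⟩
    refine ⟨h1, fun η δ c' h4 h5 h6 => ?_⟩
    obtain ⟨h3, h4⟩ := (evt_HD P β η δ c').mp h4
    rcases h2 η δ c' h3 h4 ((le_HD P β _ _).mp h5) ((le_HD P β _ _).mp h6) with h | h
    · exact Or.inl ((Dead_HD P (le_of_lt h1.1) η).mpr h)
    · exact Or.inr h

/-- a valid condition is valid earlier -/
theorem Q_anti {β β' : Ordinal.{0}} {c : Cnd} (h : (HD P β).Q c) (h1 : c.1 < β') (h2 : β' ≤ β) :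
    (HD P β').Q c := by
  rw [Q_HD] at h ⊢
  exact ⟨⟨h1, h.1.2⟩, fun η δ c' h3 h4 h5 h6 => h.2 η δ c' (lt_of_lt_of_le h3 h2) h4 h5 h6⟩

theorem T0_HD (β : Ordinal.{0}) (c : Cnd) (n : ℕ) : (HD P β).T0 c n ↔
    ∀ c' : Cnd, c'.1 < β → cond P c' → (GG P).Le c' c → ¬ (GG P).Hit c.1 n c' := by
  constructor
  · intro h c' h1 h2 h3 h4
    exact h c' ⟨h1, h2⟩ h3 ((Hit_HD P (le_of_lt h1) _ _).mpr h4)
  · intro h c' h1 h3 h4
    exact h c' h1.1 h1.2 h3 ((Hit_HD P (le_of_lt h1.1) _ _).mp h4)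

theorem T0_anti {β β' : Ordinal.{0}} {c : Cnd} {n : ℕ} (h : (HD P β).T0 c n) (h2 : β' ≤ β) :
    (HD P β').T0 c n := by
  rw [T0_HD] at h ⊢
  exact fun c' h3 => h c' (lt_of_lt_of_le h3 h2)

end

end Pool.Agent.Helper25.EV

/-!
# The first loop

MODULE N1, from the theory of firing processes in Helper88/RT/A.lean.
-/

set_option autoImplicit false

namespace Pool.Agent.Helper25.EV

open Ordinal Encodable

/-- every firing process has a loop -/
theorem exists_loop (F : Ordinal.{0} → Set ℕ) : ∃ η δ, Loop F η δ := by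
  obtain ⟨η, δ, h, _⟩ := Pool.Agent.Helper88.RT.exists_loop F
  exact ⟨η, δ, h⟩

/-- the first loop -/
theorem first_loop (F : Ordinal.{0} → Set ℕ) :
    ∃ ζ Ξ, Loop F ζ Ξ ∧ (∀ η δ, Loop F η δ → Ξ ≤ δ) ∧ ∀ η, Loop F η Ξ → η = ζ := by
  obtain ⟨ζ, σ, h, _⟩ := Pool.Agent.Helper88.RT.exists_first F
  exact ⟨ζ, σ, h.loop, h.least, fun η hη => (h.unique hη).symm⟩

theorem Pre_mono {F : Ordinal.{0} → Set ℕ} {β β' : Ordinal.{0}} (h : Pre F β) (h' : β' ≤ β) :
    Pre F β' := fun η δ hl => lt_of_le_of_lt h' (h η δ hl)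

end Pool.Agent.Helper25.EV

/-!
# The cuts

MODULE N2.  The cuts of the history agree with the cuts of Helper88/RT/A.lean (`N2_cut_iff`).
-/

set_option autoImplicit false

namespace Pool.Agent.Helper25.EV

open Ordinal Encodable

section
variable (P : LPr)

theorem clock (β : Ordinal.{0}) : 0 ∈ FD P β := by
  rw [mem_FD]
  exact Or.inl rfl

theorem N2_step {β : Ordinal.{0}} (g : Bool) (c : ℕ) (w x : Ordinal.{0}) :
    (HD P β).cutStep (HD P β).frD g c w x ↔
      (Pool.Agent.Helper88.RT.cutS (FD P) g c w β = x ∧ x < β) := by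
  cases g with
  | true =>
    obtain ⟨h1, h2, h3⟩ := Pool.Agent.Helper88.RT.cutS_true (FD P) c w β
    constructor
    · rintro ⟨hx, h | h⟩
      · obtain ⟨_, h4, h5, h6⟩ := h
        rw [le_HD] at h4
        rw [silF_HD] at h5
        have h7 := h3 x h4 h5
        have h8 : Pool.Agent.Helper88.RT.cutS (FD P) true c w β < β := lt_of_le_of_lt h7 hx
        have h9 := h6 _ h8 ((le_HD P β _ _).mpr h1) ((silF_HD P β β _ c).mpr h2)
        rw [le_HD] at h9
        exact ⟨le_antisymm h7 h9, hx⟩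
      · exact absurd h.1 (by simp)
    · rintro ⟨rfl, hx⟩
      refine ⟨hx, Or.inl ⟨rfl, (le_HD P β _ _).mpr h1, (silF_HD P β β _ c).mpr h2, ?_⟩⟩
      intro x' _ h5 h6
      rw [le_HD] at h5 ⊢
      rw [silF_HD] at h6
      exact h3 x' h5 h6
  | false =>
    by_cases hex : ∃ α, w ≤ α ∧ α < β ∧ c ∈ FD P α
    · obtain ⟨α, h1, h2, h3, h4, h5⟩ := Pool.Agent.Helper88.RT.cutS_false_pos (FD P) c w β hex
      rw [h1]
      constructor
      · rintro ⟨hx, h | h⟩
        · exact absurd h.1 (by simp)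
        · obtain ⟨_, f, h6, h7, h8, h9, h10⟩ := h
          rw [le_HD] at h7
          rw [sc_HD] at h10
          have h11 : α ≤ f := h5 f h7 h6 h8
          have h12 := h9 α h3 ((le_HD P β _ _).mpr h2) h4
          rw [le_HD] at h12
          have h13 : α = f := le_antisymm h11 h12
          refine ⟨?_, hx⟩
          rw [h13, h10.1]
          rfl
      · rintro ⟨rfl, hx⟩
        refine ⟨hx, Or.inr ⟨rfl, α, h3, (le_HD P β _ _).mpr h2, h4, ?_, ?_⟩⟩
        · intro f' h6 h7 h8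
          rw [le_HD] at h7 ⊢
          exact h5 f' h7 h6 h8
        · rw [sc_HD]
          exact ⟨rfl, hx⟩
    · rw [Pool.Agent.Helper88.RT.cutS_false_neg (FD P) c w β hex]
      constructor
      · rintro ⟨hx, h | h⟩
        · exact absurd h.1 (by simp)
        · obtain ⟨_, f, h6, h7, h8, h9, h10⟩ := h
          rw [le_HD] at h7
          exact absurd ⟨f, h7, h6, h8⟩ hex
      · rintro ⟨h, hx⟩
        rw [← h] at hx
        exact absurd (lt_of_le_of_lt (le_max_right w β) hx) (lt_irrefl _)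

/-- the cuts of the history are the cuts of the firing process -/
theorem N2_cut_iff {β : Ordinal.{0}} (τ : List Bool) (j : ℕ) (x : Ordinal.{0}) :
    (HD P β).cut (HD P β).frD τ j x ↔
      (Pool.Agent.Helper88.RT.cut (FD P) (fun c => τ.getD c false) β j = x ∧ x < β) := by
  induction j generalizing x with
  | zero =>
    have h0 : (HD P β).cut (HD P β).frD τ 0 x ↔ (HD P β).isMin x := Iff.rfl
    rw [h0, isMin_HD]
    constructor
    · rintro ⟨rfl, h⟩
      exact ⟨rfl, h⟩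
    · rintro ⟨h, hx⟩
      have h1 : x = 0 := h.symm
      subst h1
      exact ⟨rfl, hx⟩
  | succ j ih =>
    have h0 : (HD P β).cut (HD P β).frD τ (j + 1) x ↔ ∃ w, (HD P β).cut (HD P β).frD τ j w ∧
      (HD P β).cutStep (HD P β).frD (τ.getD (sch j) false) (sch j) w x := Iff.rfl
    rw [h0]
    have h1 : Pool.Agent.Helper88.RT.cut (FD P) (fun c => τ.getD c false) β (j + 1) =
        Pool.Agent.Helper88.RT.cutS (FD P) (τ.getD (sch j) false) (sch j)
          (Pool.Agent.Helper88.RT.cut (FD P) (fun c => τ.getD c false) β j) β := rfl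
    rw [h1]
    constructor
    · rintro ⟨w, hw, hs⟩
      rw [ih] at hw
      rw [N2_step, ← hw.1] at hs
      exact hs
    · intro hs
      refine ⟨Pool.Agent.Helper88.RT.cut (FD P) (fun c => τ.getD c false) β j, ?_, ?_⟩
      · rw [ih]
        refine ⟨rfl, ?_⟩
        have h2 := Pool.Agent.Helper88.RT.le_cutS (FD P) (τ.getD (sch j) false) (sch j)
          (Pool.Agent.Helper88.RT.cut (FD P) (fun c => τ.getD c false) β j) β
        rw [hs.1] at h2
        exact lt_of_le_of_lt h2 hs.2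
      · rw [N2_step]
        exact hs

theorem cut_lt {β : Ordinal.{0}} {τ : List Bool} {j : ℕ} {x : Ordinal.{0}}
    (h : (HD P β).cut (HD P β).frD τ j x) : x < β := by
  rw [N2_cut_iff] at h
  exact h.2

theorem cut_fun {β : Ordinal.{0}} {τ : List Bool} {j : ℕ} {x x' : Ordinal.{0}}
    (h : (HD P β).cut (HD P β).frD τ j x) (h' : (HD P β).cut (HD P β).frD τ j x') : x = x' := by
  rw [N2_cut_iff] at h h'
  exact h.1.symm.trans h'.1

/-- a cut does not change afterwards -/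
theorem cut_stab {β β' : Ordinal.{0}} {τ : List Bool} {j : ℕ} {x : Ordinal.{0}}
    (h : (HD P β).cut (HD P β).frD τ j x) (h1 : x < β') (h2 : β' ≤ β) :
    (HD P β').cut (HD P β').frD τ j x := by
  rw [N2_cut_iff] at h ⊢
  refine ⟨?_, h1⟩
  rw [Pool.Agent.Helper88.RT.cut_stable (FD P) (fun c => τ.getD c false) β β' j
    (by rw [h.1]; exact h1) h2]
  exact h.1

end

end Pool.Agent.Helper25.EV

/-!
# The cuts of the true guess are cofinal

MODULE N3, from Helper88/RT/A.lean (`cut_cofinal`) and `N2_cut_iff`.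
-/

set_option autoImplicit false

namespace Pool.Agent.Helper25.EV

open Ordinal Encodable

section
variable (P : LPr)

theorem N3_getD (g : ℕ → Bool) (j c : ℕ) (hc : c < j) :
    ((List.range j).map g).getD c false = g c := by
  rw [List.getD_eq_getElem _ _ (by simpa using hc)]
  simp

/-- the cuts of the true guess are cofinal -/
theorem cut_cof {β : Ordinal.{0}} (hβ : Order.IsSuccLimit β) (hp : Pre (FD P) β) (a : Ordinal.{0})
    (ha : a < β) : ∃ τ x, (HD P β).tg (HD P β).frD τ ∧ (HD P β).cut (HD P β).frD τ τ.length x ∧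
      a < x := by
  classical
  set g : ℕ → Bool := fun c => decide (c ∈ Zc (FD P) β) with hg
  have hT : Pool.Agent.Helper88.RT.TrueG (FD P) β g := by
    intro c
    rw [hg]
    simp
  obtain ⟨j, hj⟩ := Pool.Agent.Helper88.RT.cut_cofinal hβ hp hT (fun α _ => clock P α) a ha
  refine ⟨(List.range j).map g, Pool.Agent.Helper88.RT.cut (FD P) g β j, ?_, ?_, hj⟩
  · intro c hc
    have hc' : c < j := by simpa using hc
    rw [N3_getD g j c hc', sil_HD]
    exact hT c
  · rw [N2_cut_iff]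
    have hl : ((List.range j).map g).length = j := by simp
    rw [hl]
    refine ⟨?_, Pool.Agent.Helper88.RT.cut_lt hβ hT j⟩
    exact Pool.Agent.Helper88.RT.cut_congr (FD P) _ _ β j (fun c hc => N3_getD g j c hc)

end

end Pool.Agent.Helper25.EV

/-!
# Canonical numbers

MODULE N4.  `numD_eq`: `numD P β a k ↔ (HD P β).nD a k`, see `Hs.nn` in Hist.lean.  Induction on `β`.  Successor: the top stage has the number 0, the others `k' + 1`.  Limit: `τ` is the true guess
of a length `j` which is determined by `a` (the least `j` with `a` below the `j`-th cut, the cuts being weakly increasing, `cut_fun`; the `(j-1)`-st cut exists if the `j`-th one does), and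
`j` is determined by `k = ⟨j, k'⟩`.  `num_ex`: by `cut_cof` there is a `j` (least) with `a` below the `j`-th cut `g`; `Pre` holds for `g < β`.
-/

set_option autoImplicit false

namespace Pool.Agent.Helper25.EV

open Ordinal Encodable

section
variable (P : LPr)

theorem N4_succ (δ a : Ordinal.{0}) (k : ℕ) : numD P (δ + 1) a k ↔
    (a = δ ∧ k = 0) ∨ (a < δ ∧ ∃ k', numD P δ a k' ∧ k = k' + 1) := by
  rw [numD_eq]
  constructor
  · rintro (⟨m, hm, h⟩ | ⟨h, _⟩)
    · rw [Helper81.LL.isMax_succ] at hm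
      rw [hm] at h
      exact h
    · exact absurd ((Helper81.LL.isMax_succ P δ δ).mpr rfl) (h.2 δ)
  · intro h
    exact Or.inl ⟨δ, (Helper81.LL.isMax_succ P δ δ).mpr rfl, h⟩

theorem N4_lim {β : Ordinal.{0}} (hl : Order.IsSuccLimit β) :
    ∃ γ : ℕ → Ordinal.{0}, γ 0 = 0 ∧ Monotone γ ∧ (∀ j, γ j < β) ∧
      ∀ a k, numD P β a k ↔ a < β ∧ ∃ n, a < γ n ∧ γ (n - 1) ≤ a ∧
        ∃ k', numD P (γ n) a k' ∧ k = Nat.pair n k' := by
  obtain ⟨γ, h0, hγ⟩ := Helper81.LL.seq_exists P β hl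
  have hcut := Helper81.LL.cut_iff P β γ h0 fun j => ⟨(hγ j).1, (hγ j).2.2.1⟩
  have hnomax : ∀ m, ¬ (HD P β).isMax m := fun m hm =>
    hm.2 (m + 1) (hl.add_one_lt hm.1) (Order.lt_add_one_iff.mpr le_rfl)
  have hisLim : (HD P β).isLim := ⟨⟨γ 0, (hγ 0).1⟩, hnomax⟩
  refine ⟨γ, h0, monotone_nat_of_le_succ fun j => (hγ j).2.1, fun j => (hγ j).1, ?_⟩
  intro a k
  rw [numD_eq]
  constructor
  · rintro (⟨m, hm, h⟩ | ⟨_, ha, τ, g, h1, h2, h3, h4, k', h5, h6⟩)
    · exact absurd hm (hnomax m)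
    · rw [hcut τ h1 _ le_rfl] at h2
      rw [h2] at h3 h5
      refine ⟨ha, τ.length, h3, ?_, k', h5, h6⟩
      exact not_lt.mp (h4 _ ((hcut τ h1 _ (Nat.sub_le _ _) _).mpr rfl))
  · rintro ⟨ha, n, h1, h2, k', h3, h4⟩
    refine Or.inr ⟨hisLim, ha, Helper81.LL.tl P β n, γ n, Helper81.LL.tg_tl P β n, ?_, h1, ?_, k',
      h3, ?_⟩
    · exact (hcut _ (Helper81.LL.tg_tl P β n) _ le_rfl _).mpr (by rw [Helper81.LL.tl_length])
    · intro g' hg'
      rw [hcut _ (Helper81.LL.tg_tl P β n) _ (Nat.sub_le _ _), Helper81.LL.tl_length] at hg'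
      rw [hg']
      exact not_lt.mpr h2
    · rw [Helper81.LL.tl_length]
      exact h4

/-- below the first loop every earlier stage has exactly one number ... -/
theorem num_ex {β : Ordinal.{0}} (hp : Pre (FD P) β) (a : Ordinal.{0}) (ha : a < β) :
    ∃ k, numD P β a k := (Helper81.LL.numOK P β hp).ex a ha

/-- ... (uniqueness of the number) ... -/
theorem num_fun {β : Ordinal.{0}} {a : Ordinal.{0}} {k k' : ℕ} (h : numD P β a k)
    (h' : numD P β a k') : k = k' := by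
  revert a k k'
  induction β using WellFounded.induction Ordinal.lt_wf with
  | _ β ih =>
    intro a k k' h h'
    rcases Ordinal.zero_or_succ_or_isSuccLimit β with rfl | ⟨δ, rfl⟩ | hl
    · have := numD_lt P _ _ _ h
      simp at this
    · have hδ : δ < δ + 1 := Order.lt_add_one_iff.mpr le_rfl
      rw [Order.succ_eq_add_one, N4_succ] at h h'
      rcases h with ⟨h1, h2⟩ | ⟨h1, k1, h2, h3⟩ <;>
      rcases h' with ⟨h1', h2'⟩ | ⟨h1', k1', h2', h3'⟩
      · omega
      · exact absurd h1' (by rw [h1]; exact lt_irrefl _)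
      · exact absurd h1 (by rw [h1']; exact lt_irrefl _)
      · have := ih δ hδ h2 h2'
        omega
    · obtain ⟨γ, h0, hm, hlt, key⟩ := N4_lim P hl
      rw [key] at h h'
      obtain ⟨_, n, h1, h2, k1, h3, h4⟩ := h
      obtain ⟨_, n', h1', h2', k1', h3', h4'⟩ := h'
      have hn : n = n' := by
        rcases lt_trichotomy n n' with hh | hh | hh
        · exact absurd (lt_of_lt_of_le h1 ((hm (show n ≤ n' - 1 by omega)).trans h2'))
            (lt_irrefl _)
        · exact hh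
        · exact absurd (lt_of_lt_of_le h1' ((hm (show n' ≤ n - 1 by omega)).trans h2))
            (lt_irrefl _)
      subst hn
      rw [h4, h4', ih _ (hlt n) h3 h3']

/-- ... and the numbering is injective -/
theorem num_inj {β : Ordinal.{0}} {a a' : Ordinal.{0}} {k : ℕ} (h : numD P β a k)
    (h' : numD P β a' k) : a = a' := by
  revert a a' k
  induction β using WellFounded.induction Ordinal.lt_wf with
  | _ β ih =>
    intro a a' k h h'
    rcases Ordinal.zero_or_succ_or_isSuccLimit β with rfl | ⟨δ, rfl⟩ | hl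
    · have := numD_lt P _ _ _ h
      simp at this
    · have hδ : δ < δ + 1 := Order.lt_add_one_iff.mpr le_rfl
      rw [Order.succ_eq_add_one, N4_succ] at h h'
      rcases h with ⟨h1, h2⟩ | ⟨h1, k1, h2, h3⟩ <;>
      rcases h' with ⟨h1', h2'⟩ | ⟨h1', k1', h2', h3'⟩
      · rw [h1, h1']
      · omega
      · omega
      · have : k1 = k1' := by omega
        rw [← this] at h2'
        exact ih δ hδ h2 h2'
    · obtain ⟨γ, h0, hm, hlt, key⟩ := N4_lim P hl
      rw [key] at h h'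
      obtain ⟨_, n, h1, h2, k1, h3, h4⟩ := h
      obtain ⟨_, n', h1', h2', k1', h3', h4'⟩ := h'
      rw [h4, Nat.pair_eq_pair] at h4'
      rw [← h4'.1, ← h4'.2] at h3'
      exact ih _ (hlt n) h3 h3'

end

end Pool.Agent.Helper25.EV

/-!
# Names

MODULE N5.  `nm_ex`: take `τ`, `g` from `cut_cof`, `k` the number of `a` in the code of `g` (`num_ex`), and `cut_stab`.  `nm_loop`: let `τ`, `g`, `k` be as in `nm_ex` for `ζ`.  The cut
`g` for `τ` at `ζ` is also the cut for `τ` at all `β'` in `(g, Ξ]`: for `β' ≤ ζ` by `cut_stab`; for `β' > ζ` by induction on `j`: a step with guess `false` does not change (the first firing stage `f`), a step with guess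
`true` and cell `c`: `c ∈ Zc ζ` by `tg`, silent on `[x, ζ)` and by `Loop.sil` on `[ζ, Ξ)`, so on `[x, β')`; and `x` is the least such stage (a smaller one would be silent on `[x', ζ)` too).
-/

set_option autoImplicit false

namespace Pool.Agent.Helper25.EV

open Ordinal Encodable

section
variable (P : LPr)

theorem nm_fun {β : Ordinal.{0}} {τ : List Bool} {k : ℕ} {a a' : Ordinal.{0}}
    (h : (HD P β).nmD τ k a) (h' : (HD P β).nmD τ k a') : a = a' := by
  obtain ⟨g, h1, h2⟩ := h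
  obtain ⟨g', h1', h2'⟩ := h'
  have := cut_fun P h1 h1'
  subst this
  exact num_inj P h2 h2'

/-- stable names -/
theorem nm_ex {β : Ordinal.{0}} (hβ : Order.IsSuccLimit β) (hp : Pre (FD P) β) (a : Ordinal.{0})
    (ha : a < β) : ∃ τ k, ∃ g < β, ∀ β', g < β' → β' ≤ β → (HD P β').nmD τ k a := by
  obtain ⟨τ, x, _, h2, h3⟩ := cut_cof P hβ hp a ha
  have h4 := cut_lt P h2
  obtain ⟨k, hk⟩ := num_ex P (Pre_mono hp (le_of_lt h4)) a h3
  exact ⟨τ, k, x, h4, fun β' h5 h6 => ⟨x, cut_stab P h2 h5 h6, hk⟩⟩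

theorem N5_cut {ζ Ξ : Ordinal.{0}} (hl : Loop (FD P) ζ Ξ) {τ : List Bool}
    (ht : (HD P ζ).tg (HD P ζ).frD τ) {β' : Ordinal.{0}} (h1 : ζ < β') (h2 : β' ≤ Ξ) (j : ℕ)
    (hj : j ≤ τ.length) (x : Ordinal.{0}) (h : (HD P ζ).cut (HD P ζ).frD τ j x) :
    (HD P β').cut (HD P β').frD τ j x := by
  induction j generalizing x with
  | zero =>
    have h3 : (HD P ζ).isMin x := h
    rw [isMin_HD] at h3
    show (HD P β').isMin x
    rw [isMin_HD]
    exact ⟨h3.1, lt_trans h3.2 h1⟩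
  | succ j ih =>
    have hlt : sch j < τ.length := lt_of_le_of_lt (Nat.unpair_left_le j) hj
    obtain ⟨w, hw, hx, hs⟩ := h
    refine ⟨w, ih (Nat.le_of_succ_le hj) w hw, lt_trans hx h1, ?_⟩
    rcases hs with ⟨e, h3, h4, h5⟩ | ⟨e, f, h3, h4, h5, h6, h7⟩
    · left
      rw [le_HD] at h3
      rw [silF_HD] at h4
      have hz : sch j ∈ Zc (FD P) ζ := (sil_HD P ζ ζ _).mp ((ht _ hlt).mp e)
      refine ⟨e, (le_HD P _ _ _).mpr h3, (silF_HD P _ _ _ _).mpr ?_, ?_⟩
      · intro α ha hb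
        rcases lt_or_ge α ζ with hα | hα
        · exact h4 α ha hα
        · exact hl.sil _ hz α hα (lt_of_lt_of_le hb h2)
      · intro x' hx' h6 h7
        rw [le_HD] at h6
        rw [silF_HD] at h7
        rw [le_HD]
        rcases lt_or_ge x' ζ with hα | hα
        · exact (le_HD P _ _ _).mp (h5 x' hα ((le_HD P _ _ _).mpr h6)
            ((silF_HD P _ _ _ _).mpr fun α ha hb => h7 α ha (lt_trans hb h1)))
        · exact le_of_lt (lt_of_lt_of_le hx hα)
    · right
      rw [le_HD] at h4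
      rw [sc_HD] at h7
      refine ⟨e, f, lt_trans h3 h1, (le_HD P _ _ _).mpr h4, h5, ?_,
        (sc_HD P _ _ _).mpr ⟨h7.1, lt_trans h7.2 h1⟩⟩
      intro f' hf' h8 h9
      rw [le_HD] at h8 ⊢
      rcases lt_or_ge f' ζ with hα | hα
      · exact (le_HD P _ _ _).mp (h6 f' hα ((le_HD P _ _ _).mpr h8) h9)
      · exact le_of_lt (lt_of_lt_of_le h3 hα)

/-- names which are stable until the end of the first loop -/
theorem nm_loop {ζ Ξ : Ordinal.{0}} (hl : Loop (FD P) ζ Ξ) (hp : Pre (FD P) ζ) (a : Ordinal.{0})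
    (ha : a < ζ) : ∃ τ k, ∃ g < ζ, ∀ β', g < β' → β' ≤ Ξ → (HD P β').nmD τ k a := by
  obtain ⟨τ, x, h1, h2, h3⟩ := cut_cof P hl.lim1 hp a ha
  have h4 := cut_lt P h2
  obtain ⟨k, hk⟩ := num_ex P (Pre_mono hp (le_of_lt h4)) a h3
  refine ⟨τ, k, x, h4, fun β' h5 h6 => ?_⟩
  rcases le_or_gt β' ζ with h7 | h7
  · exact ⟨x, cut_stab P h2 h5 h7, hk⟩
  · exact ⟨x, N5_cut P hl h1 h7 h6 _ le_rfl x h2, hk⟩

end

end Pool.Agent.Helper25.EV

/-!
# The canonical code determines the stage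

MODULE N6.  `newC m` says `m = ⟨k, k'⟩` with numbers `k`, `k'` of `a ≤ a' < β`.  By `num_ex`, `num_fun`, `num_inj` the map from `a < β` to the `a' < β'` with the same number is an order isomorphism
(domain: the `k` with `newC ⟨k, k⟩`), so `β = β'` (well-orders; `Ordinal.type` or a direct induction: the isomorphism is the identity).
-/

set_option autoImplicit false

namespace Pool.Agent.Helper25.EV

open Ordinal Encodable

section
variable (P : LPr)

theorem NumF_newC_iff (β : Ordinal.{0}) (k k' : ℕ) : (HD P β).newC (Nat.pair k k') ↔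
    ∃ a a', a ≤ a' ∧ numD P β a k ∧ numD P β a' k' := by
  constructor
  · rintro ⟨a, a', k₁, k₁', _, _, h3, h4, h5, h6⟩
    have h7 := congrArg Nat.unpair h6
    rw [Nat.unpair_pair, Nat.unpair_pair, Prod.mk.injEq] at h7
    obtain ⟨rfl, rfl⟩ := h7
    exact ⟨a, a', (le_HD P β a a').mp h3, (numD_eq P β a _).mpr h4, (numD_eq P β a' _).mpr h5⟩
  · rintro ⟨a, a', h1, h2, h3⟩
    exact ⟨a, a', k, k', numD_lt P β a k h2, numD_lt P β a' k' h3, (le_HD P β a a').mpr h1,
      (numD_eq P β a k).mp h2, (numD_eq P β a' k').mp h3, rfl⟩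

theorem NumF_aux {β β' : Ordinal.{0}} (hp : Pre (FD P) β) (hp' : Pre (FD P) β')
    (h : ∀ m, (HD P β).newC m ↔ (HD P β').newC m) :
    ∀ a < β, a < β' ∧ ∃ k, numD P β a k ∧ numD P β' a k := by
  intro a
  induction a using WellFounded.induction Ordinal.lt_wf with
  | _ a ih =>
    intro ha
    obtain ⟨k, hk⟩ := num_ex P hp a ha
    have h1 := (h _).mp ((NumF_newC_iff P β k k).mpr ⟨a, a, le_rfl, hk, hk⟩)
    obtain ⟨b, _, _, hb, _⟩ := (NumF_newC_iff P β' k k).mp h1
    have hbl : b < β' := numD_lt P β' b k hb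
    rcases lt_trichotomy b a with h2 | h2 | h2
    · obtain ⟨_, k₂, h3, h4⟩ := ih b h2 (lt_trans h2 ha)
      have h5 : k₂ = k := num_fun P h4 hb
      subst h5
      exact absurd (num_inj P h3 hk) (ne_of_lt h2)
    · subst h2
      exact ⟨hbl, k, hk, hb⟩
    · exfalso
      obtain ⟨k₃, h3⟩ := num_ex P hp' a (lt_trans h2 hbl)
      have h4 := (h _).mpr ((NumF_newC_iff P β' k₃ k).mpr ⟨a, b, le_of_lt h2, h3, hb⟩)
      obtain ⟨a₃, a₄, h5, h6, h7⟩ := (NumF_newC_iff P β k₃ k).mp h4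
      have h8 : a₄ = a := num_inj P h7 hk
      subst h8
      rcases lt_or_eq_of_le h5 with h9 | h9
      · obtain ⟨_, k₄, h10, h11⟩ := ih a₃ h9 (lt_trans h9 ha)
        have h12 : k₄ = k₃ := num_fun P h10 h6
        subst h12
        exact absurd (num_inj P h11 h3) (ne_of_lt h9)
      · subst h9
        have h13 : k₃ = k := num_fun P h6 hk
        subst h13
        exact absurd (num_inj P h3 hb) (ne_of_lt h2)

/-- the canonical code determines the stage -/
theorem newC_inj {β β' : Ordinal.{0}} (hp : Pre (FD P) β) (hp' : Pre (FD P) β')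
    (h : ∀ m, (HD P β).newC m ↔ (HD P β').newC m) : β = β' := by
  apply le_antisymm
  · by_contra h1
    exact lt_irrefl _ (NumF_aux P hp hp' h β' (not_le.mp h1)).1
  · by_contra h1
    exact lt_irrefl _ (NumF_aux P hp' hp (fun m => (h m).symm) β (not_le.mp h1)).1

end

end Pool.Agent.Helper25.EV
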