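import Pool.Agent.Helper25.EV.FT.PA

/-!
# The label equations: embeddings

MODULE L1.  By `labD_eq`, unfolding `nlab` and separating the tags (`Nat.pair` injective, see the proof of `mem_FD` in ProcLem.lean), then `ntab`; `isMax_HD`, `isLim_HD`, `isMin_HD`.  For
`phi_lim` note that `src` needs a maximum.
-/

set_option autoImplicit false

namespace Pool.Agent.Helper25.EV

open Ordinal Encodable

section
variable (P : LPr)

theorem labA_tag1 (β : Ordinal.{0}) (m : ℕ) :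
    Nat.pair 1 m ∈ labD P β ↔ (HD P β).newC m := by
  rw [labD_eq]
  constructor
  · rintro (⟨d', h, h'⟩ | ⟨p, h, h'⟩ | ⟨x, σ, τ, h, _⟩ | ⟨x, k, n, σ, i, h, _⟩ |
      ⟨x, k, n, σ, i, h, _⟩ | ⟨η, a, x, σ, k, k', h, _⟩ | h)
    · have := congrArg (fun m => (Nat.unpair m).1) h
      simp [Nat.unpair_pair] at this
    · rw [Nat.pair_eq_pair] at h
      rw [h.2]
      exact h'
    all_goals
      first
      | (have := congrArg (fun m => (Nat.unpair m).1) h
         simp [Nat.unpair_pair] at this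
         done)
      | skip
    rcases h with ⟨i, h, _⟩ | ⟨i, γ, k, i', h, _⟩ | ⟨i, n, h, _⟩ <;>
    · have := congrArg (fun m => (Nat.unpair m).1) h
      simp [Nat.unpair_pair] at this
  · intro h
    exact Or.inr (Or.inl ⟨m, rfl, h⟩)

theorem labA_tag2 (β : Ordinal.{0}) (x : ℕ) (σ τ : List Bool) :
    Nat.pair 2 (encode (x, σ, τ)) ∈ labD P β ↔ (HD P β).ntab P rlL x σ τ := by
  rw [labD_eq]
  constructor
  · rintro (⟨d', h, h'⟩ | ⟨p, h, h'⟩ | ⟨x', σ', τ', h, h'⟩ | ⟨x, k, n, σ, i, h, _⟩ |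
      ⟨x, k, n, σ, i, h, _⟩ | ⟨η, a, x, σ, k, k', h, _⟩ | h)
    · have := congrArg (fun m => (Nat.unpair m).1) h
      simp [Nat.unpair_pair] at this
    · have := congrArg (fun m => (Nat.unpair m).1) h
      simp [Nat.unpair_pair] at this
    · rw [Nat.pair_eq_pair] at h
      have h2 := encode_injective h.2
      simp only [Prod.mk.injEq] at h2
      obtain ⟨rfl, rfl, rfl⟩ := h2
      exact h'
    all_goals
      first
      | (have := congrArg (fun m => (Nat.unpair m).1) h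
         simp [Nat.unpair_pair] at this
         done)
      | skip
    rcases h with ⟨i, h, _⟩ | ⟨i, γ, k, i', h, _⟩ | ⟨i, n, h, _⟩ <;>
    · have := congrArg (fun m => (Nat.unpair m).1) h
      simp [Nat.unpair_pair] at this
  · intro h
    exact Or.inr (Or.inr (Or.inl ⟨x, σ, τ, rfl, h⟩))

theorem nC_fun {β : Ordinal.{0}} {c : Cnd} {m m' : ℕ} (h : (HD P β).nC c m)
    (h' : (HD P β).nC c m') : m = m' := by
  obtain ⟨k, hk, rfl⟩ := h
  obtain ⟨k', hk', rfl⟩ := h'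
  rw [← numD_eq] at hk hk'
  rw [num_fun P hk hk']

theorem nC_inj {β : Ordinal.{0}} {c c' : Cnd} {m : ℕ} (h : (HD P β).nC c m)
    (h' : (HD P β).nC c' m) : c = c' := by
  obtain ⟨k, hk, rfl⟩ := h
  obtain ⟨k', hk', he⟩ := h'
  rw [← numD_eq] at hk hk'
  have h2 := encode_injective he
  simp only [Prod.mk.injEq] at h2
  obtain ⟨rfl, h3, h4⟩ := h2
  exact Prod.ext (num_inj P hk hk') (Prod.ext h3 h4)

theorem nC_ex {β : Ordinal.{0}} (hp : Pre (FD P) β) (c : Cnd) (h : c.1 < β) :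
    ∃ m, (HD P β).nC c m := by
  obtain ⟨k, hk⟩ := num_ex P hp c.1 h
  rw [numD_eq] at hk
  exact ⟨_, k, hk, rfl⟩

theorem cD_eq (β : Ordinal.{0}) (m : ℕ) : (GG P).cD β m ↔ (HD P β).newC m :=
  labA_tag1 P β m

/-- the root -/
theorem phi_zero (x : ℕ) (σ₀ σ τ : List Bool) :
    (GG P).phi (0, x, σ₀) σ τ ↔ x = 0 ∧ τ = σ₀ ++ σ := by
  refine Iff.trans (labA_tag2 P 0 x (σ₀ ++ σ) τ) ?_
  constructor
  · rintro (⟨_, h1, h2⟩ | ⟨c, ⟨⟨m, hm⟩, _⟩, _⟩ | ⟨h, _⟩)
    · exact ⟨h1, h2⟩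
    · rw [isMax_HD] at hm
      exact absurd hm (by
        intro h0
        have h1 : m < m + 1 := Order.lt_add_one_iff.mpr le_rfl
        rw [← h0] at h1
        exact absurd h1 (by simp))
    · rw [isLim_HD] at h
      exact absurd h.bot_lt (by simp)
  · rintro ⟨rfl, rfl⟩
    refine Or.inl ⟨?_, rfl, rfl⟩
    intro a ha
    exact absurd ha (by simp [HD])

/-- conditions born at a successor stage -/
theorem phi_succ (γ : Ordinal.{0}) (x : ℕ) (σ₀ σ τ : List Bool) :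
    (GG P).phi (γ + 1, x, σ₀) σ τ ↔ ∃ p, (HD P (γ + 1)).nC p x ∧ (HD P (γ + 1)).Q p ∧
      ∃ ρ, (HD P (γ + 1)).psi P rlL p (σ₀ ++ σ) ρ ∧ (HD P (γ + 1)).th p ρ τ := by
  refine Iff.trans (labA_tag2 P (γ + 1) x (σ₀ ++ σ) τ) ?_
  constructor
  · rintro (⟨h, _⟩ | ⟨c, ⟨_, hc1, hc2⟩, ρ, h1, h2⟩ | ⟨h, _⟩)
    · exact absurd (show (HD P (γ + 1)).D γ from Order.lt_add_one_iff.mpr le_rfl) (h γ)
    · exact ⟨c, hc1, hc2, ρ, h1, h2⟩
    · exact absurd ((isMax_HD P (γ + 1) γ).mpr rfl) (h.2 γ)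
  · rintro ⟨p, h1, h2, ρ, h3, h4⟩
    exact Or.inr (Or.inl ⟨p, ⟨⟨γ, (isMax_HD P (γ + 1) γ).mpr rfl⟩, h1, h2⟩, ρ, h3, h4⟩)

/-- conditions born at a limit stage -/
theorem phi_lim {β : Ordinal.{0}} (hβ : Order.IsSuccLimit β) (x : ℕ) (σ₀ σ τ : List Bool) :
    (GG P).phi (β, x, σ₀) σ τ ↔ x = 0 ∧ ∃ c, (HD P β).fus (σ₀ ++ σ) c ∧ (GG P).phi c [] τ := by
  refine Iff.trans (labA_tag2 P β x (σ₀ ++ σ) τ) ?_
  have hlim : (HD P β).isLim := (isLim_HD P β).mpr hβ
  constructor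
  · rintro (⟨h, _⟩ | ⟨c, ⟨⟨m, hm⟩, _⟩, _⟩ | ⟨_, h1, c, h2, h3⟩)
    · obtain ⟨a, ha⟩ := hlim.1
      exact absurd ha (h a)
    · exact absurd hm (hlim.2 m)
    · exact ⟨h1, c, h2, h3⟩
  · rintro ⟨h1, c, h2, h3⟩
    exact Or.inr (Or.inr ⟨hlim, h1, c, h2, h3⟩)

end

end Pool.Agent.Helper25.EV

/-!
# The label equations: reading

MODULE L2.  As LabA for the tags 3 and 4 and `nrd`; `rd` contains the number `k` of `α` in the code of the birth; use `numD_eq`, `num_inj`, `num_ex`.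
-/

set_option autoImplicit false

namespace Pool.Agent.Helper25.EV

open Ordinal Encodable

section
variable (P : LPr)

theorem labB_tag3 (β : Ordinal.{0}) (x k n : ℕ) (σ : List Bool) (i : Bool) :
    Nat.pair 3 (encode (x, k, n, σ, i)) ∈ labD P β ↔ (HD P β).nrd P rlL false x k n σ i := by
  rw [labD_eq]
  constructor
  · rintro (⟨d', h, h'⟩ | ⟨p, h, h'⟩ | ⟨x', σ', τ', h, h'⟩ | ⟨x', k', n', σ', i', h, h'⟩ |
      ⟨x, k, n, σ, i, h, _⟩ | ⟨η, a, x, σ, k, k', h, _⟩ | h)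
    · have := congrArg (fun m => (Nat.unpair m).1) h
      simp [Nat.unpair_pair] at this
    · have := congrArg (fun m => (Nat.unpair m).1) h
      simp [Nat.unpair_pair] at this
    · have := congrArg (fun m => (Nat.unpair m).1) h
      simp [Nat.unpair_pair] at this
    · rw [Nat.pair_eq_pair] at h
      have h2 := encode_injective h.2
      simp only [Prod.mk.injEq] at h2
      obtain ⟨rfl, rfl, rfl, rfl, rfl⟩ := h2
      exact h'
    all_goals
      first
      | (have := congrArg (fun m => (Nat.unpair m).1) h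
         simp [Nat.unpair_pair] at this
         done)
      | skip
    rcases h with ⟨i, h, _⟩ | ⟨i, γ, k, i', h, _⟩ | ⟨i, n, h, _⟩ <;>
    · have := congrArg (fun m => (Nat.unpair m).1) h
      simp [Nat.unpair_pair] at this
  · intro h
    exact Or.inr (Or.inr (Or.inr (Or.inl ⟨x, k, n, σ, i, rfl, h⟩)))

theorem labB_tag4 (β : Ordinal.{0}) (x k n : ℕ) (σ : List Bool) (i : Bool) :
    Nat.pair 4 (encode (x, k, n, σ, i)) ∈ labD P β ↔ (HD P β).nrd P rlL true x k n σ i := by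
  rw [labD_eq]
  constructor
  · rintro (⟨d', h, h'⟩ | ⟨p, h, h'⟩ | ⟨x', σ', τ', h, h'⟩ | ⟨x, k, n, σ, i, h, _⟩ |
      ⟨x', k', n', σ', i', h, h'⟩ | ⟨η, a, x, σ, k, k', h, _⟩ | h)
    · have := congrArg (fun m => (Nat.unpair m).1) h
      simp [Nat.unpair_pair] at this
    · have := congrArg (fun m => (Nat.unpair m).1) h
      simp [Nat.unpair_pair] at this
    · have := congrArg (fun m => (Nat.unpair m).1) h
      simp [Nat.unpair_pair] at this
    · have := congrArg (fun m => (Nat.unpair m).1) h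
      simp [Nat.unpair_pair] at this
    · rw [Nat.pair_eq_pair] at h
      have h2 := encode_injective h.2
      simp only [Prod.mk.injEq] at h2
      obtain ⟨rfl, rfl, rfl, rfl, rfl⟩ := h2
      exact h'
    all_goals
      first
      | (have := congrArg (fun m => (Nat.unpair m).1) h
         simp [Nat.unpair_pair] at this
         done)
      | skip
    rcases h with ⟨i, h, _⟩ | ⟨i, γ, k, i', h, _⟩ | ⟨i, n, h, _⟩ <;>
    · have := congrArg (fun m => (Nat.unpair m).1) h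
      simp [Nat.unpair_pair] at this
  · intro h
    exact Or.inr (Or.inr (Or.inr (Or.inr (Or.inl ⟨x, k, n, σ, i, rfl, h⟩))))

theorem labB_tr (z : Bool) (β : Ordinal.{0}) (x k n : ℕ) (σ : List Bool) (i : Bool) :
    (GG P).tr (if z then 4 else 3) β x k n σ i ↔ (HD P β).nrd P rlL z x k n σ i := by
  cases z
  · exact labB_tag3 P β x k n σ i
  · exact labB_tag4 P β x k n σ i

/-- reading, conditions born at a successor stage (`z = false`: tag 3, `z = true`: tag 4) -/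
theorem rd_succ {γ : Ordinal.{0}} (hp : Pre (FD P) (γ + 1)) (z : Bool) (x : ℕ) (σ₀ : List Bool)
    (α : Ordinal.{0}) (n : ℕ) (σ : List Bool) (i : Bool) :
    (GG P).rd (if z then 4 else 3) (γ + 1, x, σ₀) α n σ i ↔ α < γ + 1 ∧
      ∃ p, (HD P (γ + 1)).nC p x ∧ (HD P (γ + 1)).Q p ∧
        ∃ ρ, (HD P (γ + 1)).psi P rlL p (σ₀ ++ σ) ρ ∧ (HD P (γ + 1)).RR P p α z ρ n i := by
  constructor
  · rintro ⟨_, h1, k, hk, h2⟩
    refine ⟨h1, ?_⟩
    rcases (labB_tr P z (γ + 1) x k n (σ₀ ++ σ) i).mp h2 with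
      ⟨c, ⟨_, hc1, hc2⟩, α', ρ, h3, h4, h5, h6⟩ | ⟨hl, _⟩
    · rw [← numD_eq] at h4
      have he : α' = α := num_inj P h4 hk
      subst he
      exact ⟨c, hc1, hc2, ρ, h5, h6⟩
    · exact absurd ((isMax_HD P (γ + 1) γ).mpr rfl) (hl.2 γ)
  · rintro ⟨h1, p, h2, h3, ρ, h4, h5⟩
    obtain ⟨k, hk⟩ := num_ex P hp α h1
    refine ⟨trivial, h1, k, hk, ?_⟩
    refine (labB_tr P z (γ + 1) x k n (σ₀ ++ σ) i).mpr (Or.inl ⟨p,
      ⟨⟨γ, (isMax_HD P (γ + 1) γ).mpr rfl⟩, h2, h3⟩, α, ρ, h1, ?_, h4, h5⟩)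
    rw [← numD_eq]
    exact hk

/-- reading, conditions born at a limit stage -/
theorem rd_lim {β : Ordinal.{0}} (hβ : Order.IsSuccLimit β) (hp : Pre (FD P) β) (z : Bool) (x : ℕ)
    (σ₀ : List Bool) (α : Ordinal.{0}) (n : ℕ) (σ : List Bool) (i : Bool) :
    (GG P).rd (if z then 4 else 3) (β, x, σ₀) α n σ i ↔ α < β ∧ x = 0 ∧
      ∃ σ' c ρ τ' τ, σ' <+: σ₀ ++ σ ∧ (HD P β).fus σ' c ∧ α < c.1 ∧ (GG P).phi c ρ τ' ∧
        (GG P).phi (β, 0, []) (σ₀ ++ σ) τ ∧ τ' <+: τ ∧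
        (GG P).rd (if z then 4 else 3) c α n ρ i := by
  have hlim : (HD P β).isLim := (isLim_HD P β).mpr hβ
  constructor
  · rintro ⟨_, h1, k, hk, h2⟩
    refine ⟨h1, ?_⟩
    rcases (labB_tr P z β x k n (σ₀ ++ σ) i).mp h2 with
      ⟨c, ⟨⟨m, hm⟩, _⟩, _⟩ | ⟨_, h3, α', σ', c, ρ, τ', τ, h4, h5, h6, h7, h8, h9, h10, h11, h12⟩
    · exact absurd hm (hlim.2 m)
    · rw [← numD_eq] at h5
      have he : α' = α := num_inj P h5 hk
      subst he
      exact ⟨h3, σ', c, ρ, τ', τ, h6, h7, h8, h9, (labA_tag2 P β 0 (σ₀ ++ σ) τ).mpr h10, h11,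
        trivial, h12.2.1, h12.2.2⟩
  · rintro ⟨h1, h3, σ', c, ρ, τ', τ, h6, h7, h8, h9, h10, h11, h12⟩
    obtain ⟨k, hk⟩ := num_ex P hp α h1
    refine ⟨trivial, h1, k, hk, ?_⟩
    refine (labB_tr P z β x k n (σ₀ ++ σ) i).mpr (Or.inr ⟨hlim, h3, α, σ', c, ρ, τ', τ, h1, ?_,
      h6, h7, h8, h9, (labA_tag2 P β 0 (σ₀ ++ σ) τ).mp h10, h11, h1, h12.2.1, h12.2.2⟩)
    rw [← numD_eq]
    exact hk

/-- other reading tables are empty at the root -/
theorem rd_zero (t : ℕ) (x : ℕ) (σ₀ : List Bool) (α : Ordinal.{0}) (n : ℕ) (σ : List Bool)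
    (i : Bool) : ¬ (GG P).rd t (0, x, σ₀) α n σ i := by
  rintro ⟨_, h, _⟩
  exact absurd h (by simp [GG])

end

end Pool.Agent.Helper25.EV

/-!
# The label equations: events

MODULE L3.  `evt_eq`: tag 5; from left to right: `num_inj`; from right to left: `nev η c` gives `evOK`, so `η < δ` and `c.1 < δ`, and `num_ex`.  `evt_eqY`: by `labY_iff` and `labY_eq`: the number with tag 5 is in
`labY P y δ = (HY P y δ).clab ...`, `nlab_HY`, `numY_eq`.
-/

set_option autoImplicit false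

namespace Pool.Agent.Helper25.EV

open Ordinal Encodable

section
variable (P : LPr)

/-- the numbers with tag 5 in a label, for any history structure -/
theorem labC_tag5 {H : Hs Ordinal.{0}} (k k' x : ℕ) (σ : List Bool) :
    Nat.pair 5 (encode (k, k', x, σ)) ∈ H.nlab P rlL H.newL ↔
      ∃ η a, H.nD η k ∧ H.nD a k' ∧ H.nev η (a, x, σ) := by
  constructor
  · rintro (⟨d', h, h'⟩ | ⟨p, h, h'⟩ | ⟨x', σ', τ', h, h'⟩ | ⟨x, k, n, σ, i, h, _⟩ |
      ⟨x, k, n, σ, i, h, _⟩ | ⟨η, a, x', σ', k₁, k₁', h, h1, h2, h3⟩ | h)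
    · have := congrArg (fun m => (Nat.unpair m).1) h
      simp [Nat.unpair_pair] at this
    · have := congrArg (fun m => (Nat.unpair m).1) h
      simp [Nat.unpair_pair] at this
    · have := congrArg (fun m => (Nat.unpair m).1) h
      simp [Nat.unpair_pair] at this
    · have := congrArg (fun m => (Nat.unpair m).1) h
      simp [Nat.unpair_pair] at this
    · have := congrArg (fun m => (Nat.unpair m).1) h
      simp [Nat.unpair_pair] at this
    · rw [Nat.pair_eq_pair] at h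
      have h5 := encode_injective h.2
      simp only [Prod.mk.injEq] at h5
      obtain ⟨rfl, rfl, rfl, rfl⟩ := h5
      exact ⟨η, a, h1, h2, h3⟩
    · rcases h with ⟨i, h, _⟩ | ⟨i, γ, k, i', h, _⟩ | ⟨i, n, h, _⟩ <;>
      · have := congrArg (fun m => (Nat.unpair m).1) h
        simp [Nat.unpair_pair] at this
  · rintro ⟨η, a, h1, h2, h3⟩
    exact Or.inr (Or.inr (Or.inr (Or.inr (Or.inr (Or.inl ⟨η, a, x, σ, k, k', rfl, h1, h2, h3⟩)))))

/-- events -/
theorem evt_eq {δ : Ordinal.{0}} (hp : Pre (FD P) δ) (η : Ordinal.{0}) (c : Cnd) :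
    (GG P).evt η δ c ↔ (HD P δ).nev η c := by
  constructor
  · rintro ⟨_, k, k', hk, hk', h⟩
    have h1 : Nat.pair 5 (encode (k, k', c.2.1, c.2.2)) ∈
        (HD P δ).nlab P rlL (HD P δ).newL := by
      rw [← labD_eq]
      exact h
    obtain ⟨η', a, h2, h3, h4⟩ := (labC_tag5 P k k' c.2.1 c.2.2).mp h1
    rw [← numD_eq] at h2 h3
    have e1 : η' = η := num_inj P h2 hk
    have e2 : a = c.1 := num_inj P h3 hk'
    subst e1
    subst e2
    exact h4
  · intro h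
    have h1 : η < δ := h.1.1.1
    obtain ⟨m, e, _, _, h2, _⟩ := h.1.2.2
    have h3 : c.1 < δ := h2.1
    obtain ⟨k, hk⟩ := num_ex P hp η h1
    obtain ⟨k', hk'⟩ := num_ex P hp c.1 h3
    refine ⟨trivial, k, k', hk, hk', ?_⟩
    change Nat.pair 5 (encode (k, k', c.2.1, c.2.2)) ∈ labD P δ
    rw [labD_eq]
    exact (labC_tag5 P k k' c.2.1 c.2.2).mpr
      ⟨η, c.1, (numD_eq P δ η k).mp hk, (numD_eq P δ c.1 k').mp hk', h⟩

theorem labC_iso (y : Real2) (β : Ordinal.{0}) :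
    HIso (HY P y β) (HD P β) (fun a b => a = b ∧ a < β) Wd := by
  refine ⟨?_, fun a h => ⟨a, rfl, h⟩, fun a h => ⟨a, rfl, h⟩, ?_, ?_, ?_, ?_, ?_, ?_⟩
  · rintro a b ⟨rfl, h⟩
    exact ⟨h, h⟩
  · rintro a b a' b' ⟨rfl, _⟩ ⟨rfl, _⟩
    exact Iff.rfl
  · rintro a b a' b' ⟨rfl, _⟩ ⟨rfl, _⟩
    exact Iff.rfl
  · rintro a b m ⟨rfl, h⟩ hm
    exact labY_iff P y a m hm
  · rintro a b a' b' k ⟨rfl, h⟩ ⟨rfl, _⟩
    show numY P y a a' k ↔ numD P a a' k
    rw [numY_eq]
  · rintro a a' k h h'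
    exact lt_trans (numY_lt P y a a' k h') h
  · rintro a a' k h h'
    exact lt_trans (numD_lt P a a' k h') h

theorem labC_nDY (y : Real2) (β a : Ordinal.{0}) (k : ℕ) :
    (HY P y β).nD a k ↔ numD P β a k := by
  constructor
  · intro h
    have h1 : a < β := nD_dom (H := HY P y β) (fun b a' k' hb hk =>
      lt_trans (numY_lt P y b a' k' hk) hb) a k h
    exact (numD_eq P β a k).mpr (((invD (labC_iso P y β) P).2 a a k ⟨rfl, h1⟩).mp h)
  · intro h
    exact ((invD (labC_iso P y β) P).2 a a k ⟨rfl, numD_lt P β a k h⟩).mpr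
      ((numD_eq P β a k).mp h)

/-- the same over the history with input -/
theorem evt_eqY (y : Real2) {δ : Ordinal.{0}} (hp : Pre (FD P) δ) (η : Ordinal.{0}) (c : Cnd) :
    (GG P).evt η δ c ↔ (HY P y δ).nev η c := by
  constructor
  · rintro ⟨_, k, k', hk, hk', h⟩
    have h1 : Nat.pair 5 (encode (k, k', c.2.1, c.2.2)) ∈
        (HY P y δ).nlab P rlL (HY P y δ).newL := by
      rw [nlab_HY]
      exact h
    obtain ⟨η', a, h2, h3, h4⟩ := (labC_tag5 P k k' c.2.1 c.2.2).mp h1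
    rw [labC_nDY] at h2 h3
    have e1 : η' = η := num_inj P h2 hk
    have e2 : a = c.1 := num_inj P h3 hk'
    subst e1
    subst e2
    exact h4
  · intro h
    have h1 : η < δ := h.1.1.1
    obtain ⟨m, e, _, _, h2, _⟩ := h.1.2.2
    have h3 : c.1 < δ := h2.1
    obtain ⟨k, hk⟩ := num_ex P hp η h1
    obtain ⟨k', hk'⟩ := num_ex P hp c.1 h3
    refine ⟨trivial, k, k', hk, hk', ?_⟩
    change Nat.pair 5 (encode (k, k', c.2.1, c.2.2)) ∈ labD P δ
    rw [← nlab_HY P y δ]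
    exact (labC_tag5 P k k' c.2.1 c.2.2).mpr
      ⟨η, c.1, (labC_nDY P y δ η k).mpr hk, (labC_nDY P y δ c.1 k').mpr hk', h⟩

end

end Pool.Agent.Helper25.EV

/-!
# The label equations: the cells of the input

MODULE L4.  `mem_FY` in ProcLem.lean.  `mem_FY_K`: `nmD`, `phi`, `newC` over `HY P y β` and `HD P β` agree since the labels agree at the numbers with `Wd` (`labY_iff`) and `numY_eq`; `encode` is injective.
`mem_FY_loc`: induction on `β` with the recursion of `nyL`.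
-/

set_option autoImplicit false

namespace Pool.Agent.Helper25.EV

open Ordinal Encodable

section
variable (P : LPr)

theorem LabD_frD (y : Real2) (β : Ordinal.{0}) : (HY P y β).frD = (HD P β).frD := by
  funext a d
  exact propext (labY_iff P y a _ (Wd_even d))

theorem LabD_cut (y : Real2) (β : Ordinal.{0}) (fr : Ordinal.{0} → ℕ → Prop) (τ : List Bool)
    (j : ℕ) (x : Ordinal.{0}) : (HY P y β).cut fr τ j x ↔ (HD P β).cut fr τ j x := by
  induction j generalizing x with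
  | zero => exact Iff.rfl
  | succ j ih => exact exists_congr fun w => and_congr (ih w) Iff.rfl

theorem LabD_num (y : Real2) (β g a : Ordinal.{0}) (k : ℕ) :
    (HY P y β).num g a k ↔ (HD P β).num g a k := by
  show numY P y g a k ↔ numD P g a k
  rw [numY_eq]

theorem LabD_nmD (y : Real2) (β : Ordinal.{0}) (τ : List Bool) (k : ℕ) (a : Ordinal.{0}) :
    (HY P y β).nmD τ k a ↔ (HD P β).nmD τ k a := by
  unfold Hs.nmD
  rw [LabD_frD]
  exact exists_congr fun g => and_congr (LabD_cut P y β _ τ _ g) (LabD_num P y β g a k)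

theorem LabD_nD (y : Real2) (β : Ordinal.{0}) (a : Ordinal.{0}) (k : ℕ) :
    (HY P y β).nD a k ↔ (HD P β).nD a k := by
  unfold Hs.nD
  rw [LabD_frD]
  refine or_congr ?_ ?_
  · exact exists_congr fun m => and_congr Iff.rfl (or_congr Iff.rfl (and_congr Iff.rfl
      (exists_congr fun k' => and_congr (LabD_num P y β m a k') Iff.rfl)))
  · refine and_congr Iff.rfl (and_congr Iff.rfl (exists_congr fun τ => exists_congr fun g =>
      and_congr Iff.rfl (and_congr (LabD_cut P y β _ τ _ g) (and_congr Iff.rfl (and_congr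
        (forall_congr' fun g' => imp_congr (LabD_cut P y β _ τ _ g') Iff.rfl)
        (exists_congr fun k' => and_congr (LabD_num P y β g a k') Iff.rfl))))))

theorem LabD_newC (y : Real2) (β : Ordinal.{0}) (m : ℕ) :
    (HY P y β).newC m ↔ (HD P β).newC m := by
  refine exists_congr fun a => exists_congr fun a' => exists_congr fun k => exists_congr fun k' =>
    and_congr Iff.rfl (and_congr Iff.rfl (and_congr Iff.rfl (and_congr (LabD_nD P y β a k)
      (and_congr (LabD_nD P y β a' k') Iff.rfl))))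

theorem LabD_phi (y : Real2) (β : Ordinal.{0}) (c : Cnd) (σ τ : List Bool) :
    (HY P y β).phi c σ τ ↔ (GG P).phi c σ τ :=
  labY_iff P y c.1 _ (Wd_tag 2 _ (by decide) (by decide))

/-- the `K`-cells -/
theorem mem_FY_K (y : Real2) (β : Ordinal.{0}) (κ : List Bool × ℕ × ℕ × List Bool × ℕ) :
    2 * encode κ + 1 ∈ FY P y β ↔ ∃ a, (HD P β).nmD κ.1 κ.2.1 a ∧
      ∀ j, ∃ u τ, (GG P).phi (a, κ.2.2.1, κ.2.2.2.1) u τ ∧ j ≤ τ.length ∧
        (∀ m < j, τ.getD m false = y m) ∧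
        ∀ m, 2 * Nat.pair κ.2.2.2.2 m < u.length →
          (u.getD (2 * Nat.pair κ.2.2.2.2 m) false = true ↔ (HD P β).newC m) := by
  rw [mem_FY]
  have h0 : (HY P y β).nY P y (2 * encode κ + 1) ↔ (HY P y β).nyK y κ := by
    constructor
    · rintro (⟨n', h, _⟩ | ⟨κ', h, h'⟩)
      · omega
      · have h1 : encode κ = encode κ' := by omega
        have h2 : κ = κ' := encode_injective h1
        rw [h2]
        exact h'
    · exact fun h => Or.inr ⟨κ, rfl, h⟩
  rw [h0]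
  refine exists_congr fun a => and_congr (LabD_nmD P y β _ _ a) (forall_congr' fun j =>
    exists_congr fun u => exists_congr fun τ => and_congr (LabD_phi P y β _ u τ)
      (and_congr Iff.rfl (and_congr Iff.rfl (forall_congr' fun m => imp_congr Iff.rfl
        (iff_congr Iff.rfl (LabD_newC P y β m))))))

theorem loc_zero (y : Real2) : loc P y 0 =
    {n | (∃ k, P.ini n = Sum.inl k ∧ y k = true) ∨ P.ini n = Sum.inr true} := by
  unfold loc
  rw [Ordinal.limitRecOn_zero]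

theorem loc_succ (y : Real2) (α : Ordinal.{0}) : loc P y (α + 1) =
    {n | ∃ v : List Bool, v.length = (P.nb n).length ∧
      (∀ j < v.length, v.getD j false = true ↔ (P.nb n).getD j 0 ∈ loc P y α) ∧
      P.ev n v = true} := by
  unfold loc
  rw [Ordinal.limitRecOn_add_one]

theorem loc_lim (y : Real2) {α : Ordinal.{0}} (hα : Order.IsSuccLimit α) : loc P y α =
    {n | P.rs n = some true ∨ (P.rs n = none ∧ ∀ β < α, ∃ γ < α, β ≤ γ ∧ n ∈ loc P y γ)} := by
  unfold loc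
  rw [Ordinal.limitRecOn_limit _ _ _ _ hα]
  ext n
  simp only [Set.mem_ofPred_eq]
  constructor
  · rintro (h | ⟨h1, h2⟩)
    · exact Or.inl h
    · refine Or.inr ⟨h1, fun β hβ => ?_⟩
      obtain ⟨γ, hγ, h3, h4⟩ := h2 β hβ
      exact ⟨γ, hγ, h3, h4⟩
  · rintro (h | ⟨h1, h2⟩)
    · exact Or.inl h
    · refine Or.inr ⟨h1, fun β hβ => ?_⟩
      obtain ⟨γ, hγ, h3, h4⟩ := h2 β hβ
      exact ⟨γ, hγ, h3, h4⟩

theorem LabD_nyL (y : Real2) (β : Ordinal.{0}) (n : ℕ) :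
    2 * n ∈ FY P y β ↔ (HY P y β).nyL P y n := by
  rw [mem_FY]
  constructor
  · rintro (⟨n', h, h'⟩ | ⟨κ', h, h'⟩)
    · have h1 : n = n' := by omega
      rw [h1]
      exact h'
    · omega
  · exact fun h => Or.inl ⟨n, rfl, h⟩

/-- the local cells -/
theorem mem_FY_loc (y : Real2) (β : Ordinal.{0}) (n : ℕ) : 2 * n ∈ FY P y β ↔ n ∈ loc P y β := by
  induction β using WellFounded.induction Ordinal.lt_wf generalizing n with
  | _ β ih =>
    rw [LabD_nyL]
    rcases Ordinal.zero_or_succ_or_isSuccLimit β with h0 | ⟨α, h1⟩ | hl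
    · subst h0
      rw [loc_zero]
      constructor
      · rintro (⟨_, h⟩ | ⟨m, h, _⟩ | ⟨h, _⟩)
        · exact h
        · have h1 := (isMax_HD P 0 m).mp h
          exact absurd h1.symm (by simp)
        · have h1 := (isLim_HD P 0).mp h
          exact absurd h1.bot_lt (by simp)
      · intro h
        exact Or.inl ⟨fun a ha => absurd ha (by simp [HY]), h⟩
    · have h1 : β = α + 1 := h1.symm
      subst h1
      rw [loc_succ]
      have hα : α < α + 1 := Order.lt_add_one_iff.mpr le_rfl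
      constructor
      · rintro (⟨h, _⟩ | ⟨m, h, v, h2, h3, h4⟩ | ⟨h, _⟩)
        · exact absurd hα (h α)
        · have h5 := (isMax_HD P (α + 1) m).mp h
          have h6 : m = α := by
            have := h5.symm
            simpa using this
          subst h6
          refine ⟨v, h2, fun j hj => ?_, h4⟩
          rw [h3 j hj]
          exact ih m hα _
        · have h5 := (isLim_HD P (α + 1)).mp h
          have h6 := h5.succ_lt hα
          exact absurd h6 (lt_irrefl _)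
      · rintro ⟨v, h2, h3, h4⟩
        refine Or.inr (Or.inl ⟨α, (isMax_HD P (α + 1) α).mpr rfl, v, h2, fun j hj => ?_, h4⟩)
        rw [h3 j hj]
        exact (ih α hα _).symm
    · rw [loc_lim P y hl]
      have hs : ¬ (HY P y β).sil (HY P y β).frY (2 * n) ↔
          ∀ β' < β, ∃ γ < β, β' ≤ γ ∧ n ∈ loc P y γ := by
        constructor
        · intro h β' hβ'
          by_contra hc
          apply h
          refine ⟨β', hβ', fun b hb hle hfr => ?_⟩
          exact hc ⟨b, hb, (le_HD P β β' b).mp hle, (ih b hb n).mp hfr⟩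
        · rintro h ⟨a, ha, h2⟩
          obtain ⟨γ, h3, h4, h5⟩ := h a ha
          exact h2 γ h3 ((le_HD P β a γ).mpr h4) ((ih γ h3 n).mpr h5)
      constructor
      · rintro (⟨h, _⟩ | ⟨m, h, _⟩ | ⟨_, h⟩)
        · exact absurd hl.bot_lt (h 0)
        · have h5 := (isMax_HD P β m).mp h
          have h6 := hl.succ_lt (show m < β by rw [h5]; exact Order.lt_add_one_iff.mpr le_rfl)
          rw [h5] at h6
          exact absurd h6 (lt_irrefl _)
        · rcases h with h | ⟨h1, h2⟩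
          · exact Or.inl h
          · exact Or.inr ⟨h1, hs.mp h2⟩
      · intro h
        refine Or.inr (Or.inr ⟨(isLim_HD P β).mpr hl, ?_⟩)
        rcases h with h | ⟨h1, h2⟩
        · exact Or.inl h
        · exact Or.inr ⟨h1, hs.mpr h2⟩

/-- `FY` has nothing else -/
theorem mem_FY_other (y : Real2) (β : Ordinal.{0}) (n : ℕ) (h : n ∈ FY P y β) :
    (∃ n', n = 2 * n') ∨ ∃ κ : List Bool × ℕ × ℕ × List Bool × ℕ, n = 2 * encode κ + 1 := by
  rw [mem_FY] at h
  rcases h with ⟨n', h, _⟩ | ⟨κ, h, _⟩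
  · exact Or.inl ⟨n', h⟩
  · exact Or.inr ⟨κ, h⟩

end

end Pool.Agent.Helper25.EV

/-!
# Semantics of conditions: restrictions
-/

set_option autoImplicit false

namespace Pool.Agent.Helper25.EV

open Ordinal Encodable

section
variable (P : LPr)

theorem phi_rs (c : Cnd) (σ σ' τ : List Bool) :
    (GG P).phi (rs c σ) σ' τ ↔ (GG P).phi c (σ ++ σ') τ := by
  unfold Hs.phi rs
  rw [List.append_assoc]

theorem rd_rs (t : ℕ) (c : Cnd) (α : Ordinal.{0}) (n : ℕ) (σ σ' : List Bool) (i : Bool) :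
    (GG P).rd t (rs c σ) α n σ' i ↔ (GG P).rd t c α n (σ ++ σ') i := by
  unfold Hs.rd rs
  rw [List.append_assoc]

theorem fc_rs (c : Cnd) (σ : List Bool) : fc P (rs c σ) = subF (fc P c) σ := by
  funext σ'
  unfold fc subF
  congr 1
  funext τ
  exact propext (phi_rs P c σ σ' τ)

theorem Emb_cond {c : Cnd} (h : Emb P c) : cond P c := ⟨_, (h.2 [] _).mpr rfl⟩

theorem Emb_rs {c : Cnd} (h : Emb P c) (σ : List Bool) : Emb P (rs c σ) := by
  refine ⟨?_, fun σ' τ => ?_⟩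
  · rw [fc_rs]
    exact h.1.sub σ
  · rw [phi_rs, h.2, fc_rs]
    rfl

theorem Br_rs {c : Cnd} (h : Emb P c) (σ : List Bool) (y : Real2) :
    y ∈ Br P (rs c σ) ↔ y ∈ Br P c ∧ fc P c σ = pfx y (fc P c σ).length := by
  unfold Br
  rw [fc_rs]
  exact mem_sub_iff h.1 σ y

theorem Br_rs_sub {c : Cnd} (h : Emb P c) (σ : List Bool) : Br P (rs c σ) ⊆ Br P c :=
  fun y hy => ((Br_rs P h σ y).mp hy).1

/-- coordinates -/
theorem Br_coord {c : Cnd} (h : Emb P c) (y : Real2) (hy : y ∈ Br P c) :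
    ∃ e : Real2, y = limF (fc P c) e ∧ ∀ σ, y ∈ Br P (rs c σ) ↔ σ = pfx e σ.length := by
  obtain ⟨e, he⟩ := (mem_br_iff h.1 y).mp hy
  refine ⟨e, he, fun σ => ?_⟩
  unfold Br
  rw [fc_rs, he]
  exact mem_sub_lim h.1 σ e

theorem Br_nonempty {c : Cnd} (h : Emb P c) : (Br P c).Nonempty := br_nonempty h.1

theorem dY_mono {y : Real2} {η β β' : Ordinal.{0}} (h : dY P y η β) (h' : β ≤ β') :
    dY P y η β' := by
  obtain ⟨n, h1, α, h2, h3, h4⟩ := h
  exact ⟨n, h1, α, h2, lt_of_lt_of_le h3 h', h4⟩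

end

end Pool.Agent.Helper25.EV

/-!
# Semantics of conditions: inclusion

MODULE S1.  From the lemmas of TreeA2, TreeB, TreeC.
-/

set_option autoImplicit false

namespace Pool.Agent.Helper25.EV

open Ordinal Encodable

section
variable (P : LPr)

theorem SemA_rs_rs (c : Cnd) (σ σ' : List Bool) : rs (rs c σ) σ' = rs c (σ ++ σ') := by
  unfold rs
  rw [List.append_assoc]

theorem SemA_rs_nil (c : Cnd) : rs c [] = c := by
  unfold rs
  rw [List.append_nil]

/-- two restrictions around the same point are comparable -/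
theorem SemA_comp {c : Cnd} (h : Emb P c) {y : Real2} {σ σ' : List Bool}
    (h1 : y ∈ Br P (rs c σ)) (h2 : y ∈ Br P (rs c σ')) : σ <+: σ' ∨ σ' <+: σ := by
  obtain ⟨e, -, he⟩ := Br_coord P h y (Br_rs_sub P h σ h1)
  have e1 := (he σ).mp h1
  have e2 := (he σ').mp h2
  rcases le_total σ.length σ'.length with h3 | h3
  · left
    rw [e1, e2]
    exact pfx_mono e h3
  · right
    rw [e1, e2]
    exact pfx_mono e h3

/-- reading at a restriction -/
theorem SemA_tot {c : Cnd} (h : Emb P c) (t : ℕ) (α : Ordinal.{0}) (n : ℕ)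
    (hmon : ∀ σ σ' i, (GG P).rd t c α n σ i → σ <+: σ' → (GG P).rd t c α n σ' i)
    {σ : List Bool} {y : Real2} (hy : y ∈ Br P (rs c σ))
    (h1 : ∃ σ' i, y ∈ Br P (rs c σ') ∧ (GG P).rd t c α n σ' i) :
    ∃ σ' i, y ∈ Br P (rs (rs c σ) σ') ∧ (GG P).rd t (rs c σ) α n σ' i := by
  obtain ⟨σ1, i, h2, h3⟩ := h1
  rcases SemA_comp P h hy h2 with h4 | h4
  · obtain ⟨σ', rfl⟩ := h4
    refine ⟨σ', i, ?_, ?_⟩
    · rw [SemA_rs_rs]
      exact h2
    · rw [rd_rs]
      exact h3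
  · refine ⟨[], i, ?_, ?_⟩
    · rw [SemA_rs_nil]
      exact hy
    · rw [rd_rs, List.append_nil]
      exact hmon _ _ _ h3 h4

theorem OKc_rs {c : Cnd} (h : OKc P c) (σ : List Bool) : OKc P (rs c σ) := by
  refine ⟨Emb_rs P h.1 σ, ?_⟩
  have hr := h.2
  refine ⟨?_, ?_, ?_, ?_, ?_⟩
  · intro t ht α n σ1 σ2 i h1 h2
    rw [rd_rs] at h1 ⊢
    obtain ⟨s, rfl⟩ := h2
    exact hr.mon t ht α n _ _ i h1 ⟨s, by rw [List.append_assoc]⟩
  · intro α hα n y hy
    exact SemA_tot P h.1 3 α n (fun σ σ' i => hr.mon 3 (Or.inl rfl) α n σ σ' i) hy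
      (hr.tot3 α hα n y (Br_rs_sub P h.1 σ hy))
  · intro α hα n σ' i h1 y hy
    rw [rd_rs] at h1
    rw [SemA_rs_rs] at hy
    exact hr.cor3 α hα n _ i h1 y hy
  · intro α hα hl n y hy
    exact SemA_tot P h.1 4 α n (fun σ σ' i => hr.mon 4 (Or.inr rfl) α n σ σ' i) hy
      (hr.tot4 α hα hl n y (Br_rs_sub P h.1 σ hy))
  · intro α hα hl n σ' i h1 y hy
    rw [rd_rs] at h1
    rw [SemA_rs_rs] at hy
    exact hr.cor4 α hα hl n _ i h1 y hy

theorem SemA_inT {c' : Cnd} (h' : Emb P c') (s : List Bool) :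
    (GG P).inT c' s ↔ ∃ σ', s <+: fc P c' σ' := by
  constructor
  · rintro ⟨σ', τ', h1, h2⟩
    rw [h'.2] at h1
    exact ⟨σ', h1 ▸ h2⟩
  · rintro ⟨σ', h1⟩
    exact ⟨σ', _, (h'.2 _ _).mpr rfl, h1⟩

theorem Le_iff {c c' : Cnd} (h : Emb P c) (h' : Emb P c') : (GG P).Le c c' ↔ Br P c ⊆ Br P c' := by
  unfold Br
  rw [← le_iff_br h.1 h'.1]
  constructor
  · intro h1 σ
    exact (SemA_inT P h' _).mp (h1 σ _ ((h.2 _ _).mpr rfl))
  · intro h1 σ τ h2
    rw [h.2] at h2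
    rw [SemA_inT P h', h2]
    exact h1 σ

theorem Dj_iff {c c' : Cnd} (h : Emb P c) (h' : Emb P c') :
    (GG P).Dj c c' ↔ Disjoint (Br P c) (Br P c') := by
  unfold Br
  rw [← dj_iff_br h.1 h'.1]
  constructor
  · rintro ⟨k, hk⟩
    refine ⟨k, fun σ hσ h1 => ?_⟩
    exact hk σ hσ _ ((h.2 _ _).mpr rfl) ((SemA_inT P h' _).mpr h1)
  · rintro ⟨k, hk⟩
    refine ⟨k, fun σ hσ τ h1 h2 => ?_⟩
    rw [h.2] at h1
    rw [SemA_inT P h', h1] at h2
    exact hk σ hσ h2

/-- a neighbourhood of `y` in the smaller condition is in the neighbourhood of `y` in the larger one -/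
theorem nbhd {c c' : Cnd} (h : Emb P c) (h' : Emb P c') (hle : Br P c ⊆ Br P c') {y : Real2}
    (hy : y ∈ Br P c) {σ' : List Bool} (hy' : y ∈ Br P (rs c' σ')) :
    ∃ σ, y ∈ Br P (rs c σ) ∧ Br P (rs c σ) ⊆ Br P (rs c' σ') := by
  obtain ⟨e, -, he⟩ := Br_coord P h y hy
  set L := (fc P c' σ').length with hL
  have h1 : y ∈ Br P (rs c (pfx e L)) := by
    rw [he, pfx_length]
  refine ⟨pfx e L, h1, fun z hz => ?_⟩
  rw [Br_rs P h] at h1 hz
  rw [Br_rs P h'] at hy' ⊢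
  refine ⟨hle hz.1, ?_⟩
  have hlen : L ≤ (fc P c (pfx e L)).length := by
    have := h.1.len (pfx e L)
    rwa [pfx_length] at this
  have e1 : pfx z L <+: fc P c (pfx e L) := by
    rw [hz.2]
    exact pfx_mono z hlen
  have e2 : pfx y L <+: fc P c (pfx e L) := by
    rw [h1.2]
    exact pfx_mono y hlen
  have e3 : pfx y L = pfx z L := by
    rcases prefix_total e2 e1 with h3 | h3
    · exact h3.eq_of_length (by rw [pfx_length, pfx_length])
    · exact (h3.eq_of_length (by rw [pfx_length, pfx_length])).symm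
  rw [← e3]
  exact hy'.2

end

end Pool.Agent.Helper25.EV

/-!
# Semantics of conditions: forcing

MODULE S2.  `Frc3_iff`: if some `rd 3 c α n σ false` then the branches through `σ` (`Br_nonempty` of `rs c σ`) have the cell off; conversely for `y ∈ Br P c` use
`tot3` and `cor3`.  `Dead_iff`, from right to left: compactness (`br_compact`) with `A σ = ∃ n α, ... rd 4 c η n σ true ∧ rd 3 c α n σ true` (monotone by `Rdg.mon`); for `y` with `dY`:
`tot4` and `tot3` give two strings along `y`, both must have the value `true` by `cor4`, `cor3`; take the longer one (both are prefixes of the coordinates).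
-/

set_option autoImplicit false

namespace Pool.Agent.Helper25.EV

open Ordinal Encodable

section
variable (P : LPr)

theorem Frc3_iff {c : Cnd} (h : OKc P c) (α : Ordinal.{0}) (n : ℕ) :
    (GG P).Frc 3 c α n ↔ α < c.1 ∧ ∀ y ∈ Br P c, n ∈ FY P y α := by
  constructor
  · rintro ⟨_, h1, h2⟩
    have h1' : α < c.1 := h1
    refine ⟨h1', fun y hy => ?_⟩
    obtain ⟨σ, i, h3, h4⟩ := h.2.tot3 α h1' n y hy
    cases i with
    | false => exact absurd h4 (h2 σ)
    | true => exact (h.2.cor3 α h1' n σ true h4 y h3).mpr rfl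
  · rintro ⟨h1, h2⟩
    refine ⟨trivial, h1, fun σ h3 => ?_⟩
    obtain ⟨y, hy⟩ := Br_nonempty P (Emb_rs P h.1 σ)
    have h4 := (h.2.cor3 α h1 n σ false h3 y hy).mp (h2 y (Br_rs_sub P h.1 σ hy))
    exact absurd h4 (by decide)

theorem Frc4_iff {c : Cnd} (h : OKc P c) (α : Ordinal.{0}) (hα : Order.IsSuccLimit α) (n : ℕ) :
    (GG P).Frc 4 c α n ↔ α < c.1 ∧ ∀ y ∈ Br P c, n ∈ Zc (FY P y) α := by
  constructor
  · rintro ⟨_, h1, h2⟩
    have h1' : α < c.1 := h1
    refine ⟨h1', fun y hy => ?_⟩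
    obtain ⟨σ, i, h3, h4⟩ := h.2.tot4 α h1' hα n y hy
    cases i with
    | false => exact absurd h4 (h2 σ)
    | true => exact (h.2.cor4 α h1' hα n σ true h4 y h3).mpr rfl
  · rintro ⟨h1, h2⟩
    refine ⟨trivial, h1, fun σ h3 => ?_⟩
    obtain ⟨y, hy⟩ := Br_nonempty P (Emb_rs P h.1 σ)
    have h4 := (h.2.cor4 α h1 hα n σ false h3 y hy).mp (h2 y (Br_rs_sub P h.1 σ hy))
    exact absurd h4 (by decide)

theorem Hit_iff {c : Cnd} (h : OKc P c) (b : Ordinal.{0}) (n : ℕ) :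
    (GG P).Hit b n c ↔ ∃ α, b < α ∧ α < c.1 ∧ ∀ y ∈ Br P c, n ∈ FY P y α := by
  constructor
  · rintro ⟨α, _, h1, h2, h3⟩
    exact ⟨α, h1, h2, ((Frc3_iff P h α n).mp h3).2⟩
  · rintro ⟨α, h1, h2, h3⟩
    exact ⟨α, trivial, h1, h2, (Frc3_iff P h α n).mpr ⟨h2, h3⟩⟩

theorem Dead_iff {c : Cnd} (h : OKc P c) (η : Ordinal.{0}) (hη : Order.IsSuccLimit η) :
    (GG P).Dead c η ↔ ∀ y ∈ Br P c, dY P y η c.1 := by
  constructor
  · rintro ⟨k, hk⟩ y hy
    obtain ⟨e, -, he⟩ := Br_coord P h.1 y hy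
    have h1 : y ∈ Br P (rs c (pfx e k)) := by
      rw [he, pfx_length]
    obtain ⟨n, α, _, h2, h3, h4, h5⟩ := hk (pfx e k) (pfx_length e k)
    have h2' : η ≤ α := (le_HD P 0 η α).mp h2
    have h3' : α < c.1 := h3
    exact ⟨n, (h.2.cor4 η (lt_of_le_of_lt h2' h3') hη n _ true h4 y h1).mpr rfl, α, h2', h3',
      (h.2.cor3 α h3' n _ true h5 y h1).mpr rfl⟩
  · intro h1
    have h2 := br_compact h.1.1 (fun σ => ∃ n α, η ≤ α ∧ α < c.1 ∧ (GG P).rd 4 c η n σ true ∧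
      (GG P).rd 3 c α n σ true) (by
        rintro σ σ' hσ ⟨n, α, h3, h4, h5, h6⟩
        exact ⟨n, α, h3, h4, h.2.mon 4 (Or.inr rfl) _ _ _ _ _ h5 hσ,
          h.2.mon 3 (Or.inl rfl) _ _ _ _ _ h6 hσ⟩) (by
        intro y hy
        obtain ⟨n, hn, α, h3, h4, h5⟩ := h1 y hy
        have hη' : η < c.1 := lt_of_le_of_lt h3 h4
        obtain ⟨σ1, i1, a1, a2⟩ := h.2.tot4 η hη' hη n y hy
        obtain ⟨σ2, i2, b1, b2⟩ := h.2.tot3 α h4 n y hy
        have hi1 : i1 = true := (h.2.cor4 η hη' hη n _ _ a2 y a1).mp hn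
        have hi2 : i2 = true := (h.2.cor3 α h4 n _ _ b2 y b1).mp h5
        subst hi1
        subst hi2
        have e0 : ∀ σ, br (subF (fc P c) σ) = Br P (rs c σ) := by
          intro σ
          unfold Br
          rw [fc_rs]
        rcases SemA_comp P h.1 a1 b1 with h6 | h6
        · exact ⟨σ2, by rw [e0]; exact b1, n, α, h3, h4,
            h.2.mon 4 (Or.inr rfl) _ _ _ _ _ a2 h6, b2⟩
        · exact ⟨σ1, by rw [e0]; exact a1, n, α, h3, h4, a2,
            h.2.mon 3 (Or.inl rfl) _ _ _ _ _ b2 h6⟩)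
    obtain ⟨k, hk⟩ := h2
    refine ⟨k, fun σ hσ => ?_⟩
    obtain ⟨n, α, h3, h4, h5, h6⟩ := hk σ hσ
    exact ⟨n, α, trivial, (le_HD P 0 η α).mpr h3, h4, h5, h6⟩

end

end Pool.Agent.Helper25.EV

/-!
# Semantics of conditions: decisions

MODULE S3.  `force_rs`: `tot3` gives `σ`, `i` along `y`, `cor3` gives `i = true`, and again `cor3` for all `y'` through `σ`.
-/

set_option autoImplicit false

namespace Pool.Agent.Helper25.EV

open Ordinal Encodable

section
variable (P : LPr)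

/-- what happens at `y` is forced by a restriction -/
theorem force_rs {c : Cnd} (h : OKc P c) (y : Real2) (hy : y ∈ Br P c) (α : Ordinal.{0})
    (hα : α < c.1) (n : ℕ) (hn : n ∈ FY P y α) :
    ∃ σ, y ∈ Br P (rs c σ) ∧ ∀ y' ∈ Br P (rs c σ), n ∈ FY P y' α := by
  obtain ⟨σ, i, h1, h2⟩ := h.2.tot3 α hα n y hy
  have hi : i = true := (h.2.cor3 α hα n σ i h2 y h1).mp hn
  subst hi
  exact ⟨σ, h1, fun y' hy' => (h.2.cor3 α hα n σ true h2 y' hy').mpr rfl⟩

/-- a bit of `Z_α` is decided by a restriction -/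
theorem decide_rs {c : Cnd} (h : OKc P c) (y : Real2) (hy : y ∈ Br P c) (α : Ordinal.{0})
    (hα : α < c.1) (hα' : Order.IsSuccLimit α) (n : ℕ) :
    ∃ σ, y ∈ Br P (rs c σ) ∧ ∀ y' ∈ Br P (rs c σ), (n ∈ Zc (FY P y') α ↔ n ∈ Zc (FY P y) α) := by
  obtain ⟨σ, i, h1, h2⟩ := h.2.tot4 α hα hα' n y hy
  refine ⟨σ, h1, fun y' hy' => ?_⟩
  rw [h.2.cor4 α hα hα' n σ i h2 y' hy', h.2.cor4 α hα hα' n σ i h2 y h1]

end

end Pool.Agent.Helper25.EV

/-!
# Events: over `HD P β` and globally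

MODULE E1.  Unfold `Hs.cur`, `Hs.evOK`, `Hs.rqE` and use the bridges of Brg.lean.
-/

set_option autoImplicit false

namespace Pool.Agent.Helper25.EV

open Ordinal Encodable

section
variable (P : LPr)

/-- the requirement of the step `m` -/
def RqE (m : ℕ) (ε δ η : Ordinal.{0}) (c : Cnd) : Prop :=
  (∃ d, sch m = 2 * d ∧ (d ∈ Zc (FD P) η ∨ ∃ α, ε < α ∧ α < δ ∧ d ∈ FD P α)) ∨
  (∃ n, sch m = 2 * n + 1 ∧ ((GG P).Frc 4 c η n ∨ ∃ α, ε < α ∧ α < c.1 ∧ (GG P).Frc 3 c α n))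

/-- `c` is admissible as the successor of the `m`-th event `e` of `η` at the stage `δ` -/
structure StepE (η : Ordinal.{0}) (m : ℕ) (e : Ordinal.{0} × Cnd) (δ : Ordinal.{0}) (c : Cnd) :
    Prop where
  lim : Order.IsSuccLimit η
  ltη : η < δ
  cur : (GG P).cur η m e
  lt0 : e.1 < δ
  last : ∀ δ' c', e.1 < δ' → δ' < δ → ¬ (GG P).evt η δ' c'
  lt1 : e.1 < c.1
  lt2 : c.1 < δ
  cnd : cond P c
  le : (GG P).Le c e.2
  stem : ∃ τ τ', (GG P).phi c [] τ ∧ (GG P).phi e.2 [] τ' ∧ τ'.length < τ.length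
  dead : ∀ η', Order.IsSuccLimit η' → η < η' → η' ≤ c.1 → (GG P).Dead c η'
  alive : ∀ d ∈ Zc (FD P) η, Silent (FD P) d η δ
  rq : RqE P m e.1 δ η c

theorem cur_HD {η β : Ordinal.{0}} (h : η < β) (m : ℕ) (e : Ordinal.{0} × Cnd) :
    (HD P β).cur η m e ↔ e.1 < β ∧ (GG P).cur η m e := by
  induction m generalizing e with
  | zero =>
    constructor
    · intro h'
      have h1 : e = (η, (η, 0, [])) := h'
      refine ⟨?_, h1⟩
      rw [h1]
      exact h
    · rintro ⟨_, h'⟩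
      exact h'
  | succ m ih =>
    constructor
    · rintro ⟨e', h1, h2, h3, h4⟩
      rw [evt_HD] at h3
      refine ⟨h3.1, e', ((ih e').mp h1).2, h2, h3.2, ?_⟩
      intro δ c h5 h6 h7
      exact h4 δ c h5 h6 ((evt_HD P _ _ _ _).mpr ⟨lt_trans (show δ < e.1 from h6) h3.1, h7⟩)
    · rintro ⟨h0, e', h1, h2, h3, h4⟩
      refine ⟨e', (ih e').mpr ⟨lt_trans (show e'.1 < e.1 from h2) h0, h1⟩, h2,
        (evt_HD P _ _ _ _).mpr ⟨h0, h3⟩, ?_⟩
      intro δ c h5 h6 h7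
      exact h4 δ c h5 h6 ((evt_HD P _ _ _ _).mp h7).2

theorem EvA_rqE {δ η : Ordinal.{0}} (hη : η < δ) {c : Cnd} (hc : c.1 < δ) (m : ℕ)
    (ε : Ordinal.{0}) : (HD P δ).rqE m ε η c ↔ RqE P m ε δ η c := by
  unfold Hs.rqE RqE
  rw [res_HD P (le_of_lt hη)]
  constructor
  · rintro (⟨d, h1, h2⟩ | ⟨n, h1, h2⟩)
    · refine Or.inl ⟨d, h1, ?_⟩
      rcases h2 with h2 | ⟨α, h2, h3, h4⟩
      · exact Or.inl ((sil_HD P _ _ _).mp h2)
      · exact Or.inr ⟨α, h3, h2, h4⟩
    · refine Or.inr ⟨n, h1, ?_⟩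
      rcases h2 with h2 | ⟨α, h2, h3, h4, h5⟩
      · exact Or.inl ((Frc_HD P (le_of_lt hc) _ _ _).mp h2)
      · exact Or.inr ⟨α, h3, h4, (Frc_HD P (le_of_lt hc) _ _ _).mp h5⟩
  · rintro (⟨d, h1, h2⟩ | ⟨n, h1, h2⟩)
    · refine Or.inl ⟨d, h1, ?_⟩
      rcases h2 with h2 | ⟨α, h3, h2, h4⟩
      · exact Or.inl ((sil_HD P _ _ _).mpr h2)
      · exact Or.inr ⟨α, h2, h3, h4⟩
    · refine Or.inr ⟨n, h1, ?_⟩
      rcases h2 with h2 | ⟨α, h3, h4, h5⟩
      · exact Or.inl ((Frc_HD P (le_of_lt hc) _ _ _).mpr h2)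
      · exact Or.inr ⟨α, lt_trans h4 hc, h3, h4, (Frc_HD P (le_of_lt hc) _ _ _).mpr h5⟩

theorem evOK_HD (δ η : Ordinal.{0}) (c : Cnd) :
    (HD P δ).evOK η c ↔ ∃ m e, StepE P η m e δ c := by
  constructor
  · rintro ⟨h1, h2, m, e, h3, h4, h5, h6, h7, h8, h9, h10⟩
    rw [limAt_HD] at h1
    rw [cur_HD P h1.1] at h3
    rw [EvA_rqE P h1.1 h5.1] at h10
    refine ⟨m, e, ?_⟩
    refine
      { lim := h1.2
        ltη := h1.1
        cur := h3.2
        lt0 := h3.1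
        last := ?_
        lt1 := h6
        lt2 := h5.1
        cnd := h5.2
        le := h7
        stem := h8
        dead := ?_
        alive := ?_
        rq := h10 }
    · intro δ' c' h11 h12 h13
      exact h4 δ' c' h11 ((evt_HD P _ _ _ _).mpr ⟨h12, h13⟩)
    · intro η' h11 h12 h13
      exact (Dead_HD P (le_of_lt h5.1) _).mp (h9 η'
        ((limAt_HD P _ _).mpr ⟨lt_of_le_of_lt h13 h5.1, h11⟩) h12 ((le_HD P _ _ _).mpr h13))
    · intro d hd
      have h11 := h2 d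
      rw [res_HD P (le_of_lt h1.1), sil_HD, silF_HD] at h11
      exact h11 hd
  · rintro ⟨m, e, h⟩
    refine ⟨(limAt_HD P _ _).mpr ⟨h.ltη, h.lim⟩, ?_, m, e, (cur_HD P h.ltη _ _).mpr ⟨h.lt0, h.cur⟩,
      ?_, ⟨h.lt2, h.cnd⟩, h.lt1, h.le, h.stem, ?_, (EvA_rqE P h.ltη h.lt2 _ _).mpr h.rq⟩
    · intro d
      rw [res_HD P (le_of_lt h.ltη), sil_HD, silF_HD]
      exact h.alive d
    · intro δ' c' h11 h12
      rw [evt_HD] at h12
      exact h.last δ' c' h11 h12.1 h12.2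
    · intro η' h11 h12 h13
      rw [limAt_HD] at h11
      rw [le_HD] at h13
      exact (Dead_HD P (le_of_lt h.lt2) _).mpr (h.dead η' h11.2 h12 h13)

end

end Pool.Agent.Helper25.EV

/-!
# Events: enumeration

MODULE E2.  `evt_of_step`: `evt_eq` and `evOK_HD`; among the admissible conditions of `η` at `δ` choose the one with the least number (`nC_ex`, `nC_fun`, `nC_inj`).  `evt_fun`: the least number determines the condition.
`step_of_evt`: `evt_eq`, `nev` gives `evOK`, and the definition of `cur`.  `cur_fun`: induction on `m`.  `cur_step`: `step_of_evt` gives some `m'`, `e'`; show `m' = m`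
(both are the last event below `e.1`; lemma: if `cur η m e`, `cur η m' e'` and no event of `η` lies in `(e.1, δ)` nor in `(e'.1, δ)`, `e.1, e'.1 < δ`, then `m = m'` and `e = e'`; induction).
-/

set_option autoImplicit false

namespace Pool.Agent.Helper25.EV

open Ordinal Encodable

section
variable (P : LPr)

theorem EvB_pre {β β' : Ordinal.{0}} (hp : Pre (FD P) β) (h : β' ≤ β) : Pre (FD P) β' :=
  fun η δ hl => lt_of_le_of_lt h (hp η δ hl)

theorem EvB_evOK_lt {δ η : Ordinal.{0}} {c : Cnd} (h : (HD P δ).evOK η c) : c.1 < δ := by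
  obtain ⟨m, e, hs⟩ := (evOK_HD P δ η c).mp h
  exact hs.lt2

/-- an admissible condition yields an event -/
theorem evt_of_step {η : Ordinal.{0}} {m : ℕ} {e : Ordinal.{0} × Cnd} {δ : Ordinal.{0}} {c : Cnd}
    (hp : Pre (FD P) δ) (h : StepE P η m e δ c) : ∃ c', (GG P).evt η δ c' := by
  classical
  have h1 : (HD P δ).evOK η c := (evOK_HD P δ η c).mpr ⟨m, e, h⟩
  obtain ⟨k, hk⟩ := nC_ex P hp c h.lt2
  have hex : ∃ k, ∃ c', (HD P δ).evOK η c' ∧ (HD P δ).nC c' k := ⟨k, c, h1, hk⟩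
  obtain ⟨c', h2, h3⟩ := Nat.find_spec hex
  refine ⟨c', (evt_eq P hp η c').mpr ⟨h2, ?_⟩⟩
  intro c'' m1 m2 h4 h5 h6
  have h7 : m1 = Nat.find hex := nC_fun P h5 h3
  rw [h7]
  exact Nat.find_min' hex ⟨c'', h4, h6⟩

/-- an event comes from an admissible condition, and is the next event -/
theorem step_of_evt {η δ : Ordinal.{0}} {c : Cnd} (hp : Pre (FD P) δ) (h : (GG P).evt η δ c) :
    ∃ m e, StepE P η m e δ c ∧ (GG P).cur η (m + 1) (δ, c) := by
  obtain ⟨m, e, hs⟩ := (evOK_HD P δ η c).mp ((evt_eq P hp η c).mp h).1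
  exact ⟨m, e, hs, e, hs.cur, hs.lt0, h, fun δ' c' h1 h2 => hs.last δ' c' h1 h2⟩

/-- at most one event of `η` at every stage -/
theorem evt_fun {η δ : Ordinal.{0}} {c c' : Cnd} (hp : Pre (FD P) δ) (h : (GG P).evt η δ c)
    (h' : (GG P).evt η δ c') : c = c' := by
  have h1 := (evt_eq P hp η c).mp h
  have h2 := (evt_eq P hp η c').mp h'
  obtain ⟨k, hk⟩ := nC_ex P hp c (EvB_evOK_lt P h1.1)
  obtain ⟨k', hk'⟩ := nC_ex P hp c' (EvB_evOK_lt P h2.1)
  have h3 : k = k' := le_antisymm (h1.2 c' k k' h2.1 hk hk') (h2.2 c k' k h1.1 hk' hk)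
  subst h3
  exact nC_inj P hk hk'

theorem cur_fun {η : Ordinal.{0}} {m : ℕ} {e e' : Ordinal.{0} × Cnd} (hp : Pre (FD P) e.1)
    (h : (GG P).cur η m e) (h' : (GG P).cur η m e') : e = e' := by
  induction m generalizing e e' with
  | zero =>
    have h1 : e = (η, (η, 0, [])) := h
    have h2 : e' = (η, (η, 0, [])) := h'
    rw [h1, h2]
  | succ m ih =>
    obtain ⟨e1, h1, h2, h3, h4⟩ := h
    obtain ⟨e1', h1', h2', h3', h4'⟩ := h'
    have h2a : e1.1 < e.1 := h2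
    have h5 : e1 = e1' := ih (EvB_pre P hp (le_of_lt h2a)) h1 h1'
    subst h5
    have h6 : e.1 = e'.1 := by
      rcases lt_trichotomy e.1 e'.1 with h | h | h
      · exact absurd h3 (h4' e.1 e.2 h2 h)
      · exact h
      · exact absurd h3' (h4 e'.1 e'.2 h2' h)
    have h7 : e.2 = e'.2 := evt_fun P hp h3 (by rw [h6]; exact h3')
    exact Prod.ext h6 h7

theorem EvB_cur_ge {η : Ordinal.{0}} {m : ℕ} {e : Ordinal.{0} × Cnd}
    (h : (GG P).cur η m e) : η ≤ e.1 := by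
  induction m generalizing e with
  | zero =>
    have h1 : e = (η, (η, 0, [])) := h
    rw [h1]
  | succ m ih =>
    obtain ⟨e1, h1, h2, _⟩ := h
    have h2a : e1.1 < e.1 := h2
    exact le_of_lt (lt_of_le_of_lt (ih h1) h2a)

theorem EvB_cur_uniq {η : Ordinal.{0}} {m m' : ℕ} {e e' : Ordinal.{0} × Cnd} {δ : Ordinal.{0}}
    (hp : Pre (FD P) δ) (h : (GG P).cur η m e) (h' : (GG P).cur η m' e')
    (hl : e.1 < δ) (hl' : e'.1 < δ)
    (hn : ∀ δ' c', e.1 < δ' → δ' < δ → ¬ (GG P).evt η δ' c')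
    (hn' : ∀ δ' c', e'.1 < δ' → δ' < δ → ¬ (GG P).evt η δ' c') : m = m' ∧ e = e' := by
  induction m generalizing m' e e' δ with
  | zero =>
    have h1 : e = (η, (η, 0, [])) := h
    cases m' with
    | zero =>
      have h2 : e' = (η, (η, 0, [])) := h'
      exact ⟨rfl, h1.trans h2.symm⟩
    | succ m' =>
      obtain ⟨e1, h3, h4, h5, _⟩ := h'
      have h4a : e1.1 < e'.1 := h4
      have h6 : η ≤ e1.1 := EvB_cur_ge P h3
      have h7 : e.1 < e'.1 := by
        rw [h1]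
        exact lt_of_le_of_lt h6 h4a
      exact absurd h5 (hn e'.1 e'.2 h7 hl')
  | succ m ih =>
    obtain ⟨e1, h1, h2, h3, h4⟩ := h
    have h2a : e1.1 < e.1 := h2
    cases m' with
    | zero =>
      have h5 : e' = (η, (η, 0, [])) := h'
      have h6 : η ≤ e1.1 := EvB_cur_ge P h1
      have h7 : e'.1 < e.1 := by
        rw [h5]
        exact lt_of_le_of_lt h6 h2a
      exact absurd h3 (hn' e.1 e.2 h7 hl)
    | succ m' =>
      obtain ⟨e1', h1', h2', h3', h4'⟩ := h'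
      have h2a' : e1'.1 < e'.1 := h2'
      have h6 : e.1 = e'.1 := by
        rcases lt_trichotomy e.1 e'.1 with h | h | h
        · exact absurd h3' (hn e'.1 e'.2 h hl')
        · exact h
        · exact absurd h3 (hn' e.1 e.2 h hl)
      have hpe : Pre (FD P) e.1 := EvB_pre P hp (le_of_lt hl)
      have h7 : e.2 = e'.2 := evt_fun P hpe h3 (by rw [h6]; exact h3')
      have h8 := ih (e := e1) (e' := e1') (m' := m') (δ := e.1) hpe h1 h1' h2a
        (by rw [h6]; exact h2a') (fun δ' c' ha hb => h4 δ' c' ha hb)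
        (fun δ' c' ha hb => h4' δ' c' ha (by rw [← h6]; exact hb))
      exact ⟨by rw [h8.1], Prod.ext h6 h7⟩

/-- the `m`-th event and the step to the next one -/
theorem cur_step {η : Ordinal.{0}} {m : ℕ} {e : Ordinal.{0} × Cnd} (hp : Pre (FD P) e.1)
    (h : (GG P).cur η (m + 1) e) : ∃ e', (GG P).cur η m e' ∧ StepE P η m e' e.1 e.2 := by
  obtain ⟨e', h1, h2, h3, h4⟩ := h
  obtain ⟨m', e'', h5, _⟩ := step_of_evt P hp h3
  obtain ⟨h6, h7⟩ := EvB_cur_uniq P hp h1 h5.cur h2 h5.lt0 (fun δ' c' ha hb => h4 δ' c' ha hb)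
    (fun δ' c' ha hb => h5.last δ' c' ha hb)
  subst h6
  subst h7
  exact ⟨e', h1, h5⟩

/-- all events up to the `m`-th one are enumerated -/
theorem cur_all {η : Ordinal.{0}} {m : ℕ} {e : Ordinal.{0} × Cnd} (hp : Pre (FD P) e.1)
    (h : (GG P).cur η m e) {δ : Ordinal.{0}} {c : Cnd} (h1 : (GG P).evt η δ c) (h2 : δ ≤ e.1) :
    ∃ m' ≤ m, (GG P).cur η m' (δ, c) := by
  have hpd : Pre (FD P) δ := EvB_pre P hp h2
  induction m generalizing e with
  | zero =>
    have h3 : e = (η, (η, 0, [])) := h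
    obtain ⟨m', e', h4, _⟩ := step_of_evt P hpd h1
    have h5 : δ ≤ η := by
      rw [h3] at h2
      exact h2
    exact absurd h4.ltη (not_lt.mpr h5)
  | succ m ih =>
    have h0 := h
    obtain ⟨e', h3, h4, h5, h6⟩ := h
    have h4a : e'.1 < e.1 := h4
    rcases eq_or_lt_of_le h2 with h7 | h7
    · subst h7
      have h8 : c = e.2 := evt_fun P hpd h1 h5
      subst h8
      exact ⟨m + 1, le_rfl, h0⟩
    · have h8 : δ ≤ e'.1 := by
        by_contra h9
        exact h6 δ c (not_le.mp h9) h7 h1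
      obtain ⟨m', h9, h10⟩ := ih (EvB_pre P hp (le_of_lt h4a)) h3 h8
      exact ⟨m', Nat.le_succ_of_le h9, h10⟩

end

end Pool.Agent.Helper25.EV

/-!
# Events: facts

MODULE E3.  By induction on `m` with `cur_step`.  `m = 0`: `e = (η, (η, 0, []))`; `cond P (η, 0, [])` by `phi_lim`, `Good P η` and `phi_zero` (the first condition of the fusion is the root).  `cur_le`: `StepE.le`
and `Le_iff` (the conditions are in order: `GB P e.1` for those born below `e.1`, `Good P η` for `(η, 0, [])`).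
-/

set_option autoImplicit false

namespace Pool.Agent.Helper25.EV

open Ordinal Encodable

section
variable (P : LPr)

/-- basic facts on the `m`-th event -/
theorem cur_facts {η : Ordinal.{0}} {m : ℕ} {e : Ordinal.{0} × Cnd} (hp : Pre (FD P) e.1)
    (hη : Good P η) (hl : Order.IsSuccLimit η) (h : (GG P).cur η m e) :
    η ≤ e.2.1 ∧ e.2.1 ≤ e.1 ∧ cond P e.2 ∧
      ∀ η', Order.IsSuccLimit η' → η < η' → η' ≤ e.2.1 → (GG P).Dead e.2 η' := by
  induction m generalizing e with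
  | zero =>
    have h0 : e = (η, (η, 0, [])) := h
    subst h0
    refine ⟨le_rfl, le_rfl, ?_, fun η' _ h1 h2 => absurd h1 (not_lt.mpr h2)⟩
    obtain ⟨c, hc⟩ := hη.2 hl []
    have hc' : (HD P η).isMin c.1 ∧ c.2 = (0, []) := hc
    refine ⟨[], (phi_lim P hl 0 [] [] []).mpr ⟨rfl, c, hc, ?_⟩⟩
    have h1 : c.1 = 0 := ((isMin_HD P η c.1).mp hc'.1).1
    have h2 : c = (0, 0, []) := Prod.ext h1 hc'.2
    rw [h2]
    exact (phi_zero P 0 [] [] []).mpr ⟨rfl, rfl⟩
  | succ k ih =>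
    obtain ⟨e', h1, h2⟩ := cur_step P hp h
    obtain ⟨h3, h4, _, _⟩ := ih (Pre_mono hp (le_of_lt h2.lt0)) h1
    exact ⟨le_of_lt (lt_of_le_of_lt (le_trans h3 h4) h2.lt1), le_of_lt h2.lt2, h2.cnd, h2.dead⟩

/-- the conditions decrease -/
theorem cur_le {η : Ordinal.{0}} {m m' : ℕ} {e e' : Ordinal.{0} × Cnd} (hp : Pre (FD P) e.1)
    (hG : GB P e.1) (hη : Good P η) (hl : Order.IsSuccLimit η) (h : (GG P).cur η m e)
    (h' : (GG P).cur η m' e') (hm : m' ≤ m) : e'.1 ≤ e.1 ∧ Br P e.2 ⊆ Br P e'.2 := by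
  induction m generalizing e with
  | zero =>
    have hm0 : m' = 0 := Nat.le_zero.mp hm
    subst hm0
    have he := cur_fun P hp h h'
    subst he
    exact ⟨le_rfl, subset_rfl⟩
  | succ k ih =>
    rcases Nat.lt_or_ge k m' with hk | hk
    · have hm1 : m' = k + 1 := by omega
      subst hm1
      have he := cur_fun P hp h h'
      subst he
      exact ⟨le_rfl, subset_rfl⟩
    · obtain ⟨e'', h1, h2⟩ := cur_step P hp h
      have hp' := Pre_mono hp (le_of_lt h2.lt0)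
      obtain ⟨h3, h4⟩ := ih hp' (fun γ hγ => hG γ (lt_trans hγ h2.lt0)) h1 hk
      obtain ⟨_, f2, f3, _⟩ := cur_facts P hp' hη hl h1
      have hE : Emb P e.2 := ((hG e.2.1 h2.lt2).2.1 e.2 rfl h2.cnd).1
      have hE' : Emb P e''.2 :=
        ((hG e''.2.1 (lt_of_le_of_lt f2 h2.lt0)).2.1 e''.2 rfl f3).1
      exact ⟨le_trans h3 (le_of_lt h2.lt0), subset_trans ((Le_iff P hE hE').mp h2.le) h4⟩

end

end Pool.Agent.Helper25.EV
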