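import Pool.Agent.Helper25.EV.FT.PB

/-!
# The coding extension: weaving

MODULE C0.  `weave w (pfx e k)` only depends on the first `k` bits.  `gth_emb`: `weave_step` and `EmbF.mono`.  `gth_lim`: `limF_eq`, `limF_spec`, `weave_pfx`.  `th_iff`: the list `u` in `Hs.th` is `weave (wR P γ) σ`.
-/

set_option autoImplicit false

namespace Pool.Agent.Helper25.EV

open Ordinal Encodable

/-- the real with the even bits `w` and the odd bits `e` -/
def weaveR (w e : Real2) : Real2 := fun m => if m % 2 = 0 then w (m / 2) else e (m / 2)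

/-- the list of length `2 * σ.length + 1` with the even bits `w` and the odd bits `σ` -/
def weave (w : Real2) (σ : List Bool) : List Bool :=
  pfx (weaveR w fun m => σ.getD m false) (2 * σ.length + 1)

theorem Cl0_pfx_congr {y z : Real2} {k : ℕ} (h : ∀ m < k, y m = z m) : pfx y k = pfx z k := by
  unfold pfx
  apply List.map_congr_left
  intro m hm
  exact h m (List.mem_range.mp hm)

theorem weave_pfx (w e : Real2) (k : ℕ) : weave w (pfx e k) = pfx (weaveR w e) (2 * k + 1) := by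
  unfold weave
  rw [pfx_length]
  apply Cl0_pfx_congr
  intro m hm
  unfold weaveR
  split_ifs with h
  · rfl
  · exact pfx_getD e k (m / 2) (by omega)

theorem weave_step (w : Real2) (σ : List Bool) (b : Bool) :
    weave w σ ++ [b] <+: weave w (σ ++ [b]) := by
  have h1 : weave w (σ ++ [b]) =
      pfx (weaveR w fun m => (σ ++ [b]).getD m false) (2 * σ.length + 1 + 1 + 1) := by
    unfold weave
    rw [List.length_append, List.length_singleton]
    congr 1
  have h2 : weave w σ = pfx (weaveR w fun m => (σ ++ [b]).getD m false) (2 * σ.length + 1) := by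
    unfold weave
    apply Cl0_pfx_congr
    intro m hm
    unfold weaveR
    split_ifs with h
    · rfl
    · have hlt : m / 2 < σ.length := by omega
      simp only [List.getD_eq_getElem?_getD]
      rw [List.getElem?_append_left hlt]
  have h3 : weaveR w (fun m => (σ ++ [b]).getD m false) (2 * σ.length + 1) = b := by
    unfold weaveR
    rw [if_neg (by omega)]
    have e : (2 * σ.length + 1) / 2 = σ.length := by omega
    rw [e]
    simp
  rw [h1, pfx_succ, pfx_succ, ← h2, h3]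
  exact List.prefix_append _ _

section
variable (P : LPr)

open Classical in
/-- the real which codes the stages up to `γ` -/
noncomputable def wR (γ : Ordinal.{0}) : Real2 := fun m => decide ((HD P (γ + 1)).wt m)

/-- the embedding of `p`, with the even coordinates equal to the code -/
noncomputable def gth (γ : Ordinal.{0}) (p : Cnd) (σ : List Bool) : List Bool :=
  fc P p (weave (wR P γ) σ)

theorem gth_emb {γ : Ordinal.{0}} {p : Cnd} (hE : Emb P p) : EmbF (gth P γ p) := by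
  intro σ b
  unfold gth
  exact (hE.1 _ b).trans (hE.1.mono (weave_step _ σ b))

theorem gth_lim {γ : Ordinal.{0}} {p : Cnd} (hE : Emb P p) (e : Real2) :
    limF (gth P γ p) e = limF (fc P p) (weaveR (wR P γ) e) := by
  apply limF_eq hE.1
  intro k
  have h1 := limF_spec (gth_emb P (γ := γ) hE) e k
  have h2 : gth P γ p (pfx e k) = fc P p (pfx (weaveR (wR P γ) e) (2 * k + 1)) := by
    unfold gth
    rw [weave_pfx]
  have h3 : fc P p (pfx (weaveR (wR P γ) e) k) <+: gth P γ p (pfx e k) := by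
    rw [h2]
    exact hE.1.mono (pfx_mono _ (by omega))
  rw [h1] at h3
  exact prefix_pfx h3

theorem th_iff {γ : Ordinal.{0}} {p : Cnd} (hE : Emb P p) (σ τ : List Bool) :
    (HD P (γ + 1)).th p σ τ ↔ τ = gth P γ p σ := by
  classical
  have hw : ∀ m, wR P γ m = true ↔ (HD P (γ + 1)).wt m := by
    intro m
    unfold wR
    exact decide_eq_true_iff
  have hg : ∀ m < 2 * σ.length + 1, (weave (wR P γ) σ).getD m false =
      weaveR (wR P γ) (fun m => σ.getD m false) m := by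
    intro m hm
    unfold weave
    exact pfx_getD _ _ m hm
  have hl : (weave (wR P γ) σ).length = 2 * σ.length + 1 := by
    unfold weave
    exact pfx_length _ _
  constructor
  · rintro ⟨u, hu, h1, h2⟩
    have hphi : (GG P).phi p u τ := h2
    rw [hE.2] at hphi
    have hu' : u = weave (wR P γ) σ := by
      apply List.ext_getElem (by rw [hu, hl])
      intro m hm hm'
      have e1 : u.getD m false = u[m] := by
        rw [List.getD_eq_getElem?_getD, List.getElem?_eq_getElem hm]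
        rfl
      have e2 : (weave (wR P γ) σ).getD m false = (weave (wR P γ) σ)[m] := by
        rw [List.getD_eq_getElem?_getD, List.getElem?_eq_getElem hm']
        rfl
      rw [← e1, ← e2, hg m (by omega)]
      unfold weaveR
      split_ifs with h
      · have := (h1 m hm).1 h
        rw [Bool.eq_iff_iff, this, hw]
      · exact (h1 m hm).2 (by omega)
    rw [hphi, hu']
    rfl
  · intro h
    refine ⟨weave (wR P γ) σ, hl, ?_, ?_⟩
    · intro m hm
      rw [hg m (by omega)]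
      unfold weaveR
      constructor
      · intro h0
        rw [if_pos h0]
        exact hw _
      · intro h0
        rw [if_neg (by omega)]
    · show (GG P).phi p _ τ
      rw [hE.2]
      exact h

end

end Pool.Agent.Helper25.EV

/-!
# The recursion of the forcing table

MODULE C1.  See `Hs.RR`, `Hs.row`.  The row of the stage `α` only uses the rows of smaller stages (`row P c T α ...` depends on `T α'` for `α' < α` only: `sc α' α` gives `α' < α`).  A family `T` as in the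
definition of `RR` exists (well-founded recursion) and two such families agree up to `α` (induction).
-/

set_option autoImplicit false

namespace Pool.Agent.Helper25.EV

open Ordinal Encodable

section
variable (P : LPr)

/-- the forcing table as a family of sets -/
def TT (γ : Ordinal.{0}) (p : Cnd) (α : Ordinal.{0}) : Set ℕ :=
  {m | ∃ z σ n i, m = Hs.enF z σ n i ∧ (HD P (γ + 1)).RR P p α z σ n i}

theorem enF_inj {z z' : Bool} {σ σ' : List Bool} {n n' : ℕ} {i i' : Bool}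
    (h : Hs.enF z σ n i = Hs.enF z' σ' n' i') : z = z' ∧ σ = σ' ∧ n = n' ∧ i = i' := by
  have := Encodable.encode_injective h
  simp only [Prod.mk.injEq] at this
  exact ⟨this.1, this.2.1, this.2.2.1, this.2.2.2⟩

/-- the row of the stage `α` only uses the rows of smaller stages -/
theorem C1_row_imp {γ : Ordinal.{0}} {p : Cnd} {α : Ordinal.{0}} {T T' : Ordinal.{0} → Set ℕ}
    (h : ∀ α' < α, T α' = T' α') (z : Bool) (σ : List Bool) (n : ℕ) (i : Bool)
    (hr : (HD P (γ + 1)).row P p T α z σ n i) : (HD P (γ + 1)).row P p T' α z σ n i := by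
  have hZ : ∀ (σ : List Bool),
      (∃ β, (HD P (γ + 1)).D β ∧ (HD P (γ + 1)).lt β α ∧ ∀ α', (HD P (γ + 1)).D α' →
        (HD P (γ + 1)).le β α' → (HD P (γ + 1)).lt α' α → ∀ τ, σ <+: τ →
        Hs.enF false τ n true ∉ T α') ↔
      (∃ β, (HD P (γ + 1)).D β ∧ (HD P (γ + 1)).lt β α ∧ ∀ α', (HD P (γ + 1)).D α' →
        (HD P (γ + 1)).le β α' → (HD P (γ + 1)).lt α' α → ∀ τ, σ <+: τ →
        Hs.enF false τ n true ∉ T' α') := by
    intro σ
    constructor
    · rintro ⟨β, h1, h2, h3⟩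
      refine ⟨β, h1, h2, fun α' h4 h5 h6 τ h7 => ?_⟩
      rw [← h α' h6]
      exact h3 α' h4 h5 h6 τ h7
    · rintro ⟨β, h1, h2, h3⟩
      refine ⟨β, h1, h2, fun α' h4 h5 h6 τ h7 => ?_⟩
      rw [h α' h6]
      exact h3 α' h4 h5 h6 τ h7
  unfold Hs.row at hr ⊢
  rcases hr with ⟨h1, h2, h3⟩ | ⟨h1, h2⟩
  · refine Or.inl ⟨h1, h2, ?_⟩
    rcases h3 with ⟨h3, h4⟩ | ⟨h3, h4⟩
    · exact Or.inl ⟨h3, (hZ _).mp h4⟩
    · exact Or.inr ⟨h3, fun τ hτ hτ' => h4 τ hτ ((hZ _).mpr hτ')⟩
  · refine Or.inr ⟨h1, ?_⟩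
    rcases h2 with ⟨n', hn, h3⟩ | h2
    · refine Or.inl ⟨n', hn, ?_⟩
      rcases h3 with h3 | ⟨α', hsc, v, hv1, hv2, hv3⟩ | ⟨h3, h4⟩
      · exact Or.inl h3
      · refine Or.inr (Or.inl ⟨α', hsc, v, hv1, ?_, hv3⟩)
        intro j hj
        have hlt : α' < α := hsc.2.2.1
        rw [← h α' hlt]
        exact hv2 j hj
      · refine Or.inr (Or.inr ⟨h3, ?_⟩)
        rcases h4 with h4 | ⟨h4, ⟨h5, h6⟩ | ⟨h5, h6⟩⟩
        · exact Or.inl h4
        · exact Or.inr ⟨h4, Or.inl ⟨h5, (hZ _).mp h6⟩⟩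
        · exact Or.inr ⟨h4, Or.inr ⟨h5, fun τ hτ hτ' => h6 τ hτ ((hZ _).mpr hτ')⟩⟩
    · exact Or.inr h2

theorem C1_row_congr {γ : Ordinal.{0}} {p : Cnd} {α : Ordinal.{0}} {T T' : Ordinal.{0} → Set ℕ}
    (h : ∀ α' < α, T α' = T' α') (z : Bool) (σ : List Bool) (n : ℕ) (i : Bool) :
    (HD P (γ + 1)).row P p T α z σ n i ↔ (HD P (γ + 1)).row P p T' α z σ n i :=
  ⟨C1_row_imp P h z σ n i, C1_row_imp P (fun α' hα' => (h α' hα').symm) z σ n i⟩

/-- the family of the rows, by recursion -/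
noncomputable def C1_fam (γ : Ordinal.{0}) (p : Cnd) : Ordinal.{0} → Set ℕ :=
  WellFounded.fix Ordinal.lt_wf fun α ih =>
    {m | ∃ z σ n i, m = Hs.enF z σ n i ∧
      (HD P (γ + 1)).row P p (fun α' => {m | ∃ h : α' < α, m ∈ ih α' h}) α z σ n i}

theorem C1_fam_mem (γ : Ordinal.{0}) (p : Cnd) (α : Ordinal.{0}) (m : ℕ) :
    m ∈ C1_fam P γ p α ↔ ∃ z σ n i, m = Hs.enF z σ n i ∧
      (HD P (γ + 1)).row P p (C1_fam P γ p) α z σ n i := by
  have h : C1_fam P γ p α = {m | ∃ z σ n i, m = Hs.enF z σ n i ∧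
      (HD P (γ + 1)).row P p (fun α' => {m | ∃ _ : α' < α, m ∈ C1_fam P γ p α'}) α z σ n i} := by
    unfold C1_fam
    rw [WellFounded.fix_eq]
  rw [h]
  constructor
  · rintro ⟨z, σ, n, i, h1, h2⟩
    refine ⟨z, σ, n, i, h1, (C1_row_congr P ?_ z σ n i).mp h2⟩
    intro α' hα'
    ext m
    exact ⟨fun ⟨_, h⟩ => h, fun h => ⟨hα', h⟩⟩
  · rintro ⟨z, σ, n, i, h1, h2⟩
    refine ⟨z, σ, n, i, h1, (C1_row_congr P ?_ z σ n i).mpr h2⟩
    intro α' hα'
    ext m
    exact ⟨fun ⟨_, h⟩ => h, fun h => ⟨hα', h⟩⟩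

/-- uniqueness of the family -/
theorem C1_fam_uniq {γ : Ordinal.{0}} {p : Cnd} {α : Ordinal.{0}} (hα : α ≤ γ)
    {T : Ordinal.{0} → Set ℕ}
    (hT : ∀ α', (HD P (γ + 1)).D α' → (HD P (γ + 1)).le α' α → ∀ m, m ∈ T α' ↔
      ∃ z σ n i, m = Hs.enF z σ n i ∧ (HD P (γ + 1)).row P p T α' z σ n i) :
    ∀ α' ≤ α, T α' = C1_fam P γ p α' := by
  intro α'
  induction α' using WellFounded.induction Ordinal.lt_wf with
  | _ α' ih =>
    intro hle
    have hrows : ∀ α'' < α', T α'' = C1_fam P γ p α'' :=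
      fun α'' h => ih α'' h (le_of_lt (lt_of_lt_of_le h hle))
    ext m
    rw [hT α' (show α' < γ + 1 from Order.lt_add_one_iff.mpr (hle.trans hα))
      ((le_HD P _ _ _).mpr hle), C1_fam_mem]
    constructor
    · rintro ⟨z, σ, n, i, h1, h2⟩
      exact ⟨z, σ, n, i, h1, (C1_row_congr P hrows z σ n i).mp h2⟩
    · rintro ⟨z, σ, n, i, h1, h2⟩
      exact ⟨z, σ, n, i, h1, (C1_row_congr P hrows z σ n i).mpr h2⟩

theorem C1_RR_iff {γ : Ordinal.{0}} {p : Cnd} {α : Ordinal.{0}} (hα : α ≤ γ) (z : Bool)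
    (σ : List Bool) (n : ℕ) (i : Bool) :
    (HD P (γ + 1)).RR P p α z σ n i ↔ Hs.enF z σ n i ∈ C1_fam P γ p α := by
  constructor
  · rintro ⟨T, hT, h⟩
    rw [C1_fam_uniq P hα hT α le_rfl] at h
    exact h
  · intro h
    exact ⟨C1_fam P γ p, fun α' _ _ m => C1_fam_mem P γ p α' m, h⟩

theorem C1_TT_eq {γ : Ordinal.{0}} {p : Cnd} {α : Ordinal.{0}} (hα : α ≤ γ) :
    TT P γ p α = C1_fam P γ p α := by
  ext m
  constructor
  · rintro ⟨z, σ, n, i, h1, h2⟩
    rw [h1]
    exact (C1_RR_iff P hα z σ n i).mp h2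
  · intro h
    obtain ⟨z, σ, n, i, h1, _⟩ := (C1_fam_mem P γ p α m).mp h
    rw [h1] at h
    exact ⟨z, σ, n, i, h1, (C1_RR_iff P hα z σ n i).mpr h⟩

/-- the recursion equation of the forcing table -/
theorem RR_rec {γ : Ordinal.{0}} {p : Cnd} {α : Ordinal.{0}} (hα : α ≤ γ) (z : Bool)
    (σ : List Bool) (n : ℕ) (i : Bool) :
    (HD P (γ + 1)).RR P p α z σ n i ↔ (HD P (γ + 1)).row P p (TT P γ p) α z σ n i := by
  rw [C1_RR_iff P hα, C1_fam_mem]
  have hc : ∀ α' < α, C1_fam P γ p α' = TT P γ p α' :=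
    fun α' h => (C1_TT_eq P ((le_of_lt h).trans hα)).symm
  constructor
  · rintro ⟨z', σ', n', i', h1, h2⟩
    obtain ⟨rfl, rfl, rfl, rfl⟩ := enF_inj h1
    exact (C1_row_congr P hc _ _ _ _).mp h2
  · intro h
    exact ⟨z, σ, n, i, rfl, (C1_row_congr P hc _ _ _ _).mpr h⟩

end

end Pool.Agent.Helper25.EV

/-!
# The rows of the forcing table

MODULE C2.  Unfold `row` in `RR_rec` with the bridges `limAt_HD`, `isMin_HD`, `sc_HD`, `th_iff`; separate the kinds of cells by parity (`2 * n` and `2 * encode κ + 1`; `encode` injective).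
-/

set_option autoImplicit false

namespace Pool.Agent.Helper25.EV

open Ordinal Encodable

section
variable (P : LPr)

/-- `Zt`: from some stage below `α` on nothing below `σ` forces that the cell `n` is on -/
def ZT (γ : Ordinal.{0}) (p : Cnd) (α : Ordinal.{0}) (σ : List Bool) (n : ℕ) : Prop :=
  ∃ β < α, ∀ α', β ≤ α' → α' < α → ∀ τ, σ <+: τ → ¬ (HD P (γ + 1)).RR P p α' false τ n true

theorem C2_mem {γ : Ordinal.{0}} {p : Cnd} {α : Ordinal.{0}} {z : Bool} {σ : List Bool} {n : ℕ}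
    {i : Bool} : Hs.enF z σ n i ∈ TT P γ p α ↔ (HD P (γ + 1)).RR P p α z σ n i := by
  constructor
  · rintro ⟨z', σ', n', i', h, h'⟩
    obtain ⟨rfl, rfl, rfl, rfl⟩ := enF_inj h
    exact h'
  · intro h
    exact ⟨_, _, _, _, rfl, h⟩

theorem C2_Zt {γ : Ordinal.{0}} {p : Cnd} {α : Ordinal.{0}} (hα : α ≤ γ) (σ : List Bool) (n : ℕ) :
    (∃ β, (HD P (γ + 1)).D β ∧ (HD P (γ + 1)).lt β α ∧ ∀ α', (HD P (γ + 1)).D α' →
      (HD P (γ + 1)).le β α' → (HD P (γ + 1)).lt α' α → ∀ τ, σ <+: τ →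
      ¬ (HD P (γ + 1)).RR P p α' false τ n true) ↔ ZT P γ p α σ n := by
  have hlt : α < γ + 1 := Order.lt_add_one_iff.mpr hα
  constructor
  · rintro ⟨β, h1, h2, h3⟩
    exact ⟨β, h2, fun α' h4 h5 τ h6 h7 => h3 α' (lt_trans h5 hlt) ((le_HD P _ _ _).mpr h4) h5 τ h6
      h7⟩
  · rintro ⟨β, h2, h3⟩
    exact ⟨β, lt_trans h2 hlt, h2, fun α' h1 h4 h5 τ h6 h7 => h3 α' ((le_HD P _ _ _).mp h4) h5 τ h6
      h7⟩

/-- the row, with ordinals -/
theorem C2_row {γ : Ordinal.{0}} {p : Cnd} {α : Ordinal.{0}} (hα : α ≤ γ) (z : Bool)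
    (σ : List Bool) (n : ℕ) (i : Bool) : (HD P (γ + 1)).RR P p α z σ n i ↔
    (z = true ∧ Order.IsSuccLimit α ∧ ((i = true ∧ ZT P γ p α σ n) ∨
      (i = false ∧ ∀ τ, σ <+: τ → ¬ ZT P γ p α τ n))) ∨
    (z = false ∧
      ((∃ n', n = 2 * n' ∧
        ((α = 0 ∧ ((∃ k, P.ini n' = Sum.inl k ∧ ∃ τ, (HD P (γ + 1)).th p σ τ ∧ k < τ.length ∧
            τ.getD k false = i) ∨ P.ini n' = Sum.inr i)) ∨
         (∃ α', α = α' + 1 ∧ ∃ v : List Bool, v.length = (P.nb n').length ∧
            (∀ j < v.length, (HD P (γ + 1)).RR P p α' false σ (2 * (P.nb n').getD j 0)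
              (v.getD j false)) ∧ P.ev n' v = i) ∨
         (Order.IsSuccLimit α ∧ (P.rs n' = some i ∨ (P.rs n' = none ∧
            ((i = false ∧ ZT P γ p α σ n) ∨ (i = true ∧ ∀ τ, σ <+: τ → ¬ ZT P γ p α τ n))))))) ∨
      (∃ κ : List Bool × ℕ × ℕ × List Bool × ℕ, n = 2 * encode κ + 1 ∧
        ((i = true ∧ ∀ σ' τ, σ <+: σ' → (HD P (γ + 1)).th p σ' τ →
            (HD P (γ + 1)).inK α κ τ) ∨
         (i = false ∧ ∃ τ, (HD P (γ + 1)).th p σ τ ∧ ¬ (HD P (γ + 1)).inK α κ τ))) ∨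
      ((¬ ∃ n', n = 2 * n') ∧
        (¬ ∃ κ : List Bool × ℕ × ℕ × List Bool × ℕ, n = 2 * encode κ + 1) ∧ i = false))) := by
  have hlt : α < γ + 1 := Order.lt_add_one_iff.mpr hα
  have e1 : (HD P (γ + 1)).limAt α ↔ Order.IsSuccLimit α := by
    rw [limAt_HD]
    exact ⟨fun h => h.2, fun h => ⟨hlt, h⟩⟩
  have e2 : (HD P (γ + 1)).isMin α ↔ α = 0 := by
    rw [isMin_HD]
    refine ⟨fun h => h.1, fun h => ⟨h, ?_⟩⟩
    rw [← h]
    exact hlt
  have e3 : ∀ α', (HD P (γ + 1)).sc α' α ↔ α = α' + 1 := by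
    intro α'
    rw [sc_HD]
    exact ⟨fun h => h.1, fun h => ⟨h, hlt⟩⟩
  rw [RR_rec P hα]
  unfold Hs.row
  simp only [e1, e2, e3, C2_mem, C2_Zt P hα]

/-- the rows with `z = true` -/
theorem RR_z {γ : Ordinal.{0}} {p : Cnd} {α : Ordinal.{0}} (hα : α ≤ γ) (σ : List Bool) (n : ℕ)
    (i : Bool) : (HD P (γ + 1)).RR P p α true σ n i ↔ Order.IsSuccLimit α ∧
      ((i = true ∧ ZT P γ p α σ n) ∨ (i = false ∧ ∀ τ, σ <+: τ → ¬ ZT P γ p α τ n)) := by
  rw [C2_row P hα]
  constructor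
  · rintro (⟨_, h⟩ | ⟨h, _⟩)
    · exact h
    · exact absurd h (by simp)
  · intro h
    exact Or.inl ⟨rfl, h⟩

/-- local cells, all stages -/
theorem C2_loc {γ : Ordinal.{0}} {p : Cnd} {α : Ordinal.{0}} (hα : α ≤ γ)
    (σ : List Bool) (n : ℕ) (i : Bool) : (HD P (γ + 1)).RR P p α false σ (2 * n) i ↔
        ((α = 0 ∧ ((∃ k, P.ini n = Sum.inl k ∧ ∃ τ, (HD P (γ + 1)).th p σ τ ∧ k < τ.length ∧
            τ.getD k false = i) ∨ P.ini n = Sum.inr i)) ∨
         (∃ α', α = α' + 1 ∧ ∃ v : List Bool, v.length = (P.nb n).length ∧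
            (∀ j < v.length, (HD P (γ + 1)).RR P p α' false σ (2 * (P.nb n).getD j 0)
              (v.getD j false)) ∧ P.ev n v = i) ∨
         (Order.IsSuccLimit α ∧ (P.rs n = some i ∨ (P.rs n = none ∧
            ((i = false ∧ ZT P γ p α σ (2 * n)) ∨
              (i = true ∧ ∀ τ, σ <+: τ → ¬ ZT P γ p α τ (2 * n))))))) := by
  rw [C2_row P hα]
  constructor
  · rintro (⟨h, _⟩ | ⟨_, ⟨n', h, h'⟩ | ⟨κ, h, _⟩ | ⟨h, _⟩⟩)
    · exact absurd h (by simp)
    · have : n' = n := by omega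
      subst this
      exact h'
    · exfalso
      omega
    · exact absurd ⟨n, rfl⟩ h
  · intro h
    exact Or.inr ⟨rfl, Or.inl ⟨n, rfl, h⟩⟩

theorem C2_not_lim_zero : ¬ Order.IsSuccLimit (0 : Ordinal.{0}) := fun h =>
  absurd h.bot_lt (by simp)

theorem C2_not_lim_succ (α : Ordinal.{0}) : ¬ Order.IsSuccLimit (α + 1) := fun h => by
  have h1 : α < α + 1 := Order.lt_add_one_iff.mpr le_rfl
  exact absurd (h.succ_lt h1) (lt_irrefl _)

theorem C2_succ_ne (α : Ordinal.{0}) : α + 1 ≠ 0 := by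
  intro h
  have h1 : α < α + 1 := Order.lt_add_one_iff.mpr le_rfl
  rw [h] at h1
  exact absurd h1 (by simp)

theorem C2_succ_inj {α β : Ordinal.{0}} (h : α + 1 = β + 1) : α = β := by
  have h1 : Order.succ α = Order.succ β := h
  exact Order.succ_injective h1

/-- local cells at the stage `0` -/
theorem RR_l0 {γ : Ordinal.{0}} {p : Cnd} (hE : Emb P p) (σ : List Bool) (n : ℕ) (i : Bool) :
    (HD P (γ + 1)).RR P p 0 false σ (2 * n) i ↔
      (∃ k, P.ini n = Sum.inl k ∧ k < (gth P γ p σ).length ∧ (gth P γ p σ).getD k false = i) ∨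
      P.ini n = Sum.inr i := by
  rw [C2_loc P (by simp)]
  constructor
  · rintro (⟨_, h⟩ | ⟨α', h, _⟩ | ⟨h, _⟩)
    · rcases h with ⟨k, h1, τ, h2, h3, h4⟩ | h
      · rw [th_iff P hE] at h2
        subst h2
        exact Or.inl ⟨k, h1, h3, h4⟩
      · exact Or.inr h
    · exact absurd h.symm (C2_succ_ne α')
    · exact absurd h C2_not_lim_zero
  · rintro (⟨k, h1, h3, h4⟩ | h)
    · exact Or.inl ⟨rfl, Or.inl ⟨k, h1, _, (th_iff P hE _ _).mpr rfl, h3, h4⟩⟩
    · exact Or.inl ⟨rfl, Or.inr h⟩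

/-- local cells at successor stages -/
theorem RR_ls {γ : Ordinal.{0}} {p : Cnd} {α : Ordinal.{0}} (hα : α + 1 ≤ γ) (σ : List Bool) (n : ℕ)
    (i : Bool) : (HD P (γ + 1)).RR P p (α + 1) false σ (2 * n) i ↔
      ∃ v : List Bool, v.length = (P.nb n).length ∧
        (∀ j < v.length, (HD P (γ + 1)).RR P p α false σ (2 * (P.nb n).getD j 0)
          (v.getD j false)) ∧ P.ev n v = i := by
  rw [C2_loc P hα]
  constructor
  · rintro (⟨h, _⟩ | ⟨α', h, h'⟩ | ⟨h, _⟩)
    · exact absurd h (C2_succ_ne α)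
    · have h1 := C2_succ_inj h
      subst h1
      exact h'
    · exact absurd h (C2_not_lim_succ α)
  · intro h
    exact Or.inr (Or.inl ⟨α, rfl, h⟩)

/-- local cells at limit stages -/
theorem RR_ll {γ : Ordinal.{0}} {p : Cnd} {α : Ordinal.{0}} (hα : α ≤ γ)
    (hl : Order.IsSuccLimit α) (σ : List Bool) (n : ℕ)
    (i : Bool) : (HD P (γ + 1)).RR P p α false σ (2 * n) i ↔
      (P.rs n = some i ∨ (P.rs n = none ∧
        ((i = false ∧ ZT P γ p α σ (2 * n)) ∨
          (i = true ∧ ∀ τ, σ <+: τ → ¬ ZT P γ p α τ (2 * n))))) := by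
  rw [C2_loc P hα]
  constructor
  · rintro (⟨h, _⟩ | ⟨α', h, h'⟩ | ⟨_, h⟩)
    · subst h
      exact absurd hl C2_not_lim_zero
    · subst h
      exact absurd hl (C2_not_lim_succ α')
    · exact h
  · intro h
    exact Or.inr (Or.inr ⟨hl, h⟩)

/-- `K`-cells -/
theorem RR_K {γ : Ordinal.{0}} {p : Cnd} (hE : Emb P p) {α : Ordinal.{0}} (hα : α ≤ γ)
    (σ : List Bool) (κ : List Bool × ℕ × ℕ × List Bool × ℕ)
    (i : Bool) : (HD P (γ + 1)).RR P p α false σ (2 * encode κ + 1) i ↔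
      ((i = true ∧ ∀ σ', σ <+: σ' → (HD P (γ + 1)).inK α κ (gth P γ p σ')) ∨
       (i = false ∧ ¬ (HD P (γ + 1)).inK α κ (gth P γ p σ))) := by
  rw [C2_row P hα]
  constructor
  · rintro (⟨h, _⟩ | ⟨_, ⟨n', h, h'⟩ | ⟨κ', h, h'⟩ | ⟨_, h, _⟩⟩)
    · exact absurd h (by simp)
    · exfalso
      omega
    · have h1 : encode κ = encode κ' := by omega
      have h2 := Encodable.encode_injective h1
      subst h2
      rcases h' with ⟨h3, h4⟩ | ⟨h3, τ, h4, h5⟩
      · exact Or.inl ⟨h3, fun σ' hσ => h4 σ' _ hσ ((th_iff P hE _ _).mpr rfl)⟩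
      · rw [th_iff P hE] at h4
        subst h4
        exact Or.inr ⟨h3, h5⟩
    · exact absurd ⟨κ, rfl⟩ h
  · intro h
    refine Or.inr ⟨rfl, Or.inr (Or.inl ⟨κ, rfl, ?_⟩)⟩
    rcases h with ⟨h1, h2⟩ | ⟨h1, h2⟩
    · refine Or.inl ⟨h1, fun σ' τ hσ hτ => ?_⟩
      rw [th_iff P hE] at hτ
      subst hτ
      exact h2 σ' hσ
    · exact Or.inr ⟨h1, _, (th_iff P hE _ _).mpr rfl, h2⟩

/-- other cells -/
theorem RR_o {γ : Ordinal.{0}} {p : Cnd} {α : Ordinal.{0}} (hα : α ≤ γ)
    (σ : List Bool) (n : ℕ) (h1 : ¬ ∃ n', n = 2 * n')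
    (h2 : ¬ ∃ κ : List Bool × ℕ × ℕ × List Bool × ℕ, n = 2 * encode κ + 1) (i : Bool) :
    (HD P (γ + 1)).RR P p α false σ n i ↔ i = false := by
  rw [C2_row P hα]
  constructor
  · rintro (⟨h, _⟩ | ⟨_, ⟨n', h, _⟩ | ⟨κ', h, _⟩ | ⟨_, _, h⟩⟩)
    · exact absurd h (by simp)
    · exact absurd ⟨n', h⟩ h1
    · exact absurd ⟨κ', h⟩ h2
    · exact h
  · intro h
    exact Or.inr ⟨rfl, Or.inr (Or.inr ⟨h1, h2, h⟩)⟩

end

end Pool.Agent.Helper25.EV

/-!
# The forcing table: monotonicity and consistency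

MODULE C3.  Induction on `α`, by kinds of cells (`n = 2 * n'`, `n = 2 * encode κ + 1`, other; `α` zero, successor, limit).
-/

set_option autoImplicit false

namespace Pool.Agent.Helper25.EV

open Ordinal Encodable

section
variable (P : LPr)

theorem Cl2a_ZT {γ : Ordinal.{0}} {p : Cnd} {α : Ordinal.{0}} {σ σ' : List Bool} {n : ℕ}
    (h : ZT P γ p α σ n) (hs : σ <+: σ') : ZT P γ p α σ' n := by
  obtain ⟨β, hβ, h1⟩ := h
  exact ⟨β, hβ, fun α' h2 h3 τ hτ => h1 α' h2 h3 τ (hs.trans hτ)⟩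

theorem Cl2a_inK {A : Type*} (H : Hs A) {a : A} {κ : List Bool × ℕ × ℕ × List Bool × ℕ}
    {s s' : List Bool} (hs : s <+: s') (h : H.inK a κ s') : H.inK a κ s := by
  obtain ⟨b, hb, u, τ, h1, h2, h3⟩ := h
  exact ⟨b, hb, u, τ, h1, hs.trans h2, h3⟩

theorem Cl2a_getD {l l' : List Bool} (h : l <+: l') {k : ℕ} (hk : k < l.length) :
    l'.getD k false = l.getD k false := by
  obtain ⟨t, rfl⟩ := h
  rw [List.getD_append _ _ _ _ hk]

/-- monotonicity for the rows with `z = true` -/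
theorem Cl2a_mon_z {γ : Ordinal.{0}} {p : Cnd} {α : Ordinal.{0}} (hα : α ≤ γ)
    {σ σ' : List Bool} {n : ℕ} {i : Bool} (h : (HD P (γ + 1)).RR P p α true σ n i)
    (hs : σ <+: σ') : (HD P (γ + 1)).RR P p α true σ' n i := by
  rw [RR_z P hα] at h ⊢
  obtain ⟨hl, h | h⟩ := h
  · exact ⟨hl, Or.inl ⟨h.1, Cl2a_ZT P h.2 hs⟩⟩
  · exact ⟨hl, Or.inr ⟨h.1, fun τ hτ => h.2 τ (hs.trans hτ)⟩⟩

theorem RR_mon {γ : Ordinal.{0}} {p : Cnd} (hE : Emb P p) {α : Ordinal.{0}} (hα : α ≤ γ)
    {z : Bool} {σ σ' : List Bool} {n : ℕ} {i : Bool} (h : (HD P (γ + 1)).RR P p α z σ n i)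
    (hs : σ <+: σ') : (HD P (γ + 1)).RR P p α z σ' n i := by
  cases z with
  | true => exact Cl2a_mon_z P hα h hs
  | false =>
    have hg : gth P γ p σ <+: gth P γ p σ' := (gth_emb P hE).mono hs
    by_cases h1 : ∃ n', n = 2 * n'
    · obtain ⟨n', rfl⟩ := h1
      induction α using Ordinal.limitRecOn generalizing n' i with
      | zero =>
        rw [RR_l0 P hE] at h ⊢
        rcases h with ⟨k, h1, h2, h3⟩ | h
        · refine Or.inl ⟨k, h1, h2.trans_le hg.length_le, ?_⟩
          rw [Cl2a_getD hg h2]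
          exact h3
        · exact Or.inr h
      | add_one α ih =>
        rw [RR_ls P hα] at h ⊢
        obtain ⟨v, h1, h2, h3⟩ := h
        refine ⟨v, h1, fun j hj => ?_, h3⟩
        exact ih (le_trans (Order.le_succ α) (by rwa [Order.succ_eq_add_one])) _ (h2 j hj)
      | limit α hl ih =>
        rw [RR_ll P hα hl] at h ⊢
        rcases h with h | ⟨h1, h2 | h2⟩
        · exact Or.inl h
        · exact Or.inr ⟨h1, Or.inl ⟨h2.1, Cl2a_ZT P h2.2 hs⟩⟩
        · exact Or.inr ⟨h1, Or.inr ⟨h2.1, fun τ hτ => h2.2 τ (hs.trans hτ)⟩⟩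
    · by_cases h2 : ∃ κ : List Bool × ℕ × ℕ × List Bool × ℕ, n = 2 * encode κ + 1
      · obtain ⟨κ, rfl⟩ := h2
        rw [RR_K P hE hα] at h ⊢
        rcases h with h | h
        · exact Or.inl ⟨h.1, fun τ hτ => h.2 τ (hs.trans hτ)⟩
        · exact Or.inr ⟨h.1, fun h3 => h.2 (Cl2a_inK _ hg h3)⟩
      · rw [RR_o P hα _ _ h1 h2] at h ⊢
        exact h

theorem RR_cons {γ : Ordinal.{0}} {p : Cnd} (hE : Emb P p) {α : Ordinal.{0}} (hα : α ≤ γ)
    {z : Bool} {σ : List Bool} {n : ℕ} (h : (HD P (γ + 1)).RR P p α z σ n true)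
    (h' : (HD P (γ + 1)).RR P p α z σ n false) : False := by
  cases z with
  | true =>
    rw [RR_z P hα] at h h'
    obtain ⟨-, ⟨-, h⟩ | ⟨h, -⟩⟩ := h
    · obtain ⟨-, ⟨h', -⟩ | ⟨-, h'⟩⟩ := h'
      · cases h'
      · exact h' σ (List.prefix_refl σ) h
    · cases h
  | false =>
    by_cases h1 : ∃ n', n = 2 * n'
    · obtain ⟨n', rfl⟩ := h1
      induction α using Ordinal.limitRecOn generalizing n' with
      | zero =>
        rw [RR_l0 P hE] at h h'
        rcases h with ⟨k, h1, h2, h3⟩ | h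
        · rcases h' with ⟨k', h1', h2', h3'⟩ | h'
          · rw [h1] at h1'
            have e := Sum.inl.inj h1'
            subst e
            rw [h3] at h3'
            cases h3'
          · rw [h1] at h'
            cases h'
        · rcases h' with ⟨k', h1', h2', h3'⟩ | h'
          · rw [h] at h1'
            cases h1'
          · rw [h] at h'
            have e := Sum.inr.inj h'
            cases e
      | add_one α ih =>
        rw [RR_ls P hα] at h h'
        obtain ⟨v, h1, h2, h3⟩ := h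
        obtain ⟨v', h1', h2', h3'⟩ := h'
        have hα' : α ≤ γ := le_trans (Order.le_succ α) (by rwa [Order.succ_eq_add_one])
        have e : v = v' := by
          apply List.ext_getElem (by rw [h1, h1'])
          intro j hj hj'
          have g1 := h2 j hj
          have g2 := h2' j hj'
          rw [List.getD_eq_getElem _ _ hj] at g1
          rw [List.getD_eq_getElem _ _ hj'] at g2
          rcases hv : v[j] with _ | _ <;> rcases hv' : v'[j] with _ | _
          · rfl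
          · rw [hv] at g1
            rw [hv'] at g2
            exact (ih hα' _ g2 g1).elim
          · rw [hv] at g1
            rw [hv'] at g2
            exact (ih hα' _ g1 g2).elim
          · rfl
        rw [e, h3'] at h3
        cases h3
      | limit α hl ih =>
        rw [RR_ll P hα hl] at h h'
        rcases h with h | ⟨h1, h2 | h2⟩
        · rcases h' with h' | ⟨h1', -⟩
          · rw [h] at h'
            cases h'
          · rw [h] at h1'
            cases h1'
        · cases h2.1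
        · rcases h' with h' | ⟨h1', h2' | h2'⟩
          · rw [h1] at h'
            cases h'
          · exact h2.2 σ (List.prefix_refl σ) h2'.2
          · cases h2'.1
    · by_cases h2 : ∃ κ : List Bool × ℕ × ℕ × List Bool × ℕ, n = 2 * encode κ + 1
      · obtain ⟨κ, rfl⟩ := h2
        rw [RR_K P hE hα] at h h'
        rcases h with h | h
        · rcases h' with h' | h'
          · cases h'.1
          · exact h'.2 (h.2 σ (List.prefix_refl σ))
        · cases h.1
      · rw [RR_o P hα _ _ h1 h2] at h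
        cases h

end

end Pool.Agent.Helper25.EV

/-!
# The forcing table: density

MODULE C4.  `RR_dense`: successor: extend successively for the finitely many neighbours (`RR_mon`); limit: if some `τ ⊇ σ` has `ZT` take it, otherwise `σ` itself; `K`-cells: if some extension leaves the tree take
it, otherwise `σ`.  `RR_dense2`: if `¬ ZT τ` for all `τ ⊇ σ`, then `¬ ZT σ` for `β` gives `α'` and `τ ⊇ σ` with `RR α' false τ n true`.  `gth_dense3`: `gth (σ ++ [false])` and `gth (σ ++ [true])` are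
incompatible.  `dk_dense`: `Hs.dk`; at most one of the four kinds applies, the numbers determine the stages (`num_inj`, `numD_eq`).
-/

set_option autoImplicit false

namespace Pool.Agent.Helper25.EV

open Ordinal Encodable

section
variable (P : LPr)

/-- a common extension for finitely many cells -/
theorem C4_list {γ : Ordinal.{0}} {p : Cnd} (hE : Emb P p) {α : Ordinal.{0}} (hα : α ≤ γ)
    (ih : ∀ (σ : List Bool) (n : ℕ), ∃ σ', σ <+: σ' ∧
      ∃ i, (HD P (γ + 1)).RR P p α false σ' n i) (L : List ℕ) :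
    ∀ σ : List Bool, ∃ σ', σ <+: σ' ∧ ∀ m ∈ L, ∃ i, (HD P (γ + 1)).RR P p α false σ' (2 * m) i := by
  induction L with
  | nil => exact fun σ => ⟨σ, List.prefix_rfl, by simp⟩
  | cons a L ihL =>
    intro σ
    obtain ⟨σ₁, h1, h2⟩ := ihL σ
    obtain ⟨σ₂, h3, i, h4⟩ := ih σ₁ (2 * a)
    refine ⟨σ₂, h1.trans h3, ?_⟩
    intro m hm
    rcases List.mem_cons.1 hm with rfl | hm
    · exact ⟨i, h4⟩
    · obtain ⟨j, hj⟩ := h2 m hm
      exact ⟨j, RR_mon P hE hα hj h3⟩

/-- local cells -/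
theorem C4_loc {γ : Ordinal.{0}} {p : Cnd} (hE : Emb P p) : ∀ {α : Ordinal.{0}}, α ≤ γ →
    (∀ α' < α, ∀ (σ : List Bool) (n : ℕ), ∃ σ', σ <+: σ' ∧
      ∃ i, (HD P (γ + 1)).RR P p α' false σ' n i) →
    ∀ (σ : List Bool) (n : ℕ), ∃ σ', σ <+: σ' ∧ ∃ i, (HD P (γ + 1)).RR P p α false σ' (2 * n) i := by
  intro α hα ih σ n
  rcases Ordinal.zero_or_succ_or_isSuccLimit α with h0 | ⟨β, hβ⟩ | hl
  · subst h0
    cases hi : P.ini n with
    | inl k =>
      refine ⟨σ ++ List.replicate (k + 1) false, List.prefix_append _ _,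
        (gth P γ p (σ ++ List.replicate (k + 1) false)).getD k false, ?_⟩
      rw [RR_l0 P hE]
      refine Or.inl ⟨k, hi, ?_, rfl⟩
      have := (gth_emb P (γ := γ) hE).len (σ ++ List.replicate (k + 1) false)
      rw [List.length_append, List.length_replicate] at this
      omega
    | inr b =>
      refine ⟨σ, List.prefix_rfl, b, ?_⟩
      rw [RR_l0 P hE]
      exact Or.inr hi
  · have hβ' : α = β + 1 := by rw [← hβ]; rfl
    subst hβ'
    have hβγ : β ≤ γ := le_trans (le_of_lt (Order.lt_add_one_iff.2 le_rfl)) hα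
    obtain ⟨σ', h1, h2⟩ := C4_list P hE hβγ
      (ih β (Order.lt_add_one_iff.2 le_rfl)) (P.nb n) σ
    classical
    let val : ℕ → Bool := fun m =>
      if h : ∃ i, (HD P (γ + 1)).RR P p β false σ' (2 * m) i then h.choose else false
    have hval : ∀ m ∈ P.nb n, (HD P (γ + 1)).RR P p β false σ' (2 * m) (val m) := by
      intro m hm
      have h := h2 m hm
      have e : val m = h.choose := dif_pos h
      rw [e]
      exact h.choose_spec
    refine ⟨σ', h1, P.ev n ((P.nb n).map val), ?_⟩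
    rw [RR_ls P hα]
    refine ⟨(P.nb n).map val, List.length_map _, ?_, rfl⟩
    intro j hj
    rw [List.length_map] at hj
    have e1 : (P.nb n).getD j 0 = (P.nb n)[j] := by simp [List.getD, hj]
    have e2 : ((P.nb n).map val).getD j false = val ((P.nb n)[j]) := by simp [List.getD, hj]
    rw [e1, e2]
    exact hval _ (List.getElem_mem hj)
  · by_cases hr : ∃ b, P.rs n = some b
    · obtain ⟨b, hb⟩ := hr
      refine ⟨σ, List.prefix_rfl, b, ?_⟩
      rw [RR_ll P hα hl]
      exact Or.inl hb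
    · have hr' : P.rs n = none := by
        cases h : P.rs n with
        | none => rfl
        | some b => exact absurd ⟨b, h⟩ hr
      by_cases hz : ∃ τ, σ <+: τ ∧ ZT P γ p α τ (2 * n)
      · obtain ⟨τ, h1, h2⟩ := hz
        refine ⟨τ, h1, false, ?_⟩
        rw [RR_ll P hα hl]
        exact Or.inr ⟨hr', Or.inl ⟨rfl, h2⟩⟩
      · refine ⟨σ, List.prefix_rfl, true, ?_⟩
        rw [RR_ll P hα hl]
        exact Or.inr ⟨hr', Or.inr ⟨rfl, fun τ h1 h2 => hz ⟨τ, h1, h2⟩⟩⟩

theorem RR_dense {γ : Ordinal.{0}} {p : Cnd} (hE : Emb P p) {α : Ordinal.{0}} (hα : α ≤ γ)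
    (σ : List Bool) (n : ℕ) : ∃ σ', σ <+: σ' ∧ ∃ i, (HD P (γ + 1)).RR P p α false σ' n i := by
  induction α using WellFoundedLT.induction generalizing σ n with
  | ind α ih =>
    by_cases h1 : ∃ n', n = 2 * n'
    · obtain ⟨n', rfl⟩ := h1
      exact C4_loc P hE hα (fun α' h' σ n => ih α' h' (le_trans h'.le hα) σ n) σ n'
    · by_cases h2 : ∃ κ : List Bool × ℕ × ℕ × List Bool × ℕ, n = 2 * encode κ + 1
      · obtain ⟨κ, rfl⟩ := h2
        by_cases h3 : ∃ σ', σ <+: σ' ∧ ¬ (HD P (γ + 1)).inK α κ (gth P γ p σ')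
        · obtain ⟨σ', h4, h5⟩ := h3
          refine ⟨σ', h4, false, ?_⟩
          rw [RR_K P hE hα]
          exact Or.inr ⟨rfl, h5⟩
        · refine ⟨σ, List.prefix_rfl, true, ?_⟩
          rw [RR_K P hE hα]
          refine Or.inl ⟨rfl, fun σ' h4 => ?_⟩
          by_contra h5
          exact h3 ⟨σ', h4, h5⟩
      · refine ⟨σ, List.prefix_rfl, false, ?_⟩
        rw [RR_o P hα σ n h1 h2]

theorem RR_denseZ {γ : Ordinal.{0}} {p : Cnd} {α : Ordinal.{0}} (hα : α ≤ γ)
    (hl : Order.IsSuccLimit α)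
    (σ : List Bool) (n : ℕ) : ∃ σ', σ <+: σ' ∧ ∃ i, (HD P (γ + 1)).RR P p α true σ' n i := by
  by_cases hz : ∃ τ, σ <+: τ ∧ ZT P γ p α τ n
  · obtain ⟨τ, h1, h2⟩ := hz
    refine ⟨τ, h1, true, ?_⟩
    rw [RR_z P hα]
    exact ⟨hl, Or.inl ⟨rfl, h2⟩⟩
  · refine ⟨σ, List.prefix_rfl, false, ?_⟩
    rw [RR_z P hα]
    exact ⟨hl, Or.inr ⟨rfl, fun τ h1 h2 => hz ⟨τ, h1, h2⟩⟩⟩

theorem RR_dense2 {γ : Ordinal.{0}} {p : Cnd} {α β : Ordinal.{0}} (hα : α ≤ γ)
    (hl : Order.IsSuccLimit α) (hβ : β < α)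
    (σ : List Bool) (n : ℕ) : ∃ σ', σ <+: σ' ∧ ((HD P (γ + 1)).RR P p α true σ' n true ∨
      ∃ α', β ≤ α' ∧ α' < α ∧ (HD P (γ + 1)).RR P p α' false σ' n true) := by
  by_cases hz : ZT P γ p α σ n
  · refine ⟨σ, List.prefix_rfl, Or.inl ?_⟩
    rw [RR_z P hα]
    exact ⟨hl, Or.inl ⟨rfl, hz⟩⟩
  · by_contra hcon
    apply hz
    refine ⟨β, hβ, fun α' h1 h2 τ h3 h4 => ?_⟩
    exact hcon ⟨τ, h3, Or.inr ⟨α', h1, h2, h4⟩⟩

/-- avoiding one real -/
theorem gth_dense3 {γ : Ordinal.{0}} {p : Cnd} (hE : Emb P p) (σ : List Bool) (A : ℕ → Prop) :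
    ∃ σ', σ <+: σ' ∧ ∃ m < (gth P γ p σ').length,
      ¬ ((gth P γ p σ').getD m false = true ↔ A m) := by
  classical
  set m := (gth P γ p σ).length with hm
  obtain ⟨t, ht⟩ := gth_emb P (γ := γ) hE σ (decide (¬ A m))
  refine ⟨σ ++ [decide (¬ A m)], List.prefix_append _ _, m, ?_, ?_⟩
  · rw [← ht, List.length_append, List.length_append, List.length_singleton]
    omega
  · rw [← ht]
    have e : (gth P γ p σ ++ [decide (¬ A m)] ++ t).getD m false = decide (¬ A m) := by
      rw [List.append_assoc]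
      simp [List.getD, hm]
    rw [e, decide_eq_true_iff]
    tauto

/-- all the dense sets are dense -/
theorem dk_dense {γ : Ordinal.{0}} (hp : Pre (FD P) (γ + 1)) {p : Cnd} (hE : Emb P p) (k : ℕ)
    (σ : List Bool) : ∃ σ', σ <+: σ' ∧ (HD P (γ + 1)).dk P rlL p k σ' := by
  have hinj : ∀ (a a' : Ordinal.{0}) (q : ℕ), (HD P (γ + 1)).nD a q → (HD P (γ + 1)).nD a' q →
      a = a' := fun a a' q h h' =>
    num_inj P ((numD_eq P (γ + 1) a q).2 h) ((numD_eq P (γ + 1) a' q).2 h')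
  have hle : ∀ a : Ordinal.{0}, a < γ + 1 → a ≤ γ := fun a h => Order.lt_add_one_iff.1 h
  set kind := (Nat.unpair k).1 with hkind
  set q₁ := (Nat.unpair (Nat.unpair k).2).1 with hq₁
  set q₂ := (Nat.unpair (Nat.unpair (Nat.unpair k).2).2).1 with hq₂
  set n := (Nat.unpair (Nat.unpair (Nat.unpair k).2).2).2 with hn
  have key : ∀ σ' : List Bool, (HD P (γ + 1)).dk P rlL p k σ' ↔
      (kind = 0 → ∀ α, (HD P (γ + 1)).D α → (HD P (γ + 1)).nD α q₁ →
        ∃ i, (HD P (γ + 1)).RR P p α false σ' n i) ∧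
      (kind = 1 → ∀ α, (HD P (γ + 1)).limAt α → (HD P (γ + 1)).nD α q₁ →
        ∃ i, (HD P (γ + 1)).RR P p α true σ' n i) ∧
      (kind = 2 → ∀ α β, (HD P (γ + 1)).limAt α → (HD P (γ + 1)).D β →
        (HD P (γ + 1)).lt β α → (HD P (γ + 1)).nD α q₁ → (HD P (γ + 1)).nD β q₂ →
        (HD P (γ + 1)).RR P p α true σ' n true ∨ ∃ α', (HD P (γ + 1)).D α' ∧
          (HD P (γ + 1)).le β α' ∧ (HD P (γ + 1)).lt α' α ∧
          (HD P (γ + 1)).RR P p α' false σ' n true) ∧
      (kind = 3 → ∀ γ', (HD P (γ + 1)).D γ' → (HD P (γ + 1)).nD γ' q₁ →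
        ∃ τ, (HD P (γ + 1)).th p σ' τ ∧ ∃ m < τ.length,
          ¬ (τ.getD m false = true ↔ rlL ((HD P (γ + 1)).lab γ') n m)) := fun σ' => Iff.rfl
  simp only [key]
  rcases Nat.lt_or_ge kind 4 with hk | hk
  · have hk4 : kind = 0 ∨ kind = 1 ∨ kind = 2 ∨ kind = 3 := by omega
    rcases hk4 with h | h | h | h
    · by_cases hex : ∃ α, α < γ + 1 ∧ (HD P (γ + 1)).nD α q₁
      · obtain ⟨α, h1, h2⟩ := hex
        obtain ⟨σ', h3, i, h4⟩ := RR_dense P hE (hle α h1) σ n
        refine ⟨σ', h3, ?_, by omega, by omega, by omega⟩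
        intro _ α' _ h6
        rw [hinj α' α q₁ h6 h2]
        exact ⟨i, h4⟩
      · exact ⟨σ, List.prefix_rfl, fun _ α' h5 h6 => absurd ⟨α', h5, h6⟩ hex, by omega, by omega,
          by omega⟩
    · by_cases hex : ∃ α, (HD P (γ + 1)).limAt α ∧ (HD P (γ + 1)).nD α q₁
      · obtain ⟨α, h1, h2⟩ := hex
        obtain ⟨h1a, h1b⟩ := (limAt_HD P (γ + 1) α).1 h1
        obtain ⟨σ', h3, i, h4⟩ := RR_denseZ P (p := p) (hle α h1a) h1b σ n
        refine ⟨σ', h3, by omega, ?_, by omega, by omega⟩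
        intro _ α' _ h6
        rw [hinj α' α q₁ h6 h2]
        exact ⟨i, h4⟩
      · exact ⟨σ, List.prefix_rfl, by omega, fun _ α' h5 h6 => absurd ⟨α', h5, h6⟩ hex, by omega,
          by omega⟩
    · by_cases hex : ∃ α β, (HD P (γ + 1)).limAt α ∧ β < α ∧ (HD P (γ + 1)).nD α q₁ ∧
          (HD P (γ + 1)).nD β q₂
      · obtain ⟨α, β, h1, h1', h2, h2'⟩ := hex
        obtain ⟨h1a, h1b⟩ := (limAt_HD P (γ + 1) α).1 h1
        obtain ⟨σ', h3, h4⟩ := RR_dense2 P (p := p) (hle α h1a) h1b h1' σ n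
        refine ⟨σ', h3, by omega, by omega, ?_, by omega⟩
        intro _ α' β' _ _ _ h6 h7
        rw [hinj α' α q₁ h6 h2, hinj β' β q₂ h7 h2']
        rcases h4 with h4 | ⟨δ, h8, h9, h10⟩
        · exact Or.inl h4
        · exact Or.inr ⟨δ, lt_trans h9 h1a, (le_HD P (γ + 1) β δ).2 h8, h9, h10⟩
      · exact ⟨σ, List.prefix_rfl, by omega, by omega,
          fun _ α' β' h5 _ h7 h8 h9 => absurd ⟨α', β', h5, h7, h8, h9⟩ hex, by omega⟩
    · by_cases hex : ∃ γ', γ' < γ + 1 ∧ (HD P (γ + 1)).nD γ' q₁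
      · obtain ⟨γ', h1, h2⟩ := hex
        obtain ⟨σ', h3, m, h4, h5⟩ := gth_dense3 P (γ := γ) hE σ
          (fun m => rlL ((HD P (γ + 1)).lab γ') n m)
        refine ⟨σ', h3, by omega, by omega, by omega, ?_⟩
        intro _ γ'' _ h6
        rw [hinj γ'' γ' q₁ h6 h2]
        exact ⟨gth P γ p σ', (th_iff P hE σ' _).2 rfl, m, h4, h5⟩
      · exact ⟨σ, List.prefix_rfl, by omega, by omega, by omega,
          fun _ γ'' h5 h6 => absurd ⟨γ'', h5, h6⟩ hex⟩
  · exact ⟨σ, List.prefix_rfl, by omega, by omega, by omega, by omega⟩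

end

end Pool.Agent.Helper25.EV

/-!
# `K`-cells and trees

MODULE C5.  `mem_FY_K` and `Hs.inK` (`(HD P (γ+1)).res α = HD P α` by `res_HD`, `cD_eq`, `nm_fun`); the prefixes `gth P γ p (pfx E k)` of the real have unbounded lengths.
-/

set_option autoImplicit false

namespace Pool.Agent.Helper25.EV

open Ordinal Encodable

section
variable (P : LPr)

/-- the real `E` is generic for the forcing table -/
structure GenR (γ : Ordinal.{0}) (p : Cnd) (E : Real2) : Prop where
  dec : ∀ α ≤ γ, ∀ n, ∃ k i, (HD P (γ + 1)).RR P p α false (pfx E k) n i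
  decZ : ∀ α ≤ γ, Order.IsSuccLimit α → ∀ n, ∃ k i, (HD P (γ + 1)).RR P p α true (pfx E k) n i
  cof : ∀ α ≤ γ, Order.IsSuccLimit α → ∀ β < α, ∀ n, ∃ k,
    (HD P (γ + 1)).RR P p α true (pfx E k) n true ∨
      ∃ α', β ≤ α' ∧ α' < α ∧ (HD P (γ + 1)).RR P p α' false (pfx E k) n true

theorem K_iff_pfx (y : Real2) (n : ℕ) (τ : List Bool) (h : n ≤ τ.length)
    (h' : ∀ m < n, τ.getD m false = y m) : pfx y n <+: τ := by
  have e : pfx y n = τ.take n := by
    apply List.ext_getElem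
    · rw [pfx_length, List.length_take, Nat.min_eq_left h]
    · intro m h1 h2
      rw [pfx_length] at h1
      have h3 := pfx_getD y n m h1
      have h4 := h' m h1
      rw [List.getD_eq_getElem _ _ (by rw [pfx_length]; exact h1)] at h3
      rw [List.getD_eq_getElem _ _ (lt_of_lt_of_le h1 h)] at h4
      rw [h3, List.getElem_take, h4]
  rw [e]
  exact List.take_prefix _ _

theorem K_iff_getD (y : Real2) (n : ℕ) (τ : List Bool) (h : pfx y n <+: τ) (m : ℕ) (hm : m < n) :
    τ.getD m false = y m := by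
  obtain ⟨t, rfl⟩ := h
  rw [List.getD_append _ _ _ _ (by rw [pfx_length]; exact hm)]
  exact pfx_getD y n m hm

/-- a `K`-cell fires at `α` for the input `limF (gth P γ p) E` iff all prefixes are in its tree -/
theorem K_iff {γ : Ordinal.{0}} {p : Cnd} (hE : Emb P p) {α : Ordinal.{0}} (hα : α ≤ γ) (E : Real2)
    (κ : List Bool × ℕ × ℕ × List Bool × ℕ) :
    2 * encode κ + 1 ∈ FY P (limF (gth P γ p) E) α ↔
      ∀ k, (HD P (γ + 1)).inK α κ (gth P γ p (pfx E k)) := by
  have hg : EmbF (gth P γ p) := gth_emb P hE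
  have hres : (HD P (γ + 1)).res α = HD P α :=
    res_HD P (le_trans hα (le_of_lt (Order.lt_add_one_iff.mpr le_rfl)))
  rw [mem_FY_K]
  constructor
  · rintro ⟨a, ha, h⟩ k
    have hs := limF_spec hg E k
    obtain ⟨u, τ, h1, h2, h3, h4⟩ := h (gth P γ p (pfx E k)).length
    refine ⟨a, by rw [hres]; exact ha, u, τ, h1, ?_, fun m hm => ?_⟩
    · rw [hs]
      exact K_iff_pfx _ _ _ h2 h3
    · exact (h4 m hm).trans (cD_eq P α m).symm
  · intro h
    obtain ⟨a, ha, -⟩ := h 0
    rw [hres] at ha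
    refine ⟨a, ha, fun j => ?_⟩
    obtain ⟨a', ha', u, τ, h1, h2, h3⟩ := h j
    rw [hres] at ha'
    have haa : a' = a := nm_fun P ha' ha
    subst haa
    have hs := limF_spec hg E j
    have hlen : j ≤ (gth P γ p (pfx E j)).length := by
      have := hg.len (pfx E j)
      rwa [pfx_length] at this
    refine ⟨u, τ, h1, le_trans hlen h2.length_le, fun m hm => ?_, fun m hm => ?_⟩
    · rw [hs] at h2
      exact K_iff_getD _ _ _ h2 m (lt_of_lt_of_le hm hlen)
    · exact (h3 m hm).trans (cD_eq P α m)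

end

end Pool.Agent.Helper25.EV

/-!
# The truth lemma

MODULE C6.  Induction on `α`.  `y = limF (gth P γ p) E`.  Local cells: `mem_FY_loc`, `loc_zero`, `loc_succ`, `loc_lim` against `RR_l0`, `RR_ls`, `RR_ll`, using `GenR.dec`, `RR_mon`, `RR_cons` (if the cell is decided `false`
at `pfx E k` it is not decided `true` at any `pfx E k'`).  `K`-cells: `K_iff`, `RR_K`.  Second part (`α` limit): if `ZT α (pfx E k) n` with `β` and `n ∈ FY y α'`, `β ≤ α' < α` then by induction
`RR α' false (pfx E k') n true`, by `RR_mon` also for `max k k'`, contradiction; so `n ∈ Zc`.  Conversely if no `RR α true (pfx E k) n true`, then by `cof` for every `β < α` there is `α' ∈ [β, α)` with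
`RR α' false (pfx E k) n true`, so `n ∈ FY y α'`: not in `Zc`.
-/

set_option autoImplicit false

namespace Pool.Agent.Helper25.EV

open Ordinal Encodable

section
variable (P : LPr)

/-- the two values exclude each other along a real -/
theorem Cl3b_excl {γ : Ordinal.{0}} {p : Cnd} (hE : Emb P p) {α : Ordinal.{0}} (hα : α ≤ γ)
    {z : Bool} {E : Real2} {n k k' : ℕ} (h : (HD P (γ + 1)).RR P p α z (pfx E k) n true)
    (h' : (HD P (γ + 1)).RR P p α z (pfx E k') n false) : False :=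
  RR_cons P hE hα (RR_mon P hE hα h (pfx_mono E (le_max_left k k')))
    (RR_mon P hE hα h' (pfx_mono E (le_max_right k k')))

/-- the second part at the stage `α` from the first part at the earlier stages -/
theorem Cl3b_B {γ : Ordinal.{0}} {p : Cnd} (hE : Emb P p) {E : Real2} (hG : GenR P γ p E)
    {α : Ordinal.{0}} (hα : α ≤ γ) (hl : Order.IsSuccLimit α)
    (ih : ∀ α' < α, ∀ n, n ∈ FY P (limF (gth P γ p) E) α' ↔
      ∃ k, (HD P (γ + 1)).RR P p α' false (pfx E k) n true) (n : ℕ) :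
    n ∈ Zc (FY P (limF (gth P γ p) E)) α ↔
      ∃ k, (HD P (γ + 1)).RR P p α true (pfx E k) n true := by
  constructor
  · rintro ⟨a, ha, hs⟩
    obtain ⟨k, hk⟩ := hG.cof α hα hl a ha n
    rcases hk with hk | ⟨α', h1, h2, h3⟩
    · exact ⟨k, hk⟩
    · exact absurd ((ih α' h2 n).mpr ⟨k, h3⟩) (hs α' h1 h2)
  · rintro ⟨k, hk⟩
    rw [RR_z P hα] at hk
    rcases hk.2 with ⟨_, β, hβ, hz⟩ | ⟨h, _⟩
    · refine ⟨β, hβ, fun α' h1 h2 h3 => ?_⟩
      obtain ⟨k', hk'⟩ := (ih α' h2 n).mp h3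
      exact hz α' h1 h2 _ (pfx_mono E (le_max_left k k'))
        (RR_mon P hE (le_trans (le_of_lt h2) hα) hk' (pfx_mono E (le_max_right k k')))
    · exact absurd h (by simp)

/-- finitely many facts hold at a common prefix -/
theorem Cl3b_fin (Q : ℕ → ℕ → Prop) (hQ : ∀ j k k', k ≤ k' → Q j k → Q j k') (N : ℕ)
    (h : ∀ j < N, ∃ k, Q j k) : ∃ K, ∀ j < N, Q j K := by
  induction N with
  | zero => exact ⟨0, fun j hj => absurd hj (by omega)⟩
  | succ N ihN =>
    obtain ⟨K, hK⟩ := ihN fun j hj => h j (by omega)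
    obtain ⟨k, hk⟩ := h N (by omega)
    refine ⟨max K k, fun j hj => ?_⟩
    rcases Nat.lt_or_ge j N with h1 | h1
    · exact hQ j K _ (le_max_left _ _) (hK j h1)
    · have : j = N := by omega
      rw [this]
      exact hQ N k _ (le_max_right _ _) hk

/-- local cells -/
theorem Cl3b_loc {γ : Ordinal.{0}} {p : Cnd} (hE : Emb P p) {E : Real2} (hG : GenR P γ p E)
    {α : Ordinal.{0}} (hα : α ≤ γ)
    (ih : ∀ α' < α, ∀ n, n ∈ FY P (limF (gth P γ p) E) α' ↔
      ∃ k, (HD P (γ + 1)).RR P p α' false (pfx E k) n true)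
    (hB : Order.IsSuccLimit α → ∀ n, n ∈ Zc (FY P (limF (gth P γ p) E)) α ↔
      ∃ k, (HD P (γ + 1)).RR P p α true (pfx E k) n true) (n : ℕ) :
    2 * n ∈ FY P (limF (gth P γ p) E) α ↔
      ∃ k, (HD P (γ + 1)).RR P p α false (pfx E k) (2 * n) true := by
  rw [mem_FY_loc]
  rcases Ordinal.zero_or_succ_or_isSuccLimit α with h0 | ⟨α', hs⟩ | hl
  · subst h0
    rw [loc_zero]
    have hemb := gth_emb P (γ := γ) hE
    constructor
    · rintro (⟨k0, h1, h2⟩ | h1)
      · refine ⟨k0 + 1, (RR_l0 P hE _ _ _).mpr (Or.inl ⟨k0, h1, ?_, ?_⟩)⟩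
        · have := hemb.len (pfx E (k0 + 1))
          rw [pfx_length] at this
          omega
        · rw [limF_spec hemb, pfx_getD, h2]
          have := hemb.len (pfx E (k0 + 1))
          rw [pfx_length] at this
          omega
      · exact ⟨0, (RR_l0 P hE _ _ _).mpr (Or.inr h1)⟩
    · rintro ⟨k, hk⟩
      rcases (RR_l0 P hE _ _ _).mp hk with ⟨k0, h1, h2, h3⟩ | h1
      · refine Or.inl ⟨k0, h1, ?_⟩
        rw [limF_spec hemb, pfx_getD _ _ _ h2] at h3
        exact h3
      · exact Or.inr h1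
  · have hs' : α = α' + 1 := hs.symm
    subst hs'
    have hlt : α' < α' + 1 := Order.lt_add_one_iff.mpr le_rfl
    have hα' : α' ≤ γ := le_trans (le_of_lt hlt) hα
    rw [loc_succ]
    constructor
    · rintro ⟨v, h1, h2, h3⟩
      have hj : ∀ j < v.length, ∃ k, (HD P (γ + 1)).RR P p α' false (pfx E k)
          (2 * (P.nb n).getD j 0) (v.getD j false) := by
        intro j hj
        cases hv : v.getD j false with
        | true =>
          have h4 := (h2 j hj).mp hv
          rw [← mem_FY_loc] at h4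
          exact (ih α' hlt _).mp h4
        | false =>
          obtain ⟨k, i, hk⟩ := hG.dec α' hα' (2 * (P.nb n).getD j 0)
          cases i with
          | false => exact ⟨k, hk⟩
          | true =>
            have h4 := (ih α' hlt _).mpr ⟨k, hk⟩
            rw [mem_FY_loc] at h4
            have h5 := (h2 j hj).mpr h4
            rw [hv] at h5
            exact absurd h5 (by simp)
      obtain ⟨K, hK⟩ := Cl3b_fin (fun j k => (HD P (γ + 1)).RR P p α' false (pfx E k)
          (2 * (P.nb n).getD j 0) (v.getD j false))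
          (fun j k k' hkk' h => RR_mon P hE hα' h (pfx_mono E hkk')) v.length hj
      exact ⟨K, (RR_ls P hα _ _ _).mpr ⟨v, h1, hK, h3⟩⟩
    · rintro ⟨k, hk⟩
      obtain ⟨v, h1, h2, h3⟩ := (RR_ls P hα _ _ _).mp hk
      refine ⟨v, h1, fun j hj => ?_, h3⟩
      rw [← mem_FY_loc, ih α' hlt]
      constructor
      · intro hv
        have h4 := h2 j hj
        rw [hv] at h4
        exact ⟨k, h4⟩
      · rintro ⟨k', hk'⟩
        cases hv : v.getD j false with
        | true => rfl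
        | false =>
          have h4 := h2 j hj
          rw [hv] at h4
          exact (Cl3b_excl P hE hα' hk' h4).elim
  · rw [loc_lim P _ hl]
    have hB' := hB hl (2 * n)
    constructor
    · rintro (h1 | ⟨h1, h2⟩)
      · exact ⟨0, (RR_ll P hα hl _ _ _).mpr (Or.inl h1)⟩
      · obtain ⟨k, i, hk⟩ := hG.decZ α hα hl (2 * n)
        cases i with
        | true =>
          obtain ⟨β, hβ, hsil⟩ := hB'.mpr ⟨k, hk⟩
          obtain ⟨γ', h3, h4, h5⟩ := h2 β hβ
          rw [← mem_FY_loc] at h5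
          exact absurd h5 (hsil γ' h4 h3)
        | false =>
          rcases ((RR_z P hα _ _ _).mp hk).2 with ⟨h, _⟩ | ⟨_, h⟩
          · exact absurd h (by simp)
          · exact ⟨k, (RR_ll P hα hl _ _ _).mpr (Or.inr ⟨h1, Or.inr ⟨rfl, h⟩⟩)⟩
    · rintro ⟨k, hk⟩
      rcases (RR_ll P hα hl _ _ _).mp hk with h1 | ⟨h1, ⟨h, _⟩ | ⟨_, h⟩⟩
      · exact Or.inl h1
      · exact absurd h (by simp)
      · refine Or.inr ⟨h1, fun β hβ => ?_⟩
        by_contra hcon
        have h5 : 2 * n ∈ Zc (FY P (limF (gth P γ p) E)) α := by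
          refine ⟨β, hβ, fun γ' h6 h7 h8 => hcon ⟨γ', h7, h6, ?_⟩⟩
          rw [← mem_FY_loc]
          exact h8
        obtain ⟨k', hk'⟩ := hB'.mp h5
        exact Cl3b_excl P hE hα hk' ((RR_z P hα _ _ _).mpr ⟨hl, Or.inr ⟨rfl, h⟩⟩)

/-- `K`-cells -/
theorem Cl3b_K {γ : Ordinal.{0}} {p : Cnd} (hE : Emb P p) {E : Real2} (hG : GenR P γ p E)
    {α : Ordinal.{0}} (hα : α ≤ γ) (κ : List Bool × ℕ × ℕ × List Bool × ℕ) :
    2 * encode κ + 1 ∈ FY P (limF (gth P γ p) E) α ↔
      ∃ k, (HD P (γ + 1)).RR P p α false (pfx E k) (2 * encode κ + 1) true := by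
  rw [K_iff P hE hα]
  constructor
  · intro h
    obtain ⟨k, i, hk⟩ := hG.dec α hα (2 * encode κ + 1)
    cases i with
    | true => exact ⟨k, hk⟩
    | false =>
      rcases (RR_K P hE hα _ _ _).mp hk with ⟨h1, _⟩ | ⟨_, h1⟩
      · exact absurd h1 (by simp)
      · exact absurd (h k) h1
  · rintro ⟨k, hk⟩ k'
    by_contra hcon
    exact Cl3b_excl P hE hα hk ((RR_K P hE hα (pfx E k') κ false).mpr (Or.inr ⟨rfl, hcon⟩))

/-- the truth lemma -/
theorem RR_truth {γ : Ordinal.{0}} {p : Cnd} (hE : Emb P p) {E : Real2} (hG : GenR P γ p E)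
    (α : Ordinal.{0}) (hα : α ≤ γ) :
    (∀ n, n ∈ FY P (limF (gth P γ p) E) α ↔
      ∃ k, (HD P (γ + 1)).RR P p α false (pfx E k) n true) ∧
    (Order.IsSuccLimit α → ∀ n, n ∈ Zc (FY P (limF (gth P γ p) E)) α ↔
      ∃ k, (HD P (γ + 1)).RR P p α true (pfx E k) n true) := by
  induction α using WellFounded.induction Ordinal.lt_wf with
  | _ α ih =>
    have ih' : ∀ α' < α, ∀ n, n ∈ FY P (limF (gth P γ p) E) α' ↔
        ∃ k, (HD P (γ + 1)).RR P p α' false (pfx E k) n true :=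
      fun α' h => (ih α' h (le_trans (le_of_lt h) hα)).1
    have hB : Order.IsSuccLimit α → ∀ n, n ∈ Zc (FY P (limF (gth P γ p) E)) α ↔
        ∃ k, (HD P (γ + 1)).RR P p α true (pfx E k) n true :=
      fun hl n => Cl3b_B P hE hG hα hl ih' n
    refine ⟨fun n => ?_, hB⟩
    by_cases h1 : ∃ n', n = 2 * n'
    · obtain ⟨n', rfl⟩ := h1
      exact Cl3b_loc P hE hG hα ih' hB n'
    · by_cases h2 : ∃ κ : List Bool × ℕ × ℕ × List Bool × ℕ, n = 2 * encode κ + 1
      · obtain ⟨κ, rfl⟩ := h2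
        exact Cl3b_K P hE hG hα κ
      · constructor
        · intro h
          rcases mem_FY_other P _ _ _ h with h3 | h3
          · exact absurd h3 h1
          · exact absurd h3 h2
        · rintro ⟨k, hk⟩
          exact absurd ((RR_o P hα _ _ h1 h2 _).mp hk) (by simp)

end

end Pool.Agent.Helper25.EV

/-!
# The perfect set of generic reals

MODULE C7.  See `Hs.psi`, `Hs.lext`, `ch`, `chR`; `dk_dense` gives existence of the least extension; uniqueness since `encode` is injective.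
-/

set_option autoImplicit false

namespace Pool.Agent.Helper25.EV

open Ordinal Encodable

section
variable (P : LPr)

theorem C7_lext {γ : Ordinal.{0}} (hp : Pre (FD P) (γ + 1)) {p : Cnd} (hE : Emb P p)
    (r : List Bool) (k : ℕ) : ∃ ρ, ∀ ρ', (HD P (γ + 1)).lext P rlL p r k ρ' ↔ ρ' = ρ := by
  classical
  have hex : ∃ m : ℕ, ∃ ρ, r <+: ρ ∧ (HD P (γ + 1)).dk P rlL p k ρ ∧ encode ρ = m := by
    obtain ⟨ρ, h1, h2⟩ := dk_dense P hp hE k r
    exact ⟨_, ρ, h1, h2, rfl⟩
  obtain ⟨ρ, h1, h2, h3⟩ := Nat.find_spec hex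
  have hmin : ∀ ρ', r <+: ρ' → (HD P (γ + 1)).dk P rlL p k ρ' → encode ρ ≤ encode ρ' := by
    intro ρ' h4 h5
    rw [h3]
    exact Nat.find_min' hex ⟨ρ', h4, h5, rfl⟩
  refine ⟨ρ, fun ρ' => ⟨?_, ?_⟩⟩
  · rintro ⟨⟨h4, h5⟩, h6⟩
    exact encode_injective (le_antisymm (h6 ρ h1 h2) (hmin ρ' h4 h5))
  · rintro rfl
    exact ⟨⟨h1, h2⟩, hmin⟩

/-- `psi` is a normalised embedding which meets the dense sets -/
theorem psi_emb {γ : Ordinal.{0}} (hp : Pre (FD P) (γ + 1)) {p : Cnd} (hE : Emb P p) :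
    ∃ g : List Bool → List Bool, EmbF g ∧
      (∀ σ ρ, (HD P (γ + 1)).psi P rlL p σ ρ ↔ ρ = g σ) ∧
      ∀ σ, (HD P (γ + 1)).dk P rlL p σ.length (g σ) := by
  choose nx hnx using fun (r : List Bool) (k : ℕ) => C7_lext P hp hE r k
  have hself : ∀ r k, (HD P (γ + 1)).lext P rlL p r k (nx r k) := fun r k => (hnx r k _).mpr rfl
  let gr : List Bool → List Bool := fun l => List.rec (nx [] 0)
    (fun b t ih => nx (ih ++ [b]) (t.length + 1)) l
  have hgr0 : gr [] = nx [] 0 := rfl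
  have hgr1 : ∀ b t, gr (b :: t) = nx (gr t ++ [b]) (t.length + 1) := fun b t => rfl
  have hch : ∀ l ρ, chR (fun ρ => (HD P (γ + 1)).lext P rlL p [] 0 ρ)
      (fun k b ρ ρ' => (HD P (γ + 1)).lext P rlL p (ρ ++ [b]) (k + 1) ρ') l ρ ↔ ρ = gr l := by
    intro l
    induction l with
    | nil =>
      intro ρ
      exact hnx [] 0 ρ
    | cons b t ih =>
      intro ρ
      constructor
      · rintro ⟨r, hr, hs⟩
        rw [(ih r).mp hr] at hs
        rw [hgr1]
        exact (hnx _ _ ρ).mp hs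
      · intro h
        refine ⟨gr t, (ih _).mpr rfl, ?_⟩
        rw [h, hgr1]
        exact hself _ _
  refine ⟨fun σ => gr σ.reverse, ?_, ?_, ?_⟩
  · intro σ b
    show gr σ.reverse ++ [b] <+: gr (σ ++ [b]).reverse
    rw [List.reverse_append, List.reverse_singleton, List.singleton_append, hgr1]
    exact (hself _ _).1.1
  · intro σ ρ
    exact hch σ.reverse ρ
  · intro σ
    show (HD P (γ + 1)).dk P rlL p σ.length (gr σ.reverse)
    rw [← List.length_reverse]
    cases σ.reverse with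
    | nil => exact (hself _ _).1.2
    | cons b t => exact (hself _ _).1.2

/-- composition of embeddings -/
theorem comp_emb {f g : List Bool → List Bool} (hf : EmbF f) (hg : EmbF g) :
    EmbF (fun σ => f (g σ)) ∧ ∀ e, limF (fun σ => f (g σ)) e = limF f (limF g e) := by
  have hfg : EmbF (fun σ => f (g σ)) := by
    intro σ b
    exact (hf (g σ) b).trans (hf.mono (hg σ b))
  refine ⟨hfg, ?_⟩
  intro e
  refine (limF_eq hfg e _ ?_).symm
  intro k
  show f (g (pfx e k)) = pfx (limF f (limF g e)) (f (g (pfx e k))).length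
  have h1 := limF_spec hg e k
  have h2 := limF_spec hf (limF g e) (g (pfx e k)).length
  rw [← h1] at h2
  exact h2

end

end Pool.Agent.Helper25.EV

/-!
# The branches are generic

MODULE C8.  The index `k = ⟨kind, p, q, n⟩` (nested `Nat.pair`) with the numbers `p`, `q` of the stages (`num_ex`, `numD_eq`): take `σ = pfx e k`; `g σ` is an initial segment of `limF g e` (`limF_spec`) and `dk k (g σ)`.
-/

set_option autoImplicit false

namespace Pool.Agent.Helper25.EV

open Ordinal Encodable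

section
variable (P : LPr)

/-- the branches of `psi` are generic and avoid the listed reals -/
theorem psi_gen {γ : Ordinal.{0}} (hp : Pre (FD P) (γ + 1)) {p : Cnd} (hE : Emb P p)
    {g : List Bool → List Bool} (hg : EmbF g)
    (hd : ∀ σ, (HD P (γ + 1)).dk P rlL p σ.length (g σ)) (e : Real2) :
    GenR P γ p (limF g e) ∧ ∀ γ' ≤ γ, ∀ j,
      ¬ ∀ n, limF (gth P γ p) (limF g e) n = true ↔ rlL (labD P γ') j n := by
  have key := limF_spec hg e
  have hdk : ∀ k, ∃ k', (HD P (γ + 1)).dk P rlL p k (pfx (limF g e) k') := by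
    intro k
    refine ⟨(g (pfx e k)).length, ?_⟩
    rw [← key k]
    have := hd (pfx e k)
    rwa [pfx_length] at this
  have hnum : ∀ α ≤ γ, ∃ a, (HD P (γ + 1)).nD α a := fun α hα => by
    obtain ⟨k, hk⟩ := num_ex P hp α (Order.lt_add_one_iff.mpr hα)
    exact ⟨k, (numD_eq P _ _ _).mp hk⟩
  refine ⟨⟨?_, ?_, ?_⟩, ?_⟩
  · intro α hα n
    obtain ⟨a, ha⟩ := hnum α hα
    obtain ⟨k', hk'⟩ := hdk (Nat.pair 0 (Nat.pair a (Nat.pair 0 n)))
    unfold Hs.dk at hk'
    simp only [Nat.unpair_pair] at hk'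
    obtain ⟨i, hi⟩ := hk'.1 trivial α (Order.lt_add_one_iff.mpr hα) ha
    exact ⟨k', i, hi⟩
  · intro α hα hl n
    obtain ⟨a, ha⟩ := hnum α hα
    obtain ⟨k', hk'⟩ := hdk (Nat.pair 1 (Nat.pair a (Nat.pair 0 n)))
    unfold Hs.dk at hk'
    simp only [Nat.unpair_pair] at hk'
    obtain ⟨i, hi⟩ := hk'.2.1 trivial α
      ((limAt_HD P _ _).mpr ⟨Order.lt_add_one_iff.mpr hα, hl⟩) ha
    exact ⟨k', i, hi⟩
  · intro α hα hl β hβ n
    obtain ⟨a, ha⟩ := hnum α hα
    obtain ⟨b, hb⟩ := hnum β (le_trans (le_of_lt hβ) hα)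
    obtain ⟨k', hk'⟩ := hdk (Nat.pair 2 (Nat.pair a (Nat.pair b n)))
    unfold Hs.dk at hk'
    simp only [Nat.unpair_pair] at hk'
    rcases hk'.2.2.1 trivial α β
      ((limAt_HD P _ _).mpr ⟨Order.lt_add_one_iff.mpr hα, hl⟩)
      (lt_of_lt_of_le hβ (le_of_lt (Order.lt_add_one_iff.mpr hα))) hβ ha hb with h | h
    · exact ⟨k', Or.inl h⟩
    · obtain ⟨α', h1, h2, h3, h4⟩ := h
      exact ⟨k', Or.inr ⟨α', (le_HD P _ _ _).mp h2, h3, h4⟩⟩
  · intro γ' hγ' j hall
    obtain ⟨a, ha⟩ := hnum γ' hγ'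
    obtain ⟨k', hk'⟩ := hdk (Nat.pair 3 (Nat.pair a (Nat.pair 0 j)))
    unfold Hs.dk at hk'
    simp only [Nat.unpair_pair] at hk'
    obtain ⟨τ, h1, m, h2, h3⟩ := hk'.2.2.2 trivial γ' (Order.lt_add_one_iff.mpr hγ') ha
    rw [th_iff P hE] at h1
    have h4 := limF_spec (gth_emb P (γ := γ) hE) (limF g e) k'
    rw [← h1] at h4
    apply h3
    have h5 : τ.getD m false = limF (gth P γ p) (limF g e) m := by
      rw [h4]
      exact pfx_getD _ _ _ h2
    rw [h5]
    exact hall m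

end

end Pool.Agent.Helper25.EV

/-!
# The coding extension

MODULE C9.  By `phi_succ`, `nC_inj`, `psi_emb`, `th_iff`: `phi (γ + 1, x, []) σ τ ↔ τ = gth P γ p (g σ)`, a composition of embeddings (`comp_emb`).  `Rdg`: `rd_succ`, `RR_mon`, `psi_gen`, `RR_truth`, `RR_cons`.
The real of the coordinates `e` is `limF (fc P p) (weaveR (wR P γ) (limF g e))` (`gth_lim`).
-/

set_option autoImplicit false

namespace Pool.Agent.Helper25.EV

open Ordinal Encodable

section
variable (P : LPr)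

/-- two prefixes of the same real -/
theorem C9_pfx_max {γ : Ordinal.{0}} {p : Cnd} (hE : Emb P p) {α : Ordinal.{0}} (hα : α ≤ γ)
    {z : Bool} {E : Real2} {k k' : ℕ} {n : ℕ}
    (h : (HD P (γ + 1)).RR P p α z (pfx E k) n true)
    (h' : (HD P (γ + 1)).RR P p α z (pfx E k') n false) : False := by
  have h1 := RR_mon P hE hα h (pfx_mono E (le_max_left k k'))
  have h2 := RR_mon P hE hα h' (pfx_mono E (le_max_right k k'))
  exact RR_cons P hE hα h1 h2

/-- the coding extension of a valid condition exists, is in order, codes the history and avoids all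
listed reals -/
theorem CLmain {γ : Ordinal.{0}} (hp : Pre (FD P) (γ + 1)) {p : Cnd} (hQ : (HD P (γ + 1)).Q p)
    (hE : Emb P p) {x : ℕ} (hx : (HD P (γ + 1)).nC p x) :
    OKc P (γ + 1, x, []) ∧
    (∀ y ∈ Br P (γ + 1, x, []), ∃ e : Real2, y = limF (fc P p) e ∧
      ∀ m, e (2 * m) = true ↔ (HD P (γ + 1)).wt m) ∧
    ∀ y ∈ Br P (γ + 1, x, []), ∀ γ' ≤ γ, ∀ j, ¬ ∀ n, y n = true ↔ rlL (labD P γ') j n := by
  classical
  obtain ⟨g, hg, hpsi, hdk⟩ := psi_emb P hp hE
  -- the embedding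
  have hphi : ∀ σ τ, (GG P).phi (γ + 1, x, []) σ τ ↔ τ = gth P γ p (g σ) := by
    intro σ τ
    rw [phi_succ]
    constructor
    · rintro ⟨p', h1, _, ρ, h3, h4⟩
      have hpp : p' = p := nC_inj P h1 hx
      subst hpp
      rw [List.nil_append, hpsi] at h3
      rw [th_iff P hE, h3] at h4
      exact h4
    · intro h
      refine ⟨p, hx, hQ, g σ, ?_, ?_⟩
      · rw [List.nil_append, hpsi]
      · rw [th_iff P hE]
        exact h
  have hfc : fc P (γ + 1, x, []) = fun σ => gth P γ p (g σ) := by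
    funext σ
    have h1 : (GG P).phi (γ + 1, x, []) σ (fc P (γ + 1, x, []) σ) :=
      Classical.epsilon_spec (p := fun τ => (GG P).phi (γ + 1, x, []) σ τ)
        ⟨_, (hphi σ _).mpr rfl⟩
    exact (hphi σ _).mp h1
  obtain ⟨hcE, hcl⟩ := comp_emb (gth_emb P (γ := γ) hE) hg
  have hEmb : Emb P (γ + 1, x, []) := by
    refine ⟨by rw [hfc]; exact hcE, fun σ τ => ?_⟩
    rw [hphi, hfc]
  -- reading
  have hrd : ∀ (z : Bool) (α : Ordinal.{0}) (n : ℕ) (σ : List Bool) (i : Bool),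
      (GG P).rd (if z then 4 else 3) (γ + 1, x, []) α n σ i ↔
        α < γ + 1 ∧ (HD P (γ + 1)).RR P p α z (g σ) n i := by
    intro z α n σ i
    rw [rd_succ P hp]
    constructor
    · rintro ⟨h0, p', h1, _, ρ, h3, h4⟩
      have hpp : p' = p := nC_inj P h1 hx
      subst hpp
      rw [List.nil_append, hpsi] at h3
      rw [h3] at h4
      exact ⟨h0, h4⟩
    · rintro ⟨h0, h4⟩
      refine ⟨h0, p, hx, hQ, g σ, ?_, h4⟩
      rw [List.nil_append, hpsi]
  have hrd3 : ∀ (α : Ordinal.{0}) (n : ℕ) (σ : List Bool) (i : Bool),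
      (GG P).rd 3 (γ + 1, x, []) α n σ i ↔
        α < γ + 1 ∧ (HD P (γ + 1)).RR P p α false (g σ) n i := fun α n σ i => hrd false α n σ i
  have hrd4 : ∀ (α : Ordinal.{0}) (n : ℕ) (σ : List Bool) (i : Bool),
      (GG P).rd 4 (γ + 1, x, []) α n σ i ↔
        α < γ + 1 ∧ (HD P (γ + 1)).RR P p α true (g σ) n i := fun α n σ i => hrd true α n σ i
  have hle : ∀ α : Ordinal.{0}, α < γ + 1 → α ≤ γ := fun α h => Order.lt_add_one_iff.mp h
  -- branches
  have hbr : ∀ y ∈ Br P (γ + 1, x, []), ∃ e : Real2, y = limF (fc P (γ + 1, x, [])) e ∧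
      y = limF (gth P γ p) (limF g e) := by
    intro y hy
    obtain ⟨e, he⟩ := (mem_br_iff hEmb.1 y).mp hy
    refine ⟨e, he, ?_⟩
    rw [he, hfc, hcl]
  have hsub : ∀ y, ∀ σ, y ∈ Br P (rs (γ + 1, x, []) σ) → ∃ e : Real2,
      y = limF (gth P γ p) (limF g e) ∧ σ = pfx e σ.length := by
    intro y σ hy
    obtain ⟨e, he, he2⟩ := hbr y (Br_rs_sub P hEmb σ hy)
    refine ⟨e, he2, ?_⟩
    unfold Br at hy
    rw [fc_rs, he, mem_sub_lim hEmb.1] at hy
    exact hy
  have hin : ∀ (e : Real2) (k : ℕ),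
      limF (fc P (γ + 1, x, [])) e ∈ Br P (rs (γ + 1, x, []) (pfx e k)) := by
    intro e k
    unfold Br
    rw [fc_rs, mem_sub_lim hEmb.1, pfx_length]
  have hpre : ∀ (e : Real2) (k : ℕ), pfx (limF g e) k <+: g (pfx e k) := by
    intro e k
    rw [limF_spec hg e k]
    apply pfx_mono
    have := hg.len (pfx e k)
    rw [pfx_length] at this
    exact this
  have hgen : ∀ e : Real2, GenR P γ p (limF g e) ∧ ∀ γ' ≤ γ, ∀ j,
      ¬ ∀ n, limF (gth P γ p) (limF g e) n = true ↔ rlL (labD P γ') j n :=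
    fun e => psi_gen P hp hE hg hdk e
  refine ⟨⟨hEmb, ?_⟩, ?_, ?_⟩
  · refine ⟨?_, ?_, ?_, ?_, ?_⟩
    · rintro t (rfl | rfl) α n σ σ' i h hs
      · rw [hrd3] at h ⊢
        exact ⟨h.1, RR_mon P hE (hle α h.1) h.2 (hg.mono hs)⟩
      · rw [hrd4] at h ⊢
        exact ⟨h.1, RR_mon P hE (hle α h.1) h.2 (hg.mono hs)⟩
    · intro α hα n y hy
      have hα' : α < γ + 1 := hα
      obtain ⟨e, he, _⟩ := hbr y hy
      obtain ⟨k, i, hk⟩ := (hgen e).1.dec α (hle α hα') n
      refine ⟨pfx e k, i, ?_, ?_⟩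
      · rw [he]
        exact hin e k
      · rw [hrd3]
        exact ⟨hα', RR_mon P hE (hle α hα') hk (hpre e k)⟩
    · intro α hα n σ i hr y hy
      have hα' : α < γ + 1 := hα
      rw [hrd3] at hr
      obtain ⟨e, he, hσ⟩ := hsub y σ hy
      have hgσ : g σ = pfx (limF g e) (g σ).length := by
        have := limF_spec hg e σ.length
        rw [← hσ] at this
        exact this
      have ht := (RR_truth P hE (hgen e).1 α (hle α hα')).1 n
      rw [← he] at ht
      rw [ht]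
      have hr2 := hr.2
      rw [hgσ] at hr2
      constructor
      · rintro ⟨k, hk⟩
        cases i with
        | true => rfl
        | false => exact (C9_pfx_max P hE (hle α hα') hk hr2).elim
      · intro hi
        rw [hi] at hr2
        exact ⟨_, hr2⟩
    · intro α hα hlim n y hy
      have hα' : α < γ + 1 := hα
      obtain ⟨e, he, _⟩ := hbr y hy
      obtain ⟨k, i, hk⟩ := (hgen e).1.decZ α (hle α hα') hlim n
      refine ⟨pfx e k, i, ?_, ?_⟩
      · rw [he]
        exact hin e k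
      · rw [hrd4]
        exact ⟨hα', RR_mon P hE (hle α hα') hk (hpre e k)⟩
    · intro α hα hlim n σ i hr y hy
      have hα' : α < γ + 1 := hα
      rw [hrd4] at hr
      obtain ⟨e, he, hσ⟩ := hsub y σ hy
      have hgσ : g σ = pfx (limF g e) (g σ).length := by
        have := limF_spec hg e σ.length
        rw [← hσ] at this
        exact this
      have ht := (RR_truth P hE (hgen e).1 α (hle α hα')).2 hlim n
      rw [← he] at ht
      rw [ht]
      have hr2 := hr.2
      rw [hgσ] at hr2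
      constructor
      · rintro ⟨k, hk⟩
        cases i with
        | true => rfl
        | false => exact (C9_pfx_max P hE (hle α hα') hk hr2).elim
      · intro hi
        rw [hi] at hr2
        exact ⟨_, hr2⟩
  · intro y hy
    obtain ⟨e, _, he⟩ := hbr y hy
    refine ⟨weaveR (wR P γ) (limF g e), ?_, ?_⟩
    · rw [he, gth_lim P hE]
    · intro m
      unfold weaveR wR
      rw [if_pos (by omega)]
      have e1 : 2 * m / 2 = m := by omega
      rw [e1]
      exact decide_eq_true_iff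
  · intro y hy γ' hγ' j
    obtain ⟨e, _, he⟩ := hbr y hy
    rw [he]
    exact (hgen e).2 γ' hγ' j

end

end Pool.Agent.Helper25.EV

/-!
# Kills by coding

MODULE C10.  Let `p = (b, x₀, ρ₀)`, `y = limF (fc P p) e`, `b < η ≤ γ`.  `nm_ex` for `η`: `τ`, `k`, `g < η` with `nmD τ k b` at all stages in `(g, η]`.  Let `i` be the number of `η` at `γ + 1`, `κ = (τ, k, x₀, ρ₀, i)`.
By `Hs.wt` and `num_inj`: `wt ⟨i, m⟩ ↔ cD η m ↔ (HD P η).newC m`.  By `mem_FY_K` the cell `2 * encode κ + 1` fires at `η` for `y` (with `u = pfx e k'`, `phi p u τ ↔ τ = fc P p u`).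
If it fires at `β' ∈ (g, η)` then (`nm_fun`, `Emb`: the `u` with `fc P p u <+: y` are the prefixes of `e`) `newC` at `β'` and at `η` agree, so `β' = η` by `newC_inj`: contradiction.  So the cell is in `Zc (FY P y) η`.
-/

set_option autoImplicit false

namespace Pool.Agent.Helper25.EV

open Ordinal Encodable

theorem Kill_getD_prefix {a b : List Bool} (h : a <+: b) {j : ℕ} (hj : j < a.length) :
    b.getD j false = a.getD j false := by
  obtain ⟨t, rfl⟩ := h
  simp [List.getD, List.getElem?_append_left hj]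

/-- if the embedding of `u` agrees with the branch of `e` in the first `j` places, where `j` is at
least the length of the embedding of `pfx e (M + 1)`, then `u` extends `pfx e (M + 1)` -/
theorem Kill_agree {f : List Bool → List Bool} (hf : EmbF f) (e : Real2) (M j : ℕ)
    (hj : (f (pfx e (M + 1))).length ≤ j) (u : List Bool) (hju : j ≤ (f u).length)
    (h : ∀ m < j, (f u).getD m false = limF f e m) :
    M < u.length ∧ u.getD M false = e M := by
  have key : f (pfx e (M + 1)) <+: f u := by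
    have h1 := limF_spec hf e (M + 1)
    rw [List.prefix_iff_eq_take]
    apply List.ext_getElem
    · rw [List.length_take]
      omega
    · intro n h2 h3
      have h4 : n < (f u).length := by omega
      have h5 := h n (by omega)
      rw [List.getD, List.getElem?_eq_getElem h4] at h5
      simp only [Option.getD_some] at h5
      rw [List.getElem_take, h5]
      have h6 : (f (pfx e (M + 1))).getD n false = limF f e n := by
        rw [h1]
        exact pfx_getD _ _ _ h2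
      rw [List.getD, List.getElem?_eq_getElem h2] at h6
      simpa using h6
  have h2 := hf.inj key
  have h3 := h2.length_le
  rw [pfx_length] at h3
  refine ⟨by omega, ?_⟩
  rw [Kill_getD_prefix h2 (by rw [pfx_length]; omega)]
  exact pfx_getD e _ _ (by omega)

section
variable (P : LPr)

/-- a `K`-cell kills every limit between the birth of `p` and `γ` -/
theorem Kkill {γ : Ordinal.{0}} (hp : Pre (FD P) (γ + 1)) {p : Cnd} (hE : Emb P p) {e : Real2}
    (hw : ∀ m, e (2 * m) = true ↔ (HD P (γ + 1)).wt m) {η : Ordinal.{0}}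
    (hη : Order.IsSuccLimit η) (h1 : p.1 < η) (h2 : η ≤ γ) : kY P (limF (fc P p) e) η := by
  have hηγ : η < γ + 1 := Order.lt_add_one_iff.mpr h2
  have hpη : Pre (FD P) η := Pre_mono hp (le_of_lt hηγ)
  obtain ⟨τ, k, g, hg, hnm⟩ := nm_ex P hη hpη p.1 h1
  obtain ⟨i, hi⟩ := num_ex P hp η hηγ
  have hwt : ∀ m, e (2 * Nat.pair i m) = true ↔ (HD P η).newC m := by
    intro m
    rw [hw, ← cD_eq P η m]
    constructor
    · rintro ⟨η', hD, hn, hc⟩
      rw [Nat.unpair_pair] at hn hc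
      have h3 : η' = η := num_inj P ((numD_eq P _ _ _).mpr hn) hi
      rw [← h3]
      exact hc
    · intro hc
      refine ⟨η, hηγ, ?_, ?_⟩
      · rw [Nat.unpair_pair]
        exact (numD_eq P _ _ _).mp hi
      · rw [Nat.unpair_pair]
        exact hc
  obtain ⟨b, x₀, ρ₀⟩ := p
  simp only at h1 hnm
  refine ⟨2 * encode ((τ, k, x₀, ρ₀, i) : List Bool × ℕ × ℕ × List Bool × ℕ) + 1,
    ⟨g + 1, hη.succ_lt hg, ?_⟩, ?_⟩
  · intro β' h3 h4 hF
    have h3' : g < β' := lt_of_lt_of_le (Order.lt_add_one_iff.mpr le_rfl) h3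
    rw [mem_FY_K] at hF
    obtain ⟨a, ha, hF⟩ := hF
    simp only at ha hF
    have hab : a = b := nm_fun P ha (hnm β' h3' (le_of_lt h4))
    subst hab
    have hne : ∀ m, (HD P β').newC m ↔ (HD P η).newC m := by
      intro m
      obtain ⟨u, τ', hphi, hlen, hag, hnew⟩ :=
        hF (fc P (a, x₀, ρ₀) (pfx e (2 * Nat.pair i m + 1))).length
      have hτ' := (hE.2 u τ').mp hphi
      subst hτ'
      obtain ⟨h5, h6⟩ := Kill_agree hE.1 e (2 * Nat.pair i m) _ le_rfl u hlen hag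
      rw [← hnew m h5, h6, hwt]
    exact absurd (newC_inj P (Pre_mono hpη (le_of_lt h4)) hpη hne) (ne_of_lt h4)
  · rw [mem_FY_K]
    refine ⟨b, hnm η hg le_rfl, ?_⟩
    intro j
    refine ⟨pfx e j, fc P (b, x₀, ρ₀) (pfx e j), (hE.2 _ _).mpr rfl, ?_, ?_, ?_⟩
    · have := hE.1.len (pfx e j)
      rw [pfx_length] at this
      exact this
    · intro m hm
      have h5 := limF_spec hE.1 e j
      have h6 := hE.1.len (pfx e j)
      rw [pfx_length] at h6
      rw [h5]
      exact pfx_getD _ _ _ (by omega)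
    · intro m hm
      rw [pfx_length] at hm
      rw [pfx_getD e _ _ hm]
      exact hwt m

end

end Pool.Agent.Helper25.EV
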