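import Pool.Agent.Helper25.EV.FT.TreeB

/-!
# Normalised embeddings: stems, decreasing sequences

MODULE TR4.  `stem_le`: `f [] <+: g σ` for some `σ` (a branch of `f` is a branch of `g`), so `f []` and `g []` are comparable; if `f []` is a proper
prefix of `g []` then a branch through `f [] ++ [b]` with `b` not the next bit of `g []` contradicts the inclusion.  `br_inter`: `x` is the union of the stems.
-/

set_option autoImplicit false

namespace Pool.Agent.Helper25.EV

open Ordinal Encodable

/-- stems -/
theorem stem_le {f g : List Bool → List Bool} (hf : EmbF f) (hg : EmbF g) (h : br f ⊆ br g) :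
    g [] <+: f [] := by
  have hle : ∀ σ, ∃ σ', f σ <+: g σ' := (le_iff_br hf hg).mpr h
  have hb : ∀ b : Bool, ∃ τ, f [] ++ [b] <+: g τ := by
    intro b
    obtain ⟨τ, hτ⟩ := hle ([] ++ [b])
    exact ⟨τ, (hf [] b).trans hτ⟩
  have hgn : ∀ τ, g [] <+: g τ := fun τ => hg.mono (List.nil_prefix)
  obtain ⟨τ0, h0⟩ := hb true
  have hf0 : f [] <+: g τ0 := (List.prefix_append _ _).trans h0
  rcases List.prefix_or_prefix_of_prefix (hgn τ0) hf0 with h1 | h1
  · exact h1
  · obtain ⟨t, ht⟩ := h1
    cases t with
    | nil =>
      rw [List.append_nil] at ht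
      rw [ht]
    | cons c t =>
      exfalso
      have hc : f [] ++ [c] <+: g [] := ⟨t, by rw [← ht]; simp⟩
      obtain ⟨τ, h2⟩ := hb (!c)
      have h3 : f [] ++ [c] <+: g τ := hc.trans (hgn τ)
      have h4 : f [] ++ [c] <+: f [] ++ [!c] :=
        List.prefix_of_prefix_length_le h3 h2 (by simp)
      have h5 := h4.eq_of_length (by simp)
      have h6 := List.append_cancel_left h5
      simp at h6

theorem TR4_getD_eq {a b : List Bool} (h : a <+: b) {j : ℕ} (hj : j < a.length) :
    b.getD j false = a.getD j false := by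
  obtain ⟨t, rfl⟩ := h
  simp [List.getD, List.getElem?_append_left hj]

theorem TR4_eq_pfx (s : List Bool) (x : Real2) (h : ∀ j < s.length, x j = s.getD j false) :
    s = pfx x s.length := by
  apply List.ext_getElem
  · rw [pfx_length]
  · intro n h1 h2
    have h3 := h n h1
    have h4 := pfx_getD x s.length n h1
    rw [List.getD, List.getElem?_eq_getElem h2] at h4
    rw [List.getD, List.getElem?_eq_getElem h1] at h3
    simp only [Option.getD_some] at h3 h4
    rw [h4, h3]

/-- the intersection of a decreasing sequence with growing stems -/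
theorem br_inter (f : ℕ → List Bool → List Bool) (hf : ∀ m, EmbF (f m))
    (hle : ∀ m, br (f (m + 1)) ⊆ br (f m)) (hst : ∀ m, (f m []).length < (f (m + 1) []).length) :
    ∃ x : Real2, (∀ m, x ∈ br (f m)) ∧ ∀ y, (∀ m, f m [] = pfx y (f m []).length) → y = x := by
  have hanti : ∀ {m n : ℕ}, m ≤ n → br (f n) ⊆ br (f m) := by
    intro m n hmn
    exact antitone_nat_of_succ_le (f := fun m => br (f m)) hle hmn
  have hpre : ∀ {m n : ℕ}, m ≤ n → f m [] <+: f n [] := by
    intro m n hmn
    exact stem_le (hf n) (hf m) (hanti hmn)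
  have hlen : ∀ m, m ≤ (f m []).length := by
    intro m
    induction m with
    | zero => exact Nat.zero_le _
    | succ m ih => exact lt_of_le_of_lt ih (hst m)
  let x : Real2 := fun j => (f (j + 1) []).getD j false
  have hx : ∀ m, f m [] = pfx x (f m []).length := by
    intro m
    apply TR4_eq_pfx
    intro j hj
    change (f (j + 1) []).getD j false = (f m []).getD j false
    have hj1 : j < (f (j + 1) []).length := hlen (j + 1)
    rcases Nat.le_total (j + 1) m with h1 | h1
    · exact (TR4_getD_eq (hpre h1) hj1).symm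
    · exact TR4_getD_eq (hpre h1) hj
  refine ⟨x, ?_, ?_⟩
  · intro m j
    obtain ⟨σ, hσ⟩ := (le_iff_br (hf (max m j)) (hf m)).mpr (hanti (le_max_left m j)) []
    refine ⟨σ, List.IsPrefix.trans ?_ hσ⟩
    rw [hx (max m j)]
    exact pfx_mono x ((le_max_right m j).trans (hlen _))
  · intro y hy
    apply eq_of_pfx
    intro k
    have h1 : pfx y k <+: f k [] := by
      rw [hy k]
      exact pfx_mono y (hlen k)
    have h2 : pfx x k <+: f k [] := by
      rw [hx k]
      exact pfx_mono x (hlen k)
    have h3 : pfx y k <+: pfx x k :=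
      List.prefix_of_prefix_length_le h1 h2 (by rw [pfx_length, pfx_length])
    exact h3.eq_of_length (by rw [pfx_length, pfx_length])

end Pool.Agent.Helper25.EV
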