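import Pool.Agent.Helper25.EV.FT.PC
import Pool.Agent.Helper25.EV.FT.TreeC

/-!
# Successor stages are in order

MODULE F1.  `Good_zero`: `phi_zero`, `rd_zero`; `c = (0, 0, σ₀)`.  `Good_succ`: `src_succ`, `CLmain`, `OKc_rs` (`c = rs (γ + 1, x, []) σ₀`), the valid condition `p` is in order by `GB`.
-/

set_option autoImplicit false

namespace Pool.Agent.Helper25.EV

open Ordinal Encodable

section
variable (P : LPr)

/-- conditions born at a successor stage come from a valid condition -/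
theorem src_succ {γ : Ordinal.{0}} {c : Cnd} (h : c.1 = γ + 1) (hc : cond P c) :
    ∃ p, (HD P (γ + 1)).nC p c.2.1 ∧ (HD P (γ + 1)).Q p := by
  obtain ⟨τ, hτ⟩ := hc
  obtain ⟨b, x, σ₀⟩ := c
  simp only at h
  subst h
  obtain ⟨p, h1, h2, _⟩ := (phi_succ P γ x σ₀ [] τ).mp hτ
  exact ⟨p, h1, h2⟩

theorem Good_zero_fc (σ₀ σ : List Bool) : fc P ((0, 0, σ₀) : Cnd) σ = σ₀ ++ σ := by
  unfold fc
  have h := Classical.epsilon_spec (p := fun τ => (GG P).phi ((0, 0, σ₀) : Cnd) σ τ)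
    ⟨σ₀ ++ σ, (phi_zero P 0 σ₀ σ _).mpr ⟨rfl, rfl⟩⟩
  exact ((phi_zero P 0 σ₀ σ _).mp h).2

theorem Good_zero : Good P 0 := by
  refine ⟨?_, fun h => absurd h (by simp)⟩
  intro c h0 hc
  obtain ⟨b, x, σ₀⟩ := c
  simp only at h0
  subst h0
  obtain ⟨τ, hτ⟩ := hc
  obtain ⟨hx, _⟩ := (phi_zero P x σ₀ [] τ).mp hτ
  subst hx
  refine ⟨⟨?_, ?_⟩, ?_⟩
  · intro σ b
    rw [Good_zero_fc, Good_zero_fc, List.append_assoc]
  · intro σ τ
    rw [phi_zero, Good_zero_fc]
    simp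
  · constructor
    · intro t _ α n σ σ' i h
      exact absurd h (rd_zero P t 0 σ₀ α n σ i)
    · intro α hα
      exact absurd hα (by simp)
    · intro α hα
      exact absurd hα (by simp)
    · intro α hα
      exact absurd hα (by simp)
    · intro α hα
      exact absurd hα (by simp)

theorem Good_succ {γ : Ordinal.{0}} (hp : Pre (FD P) (γ + 1)) (hG : GB P (γ + 1)) :
    Good P (γ + 1) := by
  refine ⟨?_, fun h => ?_⟩
  · intro c h1 hc
    obtain ⟨p, h2, h3⟩ := src_succ P h1 hc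
    have h4 := ((Q_HD P (γ + 1) p).mp h3).1
    have h5 : OKc P p := (hG p.1 h4.1).2.1 p rfl h4.2
    obtain ⟨b, x, σ₀⟩ := c
    simp only at h1
    subst h1
    have h6 := (CLmain P hp h3 h5.1 h2).1
    have h7 := OKc_rs P h6 σ₀
    have h8 : rs ((γ + 1, x, []) : Cnd) σ₀ = (γ + 1, x, σ₀) := by
      unfold rs
      simp
    rw [h8] at h7
    exact h7
  · exfalso
    have h1 : γ < γ + 1 := Order.lt_add_one_iff.mpr le_rfl
    have h2 := h.succ_lt h1
    exact absurd h2 (by simp)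

end

end Pool.Agent.Helper25.EV

/-!
# The fusion

MODULE F2.  `Hs.fus`, `ch`, `chR`.  `fus_fun`: the least number determines the condition (`nC_ex`, `nC_inj`).  `Q_root`: events have `η` a limit, so `η ≤ 0` is impossible
(`step_of_evt`).  `Q_rs`: `Q_HD`; `Dead` and `Le` pass to restrictions (the condition `c` is in order by `GB`; use `Dead_iff` (η is a limit by `step_of_evt`), `Le_iff` where the condition `c'` of the event is in order, or directly).
-/

set_option autoImplicit false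

namespace Pool.Agent.Helper25.EV

open Ordinal Encodable

section
variable (P : LPr)

theorem fus_nil {β : Ordinal.{0}} (hβ : Order.IsSuccLimit β) (c : Cnd) :
    (HD P β).fus [] c ↔ c = (0, 0, []) := by
  have h0 : (HD P β).fus [] c ↔ ((HD P β).isMin c.1 ∧ c.2 = (0, [])) := Iff.rfl
  rw [h0, isMin_HD]
  constructor
  · rintro ⟨⟨h1, _⟩, h2⟩
    exact Prod.ext h1 h2
  · rintro rfl
    exact ⟨⟨rfl, hβ.bot_lt⟩, rfl⟩

theorem fus_succ (β : Ordinal.{0}) (σ : List Bool) (b : Bool) (c' : Cnd) :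
    (HD P β).fus (σ ++ [b]) c' ↔ ∃ c, (HD P β).fus σ c ∧ (HD P β).Ext σ.length (rs c [b]) c' := by
  unfold Hs.fus ch
  rw [List.reverse_append, List.reverse_singleton, List.singleton_append]
  show (∃ r, _ ∧ (HD P β).Ext σ.reverse.length (Hs.rst r b) c') ↔ _
  rw [List.length_reverse]
  exact Iff.rfl

theorem fus_fun {β : Ordinal.{0}} (hp : Pre (FD P) β) (hβ : Order.IsSuccLimit β) {σ : List Bool}
    {c c' : Cnd} (h : (HD P β).fus σ c) (h' : (HD P β).fus σ c') : c = c' := by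
  induction σ using List.reverseRecOn generalizing c c' with
  | nil => rw [(fus_nil P hβ c).mp h, (fus_nil P hβ c').mp h']
  | append_singleton σ b ih =>
    obtain ⟨c1, h1, h2⟩ := (fus_succ P β σ b c).mp h
    obtain ⟨c1', h1', h2'⟩ := (fus_succ P β σ b c').mp h'
    have h3 : c1 = c1' := ih h1 h1'
    subst h3
    have h4 : c.1 < β := ((Q_HD P β c).mp h2.1.1).1.1
    have h4' : c'.1 < β := ((Q_HD P β c').mp h2'.1.1).1.1
    obtain ⟨k, hk⟩ := nC_ex P hp c h4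
    obtain ⟨k', hk'⟩ := nC_ex P hp c' h4'
    have h5 : k = k' := le_antisymm (h2.2 c' k k' h2'.1.1 h2'.1.2.1 h2'.1.2.2 hk hk')
      (h2'.2 c k' k h2.1.1 h2.1.2.1 h2.1.2.2 hk' hk)
    subst h5
    exact nC_inj P hk hk'

theorem Q_root {β : Ordinal.{0}} (hβ : 0 < β) (hG : GB P β) : (HD P β).Q (0, 0, []) := by
  rw [Q_HD]
  refine ⟨⟨hβ, [], (phi_zero P 0 [] [] []).mpr ⟨rfl, rfl⟩⟩, ?_⟩
  intro η δ c' h1 h2 h3 _
  obtain ⟨m, e, h4, _⟩ := step_of_evt P (hG δ h1).1 h2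
  have h5 : (⊥ : Ordinal.{0}) < η := h4.lim.bot_lt
  exact absurd (lt_of_lt_of_le h5 h3) (lt_irrefl _)

/-- restrictions of valid conditions are valid -/
theorem Q_rs {β : Ordinal.{0}} (hG : GB P β) {c : Cnd} (h : (HD P β).Q c) (σ : List Bool) :
    (HD P β).Q (rs c σ) := by
  rw [Q_HD] at h ⊢
  obtain ⟨⟨h1, h2⟩, h3⟩ := h
  have hok : OKc P c := (hG c.1 h1).2.1 c rfl h2
  refine ⟨⟨h1, Emb_cond P (Emb_rs P hok.1 σ)⟩, ?_⟩
  intro η δ c' h4 h5 h6 h7
  obtain ⟨m, e, h8, _⟩ := step_of_evt P (hG δ h4).1 h5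
  rcases h3 η δ c' h4 h5 h6 h7 with h9 | h9
  · left
    rw [Dead_iff P (OKc_rs P hok σ) η h8.lim]
    intro y hy
    exact (Dead_iff P hok η h8.lim).mp h9 y (Br_rs_sub P hok.1 σ hy)
  · right
    intro σ' τ h10
    exact h9 (σ ++ σ') τ ((phi_rs P c σ σ' τ).mp h10)

theorem fus_Q {β : Ordinal.{0}} (hβ : Order.IsSuccLimit β) (hG : GB P β) {σ : List Bool} {c : Cnd}
    (h : (HD P β).fus σ c) : (HD P β).Q c := by
  induction σ using List.reverseRecOn generalizing c with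
  | nil =>
    rw [(fus_nil P hβ c).mp h]
    exact Q_root P hβ.bot_lt hG
  | append_singleton σ b ih =>
    obtain ⟨c1, _, h2⟩ := (fus_succ P β σ b c).mp h
    exact h2.1.1

end

end Pool.Agent.Helper25.EV

/-!
# The limit condition

MODULE F3.  By `phi_lim` (with `σ₀ = []`) `fc P (β, 0, []) σ` is the stem `fc P c []` of the condition `c = p_σ` with `fus σ c`.  Normalised: `p_{σb}` is contained in `rs p_σ [b]` (`fus_succ`, `Ext`), so its stem extends
`fc P p_σ [b]` (`stem_le`), which extends `fc P p_σ [] ++ [b]`.  Second part: a branch through `σ` contains the stems of all `p_σ'` along it, and these are in the tree of `p_σ`.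
-/

set_option autoImplicit false

namespace Pool.Agent.Helper25.EV

open Ordinal Encodable

section
variable (P : LPr)

/-- the conditions of the fusion are embeddings born below the limit -/
theorem F3_emb {β : Ordinal.{0}} (hβ : Order.IsSuccLimit β) (hG : GB P β) {σ : List Bool} {c : Cnd}
    (h : (HD P β).fus σ c) : Emb P c := by
  have h1 := fus_Q P hβ hG h
  rw [Q_HD] at h1
  exact ((hG c.1 h1.1.1).2.1 c rfl h1.1.2).1

/-- one step of the fusion decreases the closed sets and extends the stems -/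
theorem F3_step {β : Ordinal.{0}} (hβ : Order.IsSuccLimit β) (hp : Pre (FD P) β) (hG : GB P β)
    {σ : List Bool} {b : Bool} {c c' : Cnd} (h : (HD P β).fus σ c)
    (h' : (HD P β).fus (σ ++ [b]) c') :
    Br P c' ⊆ Br P c ∧ fc P c [] ++ [b] <+: fc P c' [] := by
  obtain ⟨d, hd, hE⟩ := (fus_succ P β σ b c').mp h'
  have hdc : d = c := fus_fun P hp hβ hd h
  subst hdc
  have hc := F3_emb P hβ hG h
  have hc' := F3_emb P hβ hG h'
  have hrs := Emb_rs P hc [b]
  have hle : (GG P).Le c' (rs d [b]) := hE.1.2.1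
  have hsub := (Le_iff P hc' hrs).mp hle
  refine ⟨hsub.trans (Br_rs_sub P hc [b]), ?_⟩
  have h1 := stem_le hc'.1 hrs.1 hsub
  refine List.IsPrefix.trans ?_ h1
  rw [fc_rs]
  change fc P d [] ++ [b] <+: fc P d ([b] ++ [])
  exact hc.1 [] b

/-- monotonicity of the closed sets along the fusion -/
theorem F3_mono {β : Ordinal.{0}} (hβ : Order.IsSuccLimit β) (hp : Pre (FD P) β) (hG : GB P β)
    (hf : ∀ σ, ∃ c, (HD P β).fus σ c) {σ : List Bool} (t : List Bool) {c c' : Cnd}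
    (h : (HD P β).fus σ c) (h' : (HD P β).fus (σ ++ t) c') : Br P c' ⊆ Br P c := by
  induction t using List.reverseRecOn generalizing c' with
  | nil =>
    rw [List.append_nil] at h'
    rw [fus_fun P hp hβ h' h]
  | append_singleton t b ih =>
    obtain ⟨d, hd⟩ := hf (σ ++ t)
    rw [← List.append_assoc] at h'
    exact (F3_step P hβ hp hG hd h').1.trans (ih hd)

/-- the embedding of the limit condition -/
theorem F3_phi {β : Ordinal.{0}} (hβ : Order.IsSuccLimit β) (hp : Pre (FD P) β) (hG : GB P β)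
    {σ : List Bool} {c : Cnd} (h : (HD P β).fus σ c) (τ : List Bool) :
    (GG P).phi (β, 0, []) σ τ ↔ τ = fc P c [] := by
  rw [phi_lim P hβ]
  constructor
  · rintro ⟨_, d, hd, h1⟩
    rw [List.nil_append] at hd
    have hdc : d = c := fus_fun P hp hβ hd h
    subst hdc
    exact ((F3_emb P hβ hG h).2 [] τ).mp h1
  · intro h1
    exact ⟨rfl, c, by rw [List.nil_append]; exact h, ((F3_emb P hβ hG h).2 [] τ).mpr h1⟩

theorem F3_fc {β : Ordinal.{0}} (hβ : Order.IsSuccLimit β) (hp : Pre (FD P) β) (hG : GB P β)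
    {σ : List Bool} {c : Cnd} (h : (HD P β).fus σ c) : fc P (β, 0, []) σ = fc P c [] := by
  have h1 : (GG P).phi (β, 0, []) σ (fc P (β, 0, []) σ) := by
    unfold fc
    exact Classical.epsilon_spec ⟨fc P c [], (F3_phi P hβ hp hG h _).mpr rfl⟩
  exact (F3_phi P hβ hp hG h _).mp h1

/-- the tree of a limit condition: its branches are the branches of the fusion sequences -/
theorem fus_Br {β : Ordinal.{0}} (hβ : Order.IsSuccLimit β) (hp : Pre (FD P) β) (hG : GB P β)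
    (hf : ∀ σ, ∃ c, (HD P β).fus σ c) : Emb P (β, 0, []) ∧
    ∀ σ c, (HD P β).fus σ c → Br P (rs (β, 0, []) σ) ⊆ Br P c := by
  have hE : Emb P (β, 0, []) := by
    refine ⟨fun σ b => ?_, fun σ τ => ?_⟩
    · obtain ⟨c, hc⟩ := hf σ
      obtain ⟨c', hc'⟩ := hf (σ ++ [b])
      rw [F3_fc P hβ hp hG hc, F3_fc P hβ hp hG hc']
      exact (F3_step P hβ hp hG hc hc').2
    · obtain ⟨c, hc⟩ := hf σ
      rw [F3_phi P hβ hp hG hc, F3_fc P hβ hp hG hc]
  refine ⟨hE, fun σ c hc y hy => ?_⟩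
  have hy0 : y ∈ Br P (β, 0, []) := Br_rs_sub P hE σ hy
  obtain ⟨e, he, hcoord⟩ := Br_coord P hE y hy0
  have hσ : σ = pfx e σ.length := (hcoord σ).mp hy
  intro j
  set k := max j σ.length with hk
  obtain ⟨d, hd⟩ := hf (pfx e k)
  have hpre : σ <+: pfx e k := by
    have h3 := pfx_mono e (le_max_right j σ.length)
    rw [← hσ] at h3
    exact h3
  obtain ⟨t, ht⟩ := hpre
  have hsub : Br P d ⊆ Br P c := F3_mono P hβ hp hG hf t hc (by rw [ht]; exact hd)
  obtain ⟨τ, hτ⟩ := (le_iff_br (F3_emb P hβ hG hd).1 (F3_emb P hβ hG hc).1).mpr hsub []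
  refine ⟨τ, List.IsPrefix.trans ?_ hτ⟩
  have h1 : fc P (β, 0, []) (pfx e k) = pfx y (fc P (β, 0, []) (pfx e k)).length := by
    rw [he]
    exact limF_spec hE.1 e k
  have h2 := hE.1.len (pfx e k)
  rw [pfx_length] at h2
  rw [← F3_fc P hβ hp hG hd, h1]
  exact pfx_mono y ((le_max_left _ _).trans h2)

end

end Pool.Agent.Helper25.EV

/-!
# Fusion sequences

MODULE F4.  The requirement number `k = ⟨kind, p, n⟩` (`Hs.Rq`) is satisfied by `p_{σb}` for `σ` of length `k` (`fus_succ`, `Ext`).  `fus_cof`: kind 0, `p` the number of `a`.  `fus_dec`: kind 1, `q = (a, x, σ₀)`, `p` the number of `a`, `n = encode (x, σ₀)`: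
inclusion or disjoint, and `y` is in both.  `fus_dir`: kind 0 with arbitrarily large `n` (so that `k` is larger than the lengths of `σ`, `σ'`); the conditions decrease along `y`.  (Births need not be monotone.)
-/

set_option autoImplicit false

namespace Pool.Agent.Helper25.EV

open Ordinal Encodable

section
variable (P : LPr)

/-- conditions of the fusion are in order -/
theorem FusD_ok {β : Ordinal.{0}} (hβ : Order.IsSuccLimit β) (hG : GB P β) {σ : List Bool}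
    {c : Cnd} (h : (HD P β).fus σ c) : c.1 < β ∧ OKc P c := by
  have h1 := fus_Q P hβ hG h
  rw [Q_HD] at h1
  exact ⟨h1.1.1, (hG c.1 h1.1.1).2.1 c rfl h1.1.2⟩

/-- the conditions of the fusion decrease -/
theorem FusD_mono {β : Ordinal.{0}} (hβ : Order.IsSuccLimit β) (hp : Pre (FD P) β) (hG : GB P β)
    {σ : List Bool} {c : Cnd} (hc : (HD P β).fus σ c) (τ : List Bool) :
    ∀ c'', (HD P β).fus (σ ++ τ) c'' → Br P c'' ⊆ Br P c := by
  induction τ using List.reverseRecOn with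
  | nil =>
    intro c'' h
    rw [List.append_nil] at h
    rw [fus_fun P hp hβ h hc]
  | append_singleton τ b ih =>
    intro c'' h
    rw [← List.append_assoc] at h
    obtain ⟨c1, h1, h2⟩ := (fus_succ P β (σ ++ τ) b c'').mp h
    have e1 := (FusD_ok P hβ hG h1).2.1
    have e2 := (FusD_ok P hβ hG h).2.1
    have h3 : (GG P).Le c'' (rs c1 [b]) := h2.1.2.1
    rw [Le_iff P e2 (Emb_rs P e1 [b])] at h3
    exact h3.trans ((Br_rs_sub P e1 [b]).trans (ih c1 h1))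

/-- the requirement number `k` along `y` -/
theorem FusD_req {β : Ordinal.{0}} (hβ : Order.IsSuccLimit β) (hp : Pre (FD P) β) (hG : GB P β)
    (hf : ∀ σ, ∃ c, (HD P β).fus σ c) (y : Real2) (hy : y ∈ Br P (β, 0, [])) :
    ∃ e : Real2, (∀ σ, y ∈ Br P (rs (β, 0, []) σ) ↔ σ = pfx e σ.length) ∧
      ∀ k, ∃ c, (HD P β).fus (pfx e (k + 1)) c ∧ y ∈ Br P (rs (β, 0, []) (pfx e (k + 1))) ∧
        (HD P β).Rq k c := by
  obtain ⟨e, -, he⟩ := Br_coord P (fus_Br P hβ hp hG hf).1 y hy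
  refine ⟨e, he, fun k => ?_⟩
  obtain ⟨c, hc⟩ := hf (pfx e (k + 1))
  refine ⟨c, hc, (he _).mpr (by rw [pfx_length]), ?_⟩
  rw [pfx_succ] at hc
  obtain ⟨c1, _, h2⟩ := (fus_succ P β (pfx e k) (e k) c).mp hc
  have h3 := h2.1.2.2
  rwa [pfx_length] at h3

/-- the births of the conditions in the fusion are cofinal -/
theorem fus_cof {β : Ordinal.{0}} (hβ : Order.IsSuccLimit β) (hp : Pre (FD P) β) (hG : GB P β)
    (hf : ∀ σ, ∃ c, (HD P β).fus σ c) (y : Real2) (hy : y ∈ Br P (β, 0, [])) (a : Ordinal.{0})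
    (ha : a < β) : ∃ σ c, (HD P β).fus σ c ∧ y ∈ Br P (rs (β, 0, []) σ) ∧ a < c.1 := by
  obtain ⟨e, _, h⟩ := FusD_req P hβ hp hG hf y hy
  obtain ⟨p, hpn⟩ := num_ex P hp a ha
  rw [numD_eq] at hpn
  obtain ⟨c, h1, h2, h3⟩ := h (Nat.pair 0 (Nat.pair p 0))
  refine ⟨_, c, h1, h2, ?_⟩
  have h4 := h3.1
  simp only [Nat.unpair_pair] at h4
  exact h4 trivial a ha hpn

/-- the conditions in the fusion decide older conditions -/
theorem fus_dec {β : Ordinal.{0}} (hβ : Order.IsSuccLimit β) (hp : Pre (FD P) β) (hG : GB P β)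
    (hf : ∀ σ, ∃ c, (HD P β).fus σ c) (y : Real2) (hy : y ∈ Br P (β, 0, [])) (q : Cnd)
    (hq : cond P q) (hq' : q.1 < β) (hyq : y ∈ Br P q) :
    ∃ σ c, (HD P β).fus σ c ∧ y ∈ Br P (rs (β, 0, []) σ) ∧ Br P c ⊆ Br P q := by
  obtain ⟨e, _, h⟩ := FusD_req P hβ hp hG hf y hy
  obtain ⟨p, hpn⟩ := num_ex P hp q.1 hq'
  rw [numD_eq] at hpn
  obtain ⟨c, h1, h2, h3⟩ := h (Nat.pair 1 (Nat.pair p (encode (q.2.1, q.2.2))))
  refine ⟨_, c, h1, h2, ?_⟩
  have h4 := h3.2.1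
  simp only [Nat.unpair_pair] at h4
  have e1 := (FusD_ok P hβ hG h1).2.1
  have e2 : Emb P q := ((hG q.1 hq').2.1 q rfl hq).1
  rcases h4 trivial q.1 q.2.1 q.2.2 hq' hpn rfl ⟨hq', hq⟩ with h5 | h5
  · exact (Le_iff P e1 e2).mp h5
  · exfalso
    have h6 : Disjoint (Br P c) (Br P q) := (Dj_iff P e1 e2).mp h5
    exact Set.disjoint_left.mp h6 ((fus_Br P hβ hp hG hf).2 _ c h1 h2) hyq

/-- two conditions in the fusion along `y` have a common later one, beyond any stage -/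
theorem fus_dir {β : Ordinal.{0}} (hβ : Order.IsSuccLimit β) (hp : Pre (FD P) β) (hG : GB P β)
    (hf : ∀ σ, ∃ c, (HD P β).fus σ c) (y : Real2) (σ σ' : List Bool)
    (h : y ∈ Br P (rs (β, 0, []) σ)) (h' : y ∈ Br P (rs (β, 0, []) σ')) {c : Cnd}
    (hc : (HD P β).fus σ c) (a : Ordinal.{0}) (ha : a < β) :
    ∃ σ'' c'', σ <+: σ'' ∧ σ' <+: σ'' ∧ (HD P β).fus σ'' c'' ∧ y ∈ Br P (rs (β, 0, []) σ'') ∧
      a < c''.1 ∧ Br P c'' ⊆ Br P c := by
  have hy : y ∈ Br P (β, 0, []) := Br_rs_sub P (fus_Br P hβ hp hG hf).1 σ h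
  obtain ⟨e, he, hr⟩ := FusD_req P hβ hp hG hf y hy
  obtain ⟨p, hpn⟩ := num_ex P hp a ha
  rw [numD_eq] at hpn
  obtain ⟨c'', h1, h2, h3⟩ := hr (Nat.pair 0 (Nat.pair p (σ.length + σ'.length)))
  have hk : σ.length + σ'.length ≤ Nat.pair 0 (Nat.pair p (σ.length + σ'.length)) :=
    (Nat.right_le_pair _ _).trans (Nat.right_le_pair _ _)
  have hs : σ <+: pfx e (Nat.pair 0 (Nat.pair p (σ.length + σ'.length)) + 1) := by
    rw [(he σ).mp h, pfx_length]
    exact pfx_mono e (by omega)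
  have hs' : σ' <+: pfx e (Nat.pair 0 (Nat.pair p (σ.length + σ'.length)) + 1) := by
    rw [(he σ').mp h', pfx_length]
    exact pfx_mono e (by omega)
  refine ⟨_, c'', hs, hs', h1, h2, ?_, ?_⟩
  · have h4 := h3.1
    simp only [Nat.unpair_pair] at h4
    exact h4 trivial a ha hpn
  · obtain ⟨τ, hτ⟩ := hs
    rw [← hτ] at h1
    exact FusD_mono P hβ hp hG hc τ c'' h1

end

end Pool.Agent.Helper25.EV

/-!
# Limit conditions are in order

MODULE F5.  `Rdg` by `rd_lim`: `tot3`: by `fus_cof` a condition `c = p_σ'` of the fusion with `α < c.1`, `y ∈ Br P c`; `Rdg P c` (by `GB`; `c` is a condition born below `β`) gives `ρ`, `i`; go to a longer `σ` along `y` such that `fc P c ρ` is a prefix of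
`fc P (β, 0, []) σ`.  `cor3`: the branches through `σ` are in `Br P (rs c ρ)`.  `mon`: `phi` of the extension.
-/

set_option autoImplicit false

namespace Pool.Agent.Helper25.EV

open Ordinal Encodable

section
variable (P : LPr)

theorem FusE_sub {C : Cnd} (hC : Emb P C) {σ' σ : List Bool} (h : σ' <+: σ) {y : Real2}
    (hy : y ∈ Br P (rs C σ)) : y ∈ Br P (rs C σ') := by
  rw [Br_rs P hC] at hy ⊢
  refine ⟨hy.1, ?_⟩
  have h1 := hC.1.mono h
  rw [hy.2] at h1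
  exact prefix_pfx h1

theorem FusE_ok {β : Ordinal.{0}} (hβ : Order.IsSuccLimit β) (hG : GB P β) {σ : List Bool}
    {c : Cnd} (h : (HD P β).fus σ c) : OKc P c := by
  have hQ := fus_Q P hβ hG h
  rw [Q_HD] at hQ
  exact (hG c.1 hQ.1.1).2.1 c rfl hQ.1.2

/-- a longer string along `y` -/
theorem FusE_long {C c : Cnd} (hC : Emb P C) (hc : Emb P c) {y : Real2} (hyC : y ∈ Br P C)
    {σ₁ ρ : List Bool} (h1 : y ∈ Br P (rs C σ₁)) (h2 : y ∈ Br P (rs c ρ)) :
    ∃ σ, y ∈ Br P (rs C σ) ∧ σ₁ <+: σ ∧ fc P c ρ <+: fc P C σ := by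
  obtain ⟨e, _, he⟩ := Br_coord P hC y hyC
  have h3 : σ₁ = pfx e σ₁.length := (he σ₁).mp h1
  have hk : ∃ k, k = max σ₁.length (fc P c ρ).length := ⟨_, rfl⟩
  obtain ⟨k, hk⟩ := hk
  have h4 : y ∈ Br P (rs C (pfx e k)) := (he _).mpr (by rw [pfx_length])
  refine ⟨pfx e k, h4, ?_, ?_⟩
  · rw [h3]
    exact pfx_mono e (by omega)
  · have h5 := ((Br_rs P hC _ y).mp h4).2
    have h6 := ((Br_rs P hc _ y).mp h2).2
    have h7 := hC.1.len (pfx e k)
    rw [pfx_length] at h7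
    rw [h5, h6]
    exact pfx_mono y (by omega)

/-- limit conditions are in order -/
theorem OK_lim {β : Ordinal.{0}} (hβ : Order.IsSuccLimit β) (hp : Pre (FD P) β) (hG : GB P β)
    (hf : ∀ σ, ∃ c, (HD P β).fus σ c) : OKc P (β, 0, []) := by
  obtain ⟨hE, hB⟩ := fus_Br P hβ hp hG hf
  have hrd : ∀ (z : Bool) (α : Ordinal.{0}) (n : ℕ) (σ : List Bool) (i : Bool),
      (GG P).rd (if z then 4 else 3) (β, 0, []) α n σ i ↔ α < β ∧
      ∃ σ' c ρ, σ' <+: σ ∧ (HD P β).fus σ' c ∧ α < c.1 ∧ fc P c ρ <+: fc P (β, 0, []) σ ∧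
        (GG P).rd (if z then 4 else 3) c α n ρ i := by
    intro z α n σ i
    rw [rd_lim P hβ hp]
    constructor
    · rintro ⟨h1, _, σ', c, ρ, τ', τ, h2, h3, h4, h5, h6, h7, h8⟩
      refine ⟨h1, σ', c, ρ, h2, h3, h4, ?_, h8⟩
      have e1 := ((FusE_ok P hβ hG h3).1.2 ρ τ').mp h5
      have e2 := (hE.2 ([] ++ σ) τ).mp h6
      rw [← e1]
      have e3 : fc P (β, 0, []) σ = τ := by rw [e2]; rfl
      rw [e3]
      exact h7
    · rintro ⟨h1, σ', c, ρ, h2, h3, h4, h5, h6⟩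
      exact ⟨h1, rfl, σ', c, ρ, fc P c ρ, fc P (β, 0, []) σ, h2, h3, h4,
        ((FusE_ok P hβ hG h3).1.2 ρ _).mpr rfl, (hE.2 ([] ++ σ) _).mpr rfl, h5, h6⟩
  have hmon : ∀ (z : Bool) (α : Ordinal.{0}) (n : ℕ) (σ σ' : List Bool) (i : Bool),
      (GG P).rd (if z then 4 else 3) (β, 0, []) α n σ i → σ <+: σ' →
      (GG P).rd (if z then 4 else 3) (β, 0, []) α n σ' i := by
    intro z α n σ σ' i h hs
    rw [hrd] at h ⊢
    obtain ⟨h1, σ₁, c, ρ, h2, h3, h4, h5, h6⟩ := h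
    exact ⟨h1, σ₁, c, ρ, h2.trans hs, h3, h4, h5.trans (hE.1.mono hs), h6⟩
  -- totality
  have htot : ∀ (z : Bool) (α : Ordinal.{0}) (_ : α < β) (n : ℕ) (y : Real2)
      (_ : y ∈ Br P (β, 0, []))
      (_ : ∀ c : Cnd, OKc P c → α < c.1 → y ∈ Br P c →
        ∃ ρ i, y ∈ Br P (rs c ρ) ∧ (GG P).rd (if z then 4 else 3) c α n ρ i),
      ∃ σ i, y ∈ Br P (rs (β, 0, []) σ) ∧ (GG P).rd (if z then 4 else 3) (β, 0, []) α n σ i := by
    intro z α hα n y hy hc
    obtain ⟨σ₁, c, h1, h2, h3⟩ := fus_cof P hβ hp hG hf y hy α hα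
    have hok := FusE_ok P hβ hG h1
    obtain ⟨ρ, i, h4, h5⟩ := hc c hok h3 (hB σ₁ c h1 h2)
    obtain ⟨σ, h6, h7, h8⟩ := FusE_long P hE hok.1 hy h2 h4
    exact ⟨σ, i, h6, (hrd z α n σ i).mpr ⟨hα, σ₁, c, ρ, h7, h1, h3, h8, h5⟩⟩
  -- correctness
  have hcor : ∀ (z : Bool) (α : Ordinal.{0}) (n : ℕ) (σ : List Bool) (i : Bool),
      (GG P).rd (if z then 4 else 3) (β, 0, []) α n σ i → ∀ y ∈ Br P (rs (β, 0, []) σ),
      ∃ c ρ, OKc P c ∧ α < c.1 ∧ y ∈ Br P (rs c ρ) ∧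
        (GG P).rd (if z then 4 else 3) c α n ρ i := by
    intro z α n σ i h y hy
    rw [hrd] at h
    obtain ⟨h1, σ₁, c, ρ, h2, h3, h4, h5, h6⟩ := h
    have hok := FusE_ok P hβ hG h3
    refine ⟨c, ρ, hok, h4, ?_, h6⟩
    rw [Br_rs P hok.1]
    refine ⟨hB σ₁ c h3 (FusE_sub P hE h2 hy), ?_⟩
    have h7 := ((Br_rs P hE σ y).mp hy).2
    rw [h7] at h5
    exact prefix_pfx h5
  refine ⟨hE, ?_, ?_, ?_, ?_, ?_⟩
  · rintro t (rfl | rfl) α n σ σ' i h hs
    · exact hmon false α n σ σ' i h hs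
    · exact hmon true α n σ σ' i h hs
  · intro α hα n y hy
    exact htot false α hα n y hy fun c hc h1 h2 => hc.2.tot3 α h1 n y h2
  · intro α hα n σ i h y hy
    obtain ⟨c, ρ, h1, h2, h3, h4⟩ := hcor false α n σ i h y hy
    exact h1.2.cor3 α h2 n ρ i h4 y h3
  · intro α hα hl n y hy
    exact htot true α hα n y hy fun c hc h1 h2 => hc.2.tot4 α h1 hl n y h2
  · intro α hα hl n σ i h y hy
    obtain ⟨c, ρ, h1, h2, h3, h4⟩ := hcor true α n σ i h y hy
    exact h1.2.cor4 α h2 hl n ρ i h4 y h3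

end

end Pool.Agent.Helper25.EV

/-!
# The star lemmas

MODULE F6.  Induction on `c.1` (well-founded), three cases: `c.1 = 0`: nothing to show (for `SSS`: `η` is a limit; for `Star`, `Avoid`: nothing is below 0).  `c.1 = β'` a limit: `c = (β', 0, σ)` (by `phi_lim` the index is 0),
`y ∈ Br P (β', 0, [])`; if `η = β'` (SSS) done; otherwise take (`fus_cof`; `Good P β'` by `GB`) a condition of the fusion born after `η` (`δ`, `γ`) which contains `y` (`fus_Br`), induction hypothesis.  `c.1 = γ' + 1`: `src_succ`, `CLmain`: `c` comes from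
`p ∈ Q^{γ'+1}`, `y = limF (fc P p) e ∈ Br P p`.  SSS: if `η ≤ p.1` induction; if `p.1 < η ≤ γ'`: `Kkill`.  Star: `δ ≤ γ'`; if `δ < p.1` induction; if `p.1 ≤ δ` and `η ≤ p.1`: `Q_HD` for `p`: `Dead p η` (so `dY y η p.1`, `dY_mono`) or `Le p c'`
(`Le_iff`; the condition `c'` is born below `δ`, in order); if `p.1 < η`: `Kkill` (`η < δ` by `step_of_evt`), `dY` with `α = η`.  Avoid: third part of `CLmain`.
-/

set_option autoImplicit false

namespace Pool.Agent.Helper25.EV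

open Ordinal Encodable

section
variable (P : LPr)

theorem F6_GB {β β' : Ordinal.{0}} (hG : GB P β) (h : β' ≤ β) : GB P β' :=
  fun γ hγ => hG γ (lt_of_lt_of_le hγ h)

theorem F6_lim {β : Ordinal.{0}} (hG : GB P β) {c : Cnd} (hc : cond P c) (h : c.1 < β) {y : Real2}
    (hy : y ∈ Br P c) (hl : Order.IsSuccLimit c.1) :
    y ∈ Br P (c.1, 0, []) ∧
    ∀ a < c.1, ∃ c'' : Cnd, c''.1 < c.1 ∧ a < c''.1 ∧ cond P c'' ∧ y ∈ Br P c'' := by
  obtain ⟨b, x, σ₀⟩ := c
  simp only at h hl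
  have hGb : GB P b := F6_GB P hG (le_of_lt h)
  have hpre : Pre (FD P) b := (hG b h).1
  have hf : ∀ σ, ∃ c, (HD P b).fus σ c := (hG b h).2.2 hl
  obtain ⟨hE, hB⟩ := fus_Br P hl hpre hGb hf
  have hx : x = 0 := by
    obtain ⟨τ, hτ⟩ := hc
    exact ((phi_lim P hl x σ₀ [] τ).mp hτ).1
  subst hx
  have hy0 : y ∈ Br P (b, 0, []) := Br_rs_sub P hE σ₀ hy
  refine ⟨hy0, fun a ha => ?_⟩
  obtain ⟨σ, c, h1, h2, h3⟩ := fus_cof P hl hpre hGb hf y hy0 a ha
  have hQ := fus_Q P hl hGb h1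
  have hQ' := (Q_HD P b c).mp hQ
  exact ⟨c, hQ'.1.1, h3, hQ'.1.2, hB σ c h1 h2⟩

theorem F6_succ {β : Ordinal.{0}} (hG : GB P β) {c : Cnd} (hc : cond P c) (h : c.1 < β) {y : Real2}
    (hy : y ∈ Br P c) {γ : Ordinal.{0}} (hs : c.1 = γ + 1) :
    (∃ p : Cnd, (HD P (γ + 1)).Q p ∧ OKc P p ∧ p.1 ≤ γ ∧ cond P p ∧ y ∈ Br P p ∧
      ∃ e : Real2, y = limF (fc P p) e ∧ ∀ m, e (2 * m) = true ↔ (HD P (γ + 1)).wt m) ∧
    ∀ γ' ≤ γ, ∀ j, ¬ ∀ n, y n = true ↔ rlL (labD P γ') j n := by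
  obtain ⟨p, h1, h2⟩ := src_succ P hs hc
  obtain ⟨b, x, σ₀⟩ := c
  simp only at h hs h1
  subst hs
  have hpre : Pre (FD P) (γ + 1) := (hG _ h).1
  have hQ' := (Q_HD P (γ + 1) p).mp h2
  have hOK : OKc P p := (hG p.1 (lt_trans hQ'.1.1 h)).2.1 p rfl hQ'.1.2
  obtain ⟨hC1, hC2, hC3⟩ := CLmain P hpre h2 hOK.1 h1
  have hy0 : y ∈ Br P (γ + 1, x, []) := Br_rs_sub P hC1.1 σ₀ hy
  obtain ⟨e, he, hw⟩ := hC2 y hy0
  refine ⟨⟨p, h2, hOK, Order.lt_add_one_iff.mp hQ'.1.1, hQ'.1.2, ?_, e, he, hw⟩, hC3 y hy0⟩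
  exact (mem_br_iff hOK.1.1 y).mpr ⟨e, he⟩

/-- (***) -/
theorem SSS {β : Ordinal.{0}} (hG : GB P β) {c : Cnd} (hc : cond P c) (h : c.1 < β) {y : Real2}
    (hy : y ∈ Br P c) {η : Ordinal.{0}} (hη : Order.IsSuccLimit η) (h1 : η ≤ c.1) :
    y ∈ Br P (η, 0, []) ∨ (η < c.1 ∧ kY P y η) := by
  suffices H : ∀ b : Ordinal.{0}, ∀ c : Cnd, c.1 = b → cond P c → c.1 < β → y ∈ Br P c → η ≤ c.1 →
      y ∈ Br P (η, 0, []) ∨ (η < c.1 ∧ kY P y η) from H c.1 c rfl hc h hy h1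
  intro b
  induction b using WellFounded.induction Ordinal.lt_wf with
  | _ b ih =>
    intro c hb hc h hy h1
    subst hb
    rcases Ordinal.zero_or_succ_or_isSuccLimit c.1 with h0 | ⟨γ, hγ⟩ | hl
    · rw [h0] at h1
      exact absurd hη.bot_lt (not_lt.mpr h1)
    · have hs : c.1 = γ + 1 := hγ.symm
      obtain ⟨⟨p, _, _, h4, h5, h6, e, he, hw⟩, _⟩ := F6_succ P hG hc h hy hs
      have hpc : p.1 < c.1 := by
        rw [hs]
        exact Order.lt_add_one_iff.mpr h4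
      have hne : η ≠ γ + 1 := by
        intro h'
        have h'' := hη.succ_lt (show γ < η by rw [h']; exact Order.lt_add_one_iff.mpr le_rfl)
        rw [h'] at h''
        exact lt_irrefl _ h''
      have hηγ : η ≤ γ := by
        rw [hs] at h1
        exact Order.lt_add_one_iff.mp (lt_of_le_of_ne h1 hne)
      have hηc : η < c.1 := by
        rw [hs]
        exact Order.lt_add_one_iff.mpr hηγ
      rcases le_or_gt η p.1 with h7 | h7
      · rcases ih p.1 hpc p rfl h5 (lt_trans hpc h) h6 h7 with h8 | h8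
        · exact Or.inl h8
        · exact Or.inr ⟨hηc, h8.2⟩
      · right
        refine ⟨hηc, ?_⟩
        have hpre : Pre (FD P) (γ + 1) := by
          have := (hG _ h).1
          rwa [hs] at this
        have hE : Emb P p := ((hG p.1 (lt_trans hpc h)).2.1 p rfl h5).1
        rw [he]
        exact Kkill P hpre hE hw hη h7 hηγ
    · obtain ⟨hy0, hcof⟩ := F6_lim P hG hc h hy hl
      rcases eq_or_lt_of_le h1 with h2 | h2
      · left
        rw [h2]
        exact hy0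
      · obtain ⟨c'', h3, h4, h5, h6⟩ := hcof η h2
        rcases ih c''.1 h3 c'' rfl h5 (lt_trans h3 h) h6 (le_of_lt h4) with h7 | h7
        · exact Or.inl h7
        · exact Or.inr ⟨h2, h7.2⟩

/-- (*) -/
theorem Star {β : Ordinal.{0}} (hG : GB P β) {c : Cnd} (hc : cond P c) (h : c.1 < β) {y : Real2}
    (hy : y ∈ Br P c) {η δ : Ordinal.{0}} {c' : Cnd} (he : (GG P).evt η δ c') (h1 : δ < c.1) :
    dY P y η δ ∨ y ∈ Br P c' := by
  have hpδ : Pre (FD P) δ := (hG δ (lt_trans h1 h)).1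
  obtain ⟨m, e0, hst, _⟩ := step_of_evt P hpδ he
  suffices H : ∀ b : Ordinal.{0}, ∀ c : Cnd, c.1 = b → cond P c → c.1 < β → y ∈ Br P c → δ < c.1 →
      dY P y η δ ∨ y ∈ Br P c' from H c.1 c rfl hc h hy h1
  intro b
  clear hc h hy h1
  induction b using WellFounded.induction Ordinal.lt_wf with
  | _ b ih =>
    intro c hb hc h hy h1
    subst hb
    rcases Ordinal.zero_or_succ_or_isSuccLimit c.1 with h0 | ⟨γ, hγ⟩ | hl
    · rw [h0] at h1
      exact absurd h1 (by simp)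
    · have hs : c.1 = γ + 1 := hγ.symm
      obtain ⟨⟨p, hQ, hOK, h4, h5, h6, e, hye, hw⟩, _⟩ := F6_succ P hG hc h hy hs
      have hpc : p.1 < c.1 := by
        rw [hs]
        exact Order.lt_add_one_iff.mpr h4
      have hδγ : δ < γ + 1 := by rwa [hs] at h1
      have hδγ' : δ ≤ γ := Order.lt_add_one_iff.mp hδγ
      rcases lt_or_ge δ p.1 with h7 | h7
      · exact ih p.1 hpc p rfl h5 (lt_trans hpc h) h6 h7
      · rcases le_or_gt η p.1 with h8 | h8
        · rcases ((Q_HD P (γ + 1) p).mp hQ).2 η δ c' hδγ he h8 h7 with h9 | h9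
          · left
            exact dY_mono P ((Dead_iff P hOK η hst.lim).mp h9 y h6) h7
          · right
            have hE' : Emb P c' :=
              ((hG c'.1 (lt_trans hst.lt2 (lt_trans h1 h))).2.1 c' rfl hst.cnd).1
            exact (Le_iff P hOK.1 hE').mp h9 h6
        · left
          have hpre : Pre (FD P) (γ + 1) := by
            have := (hG _ h).1
            rwa [hs] at this
          have hk := Kkill P hpre hOK.1 hw hst.lim h8 (le_trans (le_of_lt hst.ltη) hδγ')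
          rw [← hye] at hk
          obtain ⟨n, hn1, hn2⟩ := hk
          exact ⟨n, hn1, η, le_rfl, hst.ltη, hn2⟩
    · obtain ⟨_, hcof⟩ := F6_lim P hG hc h hy hl
      obtain ⟨c'', h3, h4, h5, h6⟩ := hcof δ h1
      exact ih c''.1 h3 c'' rfl h5 (lt_trans h3 h) h6 h4

/-- avoidance of the listed reals -/
theorem Avoid {β : Ordinal.{0}} (hG : GB P β) {c : Cnd} (hc : cond P c) (h : c.1 < β) {y : Real2}
    (hy : y ∈ Br P c) {γ : Ordinal.{0}} (h1 : γ < c.1) (j : ℕ) :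
    ¬ ∀ n, y n = true ↔ rlL (labD P γ) j n := by
  suffices H : ∀ b : Ordinal.{0}, ∀ c : Cnd, c.1 = b → cond P c → c.1 < β → y ∈ Br P c → γ < c.1 →
      ¬ ∀ n, y n = true ↔ rlL (labD P γ) j n from H c.1 c rfl hc h hy h1
  intro b
  clear hc h hy h1
  induction b using WellFounded.induction Ordinal.lt_wf with
  | _ b ih =>
    intro c hb hc h hy h1
    subst hb
    rcases Ordinal.zero_or_succ_or_isSuccLimit c.1 with h0 | ⟨γ', hγ⟩ | hl
    · rw [h0] at h1
      exact absurd h1 (by simp)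
    · have hs : c.1 = γ' + 1 := hγ.symm
      obtain ⟨_, hav⟩ := F6_succ P hG hc h hy hs
      exact hav γ (by rw [hs] at h1; exact Order.lt_add_one_iff.mp h1) j
    · obtain ⟨_, hcof⟩ := F6_lim P hG hc h hy hl
      obtain ⟨c'', h3, h4, h5, h6⟩ := hcof γ h1
      exact ih c''.1 h3 c'' rfl h5 (lt_trans h3 h) h6 h4

end

end Pool.Agent.Helper25.EV

/-!
# Extension by coding

MODULE F7.  `T = (γ + 1, x, [])` with `x` the number of `p` at `γ + 1` (`nC_ex`; `Pre` from `hG`), `Q_anti`, `CLmain`.  `Dead T η`: `Dead_iff`, `Kkill` (`η ≤ γ` since `η` is a limit).  `Q T` at `β`: `Q_HD`: event `(η, δ, c')`, `η ≤ T.1 ≤ δ < β`; if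
`η ≤ p.1` use `Q p` (`Dead` passes to `T` by `Dead_iff`, `dY_mono`, `Br T ⊆ Br p`; `Le` by transitivity), otherwise `Dead T η`.
-/

set_option autoImplicit false

namespace Pool.Agent.Helper25.EV

open Ordinal Encodable

section
variable (P : LPr)

/-- inclusion of conditions is transitive -/
theorem El_Le_trans {a b c : Cnd} (h : (GG P).Le a b) (h' : (GG P).Le b c) : (GG P).Le a c := by
  intro σ τ h1
  obtain ⟨σ', τ', h2, h3⟩ := h σ τ h1
  obtain ⟨σ'', τ'', h4, h5⟩ := h' σ' τ' h2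
  exact ⟨σ'', τ'', h4, h3.trans h5⟩

/-- extension by coding -/
theorem EL {β : Ordinal.{0}} (hG : GB P β) {p : Cnd} (hQ : (HD P β).Q p) {γ : Ordinal.{0}}
    (h1 : p.1 ≤ γ) (h2 : γ + 1 < β) : ∃ T : Cnd, T.1 = γ + 1 ∧ (HD P β).Q T ∧ Br P T ⊆ Br P p ∧
      ∀ η, Order.IsSuccLimit η → p.1 < η → η ≤ T.1 → (GG P).Dead T η := by
  have hpγ : p.1 < γ + 1 := Order.lt_add_one_iff.mpr h1
  have hp : Pre (FD P) (γ + 1) := (hG _ h2).1
  have hQ' : (HD P (γ + 1)).Q p := Q_anti P hQ hpγ (le_of_lt h2)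
  have hQβ := (Q_HD P β p).mp hQ
  have hOp : OKc P p := (hG p.1 hQβ.1.1).2.1 p rfl hQβ.1.2
  obtain ⟨x, hx⟩ := nC_ex P hp p hpγ
  obtain ⟨hOT, hBr, -⟩ := CLmain P hp hQ' hOp.1 hx
  have hsub : Br P (γ + 1, x, []) ⊆ Br P p := by
    intro y hy
    obtain ⟨e, he, -⟩ := hBr y hy
    exact (mem_br_iff hOp.1.1 y).mpr ⟨e, he⟩
  have hdead : ∀ η, Order.IsSuccLimit η → p.1 < η → η ≤ γ + 1 →
      (GG P).Dead ((γ + 1, x, []) : Cnd) η := by
    intro η hη h3 h4
    rw [Dead_iff P hOT η hη]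
    intro y hy
    obtain ⟨e, he, hw⟩ := hBr y hy
    have h5 : η ≤ γ := by
      rcases lt_or_eq_of_le h4 with h | h
      · exact Order.lt_add_one_iff.mp h
      · exfalso
        have h6 := hη.succ_lt (show γ < η by rw [h]; exact Order.lt_add_one_iff.mpr le_rfl)
        rw [h] at h6
        exact absurd h6 (lt_irrefl _)
    obtain ⟨n, hn, hn'⟩ := Kkill P hp hOp.1 hw hη h3 h5
    rw [he]
    exact ⟨n, hn, η, le_rfl, Order.lt_add_one_iff.mpr h5, hn'⟩
  refine ⟨(γ + 1, x, []), rfl, ?_, hsub, hdead⟩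
  rw [Q_HD]
  refine ⟨⟨h2, Emb_cond P hOT.1⟩, ?_⟩
  intro η δ c' h3 h4 h5 h6
  obtain ⟨m, e, hst, -⟩ := step_of_evt P (hG δ h3).1 h4
  rcases le_or_gt η p.1 with h7 | h7
  · rcases hQβ.2 η δ c' h3 h4 h7 (le_trans (le_of_lt hpγ) h6) with h8 | h8
    · left
      rw [Dead_iff P hOT η hst.lim]
      rw [Dead_iff P hOp η hst.lim] at h8
      intro y hy
      exact dY_mono P (h8 y (hsub hy)) (le_of_lt hpγ)
    · right
      exact El_Le_trans P ((Le_iff P hOT.1 hOp.1).mpr hsub) h8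
  · exact Or.inl (hdead η hst.lim h7 h5)

end

end Pool.Agent.Helper25.EV

/-!
# Extension by a minimal hit

MODULE F8.  Let `T` be a condition with `T.1 < β`, `Le T q`, `Hit q.1 n T` and `T.1` minimal.  Claim: for a limit `η` with `q.1 < η ≤ T.1` and `y ∈ Br P T`: `dY y η T.1`.  By `SSS` either `kY y η`, `η < T.1` (done) or
`y ∈ Br P (η, 0, [])`.  In the second case: (i) `n ∉ FY y α` for `q.1 < α < η`: otherwise by `fus_dec` (for `q`) and `fus_dir` there is a condition `c` of the fusion of `η` with `y ∈ Br c ⊆ Br q` and `α < c.1`; by `force_rs` a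
restriction of `c` forces `n` on at `α`: a hit with birth `c.1 < η ≤ T.1`, contradiction to the minimality.  So `n ∈ Zc (FY y) η`.  (ii) `T` forces `n` on at some `α₀` with `q.1 < α₀ < T.1`; by (i) `η ≤ α₀`; so `dY y η T.1`.  By `Dead_iff`: `Dead T η`.
`Q T` as in `EL`.
-/

set_option autoImplicit false

namespace Pool.Agent.Helper25.EV

open Ordinal Encodable

section
variable (P : LPr)

theorem Th_le_trans {a b c : Cnd} (h : (GG P).Le a b) (h' : (GG P).Le b c) : (GG P).Le a c := by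
  intro σ τ h1
  obtain ⟨σ₁, τ₁, h2, h3⟩ := h σ τ h1
  obtain ⟨σ₂, τ₂, h4, h5⟩ := h' σ₁ τ₁ h2
  exact ⟨σ₂, τ₂, h4, h3.trans h5⟩

theorem Th_ok {β : Ordinal.{0}} (hG : GB P β) {c : Cnd} (h1 : c.1 < β) (h2 : cond P c) :
    OKc P c := (hG c.1 h1).2.1 c rfl h2

/-- extension by a minimal hit -/
theorem TH {β : Ordinal.{0}} (hG : GB P β) {q : Cnd} (hQ : (HD P β).Q q) {n : ℕ} {c' : Cnd}
    (h1 : c'.1 < β) (hc : cond P c') (hle : (GG P).Le c' q) (hh : (GG P).Hit q.1 n c') :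
    ∃ T : Cnd, (HD P β).Q T ∧ Br P T ⊆ Br P q ∧ (GG P).Hit q.1 n T ∧
      ∀ η, Order.IsSuccLimit η → q.1 < η → η ≤ T.1 → (GG P).Dead T η := by
  have hQ' := (Q_HD P β q).mp hQ
  have hqok : OKc P q := Th_ok P hG hQ'.1.1 hQ'.1.2
  -- the minimal birth
  have hne : {b : Ordinal.{0} | ∃ c : Cnd, c.1 = b ∧ c.1 < β ∧ cond P c ∧ (GG P).Le c q ∧
      (GG P).Hit q.1 n c}.Nonempty := ⟨c'.1, c', rfl, h1, hc, hle, hh⟩
  obtain ⟨T, hT1, hTβ, hTc, hTle, hTh⟩ := WellFounded.min_mem Ordinal.lt_wf _ hne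
  have hmin : ∀ c : Cnd, c.1 < β → cond P c → (GG P).Le c q → (GG P).Hit q.1 n c → T.1 ≤ c.1 := by
    intro c a1 a2 a3 a4
    rw [hT1]
    have hx : c.1 ∈ {b : Ordinal.{0} | ∃ c : Cnd, c.1 = b ∧ c.1 < β ∧ cond P c ∧ (GG P).Le c q ∧
      (GG P).Hit q.1 n c} := ⟨c, rfl, a1, a2, a3, a4⟩
    exact not_lt.mp (Ordinal.lt_wf.not_lt_min _ hx)
  have hTok : OKc P T := Th_ok P hG hTβ hTc
  have hTsub : Br P T ⊆ Br P q := (Le_iff P hTok.1 hqok.1).mp hTle
  obtain ⟨α₀, hα1, hα2, hα3⟩ := (Hit_iff P hTok q.1 n).mp hTh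
  have hdead : ∀ η, Order.IsSuccLimit η → q.1 < η → η ≤ T.1 → (GG P).Dead T η := by
    intro η hη hqη hηT
    rw [Dead_iff P hTok η hη]
    intro y hy
    rcases SSS P hG hTc hTβ hy hη hηT with hyη | ⟨hlt, n', hn1, hn2⟩
    · have hηβ : η < β := lt_of_le_of_lt hηT hTβ
      have hp : Pre (FD P) η := (hG η hηβ).1
      have hG' : GB P η := fun γ hγ => hG γ (lt_trans hγ hηβ)
      have hf := (hG η hηβ).2.2 hη
      obtain ⟨hE, hB⟩ := fus_Br P hη hp hG' hf
      have hi : ∀ α, q.1 < α → α < η → n ∉ FY P y α := by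
        intro α ha1 ha2 hn
        obtain ⟨σ, c, b1, b2, b3⟩ := fus_dec P hη hp hG' hf y hyη q hQ'.1.2 hqη (hTsub hy)
        obtain ⟨σ'', c'', -, -, d3, d4, d5, d6⟩ := fus_dir P hη hp hG' hf y σ σ b2 b2 b1 α ha2
        have hQc := (Q_HD P η c'').mp (fus_Q P hη hG' d3)
        have hcok : OKc P c'' := Th_ok P hG' hQc.1.1 hQc.1.2
        have hyc : y ∈ Br P c'' := hB σ'' c'' d3 d4
        obtain ⟨σ₃, e1, e2⟩ := force_rs P hcok y hyc α d5 n hn
        have hok3 : OKc P (rs c'' σ₃) := OKc_rs P hcok σ₃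
        have hlt3 : (rs c'' σ₃).1 < η := hQc.1.1
        have := hmin (rs c'' σ₃) (lt_trans hlt3 hηβ) (Emb_cond P hok3.1)
          ((Le_iff P hok3.1 hqok.1).mpr (fun z hz => b3 (d6 (Br_rs_sub P hcok.1 σ₃ hz))))
          ((Hit_iff P hok3 q.1 n).mpr ⟨α, ha1, d5, e2⟩)
        exact absurd (lt_of_le_of_lt this hlt3) (not_lt.mpr hηT)
      have hZ : n ∈ Zc (FY P y) η := by
        refine ⟨q.1 + 1, ?_, ?_⟩
        · have := hη.succ_lt hqη
          exact this
        · intro α ha1 ha2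
          exact hi α (lt_of_lt_of_le (Order.lt_add_one_iff.mpr le_rfl) ha1) ha2
      refine ⟨n, hZ, α₀, ?_, hα2, hα3 y hy⟩
      by_contra hlt
      exact hi α₀ hα1 (not_le.mp hlt) (hα3 y hy)
    · exact ⟨n', hn1, η, le_rfl, hlt, hn2⟩
  refine ⟨T, ?_, hTsub, hTh, hdead⟩
  rw [Q_HD]
  refine ⟨⟨hTβ, hTc⟩, ?_⟩
  intro η δ c₁ hδ hev hη1 hη2
  obtain ⟨m, e, hst, -⟩ := step_of_evt P (hG δ hδ).1 hev
  by_cases hηq : η ≤ q.1
  · rcases hQ'.2 η δ c₁ hδ hev hηq (le_trans (le_of_lt (lt_trans hα1 hα2)) hη2) with hd | hl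
    · left
      rw [Dead_iff P hTok η hst.lim]
      rw [Dead_iff P hqok η hst.lim] at hd
      intro y hy
      exact dY_mono P (hd y (hTsub hy)) (le_of_lt (lt_trans hα1 hα2))
    · right
      exact Th_le_trans P hTle hl
  · left
    exact hdead η hst.lim (not_le.mp hηq) hη1

end

end Pool.Agent.Helper25.EV

/-!
# The requirements of the fusion are dense

MODULE F9.  `k = ⟨kind, p, n⟩`.  Kind 0: `EL` with `γ = a` (if the number `p` belongs to a stage `a`; `a + 1 < β`) if `a ≥ p.1`, else `p` itself.  Kind 1: if `Le p c₀` then `p`, otherwise `dj_of_not_le` gives a restriction (`Q_rs`).  Kind 2: if `T1 p n` then `p`,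
otherwise there is a valid `c' ≤ p` with `T0 c' n`.  Kind 3: first `q` by `EL` with `a < q.1`; if `T0 q n` then `q`; otherwise `TH`.  Other kinds: `p`.
-/

set_option autoImplicit false

namespace Pool.Agent.Helper25.EV

open Ordinal Encodable

section
variable (P : LPr)

theorem F9_lim_add_one {β a : Ordinal.{0}} (hβ : Order.IsSuccLimit β) (ha : a < β) : a + 1 < β :=
  hβ.succ_lt ha

theorem F9_nD_inj {β : Ordinal.{0}} {a a' : Ordinal.{0}} {k : ℕ} (h : (HD P β).nD a k)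
    (h' : (HD P β).nD a' k) : a = a' :=
  num_inj P ((numD_eq P β a k).mpr h) ((numD_eq P β a' k).mpr h')

theorem F9_kind0 {β : Ordinal.{0}} (hβ : Order.IsSuccLimit β) (hG : GB P β)
    {p : Cnd} (hQ : (HD P β).Q p) (x : ℕ) :
    ∃ T, (HD P β).Q T ∧ Br P T ⊆ Br P p ∧ ∀ a, a < β → (HD P β).nD a x → a < T.1 := by
  by_cases hex : ∃ a, a < β ∧ (HD P β).nD a x
  · obtain ⟨a, ha, hn⟩ := hex
    rcases lt_or_ge a p.1 with h | h
    · refine ⟨p, hQ, subset_rfl, fun a' _ hn' => ?_⟩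
      rw [F9_nD_inj P hn' hn]
      exact h
    · obtain ⟨T, h1, h2, h3, _⟩ := EL P hG hQ h (F9_lim_add_one hβ ha)
      refine ⟨T, h2, h3, fun a' _ hn' => ?_⟩
      rw [F9_nD_inj P hn' hn, h1]
      exact Order.lt_add_one_iff.mpr le_rfl
  · exact ⟨p, hQ, subset_rfl, fun a ha hn => absurd ⟨a, ha, hn⟩ hex⟩

theorem F9_OK {β : Ordinal.{0}} (hG : GB P β) {c : Cnd} (h : (HD P β).isC c) : OKc P c :=
  (hG c.1 h.1).2.1 c rfl h.2

theorem F9_kind1 {β : Ordinal.{0}} (hG : GB P β) {p : Cnd} (hQ : (HD P β).Q p) {c₀ : Cnd}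
    (hc : (HD P β).isC c₀) :
    ∃ T, (HD P β).Q T ∧ Br P T ⊆ Br P p ∧ ((HD P β).Le T c₀ ∨ (HD P β).Dj T c₀) := by
  have hE0 : Emb P c₀ := (F9_OK P hG hc).1
  have hEp : Emb P p := (F9_OK P hG hQ.1).1
  by_cases hle : (GG P).Le p c₀
  · exact ⟨p, hQ, subset_rfl, Or.inl hle⟩
  · have h1 : ¬ ∀ σ, ∃ σ', fc P p σ <+: fc P c₀ σ' := by
      rw [le_iff_br hEp.1 hE0.1]
      intro h
      exact hle ((Le_iff P hEp hE0).mpr h)
    obtain ⟨σ, hσ⟩ := dj_of_not_le hEp.1 h1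
    have hEr : Emb P (rs p σ) := Emb_rs P hEp σ
    refine ⟨rs p σ, Q_rs P hG hQ σ, Br_rs_sub P hEp σ, Or.inr ?_⟩
    have h2 : (GG P).Dj (rs p σ) c₀ := by
      rw [Dj_iff P hEr hE0]
      have h3 := (dj_iff_br (f := fc P (rs p σ)) (g := fc P c₀) hEr.1 hE0.1).mp
        ⟨0, fun σ' _ => by rw [fc_rs]; exact hσ σ'⟩
      exact h3
    exact h2

/-- the requirements of the fusion are dense -/
theorem Rq_dense {β : Ordinal.{0}} (hβ : Order.IsSuccLimit β) (hp : Pre (FD P) β) (hG : GB P β)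
    {p : Cnd} (hQ : (HD P β).Q p) (k : ℕ) :
    ∃ T, (HD P β).Q T ∧ Br P T ⊆ Br P p ∧ (HD P β).Rq k T := by
  have hOKp : OKc P p := F9_OK P hG hQ.1
  by_cases h0 : (Nat.unpair k).1 = 0
  · obtain ⟨T, h1, h2, h3⟩ := F9_kind0 P hβ hG hQ (Nat.unpair (Nat.unpair k).2).1
    refine ⟨T, h1, h2, ?_⟩
    refine ⟨fun _ a ha hn => h3 a ha hn, fun h => ?_, fun h => ?_, fun h => ?_⟩
    · rw [h0] at h; exact absurd h (by decide)
    · rw [h0] at h; exact absurd h (by decide)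
    · rw [h0] at h; exact absurd h (by decide)
  by_cases h1 : (Nat.unpair k).1 = 1
  · by_cases hex : ∃ a x σ, a < β ∧ (HD P β).nD a (Nat.unpair (Nat.unpair k).2).1 ∧
      (Nat.unpair (Nat.unpair k).2).2 = encode ((x, σ) : ℕ × List Bool) ∧ (HD P β).isC (a, x, σ)
    · obtain ⟨a, x, σ, ha, hn, he, hc⟩ := hex
      obtain ⟨T, h2, h3, h4⟩ := F9_kind1 P hG hQ hc
      refine ⟨T, h2, h3, ?_⟩
      refine ⟨fun h => absurd h h0, fun _ a' x' σ' ha' hn' he' hc' => ?_, fun h => ?_, fun h => ?_⟩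
      · have e1 : a' = a := F9_nD_inj P hn' hn
        have e2 : ((x', σ') : ℕ × List Bool) = (x, σ) := by
          apply Encodable.encode_injective
          rw [← he, ← he']
        obtain ⟨e3, e4⟩ := Prod.mk.inj e2
        subst e1 e3 e4
        exact h4
      · rw [h1] at h; exact absurd h (by decide)
      · rw [h1] at h; exact absurd h (by decide)
    · refine ⟨p, hQ, subset_rfl, ?_⟩
      refine ⟨fun h => absurd h h0, fun _ a' x' σ' ha' hn' he' hc' => ?_, fun h => ?_, fun h => ?_⟩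
      · exact absurd ⟨a', x', σ', ha', hn', he', hc'⟩ hex
      · rw [h1] at h; exact absurd h (by decide)
      · rw [h1] at h; exact absurd h (by decide)
  by_cases h2 : (Nat.unpair k).1 = 2
  · by_cases hT : (HD P β).T1 p (Nat.unpair (Nat.unpair k).2).2
    · refine ⟨p, hQ, subset_rfl, ?_⟩
      refine ⟨fun h => absurd h h0, fun h => absurd h h1, fun _ => Or.inr hT, fun h => ?_⟩
      rw [h2] at h; exact absurd h (by decide)
    · unfold Hs.T1 at hT
      push Not at hT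
      obtain ⟨c', hc1, hc2, hc3⟩ := hT
      refine ⟨c', hc1, ?_, ?_⟩
      · exact (Le_iff P (F9_OK P hG hc1.1).1 hOKp.1).mp hc2
      · refine ⟨fun h => absurd h h0, fun h => absurd h h1, fun _ => Or.inl hc3, fun h => ?_⟩
        rw [h2] at h; exact absurd h (by decide)
  by_cases h3 : (Nat.unpair k).1 = 3
  · by_cases hex : ∃ a, a < β ∧ (HD P β).nD a (Nat.unpair (Nat.unpair k).2).1
    · obtain ⟨a, ha, hn⟩ := hex
      have hγ : max a p.1 + 1 < β := F9_lim_add_one hβ (max_lt ha hQ.1.1)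
      obtain ⟨q, hq1, hq2, hq3, _⟩ := EL P hG hQ (le_max_right a p.1) hγ
      have haq : a < q.1 := by
        rw [hq1]
        exact Order.lt_add_one_iff.mpr (le_max_left _ _)
      by_cases hT : (HD P β).T0 q (Nat.unpair (Nat.unpair k).2).2
      · refine ⟨q, hq2, hq3, ?_⟩
        exact ⟨fun h => absurd h h0, fun h => absurd h h1, fun h => absurd h h2,
          fun _ a' _ _ => Or.inl hT⟩
      · rw [T0_HD] at hT
        push Not at hT
        obtain ⟨c', hc1, hc2, hc3, hc4⟩ := hT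
        obtain ⟨T, hT1, hT2, ⟨α, _, hα1, hα2, hα3⟩, _⟩ := TH P hG hq2 hc1 hc2 hc3 hc4
        refine ⟨T, hT1, hT2.trans hq3, ?_⟩
        refine ⟨fun h => absurd h h0, fun h => absurd h h1, fun h => absurd h h2,
          fun _ a' ha' hn' => Or.inr ⟨α, ?_, ?_, hα2, ?_⟩⟩
        · exact lt_trans hα2 hT1.1.1
        · have e1 : a' = a := F9_nD_inj P hn' hn
          rw [e1]
          exact lt_trans haq hα1
        · exact (Frc_HD P (le_of_lt hT1.1.1) _ _ _).mpr hα3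
    · refine ⟨p, hQ, subset_rfl, ?_⟩
      exact ⟨fun h => absurd h h0, fun h => absurd h h1, fun h => absurd h h2,
        fun _ a' ha' hn' => absurd ⟨a', ha', hn'⟩ hex⟩
  · exact ⟨p, hQ, subset_rfl, fun h => absurd h h0, fun h => absurd h h1, fun h => absurd h h2,
      fun h => absurd h h3⟩

end

end Pool.Agent.Helper25.EV

/-!
# All stages before the end of the first loop are in order

MODULE F10.  `Good_lim`: by induction on `σ` (reverse induction on lists) there is `c` with `fus σ c` (`fus_nil`, `fus_succ`): among the valid extensions of `rs c [b]` with the requirement (`Q_rs`, `Rq_dense`, `Le_iff`) there is one with the least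
number (`nC_ex`).  Then `OK_lim`, `OKc_rs` (a condition born at `β` is `(β, 0, σ₀)` by `phi_lim`).
-/

set_option autoImplicit false

namespace Pool.Agent.Helper25.EV

open Ordinal Encodable

section
variable (P : LPr)

theorem Good_lim_OK {β : Ordinal.{0}} (hG : GB P β) {c : Cnd} (h : (HD P β).Q c) : OKc P c := by
  have h1 := ((Q_HD P β c).mp h).1
  exact (hG c.1 h1.1).2.1 c rfl h1.2

theorem Good_lim_fus {β : Ordinal.{0}} (hβ : Order.IsSuccLimit β) (hp : Pre (FD P) β)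
    (hG : GB P β) (σ : List Bool) : ∃ c, (HD P β).fus σ c := by
  classical
  induction σ using List.reverseRecOn with
  | nil => exact ⟨(0, 0, []), (fus_nil P hβ _).mpr rfl⟩
  | append_singleton σ b ih =>
    obtain ⟨c, hc⟩ := ih
    have hQ : (HD P β).Q (rs c [b]) := Q_rs P hG (fus_Q P hβ hG hc) [b]
    obtain ⟨T, hT1, hT2, hT3⟩ := Rq_dense P hβ hp hG hQ σ.length
    have hEr : Emb P (rs c [b]) := (Good_lim_OK P hG hQ).1
    have hLe : (HD P β).Le T (rs c [b]) := (Le_iff P (Good_lim_OK P hG hT1).1 hEr).mpr hT2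
    have hex : ∃ m, ∃ T : Cnd, (HD P β).Q T ∧ (HD P β).Le T (rs c [b]) ∧
        (HD P β).Rq σ.length T ∧ (HD P β).nC T m := by
      obtain ⟨m, hm⟩ := nC_ex P hp T ((Q_HD P β T).mp hT1).1.1
      exact ⟨m, T, hT1, hLe, hT3, hm⟩
    obtain ⟨T', h1, h2, h3, h4⟩ := Nat.find_spec hex
    refine ⟨T', (fus_succ P β σ b T').mpr ⟨c, hc, ⟨h1, h2, h3⟩, ?_⟩⟩
    intro c'' m m' h5 h6 h7 h8 h9
    rw [nC_fun P h8 h4]
    exact Nat.find_min' hex ⟨c'', h5, h6, h7, h9⟩

theorem Good_lim {β : Ordinal.{0}} (hβ : Order.IsSuccLimit β) (hp : Pre (FD P) β) (hG : GB P β) :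
    Good P β := by
  refine ⟨?_, fun _ σ => Good_lim_fus P hβ hp hG σ⟩
  intro c h1 hc
  obtain ⟨b, x, σ₀⟩ := c
  simp only at h1
  subst h1
  obtain ⟨τ, hτ⟩ := hc
  obtain ⟨hx, _⟩ := (phi_lim P hβ x σ₀ [] τ).mp hτ
  subst hx
  have h6 := OK_lim P hβ hp hG (Good_lim_fus P hβ hp hG)
  have h7 := OKc_rs P h6 σ₀
  have h8 : rs ((b, 0, []) : Cnd) σ₀ = (b, 0, σ₀) := by
    unfold rs
    simp
  rw [h8] at h7
  exact h7

theorem Good_all : ∀ β : Ordinal.{0}, Pre (FD P) β → Good P β := by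
  intro β
  induction β using WellFounded.induction Ordinal.lt_wf with
  | _ β ih =>
    intro hp
    have hG : GB P β := fun γ hγ =>
      ⟨Pre_mono hp (le_of_lt hγ), ih γ hγ (Pre_mono hp (le_of_lt hγ))⟩
    rcases Ordinal.zero_or_succ_or_isSuccLimit β with h | ⟨γ, h⟩ | h
    · rw [h]
      exact Good_zero P
    · have h' : β = γ + 1 := by rw [← h]; rfl
      subst h'
      exact Good_succ P hp hG
    · exact Good_lim P h hp hG

end

end Pool.Agent.Helper25.EV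

/-!
# The bits of `Z_η` on the limit condition

MODULE F11.  `L3a`: `n` is silent on `[a, η)`; the requirement ⟨3, number of a, n⟩ along `y`: `T0` or `n` is on at some `α > a`.  `L3b`: the requirement ⟨2, 0, n⟩ along `y`: `T0` or `T1`; if `T0 c n` for a condition `c` of the fusion along `y` then `n` is silent
on `(c.1, η)` for `y`: otherwise `fus_dir` and `force_rs` give a condition below `c` which forces `n` on at `α > c.1`; contradiction to `T0_HD`.
-/

set_option autoImplicit false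

namespace Pool.Agent.Helper25.EV

open Ordinal Encodable

section
variable (P : LPr)

theorem Lthree_GB {η : Ordinal.{0}} (hp : Pre (FD P) η) : GB P η := fun γ hγ =>
  ⟨Pre_mono hp (le_of_lt hγ), Good_all P γ (Pre_mono hp (le_of_lt hγ))⟩

/-- the condition of the fusion along `y` which satisfies the `k`-th requirement -/
theorem Lthree_step {η : Ordinal.{0}} (hη : Order.IsSuccLimit η) (hp : Pre (FD P) η) {y : Real2}
    (hy : y ∈ Br P (η, 0, [])) (k : ℕ) :
    ∃ σ c, (HD P η).fus σ c ∧ y ∈ Br P (rs (η, 0, []) σ) ∧ OKc P c ∧ c.1 < η ∧ y ∈ Br P c ∧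
      (HD P η).Rq k c := by
  have hG := Lthree_GB P hp
  have hf := (Good_all P η hp).2 hη
  obtain ⟨hE, hB⟩ := fus_Br P hη hp hG hf
  obtain ⟨e, _, he⟩ := Br_coord P hE y hy
  have hσ : pfx e (k + 1) = pfx e k ++ [e k] := pfx_succ e k
  have hyσ : y ∈ Br P (rs (η, 0, []) (pfx e (k + 1))) :=
    (he _).mpr (by rw [pfx_length])
  obtain ⟨c, hc⟩ := hf (pfx e (k + 1))
  have hc' := hc
  rw [hσ, fus_succ] at hc'
  obtain ⟨_, _, hext⟩ := hc'
  rw [pfx_length] at hext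
  have hQ := ((Q_HD P η c).mp hext.1.1).1
  exact ⟨_, c, hc, hyσ, (hG c.1 hQ.1).2.1 c rfl hQ.2, hQ.1, hB _ c hc hyσ, hext.1.2.2⟩

/-- a silent cell has type 0 -/
theorem L3a {η : Ordinal.{0}} (hη : Order.IsSuccLimit η) (hp : Pre (FD P) η) {y : Real2}
    (hy : y ∈ Br P (η, 0, [])) {n : ℕ} (hn : n ∈ Zc (FY P y) η) :
    ∃ σ c, (HD P η).fus σ c ∧ y ∈ Br P (rs (η, 0, []) σ) ∧ (HD P η).T0 c n := by
  obtain ⟨a, ha, hsil⟩ := hn
  obtain ⟨p, hpn⟩ := num_ex P hp a ha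
  obtain ⟨σ, c, h1, h2, h3, h4, h5, h6⟩ := Lthree_step P hη hp hy (Nat.pair 3 (Nat.pair p n))
  refine ⟨σ, c, h1, h2, ?_⟩
  have h7 := h6.2.2.2
  simp only [Nat.unpair_pair] at h7
  rcases h7 trivial a ha ((numD_eq P η a p).mp hpn) with h | ⟨α, hα1, hα2, hα3, hα4⟩
  · exact h
  · exfalso
    have h8 := ((Frc3_iff P h3 α n).mp ((Frc_HD P (le_of_lt h4) 3 α n).mp hα4)).2 y h5
    exact hsil α (le_of_lt hα2) hα1 h8

/-- a cell which is not silent has type 1 -/
theorem L3b {η : Ordinal.{0}} (hη : Order.IsSuccLimit η) (hp : Pre (FD P) η) {y : Real2}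
    (hy : y ∈ Br P (η, 0, [])) {n : ℕ} (hn : n ∉ Zc (FY P y) η) :
    ∃ σ c, (HD P η).fus σ c ∧ y ∈ Br P (rs (η, 0, []) σ) ∧ (HD P η).T1 c n := by
  obtain ⟨σ, c, h1, h2, h3, h4, h5, h6⟩ := Lthree_step P hη hp hy (Nat.pair 2 (Nat.pair 0 n))
  refine ⟨σ, c, h1, h2, ?_⟩
  have h7 := h6.2.2.1
  simp only [Nat.unpair_pair] at h7
  rcases h7 trivial with h | h
  · exfalso
    have hG := Lthree_GB P hp
    have hf := (Good_all P η hp).2 hη
    have hc1 : c.1 + 1 < η := hη.succ_lt h4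
    have h8 : ∃ α, c.1 + 1 ≤ α ∧ α < η ∧ n ∈ FY P y α := by
      by_contra hno
      apply hn
      refine ⟨c.1 + 1, hc1, ?_⟩
      intro α hα1 hα2 hα3
      exact hno ⟨α, hα1, hα2, hα3⟩
    obtain ⟨α, hα1, hα2, hα3⟩ := h8
    obtain ⟨σ'', c'', _, _, h9, h10, h11, h12⟩ :=
      fus_dir P hη hp hG hf y σ σ h2 h2 h1 α hα2
    have hQ := ((Q_HD P η c'').mp (fus_Q P hη hG h9)).1
    have hOK : OKc P c'' := (hG c''.1 hQ.1).2.1 c'' rfl hQ.2
    have hy'' : y ∈ Br P c'' := (fus_Br P hη hp hG hf).2 _ c'' h9 h10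
    obtain ⟨ρ, h13, h14⟩ := force_rs P hOK y hy'' α h11 n hα3
    have hOKr : OKc P (rs c'' ρ) := OKc_rs P hOK ρ
    have hle : (GG P).Le (rs c'' ρ) c := by
      rw [Le_iff P hOKr.1 h3.1]
      exact (Br_rs_sub P hOK.1 ρ).trans h12
    have hhit : (GG P).Hit c.1 n (rs c'' ρ) := by
      rw [Hit_iff P hOKr]
      exact ⟨α, Order.lt_add_one_iff.mpr le_rfl |>.trans_le hα1, h11, h14⟩
    exact (T0_HD P η c n).mp h (rs c'' ρ) hQ.1 (Emb_cond P hOKr.1) hle hhit
  · exact h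

end

end Pool.Agent.Helper25.EV
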