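import Pool.Agent.Helper25.EV.FT.PD
import Pool.Agent.Helper25.EV.FT.TreeC

/-!
# The first loop
-/

set_option autoImplicit false

namespace Pool.Agent.Helper25.EV

open Ordinal Encodable

/-- `(ζ, Ξ)` is the first loop -/
structure FL (P : LPr) (ζ Ξ : Ordinal.{0}) : Prop where
  loop : Loop (FD P) ζ Ξ
  first : ∀ η δ, Loop (FD P) η δ → Ξ ≤ δ
  uniq : ∀ η, Loop (FD P) η Ξ → η = ζ

section
variable (P : LPr)

theorem FL_ex : ∃ ζ Ξ, FL P ζ Ξ := by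
  obtain ⟨ζ, Ξ, h1, h2, h3⟩ := first_loop (FD P)
  exact ⟨ζ, Ξ, h1, h2, h3⟩

end

section
variable {P : LPr} {ζ Ξ : Ordinal.{0}}

theorem FL.pre (h : FL P ζ Ξ) {β : Ordinal.{0}} (hβ : β < Ξ) : Pre (FD P) β :=
  fun η δ hl => lt_of_lt_of_le hβ (h.first η δ hl)

theorem FL.good (h : FL P ζ Ξ) {β : Ordinal.{0}} (hβ : β < Ξ) : Good P β :=
  Good_all P β (h.pre hβ)

theorem FL.GB (h : FL P ζ Ξ) {β : Ordinal.{0}} (hβ : β ≤ Ξ) : GB P β :=
  fun _ hγ => ⟨h.pre (lt_of_lt_of_le hγ hβ), h.good (lt_of_lt_of_le hγ hβ)⟩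

end

end Pool.Agent.Helper25.EV

/-!
# Reflection: events

MODULE R1.  Suppose `evt η δ c`, `η < ζ ≤ δ < Ξ`.  By `nm_loop` `η` has a name `(τ, k)` at all stages in `(g, Ξ]`.  The `d`-cell `Nat.pair 1 (encode (τ, k))` fires at `δ + 1` (`mem_FD`, `Hs.nfD`), so it is not in `Zc ζ` (`Loop.sil`), so it fires
cofinally below `ζ`; there `nm_fun` shows that `η` has events at stages `b` cofinal in `ζ`.  By `step_of_evt` at `δ` there are `m`, `e` with `cur η m e`, no event of `η` in `(e.1, δ)`; so `e.1 ≥ ζ`.  But `cur η m e → e.1 < ζ` by induction on `m`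
(the next event after `e'.1 < ζ` is below `ζ`).
-/

set_option autoImplicit false

namespace Pool.Agent.Helper25.EV

open Ordinal Encodable

section
variable {P : LPr} {ζ Ξ : Ordinal.{0}}

/-- a cell which fires at some stage of `[ζ, Ξ)` fires cofinally below `ζ` -/
theorem Ra_cof (h : FL P ζ Ξ) {B : ℕ} {β : Ordinal.{0}} (h1 : ζ ≤ β) (h2 : β < Ξ)
    (hB : B ∈ FD P β) {a : Ordinal.{0}} (ha : a < ζ) : ∃ α, a ≤ α ∧ α < ζ ∧ B ∈ FD P α := by
  by_contra hne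
  push Not at hne
  have h3 : B ∈ Zc (FD P) ζ := ⟨a, ha, fun α h4 h5 => hne α h4 h5⟩
  exact h.loop.sil B h3 β h1 h2 hB

theorem Ra_pair {i j x y : ℕ} (h : Nat.pair i x = Nat.pair j y) : i = j ∧ x = y := by
  have h1 := congrArg Nat.unpair h
  rw [Nat.unpair_pair, Nat.unpair_pair, Prod.mk.injEq] at h1
  exact h1

/-- events from the cells with tag 1 -/
theorem Ra_ev {τ : List Bool} {k : ℕ} {α η : Ordinal.{0}} (hn : (HD P α).nmD τ k η)
    (hB : Nat.pair 1 (encode (τ, k)) ∈ FD P α) : ∃ b c, α = b + 1 ∧ (GG P).evt η b c := by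
  rw [mem_FD] at hB
  rcases hB with h | ⟨τ', k', h, η', h1, b, c, h2, h3⟩ | ⟨τ', k', x, σ, n, h, _⟩ |
    ⟨τ', k', x, σ, n, τ'', k'', h, _⟩ | ⟨τ', k', x, σ, n, h, _⟩
  · exact absurd (Ra_pair h).1 (by norm_num)
  · have h4 := encode_injective (Ra_pair h).2
    rw [Prod.mk.injEq] at h4
    obtain ⟨rfl, rfl⟩ := h4
    have h5 := nm_fun P h1 hn
    subst h5
    exact ⟨b, c, (isMax_HD P α b).mp h2, ((evt_HD P α η' b c).mp h3).2⟩
  · exact absurd (Ra_pair h).1 (by norm_num)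
  · exact absurd (Ra_pair h).1 (by norm_num)
  · exact absurd (Ra_pair h).1 (by norm_num)

/-- R1: the limits below `ζ` do not progress after `ζ` -/
theorem R1 (h : FL P ζ Ξ) {η δ : Ordinal.{0}} {c : Cnd} (h1 : η < ζ) (h2 : ζ ≤ δ) (h3 : δ < Ξ) :
    ¬ (GG P).evt η δ c := by
  intro hev
  obtain ⟨τ, k, g, hg, hnm⟩ := nm_loop P h.loop (h.pre h.loop.lt) η h1
  have hδ : δ + 1 < Ξ := h.loop.lim2.succ_lt h3
  have hfire : Nat.pair 1 (encode (τ, k)) ∈ FD P (δ + 1) := by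
    rw [mem_FD]
    refine Or.inr (Or.inl ⟨τ, k, rfl, η, hnm _ ?_ hδ.le, δ, c, (isMax_HD P _ _).mpr rfl,
      (evt_HD P _ _ _ _).mpr ⟨Order.lt_add_one_iff.mpr le_rfl, hev⟩⟩)
    exact lt_of_lt_of_le hg (h2.trans (Order.le_succ δ))
  -- events are cofinal below `ζ`
  have hcof : ∀ a < ζ, ∃ b c', a < b ∧ b < ζ ∧ (GG P).evt η b c' := by
    intro a ha
    have ha1 : max (a + 1 + 1) (g + 1) < ζ := by
      apply max_lt
      · exact h.loop.lim1.succ_lt (h.loop.lim1.succ_lt ha)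
      · exact h.loop.lim1.succ_lt hg
    obtain ⟨α, h4, h5, h6⟩ := Ra_cof h (h2.trans (Order.le_succ δ)) hδ hfire ha1
    have h7 : g < α := lt_of_lt_of_le (Order.lt_add_one_iff.mpr le_rfl)
      ((le_max_right _ _).trans h4)
    obtain ⟨b, c', rfl, h9⟩ := Ra_ev (hnm α h7 (h5.le.trans h.loop.lt.le)) h6
    refine ⟨b, c', ?_, lt_trans (Order.lt_add_one_iff.mpr le_rfl) h5, h9⟩
    have h8 : a + 1 + 1 ≤ b + 1 := (le_max_left _ _).trans h4
    exact Order.add_one_le_iff.mp (Order.succ_le_succ_iff.mp h8)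
  obtain ⟨m, e, hst, -⟩ := step_of_evt P (h.pre h3) hev
  have hcur : ∀ (m : ℕ) (e : Ordinal.{0} × Cnd), (GG P).cur η m e → e.1 < ζ := by
    intro m
    induction m with
    | zero =>
      intro e he
      have : e = (η, (η, 0, [])) := he
      rw [this]
      exact h1
    | succ m ih =>
      rintro e ⟨e', he1, he2, he3, he4⟩
      obtain ⟨b, c', h4, h5, h6⟩ := hcof _ (ih e' he1)
      by_contra hne
      exact he4 b c' h4 (lt_of_lt_of_le h5 (not_lt.mp hne)) h6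
  obtain ⟨b, c', h4, h5, h6⟩ := hcof _ (hcur m e hst.cur)
  exact hst.last b c' h4 (lt_of_lt_of_le h5 h2) h6

end

end Pool.Agent.Helper25.EV

/-!
# Reflection: type 0

MODULE R2.  Suppose `c' ≤ c` is born at `b ∈ [ζ, Ξ)` and hits `n` after `c.1` (`T0_HD`).  With the name `(τ, k)` of `c.1` (`nm_loop`) the `d`-cell `Nat.pair 2 (encode (τ, k, c.2.1, c.2.2, n))` fires at `b + 1`, so it fires
cofinally below `ζ`, which gives such a condition born below `ζ`.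
-/

set_option autoImplicit false

namespace Pool.Agent.Helper25.EV

open Ordinal Encodable

section
variable {P : LPr} {ζ Ξ : Ordinal.{0}}

/-- hits from the cells with tag 2 -/
theorem Rb_hit {τ : List Bool} {k : ℕ} {α : Ordinal.{0}} {c : Cnd} {n : ℕ}
    (hn : (HD P α).nmD τ k c.1)
    (hB : Nat.pair 2 (encode ((τ, k, c.2.1, c.2.2, n) : List Bool × ℕ × ℕ × List Bool × ℕ)) ∈
      FD P α) :
    ∃ c' : Cnd, c'.1 < α ∧ cond P c' ∧ (GG P).Le c' c ∧ (GG P).Hit c.1 n c' := by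
  rw [mem_FD] at hB
  rcases hB with h | ⟨τ', k', h, _⟩ | ⟨τ', k', x, σ, n', h, a, h1, h2, c', h3, h4, h5, h6⟩ |
    ⟨τ', k', x, σ, n', τ'', k'', h, _⟩ | ⟨τ', k', x, σ, n', h, _⟩
  · exact absurd (Ra_pair h).1 (by norm_num)
  · exact absurd (Ra_pair h).1 (by norm_num)
  · have h7 := encode_injective (Ra_pair h).2
    simp only [Prod.mk.injEq] at h7
    obtain ⟨rfl, rfl, rfl, rfl, rfl⟩ := h7
    have h8 := nm_fun P h1 hn
    subst h8
    exact ⟨c', h3.1, h3.2, h5, (Hit_HD P (le_of_lt h3.1) _ _).mp h6⟩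
  · exact absurd (Ra_pair h).1 (by norm_num)
  · exact absurd (Ra_pair h).1 (by norm_num)

/-- R2: type 0 is preserved from `ζ` to `Ξ` -/
theorem R2 (h : FL P ζ Ξ) {c : Cnd} {n : ℕ} (h1 : c.1 < ζ) (hc : cond P c)
    (h2 : (HD P ζ).T0 c n) : (HD P Ξ).T0 c n := by
  rw [T0_HD] at h2 ⊢
  intro c' h3 h4 h5 h6
  rcases lt_or_ge c'.1 ζ with h7 | h7
  · exact h2 c' h7 h4 h5 h6
  · obtain ⟨τ, k, g, hg, hnm⟩ := nm_loop P h.loop (h.pre h.loop.lt) c.1 h1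
    have hb : c'.1 + 1 < Ξ := h.loop.lim2.succ_lt h3
    have hle : ζ ≤ c'.1 + 1 := h7.trans (Order.le_succ _)
    have hfire : Nat.pair 2 (encode
        ((τ, k, c.2.1, c.2.2, n) : List Bool × ℕ × ℕ × List Bool × ℕ)) ∈ FD P (c'.1 + 1) := by
      rw [mem_FD]
      refine Or.inr (Or.inr (Or.inl ⟨τ, k, c.2.1, c.2.2, n, rfl, c.1,
        hnm _ (lt_of_lt_of_le hg hle) hb.le, ⟨lt_of_lt_of_le h1 hle, hc⟩, c',
        ⟨Order.lt_add_one_iff.mpr le_rfl, h4⟩, (isMax_HD P _ _).mpr rfl, h5,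
        (Hit_HD P (Order.le_succ _) _ _).mpr h6⟩))
    obtain ⟨α, h8, h9, h10⟩ := Ra_cof h hle hb hfire (h.loop.lim1.succ_lt hg)
    have h11 : g < α := lt_of_lt_of_le (Order.lt_succ g) h8
    obtain ⟨c'', h12, h13, h14, h15⟩ := Rb_hit (hnm α h11 (h9.le.trans h.loop.lt.le)) h10
    exact h2 c'' (lt_trans h12 h9) h13 h14 h15

end

end Pool.Agent.Helper25.EV

/-!
# Reflection: type 1

MODULE R3.  Suppose `T1` at `ζ` but `c' ≤ c`, `Q c'`, `T0 c' n` at `Ξ`.  Let `(τ, k)` be the name of `a = c.1` at all stages in `(g, Ξ]`, and `B = Nat.pair 4 (encode (τ, k, c.2.1, c.2.2, n))`.  Note: `aref` is monotone in the stage (`aref_mono`) and antitone in `ξ`.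
Case `B ∉ Zc ζ`: then `B ∉ Zc Ξ`, so `B` fires at some `β₁ ≥ c'.1, g + 1` and at some `β₂ > β₁` below `Ξ`; by the definition (`Hs.nfD`) `aref c n β₁` holds at `β₂`, so `c'` is refuted at `β₂`, contradiction (`Q_anti`, `T0_anti`).
Case `B ∈ Zc ζ`: `B` is silent on `[b₀, ζ)`; let `ξ = max b₀ g < ζ`.  For `β ∈ (ξ, ζ)`, `β > a`: `B` does not fire at `β`, so some `ξ' < β` with `B` firing at `ξ'` has `¬ aref c n ξ'` at `β`; `ξ' < b₀ ≤ ξ`, so `¬ aref c n ξ` at `β`.  But at `ζ`: `aref c n ξ` (by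
`T1`: a valid `c'' ≤ c` is not of type 0).  So with a name `(τ', k')` of `ξ` (`nm_ex`) the cell `C = Nat.pair 3 (encode (τ, k, c.2.1, c.2.2, n, τ', k'))` fires at `ζ`, but not at the stages in a final segment of `ζ`: it is in `Zc ζ` and fires at `ζ < Ξ`: contradiction to
`Loop.sil`.
-/

set_option autoImplicit false

namespace Pool.Agent.Helper25.EV

open Ordinal Encodable

section
variable {P : LPr} {ζ Ξ : Ordinal.{0}}

theorem aref_mono {β β' : Ordinal.{0}} (h : β ≤ β') {c : Cnd} {n : ℕ} {ξ : Ordinal.{0}}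
    (hξ : ξ < β) (h1 : (HD P β).aref c n ξ) : (HD P β').aref c n ξ := by
  intro c' h2 h3 h4
  have h5 : c'.1 ≤ ξ := (le_HD P β' _ _).mp h4
  have h6 : c'.1 < β := lt_of_le_of_lt h5 hξ
  rcases h1 c' ⟨h6, h2.2⟩ h3 ((le_HD P β _ _).mpr h5) with h7 | ⟨c'', h7, h8, h9⟩
  · exact Or.inl fun hq => h7 (Q_anti P hq h6 h)
  · exact Or.inr ⟨c'', ⟨lt_of_lt_of_le h7.1 h, h7.2⟩, h8,
      (Hit_HD P (le_of_lt (lt_of_lt_of_le h7.1 h)) _ _).mpr
        ((Hit_HD P (le_of_lt h7.1) _ _).mp h9)⟩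

theorem Rc_anti {β : Ordinal.{0}} {c : Cnd} {n : ℕ} {ξ ξ' : Ordinal.{0}} (h : ξ' ≤ ξ)
    (h1 : (HD P β).aref c n ξ) : (HD P β).aref c n ξ' := fun c' h2 h3 h4 =>
  h1 c' h2 h3 ((le_HD P β _ _).mpr (((le_HD P β _ _).mp h4).trans h))

/-- the cells with tag 4 -/
theorem Rc_four {τ : List Bool} {k : ℕ} {α : Ordinal.{0}} {c : Cnd} {n : ℕ}
    (hn : (HD P α).nmD τ k c.1) (h1 : c.1 < α) (hc : cond P c) :
    Nat.pair 4 (encode ((τ, k, c.2.1, c.2.2, n) : List Bool × ℕ × ℕ × List Bool × ℕ)) ∈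
      FD P α ↔ ∀ ξ, ξ < α → Nat.pair 4 (encode
        ((τ, k, c.2.1, c.2.2, n) : List Bool × ℕ × ℕ × List Bool × ℕ)) ∈ FD P ξ →
        (HD P α).aref c n ξ := by
  rw [mem_FD]
  constructor
  · rintro (h | ⟨τ', k', h, _⟩ | ⟨τ', k', x, σ, n', h, _⟩ |
      ⟨τ', k', x, σ, n', τ'', k'', h, _⟩ | ⟨τ', k', x, σ, n', h, a, h2, h3, h4⟩)
    · exact absurd (Ra_pair h).1 (by norm_num)
    · exact absurd (Ra_pair h).1 (by norm_num)
    · exact absurd (Ra_pair h).1 (by norm_num)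
    · exact absurd (Ra_pair h).1 (by norm_num)
    · have h7 := encode_injective (Ra_pair h).2
      simp only [Prod.mk.injEq] at h7
      obtain ⟨rfl, rfl, rfl, rfl, rfl⟩ := h7
      have h8 := nm_fun P h2 hn
      subst h8
      exact fun ξ h5 h6 => h4 ξ h5 h6
  · intro h
    exact Or.inr (Or.inr (Or.inr (Or.inr ⟨τ, k, c.2.1, c.2.2, n, rfl, c.1, hn, ⟨h1, hc⟩,
      fun ξ h5 h6 => h ξ h5 h6⟩)))

/-- the cells with tag 3 -/
theorem Rc_three {τ : List Bool} {k : ℕ} {τ' : List Bool} {k' : ℕ} {α ξ : Ordinal.{0}} {c : Cnd}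
    {n : ℕ} (hn : (HD P α).nmD τ k c.1) (hn' : (HD P α).nmD τ' k' ξ) (h1 : c.1 < α)
    (hc : cond P c) :
    Nat.pair 3 (encode ((τ, k, c.2.1, c.2.2, n, τ', k') :
        List Bool × ℕ × ℕ × List Bool × ℕ × List Bool × ℕ)) ∈ FD P α ↔
      (HD P α).aref c n ξ ∧ ∀ b, b < α → c.1 < b → ξ < b → ¬ (HD P b).aref c n ξ := by
  rw [mem_FD]
  constructor
  · rintro (h | ⟨τ1, k1, h, _⟩ | ⟨τ1, k1, x, σ, n', h, _⟩ |
      ⟨τ1, k1, x, σ, n', τ2, k2, h, a, ξ', h2, h3, h4, h5, h6⟩ | ⟨τ1, k1, x, σ, n', h, _⟩)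
    · exact absurd (Ra_pair h).1 (by norm_num)
    · exact absurd (Ra_pair h).1 (by norm_num)
    · exact absurd (Ra_pair h).1 (by norm_num)
    · have h7 := encode_injective (Ra_pair h).2
      simp only [Prod.mk.injEq] at h7
      obtain ⟨rfl, rfl, rfl, rfl, rfl, rfl, rfl⟩ := h7
      have h8 := nm_fun P h2 hn
      subst h8
      have h9 := nm_fun P h3 hn'
      subst h9
      refine ⟨h5, fun b hb hb1 hb2 hb3 => h6 b hb hb1 hb2 ?_⟩
      rw [res_HD P hb.le]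
      exact hb3
    · exact absurd (Ra_pair h).1 (by norm_num)
  · rintro ⟨h2, h3⟩
    refine Or.inr (Or.inr (Or.inr (Or.inl ⟨τ, k, c.2.1, c.2.2, n, τ', k', rfl, c.1, ξ, hn, hn',
      ⟨h1, hc⟩, h2, fun b hb hb1 hb2 hb3 => ?_⟩)))
    rw [res_HD P (le_of_lt hb)] at hb3
    exact h3 b hb hb1 hb2 hb3

/-- R3: type 1 is preserved from `ζ` to `Ξ` -/
theorem R3 (h : FL P ζ Ξ) {c : Cnd} {n : ℕ} (h1 : c.1 < ζ) (hc : cond P c)
    (h2 : (HD P ζ).T1 c n) : (HD P Ξ).T1 c n := by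
  intro c' hQ hLe hT0
  obtain ⟨τ, k, g, hg, hnm⟩ := nm_loop P h.loop (h.pre h.loop.lt) c.1 h1
  have hζΞ : ζ < Ξ := h.loop.lt
  set B : ℕ := Nat.pair 4 (encode
    ((τ, k, c.2.1, c.2.2, n) : List Bool × ℕ × ℕ × List Bool × ℕ)) with hB
  by_cases hBz : B ∈ Zc (FD P) ζ
  · -- the cell is silent on a final segment of `ζ`
    obtain ⟨b₀, hb₀, hsil⟩ := hBz
    have hξ : max b₀ g < ζ := max_lt hb₀ hg
    set ξ : Ordinal.{0} := max b₀ g with hξd
    have hno : ∀ β, β < ζ → c.1 < β → ξ < β → ¬ (HD P β).aref c n ξ := by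
      intro β hβ h3 h4 h5
      have hgβ : g < β := lt_of_le_of_lt (le_max_right _ _) h4
      have hbβ : b₀ ≤ β := (le_max_left _ _).trans h4.le
      apply hsil β hbβ hβ
      rw [hB, Rc_four (hnm β hgβ (hβ.le.trans hζΞ.le)) h3 hc]
      intro ξ' h6 h7
      rcases lt_or_ge ξ' b₀ with h8 | h8
      · exact Rc_anti (h8.le.trans (le_max_left _ _)) h5
      · exact absurd h7 (hsil ξ' h8 (lt_trans h6 hβ))
    have hyes : (HD P ζ).aref c n ξ := by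
      intro c'' h3 h4 _
      by_cases hq : (HD P ζ).Q c''
      · right
        have h5 := h2 c'' hq h4
        unfold Hs.T0 at h5
        push Not at h5
        obtain ⟨c3, h6, h7, h8⟩ := h5
        exact ⟨c3, h6, h7, h8⟩
      · exact Or.inl hq
    obtain ⟨τ', k', g', hg', hnm'⟩ := nm_loop P h.loop (h.pre h.loop.lt) ξ hξ
    set C : ℕ := Nat.pair 3 (encode ((τ, k, c.2.1, c.2.2, n, τ', k') :
        List Bool × ℕ × ℕ × List Bool × ℕ × List Bool × ℕ)) with hC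
    have hCf : C ∈ FD P ζ := by
      rw [hC, Rc_three (hnm ζ hg hζΞ.le) (hnm' ζ hg' hζΞ.le) h1 hc]
      exact ⟨hyes, fun b hb hb1 hb2 => hno b hb hb1 hb2⟩
    have hCz : C ∈ Zc (FD P) ζ := by
      have h3 : max (max ξ c.1) (max g g') < ζ := max_lt (max_lt hξ h1) (max_lt hg hg')
      refine ⟨max (max ξ c.1) (max g g') + 1, h.loop.lim1.succ_lt h3, fun β h4 h5 h6 => ?_⟩
      have h7 : max (max ξ c.1) (max g g') < β := lt_of_lt_of_le (Order.lt_succ _) h4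
      have h8 := (max_lt_iff.mp h7)
      have h9 := max_lt_iff.mp h8.1
      have h10 := max_lt_iff.mp h8.2
      rw [hC, Rc_three (hnm β h10.1 (h5.le.trans hζΞ.le)) (hnm' β h10.2 (h5.le.trans hζΞ.le))
        h9.2 hc] at h6
      exact hno β h5 h9.2 h9.1 h6.1
    exact h.loop.sil C hCz ζ le_rfl hζΞ hCf
  · -- the cell fires cofinally below `Ξ`
    have hBΞ : B ∉ Zc (FD P) Ξ := by
      rw [← h.loop.same]
      exact hBz
    have hcof : ∀ a < Ξ, ∃ α, a ≤ α ∧ α < Ξ ∧ B ∈ FD P α := by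
      intro a ha
      by_contra hne
      push Not at hne
      exact hBΞ ⟨a, ha, fun α h4 h5 => hne α h4 h5⟩
    have hm : max (c'.1) g < Ξ := max_lt hQ.1.1 (lt_trans hg hζΞ)
    obtain ⟨β₁, h3, h4, h5⟩ := hcof _ (h.loop.lim2.succ_lt hm)
    obtain ⟨β₂, h6, h7, h8⟩ := hcof _ (h.loop.lim2.succ_lt (max_lt h4 (lt_trans h1 hζΞ)))
    have hm1 : max (c'.1) g < β₁ := lt_of_lt_of_le (Order.lt_succ _) h3
    have hm2 : max β₁ c.1 < β₂ := lt_of_lt_of_le (Order.lt_succ _) h6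
    have hβ : β₁ < β₂ := lt_of_le_of_lt (le_max_left _ _) hm2
    have hcβ : c.1 < β₂ := lt_of_le_of_lt (le_max_right _ _) hm2
    have hgβ : g < β₂ := lt_trans (lt_of_le_of_lt (le_max_right _ _) hm1) hβ
    have hc' : c'.1 < β₁ := lt_of_le_of_lt (le_max_left _ _) hm1
    rw [hB, Rc_four (hnm β₂ hgβ h7.le) hcβ hc] at h8
    rcases h8 β₁ hβ h5 c' ⟨lt_trans hc' hβ, hQ.1.2⟩ hLe ((le_HD P _ _ _).mpr hc'.le) with
      h9 | ⟨c'', h9, h10, h11⟩
    · exact h9 (Q_anti P hQ (lt_trans hc' hβ) h7.le)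
    · have h12 := (T0_HD P Ξ c' n).mp hT0 c'' (lt_trans h9.1 h7) h9.2 h10
      exact h12 ((Hit_HD P (le_of_lt h9.1) _ _).mp h11)

end

end Pool.Agent.Helper25.EV

/-!
# The last condition is valid

MODULE M1.  `Q_HD`: event `(η', δ, c')` with `η' ≤ e.2.1 ≤ δ < Ξ`.  `η' < ζ`: impossible by `R1` (`ζ ≤ e.2.1` by `cur_facts`).  `η' = ζ`: `δ ≤ e.1` by `h3`, `cur_all`, `cur_le`, `Le_iff`.  `η' > ζ`: `Dead` by `cur_facts` (`η'` is a limit by `step_of_evt`).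
-/

set_option autoImplicit false

namespace Pool.Agent.Helper25.EV

open Ordinal Encodable

section
variable {P : LPr} {ζ Ξ : Ordinal.{0}}

/-- the last condition of `ζ` is valid at `Ξ` -/
theorem last_Q (h : FL P ζ Ξ) {m : ℕ} {e : Ordinal.{0} × Cnd} (h1 : e.1 < Ξ)
    (h2 : (GG P).cur ζ m e) (h3 : ∀ δ c, e.1 < δ → δ < Ξ → ¬ (GG P).evt ζ δ c) :
    (HD P Ξ).Q e.2 := by
  have hp : Pre (FD P) e.1 := h.pre h1
  have hl : Order.IsSuccLimit ζ := h.loop.lim1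
  have hζ : Good P ζ := h.good h.loop.lt
  obtain ⟨f1, f2, f3, f4⟩ := cur_facts P hp hζ hl h2
  have hb : e.2.1 < Ξ := lt_of_le_of_lt f2 h1
  have hOK : OKc P e.2 := (h.good hb).1 e.2 rfl f3
  rw [Q_HD]
  refine ⟨⟨hb, f3⟩, fun η δ c' g1 g2 g3 g4 => ?_⟩
  rcases lt_trichotomy η ζ with hη | hη | hη
  · exact absurd g2 (R1 h hη (f1.trans g4) g1)
  · subst hη
    have g5 : δ ≤ e.1 := by
      by_contra hcon
      exact h3 δ c' (not_le.1 hcon) g1 g2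
    obtain ⟨m', hm', hc'⟩ := cur_all P hp h2 g2 g5
    have g6 := (cur_le P hp (h.GB h1.le) hζ hl h2 hc' hm').2
    obtain ⟨-, k2, k3, -⟩ := cur_facts P (h.pre g1) hζ hl hc'
    have hOK' : OKc P c' := (h.good (lt_of_le_of_lt k2 g1)).1 c' rfl k3
    exact Or.inr ((Le_iff P hOK.1 hOK'.1).2 g6)
  · obtain ⟨m', e', hs, -⟩ := step_of_evt P (h.pre g1) g2
    exact Or.inl (f4 η hs.lim hη g3)

end

end Pool.Agent.Helper25.EV

/-!
# Progress: `d`-cells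

MODULE M2.  `p = rs e.2 [false]` is valid at `Ξ` (`last_Q`, `Q_rs`); `T` by `EL` with `γ = e.1`, `T.1 = e.1 + 1`.  `StepE P ζ m e δ T` for `δ = T.1 + 1` if `d ∈ Zc ζ`, and for `δ = α + 1` if `d` fires at `α ≥ T.1` (exists below `Ξ` if `d ∉ Zc ζ = Zc Ξ`).  Stem: `stem_le` and
`fc P e.2 [] ++ [false] <+: fc P e.2 [false]`.  Dead limits: `cur_facts` (below `e.2.1`, pass to `T` by `Dead_iff`, `dY_mono`) and `EL`.  `alive`: `Loop.sil`.  `evt_of_step` contradicts `h3`.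
-/

set_option autoImplicit false

namespace Pool.Agent.Helper25.EV

open Ordinal Encodable

section
variable {P : LPr} {ζ Ξ : Ordinal.{0}}

/-- the stem of a smaller condition extends the next bit -/
theorem M2_stem {e2 T : Cnd} (hE : Emb P e2) (hT : Emb P T)
    (hle : Br P T ⊆ Br P (rs e2 [false])) :
    ∃ τ τ', (GG P).phi T [] τ ∧ (GG P).phi e2 [] τ' ∧ τ'.length < τ.length := by
  refine ⟨fc P T [], fc P e2 [], (hT.2 _ _).2 rfl, (hE.2 _ _).2 rfl, ?_⟩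
  have hp : Emb P (rs e2 [false]) := Emb_rs P hE [false]
  have h1 : fc P (rs e2 [false]) [] <+: fc P T [] := stem_le hT.1 hp.1 hle
  have h2 : fc P (rs e2 [false]) [] = fc P e2 [false] := by
    rw [fc_rs]
    rfl
  have h3 : fc P e2 [] ++ [false] <+: fc P e2 [false] := hE.1 [] false
  have h4 := h1.length_le
  have h5 := h3.length_le
  rw [h2] at h4
  rw [List.length_append, List.length_singleton] at h5
  omega

/-- the condition used in the progress modules -/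
theorem M2_ext (h : FL P ζ Ξ) {m : ℕ} {e : Ordinal.{0} × Cnd} (h1 : e.1 < Ξ)
    (h2 : (GG P).cur ζ m e) (h3 : ∀ δ c, e.1 < δ → δ < Ξ → ¬ (GG P).evt ζ δ c) :
    ∃ T : Cnd, T.1 = e.1 + 1 ∧ (HD P Ξ).Q T ∧ Br P T ⊆ Br P (rs e.2 [false]) ∧
      ∀ η, Order.IsSuccLimit η → e.2.1 < η → η ≤ T.1 → (GG P).Dead T η := by
  have hp : Pre (FD P) e.1 := h.pre h1
  have hl : Order.IsSuccLimit ζ := h.loop.lim1
  have hζ : Good P ζ := h.good h.loop.lt
  obtain ⟨f1, f2, f3, f4⟩ := cur_facts P hp hζ hl h2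
  have hQ := Q_rs P (h.GB le_rfl) (last_Q h h1 h2 h3) [false]
  exact EL P (h.GB le_rfl) hQ f2 (h.loop.lim2.succ_lt h1)

/-- the step to a condition below `e.2` born later -/
theorem M2_step (h : FL P ζ Ξ) {m : ℕ} {e : Ordinal.{0} × Cnd} (h1 : e.1 < Ξ)
    (h2 : (GG P).cur ζ m e) (h3 : ∀ δ c, e.1 < δ → δ < Ξ → ¬ (GG P).evt ζ δ c)
    {T : Cnd} {δ : Ordinal.{0}} (hδ : δ < Ξ) (hT1 : e.1 < T.1) (hT2 : T.1 < δ)
    (hc : cond P T) (hle : Br P T ⊆ Br P (rs e.2 [false]))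
    (hd : ∀ η, Order.IsSuccLimit η → e.2.1 < η → η ≤ T.1 → (GG P).Dead T η)
    (hr : RqE P m e.1 δ ζ T) : False := by
  have hp : Pre (FD P) e.1 := h.pre h1
  have hl : Order.IsSuccLimit ζ := h.loop.lim1
  have hζ : Good P ζ := h.good h.loop.lt
  obtain ⟨f1, f2, f3, f4⟩ := cur_facts P hp hζ hl h2
  have hOK : OKc P e.2 := (h.good (lt_of_le_of_lt f2 h1)).1 e.2 rfl f3
  have hOT : OKc P T := (h.good (hT2.trans hδ)).1 T rfl hc
  have hle2 : Br P T ⊆ Br P e.2 := hle.trans (Br_rs_sub P hOK.1 [false])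
  have hS : StepE P ζ m e δ T :=
    { lim := hl
      ltη := lt_of_le_of_lt (f1.trans f2) (hT1.trans hT2)
      cur := h2
      lt0 := hT1.trans hT2
      last := fun δ' c' g1 g2 => h3 δ' c' g1 (g2.trans hδ)
      lt1 := hT1
      lt2 := hT2
      cnd := hc
      le := (Le_iff P hOT.1 hOK.1).2 hle2
      stem := M2_stem hOK.1 hOT.1 hle
      dead := by
        intro η' g1 g2 g3
        rcases lt_or_ge e.2.1 η' with g4 | g4
        · exact hd η' g1 g4 g3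
        · rw [Dead_iff P hOT η' g1]
          intro y hy
          exact dY_mono P ((Dead_iff P hOK η' g1).1 (f4 η' g1 g2 g4) y (hle2 hy))
            (f2.trans hT1.le)
      alive := fun d hd' α g1 g2 => h.loop.sil d hd' α g1 (g2.trans hδ)
      rq := hr }
  obtain ⟨c', hc'⟩ := evt_of_step P (h.pre hδ) hS
  exact h3 δ c' (hT1.trans hT2) hδ hc'

/-- the case of a `d`-cell -/
theorem prog_d (h : FL P ζ Ξ) {m : ℕ} {e : Ordinal.{0} × Cnd} (h1 : e.1 < Ξ)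
    (h2 : (GG P).cur ζ m e) (h3 : ∀ δ c, e.1 < δ → δ < Ξ → ¬ (GG P).evt ζ δ c)
    {d : ℕ} (hd : sch m = 2 * d) : False := by
  obtain ⟨T, hT, hQ, hle, hdead⟩ := M2_ext h h1 h2 h3
  have hT1 : e.1 < T.1 := by rw [hT]; exact Order.lt_add_one_iff.mpr le_rfl
  have hTΞ : T.1 < Ξ := hQ.1.1
  have hc : cond P T := hQ.1.2
  by_cases hz : d ∈ Zc (FD P) ζ
  · exact M2_step h h1 h2 h3 (δ := T.1 + 1) (h.loop.lim2.succ_lt hTΞ) hT1
      (Order.lt_add_one_iff.mpr le_rfl) hc hle hdead (Or.inl ⟨d, hd, Or.inl hz⟩)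
  · rw [h.loop.same] at hz
    have h4 : ¬ Silent (FD P) d T.1 Ξ := fun h5 => hz ⟨T.1, hTΞ, h5⟩
    unfold Silent at h4
    push Not at h4
    obtain ⟨α, g1, g2, g3⟩ := h4
    exact M2_step h h1 h2 h3 (δ := α + 1) (h.loop.lim2.succ_lt g2) hT1
      (lt_of_le_of_lt g1 (Order.lt_add_one_iff.mpr le_rfl)) hc hle hdead
      (Or.inl ⟨d, hd, Or.inr ⟨α, lt_of_lt_of_le hT1 g1, Order.lt_add_one_iff.mpr le_rfl, g3⟩⟩)

end

end Pool.Agent.Helper25.EV

/-!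
# Progress: `y`-cells

MODULE M3.  As M2: `q` from `EL` for `rs e.2 [false]` with `γ = e.1`.  If not `T0 q n` at `Ξ`: `TH` gives `T`, hit after `q.1 > e.1`; `StepE` with the second requirement; `δ = T.1 + 1`.  If `T0 q n` at `Ξ`: by `decide_rs` for `α = ζ` (some `y ∈ Br q`) a
restriction `T = rs q σ` decides `n ∈ Zc ζ`.  If positively: `Frc4_iff`, `StepE` with `T`, `δ = q.1 + 1`.  If negatively: `y ∈ Br T ⊆ Br P (ζ, 0, [])` (`cur_le` with `m' = 0`), `L3b` gives `c`, `σ'` with `T1 c n` at `ζ`, `y ∈ Br (rs (ζ,0,[]) σ') ⊆ Br c` (`fus_Br`); by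
`nbhd` a further restriction `T'` of `T` is contained in `Br c`; `Q T'`, `T0 T' n` at `Ξ` (same birth as `q`), contradiction to `R3`.
-/

set_option autoImplicit false

namespace Pool.Agent.Helper25.EV

open Ordinal Encodable

section
variable {P : LPr} {ζ Ξ : Ordinal.{0}}

theorem Mc_ok (h : FL P ζ Ξ) {c : Cnd} (h1 : c.1 < Ξ) (h2 : cond P c) : OKc P c :=
  (h.good h1).1 c rfl h2

theorem Mc_dead {c c' : Cnd} (hc : OKc P c) (hc' : OKc P c') (hle : Br P c' ⊆ Br P c)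
    (hb : c.1 ≤ c'.1) {η : Ordinal.{0}} (hη : Order.IsSuccLimit η) (hd : (GG P).Dead c η) :
    (GG P).Dead c' η := by
  rw [Dead_iff P hc η hη] at hd
  rw [Dead_iff P hc' η hη]
  exact fun y hy => dY_mono P (hd y (hle hy)) hb

/-- an admissible condition contradicts the assumption that there is no next event -/
theorem Mc_step (h : FL P ζ Ξ) {m : ℕ} {e : Ordinal.{0} × Cnd} (h1 : e.1 < Ξ)
    (h2 : (GG P).cur ζ m e) (h3 : ∀ δ c, e.1 < δ → δ < Ξ → ¬ (GG P).evt ζ δ c)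
    {T : Cnd} (hT : cond P T) (hTΞ : T.1 < Ξ) (heT : e.1 < T.1)
    (hsub : Br P T ⊆ Br P (rs e.2 [false]))
    (hdead : ∀ η', Order.IsSuccLimit η' → e.2.1 < η' → η' ≤ T.1 → (GG P).Dead T η')
    (rq : RqE P m e.1 (T.1 + 1) ζ T) : False := by
  have hζΞ : ζ < Ξ := h.loop.lt
  obtain ⟨f1, f2, f3, f4⟩ := cur_facts P (h.pre h1) (h.good hζΞ) h.loop.lim1 h2
  have he2 : e.2.1 < Ξ := lt_of_le_of_lt f2 h1
  have hok : OKc P e.2 := Mc_ok h he2 f3
  have hTok : OKc P T := Mc_ok h hTΞ hT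
  have hsub2 : Br P T ⊆ Br P e.2 := fun y hy => Br_rs_sub P hok.1 _ (hsub hy)
  have hδ : T.1 + 1 < Ξ := h.loop.lim2.succ_lt hTΞ
  have hT1 : T.1 < T.1 + 1 := Order.lt_add_one_iff.mpr le_rfl
  have heδ : e.1 < T.1 + 1 := lt_trans heT hT1
  have hst : StepE P ζ m e (T.1 + 1) T := by
    refine ⟨h.loop.lim1, ?_, h2, heδ, ?_, heT, hT1, hT, ?_, ?_, ?_, ?_, rq⟩
    · exact lt_of_le_of_lt (le_trans f1 f2) heδ
    · intro δ' c' a1 a2
      exact h3 δ' c' a1 (lt_trans a2 hδ)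
    · exact (Le_iff P hTok.1 hok.1).mpr hsub2
    · refine ⟨fc P T [], fc P e.2 [], (hTok.1.2 [] _).mpr rfl, (hok.1.2 [] _).mpr rfl, ?_⟩
      have s1 := stem_le hTok.1.1 (Emb_rs P hok.1 [false]).1 hsub
      rw [fc_rs] at s1
      have s2 := hok.1.1 [] false
      have s3 : fc P e.2 [] ++ [false] <+: fc P T [] := s2.trans s1
      have := s3.length_le
      rw [List.length_append, List.length_singleton] at this
      omega
    · intro η' a1 a2 a3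
      by_cases hη : η' ≤ e.2.1
      · exact Mc_dead hok hTok hsub2 (le_of_lt (lt_of_le_of_lt f2 heT)) a1 (f4 η' a1 a2 hη)
      · exact hdead η' a1 (not_le.mp hη) a3
    · intro d hd α a1 a2
      exact h.loop.sil d hd α a1 (lt_trans a2 hδ)
  obtain ⟨c', hc'⟩ := evt_of_step P (h.pre hδ) hst
  exact h3 _ c' heδ hδ hc'

/-- the case of a `y`-cell -/
theorem prog_y (h : FL P ζ Ξ) {m : ℕ} {e : Ordinal.{0} × Cnd} (h1 : e.1 < Ξ)
    (h2 : (GG P).cur ζ m e) (h3 : ∀ δ c, e.1 < δ → δ < Ξ → ¬ (GG P).evt ζ δ c)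
    {n : ℕ} (hn : sch m = 2 * n + 1) : False := by
  have hζΞ : ζ < Ξ := h.loop.lt
  have hGΞ : GB P Ξ := h.GB le_rfl
  obtain ⟨f1, f2, f3, f4⟩ := cur_facts P (h.pre h1) (h.good hζΞ) h.loop.lim1 h2
  have he2 : e.2.1 < Ξ := lt_of_le_of_lt f2 h1
  have hok : OKc P e.2 := Mc_ok h he2 f3
  have hQp : (HD P Ξ).Q (rs e.2 [false]) := Q_rs P hGΞ (last_Q h h1 h2 h3) [false]
  obtain ⟨q, g1, g2, g3, g4⟩ := EL P hGΞ hQp (γ := e.1) f2 (h.loop.lim2.succ_lt h1)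
  have hq' := (Q_HD P Ξ q).mp g2
  have hqok : OKc P q := Mc_ok h hq'.1.1 hq'.1.2
  have heq : e.1 < q.1 := by rw [g1]; exact Order.lt_add_one_iff.mpr le_rfl
  have hζq : ζ < q.1 := lt_of_le_of_lt (le_trans f1 f2) heq
  by_cases hT0 : (HD P Ξ).T0 q n
  · -- a condition which decides
    obtain ⟨y, hy⟩ := Br_nonempty P hqok.1
    obtain ⟨σ, s1, s2⟩ := decide_rs P hqok y hy ζ hζq h.loop.lim1 n
    have hTok : OKc P (rs q σ) := OKc_rs P hqok σ
    have hTq : Br P (rs q σ) ⊆ Br P q := Br_rs_sub P hqok.1 σ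
    by_cases hZ : n ∈ Zc (FY P y) ζ
    · refine Mc_step h h1 h2 h3 (T := rs q σ) (Emb_cond P hTok.1) hq'.1.1 heq
        (fun z hz => g3 (hTq hz)) ?_ ?_
      · intro η' a1 a2 a3
        exact Mc_dead hqok hTok hTq le_rfl a1 (g4 η' a1 a2 a3)
      · exact Or.inr ⟨n, hn, Or.inl ((Frc4_iff P hTok ζ h.loop.lim1 n).mpr
          ⟨hζq, fun y' hy' => (s2 y' hy').mpr hZ⟩)⟩
    · -- reflection
      have hcur0 : (GG P).cur ζ 0 (ζ, (ζ, 0, [])) := rfl
      have hsub0 := (cur_le P (h.pre h1) (h.GB (le_of_lt h1)) (h.good hζΞ) h.loop.lim1 h2 hcur0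
        (Nat.zero_le _)).2
      have hyζ : y ∈ Br P (ζ, 0, []) := hsub0 (Br_rs_sub P hok.1 _ (g3 (hTq s1)))
      have hpζ : Pre (FD P) ζ := h.pre hζΞ
      have hGζ : GB P ζ := h.GB (le_of_lt hζΞ)
      obtain ⟨σ', c, b1, b2, b3⟩ := L3b P h.loop.lim1 hpζ hyζ hZ
      obtain ⟨hE, hB⟩ := fus_Br P h.loop.lim1 hpζ hGζ ((h.good hζΞ).2 h.loop.lim1)
      have hsubζ : Br P (rs q σ) ⊆ Br P (ζ, 0, []) :=
        fun z hz => hsub0 (Br_rs_sub P hok.1 _ (g3 (hTq hz)))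
      obtain ⟨σ₂, c1, c2⟩ := nbhd P hTok.1 hE hsubζ s1 b2
      have hcQ := (Q_HD P ζ c).mp (fus_Q P h.loop.lim1 hGζ b1)
      have hcok : OKc P c := Mc_ok h (lt_trans hcQ.1.1 hζΞ) hcQ.1.2
      have hT'ok : OKc P (rs (rs q σ) σ₂) := OKc_rs P hTok σ₂
      have hQ' : (HD P Ξ).Q (rs (rs q σ) σ₂) := Q_rs P hGΞ (Q_rs P hGΞ g2 σ) σ₂
      have hT0' : (HD P Ξ).T0 (rs (rs q σ) σ₂) n := by
        rw [T0_HD] at hT0 ⊢
        intro c'' a1 a2 a3 a4
        have hok'' : OKc P c'' := Mc_ok h a1 a2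
        refine hT0 c'' a1 a2 ?_ a4
        rw [Le_iff P hok''.1 hqok.1]
        have a5 := (Le_iff P hok''.1 hT'ok.1).mp a3
        exact fun z hz => hTq (Br_rs_sub P hTok.1 σ₂ (a5 hz))
      have hR := R3 h hcQ.1.1 hcQ.1.2 b3
      refine hR _ hQ' ?_ hT0'
      have hle : (GG P).Le (rs (rs q σ) σ₂) c := by
        rw [Le_iff P hT'ok.1 hcok.1]
        exact fun z hz => hB σ' c b1 (c2 hz)
      exact hle
  · -- a hit
    rw [T0_HD] at hT0
    push Not at hT0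
    obtain ⟨c', a1, a2, a3, a4⟩ := hT0
    obtain ⟨T, t1, t2, t3, t4⟩ := TH P hGΞ g2 a1 a2 a3 a4
    have hT' := (Q_HD P Ξ T).mp t1
    have hTok : OKc P T := Mc_ok h hT'.1.1 hT'.1.2
    obtain ⟨α, -, b2, b3, b4⟩ := t3
    have hqT : q.1 < T.1 := lt_trans b2 b3
    refine Mc_step h h1 h2 h3 (T := T) hT'.1.2 hT'.1.1 (lt_trans heq hqT)
      (fun z hz => g3 (t2 hz)) ?_ ?_
    · intro η' d1 d2 d3
      by_cases hη : η' ≤ q.1
      · exact Mc_dead hqok hTok t2 (le_of_lt hqT) d1 (g4 η' d1 d2 hη)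
      · exact t4 η' d1 (not_le.mp hη) d3
    · exact Or.inr ⟨n, hn, Or.inr ⟨α, lt_trans heq b2, b3, b4⟩⟩

end

end Pool.Agent.Helper25.EV

/-!
# `ζ` progresses infinitely often, cofinally in `Ξ`

MODULE M4.  `prog`: induction on `m`; if `e` is the `m`-th event then by `prog_d`, `prog_y` there is an event of `ζ` in `(e.1, Ξ)`; the least one is the next.  `prog_sup`: otherwise let `s ≤ β < Ξ` be the supremum of the stages `e.1` (strictly increasing in `m`: `StepE.lt0`, limit).  `(ζ, s)` is a loop, against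
`FL.first`: `d ∈ Zc ζ` is silent on `[ζ, Ξ)`; `d ∉ Zc ζ`: for the infinitely many `m` with `sch m = 2 * d` the requirement `RqE` (`cur_step`) gives a firing stage in `(e_m.1, e_{m+1}.1)`.
-/

set_option autoImplicit false

namespace Pool.Agent.Helper25.EV

open Ordinal Encodable

section
variable {P : LPr} {ζ Ξ : Ordinal.{0}}

/-- `ζ` progresses infinitely often before `Ξ` -/
theorem prog (h : FL P ζ Ξ) (m : ℕ) : ∃ e, e.1 < Ξ ∧ (GG P).cur ζ m e := by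
  induction m with
  | zero => exact ⟨(ζ, (ζ, 0, [])), h.loop.lt, rfl⟩
  | succ m ih =>
    obtain ⟨e, h1, h2⟩ := ih
    have h3 : ∃ δ, ∃ c, e.1 < δ ∧ δ < Ξ ∧ (GG P).evt ζ δ c := by
      by_contra hcon
      have h3 : ∀ δ c, e.1 < δ → δ < Ξ → ¬ (GG P).evt ζ δ c :=
        fun δ c g1 g2 g3 => hcon ⟨δ, c, g1, g2, g3⟩
      rcases Nat.even_or_odd' (sch m) with ⟨k, hk | hk⟩
      · exact prog_d h h1 h2 h3 hk
      · exact prog_y h h1 h2 h3 hk
    obtain ⟨δ, ⟨c, g1, g2, g3⟩, hmin⟩ := WellFounded.has_min Ordinal.lt_wf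
      {δ : Ordinal.{0} | ∃ c, e.1 < δ ∧ δ < Ξ ∧ (GG P).evt ζ δ c} h3
    refine ⟨(δ, c), g2, e, h2, g1, g3, ?_⟩
    intro δ' c' g4 g5 g6
    exact hmin δ' ⟨c', g4, lt_trans g5 g2, g6⟩ g5

/-- the stages of the events of `ζ` are cofinal in `Ξ` -/
theorem prog_sup (h : FL P ζ Ξ) {β : Ordinal.{0}} (hβ : β < Ξ) :
    ∃ m e, e.1 < Ξ ∧ (GG P).cur ζ m e ∧ β < e.1 := by
  by_contra hcon
  have hcon' : ∀ m e, e.1 < Ξ → (GG P).cur ζ m e → e.1 ≤ β := fun m e g1 g2 =>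
    not_lt.1 fun g3 => hcon ⟨m, e, g1, g2, g3⟩
  choose e he1 he2 using prog h
  -- the steps
  have hstep : ∀ m, StepE P ζ m (e m) (e (m + 1)).1 (e (m + 1)).2 := by
    intro m
    obtain ⟨e', g1, g2⟩ := cur_step P (h.pre (he1 (m + 1))) (he2 (m + 1))
    have g3 : Pre (FD P) e'.1 := Pre_mono (h.pre (he1 (m + 1))) g2.lt0.le
    have g4 : e' = e m := cur_fun P g3 g1 (he2 m)
    rw [← g4]
    exact g2
  have hmono : StrictMono fun m => (e m).1 := strictMono_nat_of_lt_succ fun m => (hstep m).lt0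
  have hbdd : BddAbove (Set.range fun m => (e m).1) := by
    refine ⟨β, ?_⟩
    rintro _ ⟨m, rfl⟩
    exact hcon' m (e m) (he1 m) (he2 m)
  set s : Ordinal.{0} := ⨆ m, (e m).1 with hs
  have hles : ∀ m, (e m).1 ≤ s := fun m => le_ciSup hbdd m
  have hlts : ∀ m, (e m).1 < s := fun m => lt_of_lt_of_le (hmono (Nat.lt_succ_self m)) (hles (m + 1))
  have hsβ : s ≤ β := ciSup_le fun m => hcon' m (e m) (he1 m) (he2 m)
  have hlt_s : ∀ a, a < s → ∃ m, a < (e m).1 := fun a ha => exists_lt_of_lt_ciSup ha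
  have hsΞ : s < Ξ := lt_of_le_of_lt hsβ hβ
  have hζs : ζ < s := (hstep 0).ltη.trans (hlts 1)
  have hlim : Order.IsSuccLimit s := by
    rw [Order.isSuccLimit_iff]
    constructor
    · intro h0
      have h1 := isMin_iff_eq_bot.mp h0
      rw [h1] at hζs
      exact not_lt_bot hζs
    · intro a ha
      obtain ⟨m, hm⟩ := hlt_s a ha.lt
      exact ha.2 hm (hlts m)
  have hloop : Loop (FD P) ζ s :=
    { lt := hζs
      lim1 := h.loop.lim1
      lim2 := hlim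
      same := by
        apply Set.Subset.antisymm
        · intro d hd
          exact ⟨ζ, hζs, fun α g1 g2 => h.loop.sil d hd α g1 (g2.trans hsΞ)⟩
        · rintro d ⟨a, ha, hsil⟩
          by_contra hd
          obtain ⟨m₀, hm₀⟩ := hlt_s a ha
          set m := Nat.pair (2 * d) m₀ with hm
          have hm₀m : m₀ ≤ m := Nat.right_le_pair _ _
          have hsch : sch m = 2 * d := by rw [sch, hm, Nat.unpair_pair]
          rcases (hstep m).rq with ⟨d', g1, g2⟩ | ⟨n, g1, g2⟩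
          · have g3 : d' = d := by omega
            subst g3
            rcases g2 with g2 | ⟨α, g4, g5, g6⟩
            · exact hd g2
            · refine hsil α ?_ (g5.trans (hlts (m + 1))) g6
              exact (hm₀.trans_le (hmono.monotone hm₀m)).le.trans g4.le
          · omega
      sil := fun d hd α g1 g2 => h.loop.sil d hd α g1 (g2.trans hsΞ) }
  exact absurd (h.first ζ s hloop) (not_le.2 hsΞ)

end

end Pool.Agent.Helper25.EV

/-!
# The real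

MODULE M5.  `br_inter` for `f m = fc P (e_m).2` (`prog`, `cur_le`, `StepE.stem`, `cur_fun`).  For `y ≠ x` some stem `f m []` with `m ≥ 1` (the stems increase) is not a prefix of `y`.
-/

set_option autoImplicit false

namespace Pool.Agent.Helper25.EV

open Ordinal Encodable

section
variable {P : LPr} {ζ Ξ : Ordinal.{0}}

theorem Me_pfx (y : Real2) (τ : List Bool) (h : ∀ k < τ.length, τ.getD k false = y k) :
    τ = pfx y τ.length := by
  apply List.ext_getElem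
  · rw [pfx_length]
  · intro i h1 h2
    have h3 := h i h1
    rw [List.getD_eq_getElem τ false h1] at h3
    rw [h3]
    have h4 := pfx_getD y τ.length i h1
    rw [List.getD_eq_getElem _ false h2] at h4
    exact h4.symm

theorem Me_emb (h : FL P ζ Ξ) {m : ℕ} {e : Ordinal.{0} × Cnd} (h1 : e.1 < Ξ)
    (h2 : (GG P).cur ζ m e) : Emb P e.2 := by
  obtain ⟨_, h3, h4, _⟩ := cur_facts P (h.pre h1) (h.good h.loop.lt) h.loop.lim1 h2
  exact ((h.good (lt_of_le_of_lt h3 h1)).1 e.2 rfl h4).1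

/-- the real -/
theorem real_ex (h : FL P ζ Ξ) : ∃ x : Real2,
    (∀ m e, e.1 < Ξ → (GG P).cur ζ m e → x ∈ Br P e.2) ∧
    ∀ y : Real2, y ≠ x → ∃ m e, e.1 < Ξ ∧ (GG P).cur ζ (m + 1) e ∧ ∃ τ, (GG P).phi e.2 [] τ ∧
      ∃ k < τ.length, τ.getD k false ≠ y k := by
  choose e he1 he2 using fun m => prog h m
  have hE : ∀ m, Emb P (e m).2 := fun m => Me_emb h (he1 m) (he2 m)
  have hle : ∀ m, br (fc P (e (m + 1)).2) ⊆ br (fc P (e m).2) := fun m =>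
    (cur_le P (h.pre (he1 (m + 1))) (h.GB (he1 (m + 1)).le) (h.good h.loop.lt) h.loop.lim1
      (he2 (m + 1)) (he2 m) (Nat.le_succ m)).2
  have hst : ∀ m, (fc P (e m).2 []).length < (fc P (e (m + 1)).2 []).length := by
    intro m
    obtain ⟨e', h1, h2⟩ := cur_step P (h.pre (he1 (m + 1))) (he2 (m + 1))
    have h3 : e' = e m := cur_fun P (h.pre (lt_trans h2.lt0 (he1 (m + 1)))) h1 (he2 m)
    subst h3
    obtain ⟨τ, τ', h4, h5, h6⟩ := h2.stem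
    rw [(hE (m + 1)).2] at h4
    rw [(hE m).2] at h5
    rw [← h4, ← h5]
    exact h6
  obtain ⟨x, hx1, hx2⟩ := br_inter (fun m => fc P (e m).2) (fun m => (hE m).1) hle hst
  refine ⟨x, ?_, ?_⟩
  · intro m e' h1 h2
    have h3 : e' = e m := cur_fun P (h.pre h1) h2 (he2 m)
    rw [h3]
    exact hx1 m
  · intro y hy
    by_contra hne
    push Not at hne
    apply hy
    apply hx2
    have key : ∀ m, fc P (e (m + 1)).2 [] = pfx y (fc P (e (m + 1)).2 []).length := by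
      intro m
      apply Me_pfx
      intro k hk
      exact hne m (e (m + 1)) (he1 (m + 1)) (he2 (m + 1)) _ (((hE (m + 1)).2 _ _).mpr rfl) k hk
    intro m
    cases m with
    | succ m => exact key m
    | zero =>
      have h1 : fc P (e 0).2 [] <+: fc P (e 1).2 [] := stem_le (hE 1).1 (hE 0).1 (hle 0)
      have h2 := key 0
      rw [h2] at h1
      exact prefix_pfx h1

end

end Pool.Agent.Helper25.EV

/-!
# The combined loop

MODULE M6.  `Loop_FD`: restrict to even cells (`even_FC`).  `Loop_dY`: a cell `n ∈ Zc (FY y) η` gives `2 n + 1 ∈ Zc (FC y) η` (`odd_FC`), silent on `[η, δ)`.  `loop_x`: even cells: `FL.loop`.  Odd cells, `n ∈ Zc (FY x) ζ`: silent on `[ζ, Ξ)`: by `L3a` some `c` of the fusion at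
`ζ` (so a condition born below `ζ`) has `T0 c n` at `ζ`, by `R2` at `Ξ`, `x ∈ Br (rs (ζ,0,[]) σ) ⊆ Br c` (`fus_Br`).  If `n ∈ FY x α`, `ζ ≤ α < Ξ`, take `m` with `α < e.2.1`, `e` the `m`-th event (`prog_sup`, `cur_step`: `e'.1 < e.2.1`), `force_rs` and `nbhd` (twice): a
restriction of `e.2` is contained in `Br c` and forces `n` on at `α ≥ ζ > c.1`: contradiction to `T0_HD`.  `n ∉ Zc (FY x) ζ`: for `m` with `sch m = 2 n + 1` `RqE`: `Frc 4` is impossible (`Frc4_iff`), so `n ∈ FY x α` for some `α > e_m.1`: not in `Zc Ξ` by `prog_sup`.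
-/

set_option autoImplicit false

namespace Pool.Agent.Helper25.EV

open Ordinal Encodable

section
variable {P : LPr} {ζ Ξ : Ordinal.{0}}

theorem Mf_sil_even (y : Real2) (d : ℕ) (a b : Ordinal.{0}) :
    Silent (FC P y) (2 * d) a b ↔ Silent (FD P) d a b := by
  constructor
  · intro h α h1 h2 h3
    exact h α h1 h2 ((even_FC P y α d).mpr h3)
  · intro h α h1 h2 h3
    exact h α h1 h2 ((even_FC P y α d).mp h3)

theorem Mf_sil_odd (y : Real2) (n : ℕ) (a b : Ordinal.{0}) :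
    Silent (FC P y) (2 * n + 1) a b ↔ Silent (FY P y) n a b := by
  constructor
  · intro h α h1 h2 h3
    exact h α h1 h2 ((odd_FC P y α n).mpr h3)
  · intro h α h1 h2 h3
    exact h α h1 h2 ((odd_FC P y α n).mp h3)

theorem Mf_Z_even (y : Real2) (d : ℕ) (β : Ordinal.{0}) :
    2 * d ∈ Zc (FC P y) β ↔ d ∈ Zc (FD P) β := by
  constructor
  · rintro ⟨a, h1, h2⟩
    exact ⟨a, h1, (Mf_sil_even y d a β).mp h2⟩
  · rintro ⟨a, h1, h2⟩
    exact ⟨a, h1, (Mf_sil_even y d a β).mpr h2⟩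

theorem Mf_Z_odd (y : Real2) (n : ℕ) (β : Ordinal.{0}) :
    2 * n + 1 ∈ Zc (FC P y) β ↔ n ∈ Zc (FY P y) β := by
  constructor
  · rintro ⟨a, h1, h2⟩
    exact ⟨a, h1, (Mf_sil_odd y n a β).mp h2⟩
  · rintro ⟨a, h1, h2⟩
    exact ⟨a, h1, (Mf_sil_odd y n a β).mpr h2⟩

/-- a combined loop is a loop without input -/
theorem Loop_FD {y : Real2} {η δ : Ordinal.{0}} (h : Loop (FC P y) η δ) : Loop (FD P) η δ := by
  refine ⟨h.lt, h.lim1, h.lim2, ?_, ?_⟩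
  · ext d
    rw [← Mf_Z_even y, ← Mf_Z_even y, h.same]
  · intro d hd
    exact (Mf_sil_even y d η δ).mp (h.sil _ ((Mf_Z_even y d η).mpr hd))

/-- a combined loop has no dead lower end -/
theorem Loop_dY {y : Real2} {η δ : Ordinal.{0}} (h : Loop (FC P y) η δ) : ¬ dY P y η δ := by
  rintro ⟨n, hn, α, h1, h2, h3⟩
  exact (Mf_sil_odd y n η δ).mp (h.sil _ ((Mf_Z_odd y n η).mpr hn)) α h1 h2 h3

/-- the `m`-th event, the next one, and the step -/
theorem Mf_next (h : FL P ζ Ξ) (m : ℕ) : ∃ e e' : Ordinal.{0} × Cnd, e.1 < Ξ ∧ e'.1 < Ξ ∧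
    (GG P).cur ζ m e ∧ (GG P).cur ζ (m + 1) e' ∧ StepE P ζ m e e'.1 e'.2 := by
  obtain ⟨e', h1, h2⟩ := prog h (m + 1)
  obtain ⟨e, h3, h4⟩ := cur_step P (h.pre h1) h2
  exact ⟨e, e', lt_trans h4.lt0 h1, h1, h3, h2, h4⟩

theorem Mf_sil (h : FL P ζ Ξ) {x : Real2}
    (hx : ∀ m e, e.1 < Ξ → (GG P).cur ζ m e → x ∈ Br P e.2) {n : ℕ}
    (hn : n ∈ Zc (FY P x) ζ) : Silent (FY P x) n ζ Ξ := by
  have hζΞ : ζ < Ξ := h.loop.lt
  have hcur0 : (GG P).cur ζ 0 (ζ, (ζ, 0, [])) := rfl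
  have hxζ : x ∈ Br P (ζ, 0, []) := hx 0 _ hζΞ hcur0
  have hpζ : Pre (FD P) ζ := h.pre hζΞ
  have hGζ : GB P ζ := h.GB (le_of_lt hζΞ)
  obtain ⟨σ, c, b1, b2, b3⟩ := L3a P h.loop.lim1 hpζ hxζ hn
  obtain ⟨hE, hB⟩ := fus_Br P h.loop.lim1 hpζ hGζ ((h.good hζΞ).2 h.loop.lim1)
  have hcQ := (Q_HD P ζ c).mp (fus_Q P h.loop.lim1 hGζ b1)
  have hcok : OKc P c := (h.good (lt_trans hcQ.1.1 hζΞ)).1 c rfl hcQ.1.2
  have hT0 := R2 h hcQ.1.1 hcQ.1.2 b3
  rw [T0_HD] at hT0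
  intro α ha1 ha2 hα
  obtain ⟨m, e, g1, g2, g3⟩ := prog_sup h ha2
  obtain ⟨e', e'', k1, k2, k3, k4, k5⟩ := Mf_next h m
  have hee : e' = e := cur_fun P (h.pre k1) k3 g2
  subst hee
  have hαe : α < e''.2.1 := lt_trans g3 k5.lt1
  have heΞ : e''.2.1 < Ξ := lt_trans k5.lt2 k2
  have hok : OKc P e''.2 := (h.good heΞ).1 e''.2 rfl k5.cnd
  have hxe : x ∈ Br P e''.2 := hx _ _ k2 k4
  obtain ⟨σ₁, c1, c2⟩ := force_rs P hok x hxe α hαe n hα
  have hok1 := OKc_rs P hok σ₁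
  have hsub0 := (cur_le P (h.pre k2) (h.GB (le_of_lt k2)) (h.good hζΞ) h.loop.lim1 k4 hcur0
    (Nat.zero_le _)).2
  obtain ⟨σ₂, d1, d2⟩ := nbhd P hok1.1 hE
    (fun z hz => hsub0 (Br_rs_sub P hok.1 σ₁ hz)) c1 b2
  have hok2 := OKc_rs P hok1 σ₂
  refine hT0 (rs (rs e''.2 σ₁) σ₂) heΞ (Emb_cond P hok2.1) ?_ ?_
  · rw [Le_iff P hok2.1 hcok.1]
    exact fun z hz => hB σ c b1 (d2 hz)
  · rw [Hit_iff P hok2]
    exact ⟨α, lt_of_lt_of_le hcQ.1.1 ha1, hαe, fun z hz => c2 z (Br_rs_sub P hok1.1 σ₂ hz)⟩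

theorem Mf_cof (h : FL P ζ Ξ) {x : Real2}
    (hx : ∀ m e, e.1 < Ξ → (GG P).cur ζ m e → x ∈ Br P e.2) {n : ℕ}
    (hn : n ∉ Zc (FY P x) ζ) : n ∉ Zc (FY P x) Ξ := by
  rintro ⟨a, ha, hs⟩
  have hζΞ : ζ < Ξ := h.loop.lt
  obtain ⟨m₀, e₀, g1, g2, g3⟩ := prog_sup h ha
  obtain ⟨e', e'', k1, k2, k3, k4, k5⟩ := Mf_next h (Nat.pair (2 * n + 1) m₀)
  have hle : e₀.1 ≤ e'.1 := (cur_le P (h.pre k1) (h.GB (le_of_lt k1)) (h.good hζΞ) h.loop.lim1 k3 g2
    (Nat.right_le_pair _ _)).1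
  have hsch : sch (Nat.pair (2 * n + 1) m₀) = 2 * n + 1 := by
    unfold sch
    rw [Nat.unpair_pair]
  have heΞ : e''.2.1 < Ξ := lt_trans k5.lt2 k2
  have hok : OKc P e''.2 := (h.good heΞ).1 e''.2 rfl k5.cnd
  have hxe : x ∈ Br P e''.2 := hx _ _ k2 k4
  rcases k5.rq with ⟨d, hd, -⟩ | ⟨n', hn', h'⟩
  · rw [hsch] at hd; omega
  · rw [hsch] at hn'
    have hnn : n = n' := by omega
    subst hnn
    rcases h' with h4 | ⟨α, a1, a2, a3⟩
    · rw [Frc4_iff P hok ζ h.loop.lim1] at h4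
      exact hn (h4.2 x hxe)
    · rw [Frc3_iff P hok] at a3
      exact hs α (le_of_lt (lt_trans (lt_of_lt_of_le g3 hle) a1)) (lt_trans a2 heΞ) (a3.2 x hxe)

/-- the combined process for `x` loops at `(ζ, Ξ)` -/
theorem loop_x (h : FL P ζ Ξ) {x : Real2}
    (hx : ∀ m e, e.1 < Ξ → (GG P).cur ζ m e → x ∈ Br P e.2) : Loop (FC P x) ζ Ξ := by
  refine ⟨h.loop.lt, h.loop.lim1, h.loop.lim2, ?_, ?_⟩
  · ext c
    rcases Nat.even_or_odd' c with ⟨d, rfl | rfl⟩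
    · rw [Mf_Z_even, Mf_Z_even, h.loop.same]
    · rw [Mf_Z_odd, Mf_Z_odd]
      constructor
      · intro hn
        exact ⟨ζ, h.loop.lt, Mf_sil h hx hn⟩
      · intro hn
        by_contra hc
        exact Mf_cof h hx hc hn
  · intro c hc
    rcases Nat.even_or_odd' c with ⟨d, rfl | rfl⟩
    · rw [Mf_Z_even] at hc
      exact (Mf_sil_even x d ζ Ξ).mpr (h.loop.sil d hc)
    · rw [Mf_Z_odd] at hc
      exact (Mf_sil_odd x d ζ Ξ).mpr (Mf_sil h hx hc)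

end

end Pool.Agent.Helper25.EV

/-!
# Alarms

MODULE M7.  `Hs.alarm`: `evt_eqY`; `deadY` is `dY`; `loopD` over `HY P y β` is a loop `(η, δ)` of `FD P` with `δ < β` (labels agree at even cells, `labY_iff`), excluded by `Pre`.  `no_alarm`: event `(η, β, c)`, take `m` with `β < e.2.1` (`prog_sup`, `cur_step`), `Star`: `dY` or `x ∈ Br c`, then the
stem of `c` is a prefix of `x`.  `late_alarm`: the loop `(ζ, Ξ)`.
-/

set_option autoImplicit false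

namespace Pool.Agent.Helper25.EV

open Ordinal Encodable

section
variable {P : LPr} {ζ Ξ : Ordinal.{0}}

theorem Mg_res_HY (y : Real2) {a β : Ordinal.{0}} (h : a ≤ β) :
    (HY P y β).res a = HY P y a := by
  unfold Hs.res HY
  congr 1
  funext b
  exact propext ⟨fun h' => h'.2, fun h' => ⟨lt_of_lt_of_le h' h, h'⟩⟩

theorem Mg_le_HY (y : Real2) (β a b : Ordinal.{0}) : (HY P y β).le a b ↔ a ≤ b := by
  unfold Hs.le
  exact le_iff_lt_or_eq.symm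

theorem Mg_limAt_HY (y : Real2) (β a : Ordinal.{0}) :
    (HY P y β).limAt a ↔ a < β ∧ Order.IsSuccLimit a := limAt_HD P β a

theorem Mg_frD_HY (y : Real2) (β a : Ordinal.{0}) (d : ℕ) :
    (HY P y β).frD a d ↔ d ∈ FD P a := labY_iff P y a _ (Wd_even d)

theorem Mg_frY_HY (y : Real2) (β a : Ordinal.{0}) (n : ℕ) :
    (HY P y β).frY a n ↔ n ∈ FY P y a := Iff.rfl

theorem Mg_silD_HY (y : Real2) (β γ : Ordinal.{0}) (d : ℕ) :
    (HY P y β).sil (HY P y γ).frD d ↔ d ∈ Zc (FD P) β := by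
  constructor
  · rintro ⟨a, h1, h2⟩
    exact ⟨a, h1, fun α h3 h4 h5 =>
      h2 α h4 ((Mg_le_HY y β a α).mpr h3) ((Mg_frD_HY y γ α d).mpr h5)⟩
  · rintro ⟨a, h1, h2⟩
    exact ⟨a, h1, fun α h3 h4 h5 =>
      h2 α ((Mg_le_HY y β a α).mp h4) h3 ((Mg_frD_HY y γ α d).mp h5)⟩

theorem Mg_silY_HY (y : Real2) (β γ : Ordinal.{0}) (n : ℕ) :
    (HY P y β).sil (HY P y γ).frY n ↔ n ∈ Zc (FY P y) β := by
  constructor
  · rintro ⟨a, h1, h2⟩
    exact ⟨a, h1, fun α h3 h4 h5 =>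
      h2 α h4 ((Mg_le_HY y β a α).mpr h3) ((Mg_frY_HY y γ α n).mpr h5)⟩
  · rintro ⟨a, h1, h2⟩
    exact ⟨a, h1, fun α h3 h4 h5 =>
      h2 α ((Mg_le_HY y β a α).mp h4) h3 ((Mg_frY_HY y γ α n).mp h5)⟩

theorem Mg_deadY_HY (y : Real2) {η β : Ordinal.{0}} (h : η ≤ β) :
    (HY P y β).deadY η ↔ dY P y η β := by
  unfold Hs.deadY dY
  rw [Mg_res_HY y h]
  constructor
  · rintro ⟨n, α, h1, h2, h3, h4⟩
    exact ⟨n, (Mg_silY_HY y η β n).mp h1, α, (Mg_le_HY y β η α).mp h3, h2,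
      (Mg_frY_HY y β α n).mp h4⟩
  · rintro ⟨n, h1, α, h3, h2, h4⟩
    exact ⟨n, α, (Mg_silY_HY y η β n).mpr h1, h2, (Mg_le_HY y β η α).mpr h3,
      (Mg_frY_HY y β α n).mpr h4⟩

theorem Mg_phi_HY (y : Real2) (β : Ordinal.{0}) (c : Cnd) (σ τ : List Bool) :
    (HY P y β).phi c σ τ ↔ (GG P).phi c σ τ :=
  labY_iff P y c.1 _ (Wd_tag _ _ (by norm_num) (by norm_num))

theorem Mg_loopD_HY (y : Real2) (β η δ : Ordinal.{0}) :
    (HY P y β).loopD η δ ↔ δ < β ∧ Loop (FD P) η δ := by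
  constructor
  · rintro ⟨h1, h2, h3, h4, h5⟩
    obtain ⟨h1, h1'⟩ := (Mg_limAt_HY y β η).mp h1
    obtain ⟨h2, h2'⟩ := (Mg_limAt_HY y β δ).mp h2
    rw [Mg_res_HY y (le_of_lt h1)] at h4 h5
    rw [Mg_res_HY y (le_of_lt h2)] at h4
    refine ⟨h2, ⟨h3, h1', h2', ?_, ?_⟩⟩
    · ext d
      have := h4 d
      rw [Mg_silD_HY, Mg_silD_HY] at this
      exact this
    · intro d hd α h6 h7 h8
      exact h5 d ((Mg_silD_HY y η β d).mpr hd) α (lt_trans h7 h2) ((Mg_le_HY y β η α).mpr h6) h7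
        ((Mg_frD_HY y β α d).mpr h8)
  · rintro ⟨h2, hl⟩
    have h1 : η < β := lt_trans hl.lt h2
    refine ⟨(Mg_limAt_HY y β η).mpr ⟨h1, hl.lim1⟩, (Mg_limAt_HY y β δ).mpr ⟨h2, hl.lim2⟩, hl.lt,
      ?_, ?_⟩
    · intro d
      rw [Mg_res_HY y (le_of_lt h1), Mg_res_HY y (le_of_lt h2), Mg_silD_HY, Mg_silD_HY, hl.same]
    · intro d hd α _ h6 h7 h8
      rw [Mg_res_HY y (le_of_lt h1), Mg_silD_HY] at hd
      exact hl.sil d hd α ((Mg_le_HY y β η α).mp h6) h7 ((Mg_frD_HY y β α d).mp h8)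

/-- alarms in terms of events -/
theorem alarm_evt (y : Real2) {β : Ordinal.{0}} (hp : Pre (FD P) β) :
    (HY P y β).alarm y ↔ (∃ η c, (GG P).evt η β c ∧ ¬ dY P y η β ∧ ∃ τ, (GG P).phi c [] τ ∧
      ∃ k < τ.length, τ.getD k false ≠ y k) := by
  constructor
  · rintro (⟨η, c, h1, h2, τ, h3, h4⟩ | ⟨η, δ, h⟩)
    · have hη : η < β := ((Mg_limAt_HY y β η).mp h1.1.1).1
      exact ⟨η, c, (evt_eqY P y hp η c).mpr h1, fun h => h2 ((Mg_deadY_HY y hη.le).mpr h), τ,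
        (Mg_phi_HY y β c [] τ).mp h3, h4⟩
    · obtain ⟨h1, h2⟩ := (Mg_loopD_HY y β η δ).mp h
      exact absurd (hp η δ h2) (not_lt.mpr h1.le)
  · rintro ⟨η, c, h1, h2, τ, h3, h4⟩
    have h1' := (evt_eqY P y hp η c).mp h1
    have hη : η < β := ((Mg_limAt_HY y β η).mp h1'.1.1).1
    exact Or.inl ⟨η, c, h1', fun h => h2 ((Mg_deadY_HY y hη.le).mp h), τ,
      (Mg_phi_HY y β c [] τ).mpr h3, h4⟩

theorem Mg_rs_nil (c : Cnd) : rs c [] = c := by
  unfold rs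
  rw [List.append_nil]

/-- no alarm for `x` -/
theorem no_alarm (h : FL P ζ Ξ) {x : Real2}
    (hx : ∀ m e, e.1 < Ξ → (GG P).cur ζ m e → x ∈ Br P e.2) {β : Ordinal.{0}} (hβ : β < Ξ) :
    ¬ (HY P x β).alarm x := by
  intro ha
  obtain ⟨η, c, h1, h2, τ, h3, k, hk, hk'⟩ := (alarm_evt x (h.pre hβ)).mp ha
  obtain ⟨m, e, he, hc, hlt⟩ := prog_sup h hβ
  obtain ⟨e', he', hc'⟩ := prog h (m + 1)
  obtain ⟨e'', hc'', hs⟩ := cur_step P (h.pre he') hc'
  have hee : e = e'' := cur_fun P (h.pre he) hc hc''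
  subst hee
  have h4 : β < e'.2.1 := lt_trans hlt hs.lt1
  have h5 : e'.2.1 < Ξ := lt_trans hs.lt2 he'
  rcases Star P (h.GB le_rfl) hs.cnd h5 (hx (m + 1) e' he' hc') h1 h4 with h6 | h6
  · exact h2 h6
  · obtain ⟨m', e₁, hs', _⟩ := step_of_evt P (h.pre hβ) h1
    have h7 : c.1 < β := hs'.lt2
    have h8 : OKc P c := (h.good (lt_trans h7 hβ)).1 c rfl hs'.cnd
    have h9 : x ∈ Br P (rs c []) := by rw [Mg_rs_nil]; exact h6
    have h10 := ((Br_rs P h8.1 [] x).mp h9).2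
    have h11 : τ = fc P c [] := (h8.1.2 [] τ).mp h3
    apply hk'
    rw [h11] at hk ⊢
    rw [h10]
    exact pfx_getD x _ k (by rw [h10, pfx_length] at hk; exact hk)

/-- an alarm after the first loop -/
theorem late_alarm (h : FL P ζ Ξ) (y : Real2) : (HY P y (Ξ + 1)).alarm y :=
  Or.inr ⟨ζ, Ξ, (Mg_loopD_HY y (Ξ + 1) ζ Ξ).mpr
    ⟨Order.lt_add_one_iff.mpr le_rfl, h.loop⟩⟩

end

end Pool.Agent.Helper25.EV
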