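import Mathlib
import Pool.Agent.Helper25.EV.Defs

/-!
# Normalised embeddings of the full binary tree: definitions
-/

set_option autoImplicit false

namespace Pool.Agent.Helper25.EV

/-- the prefix of length `k` of a real -/
def pfx (y : Real2) (k : ℕ) : List Bool := (List.range k).map y

/-- normalised embeddings of the full binary tree -/
def EmbF (f : List Bool → List Bool) : Prop := ∀ σ b, f σ ++ [b] <+: f (σ ++ [b])

/-- the closed set of an embedding -/
def br (f : List Bool → List Bool) : Set Real2 := {y | ∀ j, ∃ σ, pfx y j <+: f σ}

/-- the branch with the coordinates `e` -/
def limF (f : List Bool → List Bool) (e : Real2) : Real2 := fun j => (f (pfx e (j + 1))).getD j false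

/-- restriction of an embedding -/
def subF (f : List Bool → List Bool) (σ : List Bool) : List Bool → List Bool := fun σ' => f (σ ++ σ')

end Pool.Agent.Helper25.EV
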