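import Pool.Agent.Helper25.EV.FT.Tree

/-!
# Normalised embeddings of the full binary tree: prefixes, monotonicity

MODULE TR1.  `EmbF.mono`: induction on the extension.  `EmbF.len`: induction (reverse).  `EmbF.inj`: otherwise `σ'` is a
proper prefix of `σ` (then `f σ` is strictly longer than `f σ'`) or they split at some `ρ`: `ρ ++ [b] <+: σ`, `ρ ++ [!b] <+: σ'`, and
`f σ`, `f σ'` extend `f ρ ++ [b]`, `f ρ ++ [!b]`.
-/

set_option autoImplicit false

namespace Pool.Agent.Helper25.EV

open Ordinal Encodable

theorem pfx_length (y : Real2) (k : ℕ) : (pfx y k).length = k := by simp [pfx]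

theorem pfx_succ (y : Real2) (k : ℕ) : pfx y (k + 1) = pfx y k ++ [y k] := by
  simp [pfx, List.range_succ]

theorem pfx_getD (y : Real2) (k m : ℕ) (h : m < k) : (pfx y k).getD m false = y m := by
  simp [pfx, List.getD, h]

theorem pfx_mono (y : Real2) {j k : ℕ} (h : j ≤ k) : pfx y j <+: pfx y k := by
  induction k with
  | zero =>
    have : j = 0 := by omega
    rw [this]
  | succ k ih =>
    rcases Nat.lt_or_ge k j with h' | h'
    · have : j = k + 1 := by omega
      rw [this]
    · rw [pfx_succ]
      exact (ih h').trans (List.prefix_append _ _)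

/-- two prefixes of the same list are comparable -/
theorem prefix_total {a b c : List Bool} (h1 : a <+: c) (h2 : b <+: c) : a <+: b ∨ b <+: a :=
  List.prefix_or_prefix_of_prefix h1 h2

/-- a prefix of a prefix of a real -/
theorem prefix_pfx {s : List Bool} {y : Real2} {k : ℕ} (h : s <+: pfx y k) :
    s = pfx y s.length := by
  have hl : s.length ≤ k := by
    have := h.length_le
    rwa [pfx_length] at this
  have h2 : pfx y s.length <+: pfx y k := pfx_mono y hl
  rcases List.prefix_or_prefix_of_prefix h h2 with h3 | h3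
  · exact h3.eq_of_length (by rw [pfx_length])
  · exact (h3.eq_of_length (by rw [pfx_length])).symm

/-- a real is determined by its prefixes -/
theorem eq_of_pfx {y z : Real2} (h : ∀ k, pfx y k = pfx z k) : y = z := by
  funext m
  have h1 := pfx_getD y (m + 1) m (by omega)
  have h2 := pfx_getD z (m + 1) m (by omega)
  rw [← h1, ← h2, h]

theorem EmbF.mono {f : List Bool → List Bool} (hf : EmbF f) {σ σ' : List Bool} (h : σ <+: σ') :
    f σ <+: f σ' := by
  obtain ⟨t, rfl⟩ := h
  induction t using List.reverseRecOn with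
  | nil => rw [List.append_nil]
  | append_singleton t b ih =>
    rw [← List.append_assoc]
    exact ih.trans ((List.prefix_append _ _).trans (hf _ b))

theorem EmbF.len {f : List Bool → List Bool} (hf : EmbF f) (σ : List Bool) :
    σ.length ≤ (f σ).length := by
  induction σ using List.reverseRecOn with
  | nil => simp
  | append_singleton t b ih =>
    have h1 := (hf t b).length_le
    rw [List.length_append, List.length_singleton] at h1 ⊢
    omega

/-- two finite sequences are comparable or split -/
theorem TreeA_cases : ∀ σ σ' : List Bool, σ <+: σ' ∨ (∃ b t, σ = σ' ++ b :: t) ∨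
    ∃ ρ b t t', σ = ρ ++ b :: t ∧ σ' = ρ ++ (!b) :: t' := by
  intro σ
  induction σ with
  | nil => exact fun σ' => Or.inl (List.nil_prefix)
  | cons a σ ih =>
    intro σ'
    cases σ' with
    | nil => exact Or.inr (Or.inl ⟨a, σ, rfl⟩)
    | cons c σ' =>
      by_cases hac : c = a
      · subst hac
        rcases ih σ' with h | ⟨b, t, rfl⟩ | ⟨ρ, b, t, t', rfl, rfl⟩
        · exact Or.inl (List.cons_prefix_cons.2 ⟨rfl, h⟩)
        · exact Or.inr (Or.inl ⟨b, t, rfl⟩)
        · exact Or.inr (Or.inr ⟨c :: ρ, b, t, t', rfl, rfl⟩)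
      · refine Or.inr (Or.inr ⟨[], a, σ, σ', rfl, ?_⟩)
        have : c = !a := by cases a <;> cases c <;> simp_all
        rw [this]
        rfl

theorem EmbF.inj {f : List Bool → List Bool} (hf : EmbF f) {σ σ' : List Bool}
    (h : f σ <+: f σ') : σ <+: σ' := by
  rcases TreeA_cases σ σ' with h1 | ⟨b, t, rfl⟩ | ⟨ρ, b, t, t', rfl, rfl⟩
  · exact h1
  · exfalso
    have h2 : f σ' ++ [b] <+: f (σ' ++ b :: t) :=
      (hf σ' b).trans (hf.mono ⟨t, by simp⟩)
    have h3 := (h2.trans h).length_le
    rw [List.length_append, List.length_singleton] at h3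
    omega
  · exfalso
    have h2 : f ρ ++ [b] <+: f (ρ ++ b :: t) :=
      (hf ρ b).trans (hf.mono ⟨t, by simp⟩)
    have h3 : f ρ ++ [!b] <+: f (ρ ++ (!b) :: t') :=
      (hf ρ (!b)).trans (hf.mono ⟨t', by simp⟩)
    have h4 : f ρ ++ [b] = f ρ ++ [!b] := by
      rcases prefix_total (h2.trans h) h3 with h5 | h5
      · exact h5.eq_of_length (by simp)
      · exact (h5.eq_of_length (by simp)).symm
    have h5 := List.append_cancel_left h4
    simp at h5

theorem EmbF.sub {f : List Bool → List Bool} (hf : EmbF f) (σ : List Bool) : EmbF (subF f σ) := by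
  intro σ' b
  have := hf (σ ++ σ') b
  rw [List.append_assoc] at this
  exact this

end Pool.Agent.Helper25.EV
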