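import Pool.Agent.Helper25.EV.FT.TreeA

/-!
# Normalised embeddings: branches

MODULE TR2.  `f (pfx e k)` is increasing in `k` with length at least `k`; `limF f e` is the union.  `mem_br_iff`: for `y ∈ br f` the
`σ` with `f σ <+: y` form a chain (two of them are comparable by `EmbF.inj`), and it is unbounded: if `σ` is maximal then `y` extends
`f σ`, take `j = |f σ| + 1` and `pfx y j <+: f τ`; `f τ` and `f σ` are comparable so `τ` is a proper extension of `σ`
(if `τ <+: σ` then `f τ <+: f σ` is too short), with next bit `b`, and `f (σ ++ [b]) <+: f τ`; if `y` does not extend `f (σ ++ [b])` take `j = |f (σ ++ [b])|`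
instead (use a large `j` from the beginning: `j = max |f (σ ++ [b])|` over both bits).
-/

set_option autoImplicit false

namespace Pool.Agent.Helper25.EV

open Ordinal Encodable

theorem TreeA2_getD {a b : List Bool} (h : a <+: b) {j : ℕ} (hj : j < a.length) :
    a.getD j false = b.getD j false := by
  obtain ⟨t, rfl⟩ := h
  rw [List.getD_append _ _ _ _ hj]

theorem TreeA2_ext {s : List Bool} {y : Real2} (h : ∀ j < s.length, s.getD j false = y j) :
    s = pfx y s.length := by
  apply List.ext_getElem
  · rw [pfx_length]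
  · intro j h1 h2
    have h3 := h j h1
    have h4 := pfx_getD y s.length j h1
    rw [← h4] at h3
    rw [List.getD_eq_getElem _ _ h1, List.getD_eq_getElem _ _ h2] at h3
    exact h3

theorem limF_spec {f : List Bool → List Bool} (hf : EmbF f) (e : Real2) (k : ℕ) :
    f (pfx e k) = pfx (limF f e) (f (pfx e k)).length := by
  apply TreeA2_ext
  intro j hj
  show _ = (f (pfx e (j + 1))).getD j false
  have h1 : j < (f (pfx e (j + 1))).length := by
    have := hf.len (pfx e (j + 1))
    rw [pfx_length] at this
    omega
  rcases Nat.le_total k (j + 1) with h | h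
  · exact TreeA2_getD (hf.mono (pfx_mono e h)) hj
  · exact (TreeA2_getD (hf.mono (pfx_mono e h)) h1).symm

theorem limF_eq {f : List Bool → List Bool} (hf : EmbF f) (e y : Real2)
    (h : ∀ k, f (pfx e k) = pfx y (f (pfx e k)).length) : y = limF f e := by
  apply eq_of_pfx
  intro k
  have h1 : k ≤ (f (pfx e k)).length := by
    have := hf.len (pfx e k)
    rwa [pfx_length] at this
  have h2 : pfx y k <+: pfx (limF f e) (f (pfx e k)).length := by
    rw [← limF_spec hf e k, h k]
    exact pfx_mono y h1
  have h3 := prefix_pfx h2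
  rwa [pfx_length] at h3

/-- comparison of values along a real -/
theorem TreeA2_eq {f : List Bool → List Bool} (hf : EmbF f) {σ τ : List Bool} {y : Real2}
    (h1 : f σ = pfx y (f σ).length) (h2 : f τ = pfx y (f τ).length) (hl : σ.length = τ.length) :
    σ = τ := by
  rcases Nat.le_total (f σ).length (f τ).length with h | h
  · have h3 : f σ <+: f τ := by
      rw [h1, h2]
      exact pfx_mono y h
    exact (hf.inj h3).eq_of_length hl
  · have h3 : f τ <+: f σ := by
      rw [h1, h2]
      exact pfx_mono y h
    exact ((hf.inj h3).eq_of_length hl.symm).symm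

theorem limF_inj {f : List Bool → List Bool} (hf : EmbF f) {e e' : Real2}
    (h : limF f e = limF f e') : e = e' := by
  apply eq_of_pfx
  intro k
  have h1 := limF_spec hf e k
  have h2 := limF_spec hf e' k
  rw [← h] at h2
  exact TreeA2_eq hf h1 h2 (by rw [pfx_length, pfx_length])

theorem TreeA2_mem {f : List Bool → List Bool} (hf : EmbF f) (e : Real2) : limF f e ∈ br f := by
  intro j
  refine ⟨pfx e j, ?_⟩
  rw [limF_spec hf e j]
  apply pfx_mono
  have := hf.len (pfx e j)
  rwa [pfx_length] at this

theorem TreeA2_step {f : List Bool → List Bool} (hf : EmbF f) {y : Real2} (hy : y ∈ br f)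
    {σ : List Bool} (h : f σ = pfx y (f σ).length) :
    ∃ b, f (σ ++ [b]) = pfx y (f (σ ++ [b])).length := by
  obtain ⟨τ, hτ⟩ := hy ((f (σ ++ [false])).length + (f (σ ++ [true])).length)
  have hlen : ∀ b, (f σ).length + 1 ≤ (f (σ ++ [b])).length := by
    intro b
    have := (hf σ b).length_le
    rwa [List.length_append, List.length_singleton] at this
  have hb : ∀ b, (f (σ ++ [b])).length ≤
      (f (σ ++ [false])).length + (f (σ ++ [true])).length := by
    intro b
    cases b <;> omega
  have h0 := hlen false
  have h1 : f σ <+: f τ := by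
    rw [h]
    exact (pfx_mono y (by omega)).trans hτ
  obtain ⟨t, rfl⟩ := hf.inj h1
  cases t with
  | nil =>
    exfalso
    have h2 := hτ.length_le
    rw [pfx_length, List.append_nil] at h2
    omega
  | cons b t =>
    refine ⟨b, ?_⟩
    have h2 : f (σ ++ [b]) <+: f (σ ++ b :: t) := hf.mono ⟨t, by simp⟩
    have h3 : f (σ ++ [b]) <+: pfx y ((f (σ ++ [false])).length + (f (σ ++ [true])).length) :=
      List.prefix_of_prefix_length_le h2 hτ (by rw [pfx_length]; exact hb b)
    exact prefix_pfx h3

theorem mem_br_iff {f : List Bool → List Bool} (hf : EmbF f) (y : Real2) :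
    y ∈ br f ↔ ∃ e, y = limF f e := by
  constructor
  · intro hy
    have h0 : f [] = pfx y (f []).length := by
      obtain ⟨τ, hτ⟩ := hy (f []).length
      have h1 : f [] <+: f τ := hf.mono List.nil_prefix
      have h2 : f [] <+: pfx y (f []).length :=
        List.prefix_of_prefix_length_le h1 hτ (by rw [pfx_length])
      exact prefix_pfx h2
    choose! nx hnx using fun (σ : List Bool) (h : f σ = pfx y (f σ).length) =>
      TreeA2_step hf hy h
    let g : ℕ → List Bool := fun k => Nat.rec [] (fun _ σ => σ ++ [nx σ]) k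
    have hg0 : g 0 = [] := rfl
    have hg1 : ∀ k, g (k + 1) = g k ++ [nx (g k)] := fun k => rfl
    have hg : ∀ k, f (g k) = pfx y (f (g k)).length := by
      intro k
      induction k with
      | zero => exact h0
      | succ k ih =>
        rw [hg1]
        exact hnx _ ih
    have hp : ∀ k, pfx (fun k => nx (g k)) k = g k := by
      intro k
      induction k with
      | zero => rfl
      | succ k ih => rw [pfx_succ, ih, hg1]
    refine ⟨fun k => nx (g k), limF_eq hf _ _ fun k => ?_⟩
    rw [hp k]
    exact hg k
  · rintro ⟨e, rfl⟩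
    exact TreeA2_mem hf e

theorem TreeA2_aux {f : List Bool → List Bool} (hf : EmbF f) {σ : List Bool} {e : Real2}
    (h : f σ = pfx (limF f e) (f σ).length) : σ = pfx e σ.length :=
  TreeA2_eq hf h (limF_spec hf e σ.length) (by rw [pfx_length])

/-- membership in the restriction -/
theorem mem_sub_iff {f : List Bool → List Bool} (hf : EmbF f) (σ : List Bool) (y : Real2) :
    y ∈ br (subF f σ) ↔ y ∈ br f ∧ f σ = pfx y (f σ).length := by
  constructor
  · intro h
    refine ⟨fun j => ?_, ?_⟩
    · obtain ⟨σ', h'⟩ := h j
      exact ⟨σ ++ σ', h'⟩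
    · obtain ⟨σ', h'⟩ := h (f σ).length
      have h1 : f σ <+: f (σ ++ σ') := hf.mono (List.prefix_append _ _)
      have h2 : f σ <+: pfx y (f σ).length :=
        List.prefix_of_prefix_length_le h1 h' (by rw [pfx_length])
      exact prefix_pfx h2
  · rintro ⟨h1, h2⟩
    obtain ⟨e, rfl⟩ := (mem_br_iff hf y).1 h1
    have h3 := TreeA2_aux hf h2
    intro j
    have h4 : σ <+: pfx e (max j σ.length) := by
      conv_lhs => rw [h3]
      exact pfx_mono e (le_max_right _ _)
    obtain ⟨t, ht⟩ := h4
    refine ⟨t, ?_⟩
    show _ <+: f (σ ++ t)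
    rw [ht, limF_spec hf e]
    apply pfx_mono
    have := hf.len (pfx e (max j σ.length))
    rw [pfx_length] at this
    exact (le_max_left _ _).trans this

theorem mem_sub_lim {f : List Bool → List Bool} (hf : EmbF f) (σ : List Bool) (e : Real2) :
    limF f e ∈ br (subF f σ) ↔ σ = pfx e σ.length := by
  rw [mem_sub_iff hf]
  constructor
  · rintro ⟨_, h⟩
    exact TreeA2_aux hf h
  · intro h
    refine ⟨TreeA2_mem hf e, ?_⟩
    rw [h]
    exact limF_spec hf e σ.length

/-- inclusion of trees is inclusion of closed sets -/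
theorem le_iff_br {f g : List Bool → List Bool} (hf : EmbF f) (hg : EmbF g) :
    (∀ σ, ∃ σ', f σ <+: g σ') ↔ br f ⊆ br g := by
  constructor
  · intro h y hy j
    obtain ⟨σ, hσ⟩ := hy j
    obtain ⟨σ', h'⟩ := h σ
    exact ⟨σ', hσ.trans h'⟩
  · intro h σ
    have h1 : σ = pfx (fun k => σ.getD k false) σ.length := TreeA2_ext fun _ _ => rfl
    have h2 := limF_spec hf (fun k => σ.getD k false) σ.length
    rw [← h1] at h2
    obtain ⟨σ', h'⟩ := h (TreeA2_mem hf (fun k => σ.getD k false)) (f σ).length
    refine ⟨σ', ?_⟩
    rw [h2]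
    exact h'

theorem br_nonempty {f : List Bool → List Bool} (hf : EmbF f) : (br f).Nonempty :=
  ⟨limF f fun _ => false, (mem_br_iff hf _).mpr ⟨_, rfl⟩⟩

end Pool.Agent.Helper25.EV
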