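import Pool.Agent.Helper25.EV.FT.TreeA2

/-!
# Normalised embeddings: compactness, disjointness

MODULE TR3.  `br_compact`: Koenig: if for every `k` there is `σ` of length `k` with `¬ A σ` then there is a branch `e` with `¬ A (pfx e k)` for all `k`
(the set of `σ` with `¬ A σ` is closed under prefixes); apply the hypothesis to `y = limF f e` and `mem_sub_lim`.  `dj_iff_br`: from left to right directly; from
right to left: compactness for `A σ = ¬ ∃ τ, f σ <+: g τ`.
-/

set_option autoImplicit false

namespace Pool.Agent.Helper25.EV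

open Ordinal Encodable

/-- if the closed sets are not included then a restriction is disjoint -/
theorem dj_of_not_le {f g : List Bool → List Bool} (hf : EmbF f)
    (h : ¬ ∀ σ, ∃ σ', f σ <+: g σ') : ∃ σ, ∀ σ', ¬ ∃ τ, subF f σ σ' <+: g τ := by
  push Not at h
  obtain ⟨σ, hσ⟩ := h
  refine ⟨σ, ?_⟩
  rintro σ' ⟨τ, hτ⟩
  exact hσ τ ((hf.mono (List.prefix_append σ σ')).trans hτ)

/-- compactness -/
theorem br_compact {f : List Bool → List Bool} (hf : EmbF f) (A : List Bool → Prop)
    (hA : ∀ σ σ', σ <+: σ' → A σ → A σ') (h : ∀ y ∈ br f, ∃ σ, y ∈ br (subF f σ) ∧ A σ) :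
    ∃ k, ∀ σ : List Bool, σ.length = k → A σ := by
  by_contra hcon
  push Not at hcon
  -- bad sequences: they have bad extensions of every length
  let B : List Bool → Prop := fun σ => ∀ k, σ.length ≤ k → ∃ τ : List Bool, τ.length = k ∧
    σ <+: τ ∧ ¬ A τ
  have hB0 : B [] := by
    intro k _
    obtain ⟨τ, h1, h2⟩ := hcon k
    exact ⟨τ, h1, List.nil_prefix, h2⟩
  have hstep : ∀ σ, B σ → ∃ b, B (σ ++ [b]) := by
    intro σ hσ
    by_contra hno
    push Not at hno
    have h0 := hno false
    have h1 := hno true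
    simp only [B] at h0 h1
    push Not at h0 h1
    obtain ⟨k0, hk0, h0⟩ := h0
    obtain ⟨k1, hk1, h1⟩ := h1
    rw [List.length_append, List.length_singleton] at hk0 hk1
    obtain ⟨τ, h2, ⟨t, ht⟩, h3⟩ := hσ (max k0 k1) (by omega)
    have h4 : ∀ k, k ≤ max k0 k1 → ¬ A (τ.take k) := by
      intro k _ hAk
      exact h3 (hA _ _ (List.take_prefix k τ) hAk)
    have h5 : ∀ k, k ≤ max k0 k1 → (τ.take k).length = k := by
      intro k hk
      rw [List.length_take, h2]
      omega
    cases t with
    | nil =>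
      rw [List.append_nil] at ht
      rw [← ht] at h2
      omega
    | cons b t =>
      have h6 : ∀ k, σ.length + 1 ≤ k → σ ++ [b] <+: τ.take k ∨ τ.take k <+: σ ++ [b] := by
        intro k _
        refine List.prefix_or_prefix_of_prefix (l₃ := τ) ?_ (List.take_prefix k τ)
        rw [← ht]
        exact ⟨t, by simp⟩
      have h7 : ∀ k, σ.length + 1 ≤ k → k ≤ max k0 k1 → σ ++ [b] <+: τ.take k := by
        intro k hk hk'
        refine List.prefix_of_prefix_length_le (l₃ := τ) ?_ (List.take_prefix k τ) ?_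
        · rw [← ht]
          exact ⟨t, by simp⟩
        · rw [h5 k hk', List.length_append, List.length_singleton]
          exact hk
      cases b with
      | false => exact h4 k0 (le_max_left _ _) (h0 _ (h5 k0 (le_max_left _ _))
          (h7 k0 hk0 (le_max_left _ _)))
      | true => exact h4 k1 (le_max_right _ _) (h1 _ (h5 k1 (le_max_right _ _))
          (h7 k1 hk1 (le_max_right _ _)))
  choose! nx hnx using hstep
  let g : ℕ → List Bool := fun k => Nat.rec [] (fun _ σ => σ ++ [nx σ]) k
  have hg1 : ∀ k, g (k + 1) = g k ++ [nx (g k)] := fun k => rfl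
  have hg : ∀ k, B (g k) := by
    intro k
    induction k with
    | zero => exact hB0
    | succ k ih =>
      rw [hg1]
      exact hnx _ ih
  have hp : ∀ k, pfx (fun k => nx (g k)) k = g k := by
    intro k
    induction k with
    | zero => rfl
    | succ k ih => rw [pfx_succ, ih, hg1]
  obtain ⟨σ, h1, h2⟩ := h _ ((mem_br_iff hf _).2 ⟨fun k => nx (g k), rfl⟩)
  rw [mem_sub_lim hf, hp] at h1
  obtain ⟨τ, h3, h4, h5⟩ := hg σ.length (g σ.length).length le_rfl
  have h6 : τ = g σ.length := (h4.eq_of_length h3.symm).symm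
  rw [h6, ← h1] at h5
  exact h5 h2

/-- disjointness of trees is disjointness of closed sets -/
theorem dj_iff_br {f g : List Bool → List Bool} (hf : EmbF f) (hg : EmbF g) :
    (∃ k, ∀ σ : List Bool, σ.length = k → ¬ ∃ τ, f σ <+: g τ) ↔ Disjoint (br f) (br g) := by
  constructor
  · rintro ⟨k, hk⟩
    rw [Set.disjoint_left]
    intro y hy hy'
    obtain ⟨e, rfl⟩ := (mem_br_iff hf y).1 hy
    obtain ⟨τ, hτ⟩ := hy' (f (pfx e k)).length
    refine hk (pfx e k) (pfx_length e k) ⟨τ, ?_⟩
    rw [limF_spec hf e k]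
    exact hτ
  · intro hd
    refine br_compact hf (fun σ => ¬ ∃ τ, f σ <+: g τ) ?_ ?_
    · rintro σ σ' h1 h2 ⟨τ, hτ⟩
      exact h2 ⟨τ, (hf.mono h1).trans hτ⟩
    · intro y hy
      have hy' : y ∉ br g := Set.disjoint_left.1 hd hy
      have h1 : ∃ j, ∀ τ, ¬ pfx y j <+: g τ := by
        by_contra hcon
        push Not at hcon
        exact hy' hcon
      obtain ⟨j, hj⟩ := h1
      obtain ⟨e, rfl⟩ := (mem_br_iff hf y).1 hy
      refine ⟨pfx e j, (mem_sub_lim hf _ _).2 (by rw [pfx_length]), ?_⟩
      rintro ⟨τ, hτ⟩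
      rw [limF_spec hf e j] at hτ
      refine hj τ ((pfx_mono _ ?_).trans hτ)
      have := hf.len (pfx e j)
      rwa [pfx_length] at this

end Pool.Agent.Helper25.EV
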